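import Pool.Agent.Helper70.OD.Rec

/-! Turing reducibility and the pointclass of relations c.e. in an oracle. -/

set_option autoImplicit false

namespace Pool.Agent.MU

open Encodable
open Nat.Partrec (Code)
open Pool.Agent.Helper70 Pool.Agent.Helper70.OD

theorem rec_graph {Γ : PC} {g f : ℕ →. ℕ} (hg : Γ.S (fun p : ℕ × ℕ => p.2 ∈ g p.1))
    (hf : Nat.RecursiveIn {g} f) : Γ.S (fun p : ℕ × ℕ => p.2 ∈ f p.1) := by
  classical
  induction hf with
  | zero =>
    refine PC.of_eq (Γ.prim (R := fun p : ℕ × ℕ => p.2 = 0)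
      (Primrec.eq.comp Primrec.snd (Primrec.const 0))) fun p => ?_
    change p.2 ∈ Part.some 0 ↔ _
    rw [Part.mem_some_iff]
  | succ =>
    refine PC.of_eq (Γ.prim (R := fun p : ℕ × ℕ => p.2 = p.1 + 1)
      (Primrec.eq.comp Primrec.snd (Primrec.succ.comp Primrec.fst))) fun p => ?_
    change p.2 ∈ Part.some (p.1 + 1) ↔ _
    rw [Part.mem_some_iff]
  | left =>
    refine PC.of_eq (Γ.prim (R := fun p : ℕ × ℕ => p.2 = p.1.unpair.1)
      (Primrec.eq.comp Primrec.snd (by fun_prop))) fun p => ?_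
    change p.2 ∈ Part.some (p.1.unpair.1) ↔ _
    rw [Part.mem_some_iff]
  | right =>
    refine PC.of_eq (Γ.prim (R := fun p : ℕ × ℕ => p.2 = p.1.unpair.2)
      (Primrec.eq.comp Primrec.snd (by fun_prop))) fun p => ?_
    change p.2 ∈ Part.some (p.1.unpair.2) ↔ _
    rw [Part.mem_some_iff]
  | oracle g' hg' =>
    rw [Set.mem_singleton_iff] at hg'
    rw [hg']; exact hg
  | @pair f h _ _ ihf ihh =>
    have h1 : Γ.S (fun p : ℕ × ℕ => ∃ a : ℕ, ∃ b : ℕ, (a ∈ f p.1 ∧ b ∈ h p.1) ∧
        p.2 = Nat.pair a b) := by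
      refine PC.ex' (R := fun (p : ℕ × ℕ) (a : ℕ) => ∃ b : ℕ, (a ∈ f p.1 ∧ b ∈ h p.1) ∧
        p.2 = Nat.pair a b) ?_
      refine PC.ex' (R := fun (p : (ℕ × ℕ) × ℕ) (b : ℕ) => (p.2 ∈ f p.1.1 ∧ b ∈ h p.1.1) ∧
        p.1.2 = Nat.pair p.2 b) ?_
      refine Γ.and (Γ.and ?_ ?_) (Γ.prim ?_)
      · exact Γ.comp (f := fun q : ((ℕ × ℕ) × ℕ) × ℕ => (q.1.1.1, q.1.2)) ihf (by fun_prop)
      · exact Γ.comp (f := fun q : ((ℕ × ℕ) × ℕ) × ℕ => (q.1.1.1, q.2)) ihh (by fun_prop)
      · exact Primrec.eq.comp (by fun_prop)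
          (Primrec₂.natPair.comp (Primrec.snd.comp Primrec.fst) Primrec.snd)
    refine PC.of_eq h1 fun p => ?_
    simp only [Seq.seq, Part.map_eq_map, Part.bind_map, Part.mem_bind_iff, Part.mem_map_iff]
    constructor
    · rintro ⟨a, ha, b, hb, h⟩
      exact ⟨a, b, ⟨ha, hb⟩, h.symm⟩
    · rintro ⟨a, b, ⟨ha, hb⟩, h⟩
      exact ⟨a, ha, b, hb, h.symm⟩
  | @comp f h _ _ ihf ihh =>
    have h1 : Γ.S (fun p : ℕ × ℕ => ∃ a : ℕ, a ∈ h p.1 ∧ p.2 ∈ f a) := by
      refine PC.ex' (R := fun (p : ℕ × ℕ) (a : ℕ) => a ∈ h p.1 ∧ p.2 ∈ f a) ?_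
      refine Γ.and ?_ ?_
      · exact Γ.comp (f := fun q : (ℕ × ℕ) × ℕ => (q.1.1, q.2)) ihh (by fun_prop)
      · exact Γ.comp (f := fun q : (ℕ × ℕ) × ℕ => (q.2, q.1.2)) ihf (by fun_prop)
    refine PC.of_eq h1 fun p => ?_
    exact Part.mem_bind_iff
  | @prec f h _ _ ihf ihh =>
    have h1 : Γ.S (fun p : ℕ × ℕ => ∃ L : List ℕ, (L.getD 0 0 ∈ f p.1.unpair.1 ∧
        ∀ y < p.1.unpair.2, L.getD (y + 1) 0 ∈
          h (Nat.pair p.1.unpair.1 (Nat.pair y (L.getD y 0)))) ∧
        p.2 = L.getD p.1.unpair.2 0) := by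
      refine PC.ex' (R := fun (p : ℕ × ℕ) (L : List ℕ) => (L.getD 0 0 ∈ f p.1.unpair.1 ∧
        ∀ y < p.1.unpair.2, L.getD (y + 1) 0 ∈
          h (Nat.pair p.1.unpair.1 (Nat.pair y (L.getD y 0)))) ∧
        p.2 = L.getD p.1.unpair.2 0) ?_
      refine Γ.and (Γ.and ?_ ?_) (Γ.prim ?_)
      · exact Γ.comp (f := fun q : (ℕ × ℕ) × List ℕ => (q.1.1.unpair.1, q.2.getD 0 0)) ihf
          (by fun_prop)
      · refine PC.ball' (R := fun (q : (ℕ × ℕ) × List ℕ) (y : ℕ) => q.2.getD (y + 1) 0 ∈
          h (Nat.pair q.1.1.unpair.1 (Nat.pair y (q.2.getD y 0))))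
          (f := fun q : (ℕ × ℕ) × List ℕ => q.1.1.unpair.2) (by fun_prop) ?_
        refine Γ.comp (f := fun q : ((ℕ × ℕ) × List ℕ) × ℕ =>
          (Nat.pair q.1.1.1.unpair.1 (Nat.pair q.2 (q.1.2.getD q.2 0)),
            q.1.2.getD (q.2 + 1) 0)) ihh ?_
        refine Primrec.pair ?_ (by fun_prop)
        refine Primrec₂.natPair.comp (by fun_prop) ?_
        exact Primrec₂.natPair.comp (by fun_prop) (by fun_prop)
      · exact Primrec.eq.comp (by fun_prop) (by fun_prop)
    refine PC.of_eq h1 fun p => ?_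
    obtain ⟨an, m⟩ := p
    simp only
    set a := an.unpair.1
    set n := an.unpair.2
    have key : ∀ n m : ℕ, (m ∈ (n.rec (f a) fun y IH => do
          let i ← IH
          h (Nat.pair a (Nat.pair y i)) : Part ℕ)) ↔
        ∃ L : List ℕ, L.length = n + 1 ∧ (L.getD 0 0 ∈ f a ∧
        ∀ y < n, L.getD (y + 1) 0 ∈ h (Nat.pair a (Nat.pair y (L.getD y 0)))) ∧
        m = L.getD n 0 := by
      intro n
      induction n with
      | zero =>
        intro m
        constructor
        · intro hm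
          exact ⟨[m], rfl, ⟨hm, fun y hy => absurd hy (Nat.not_lt_zero _)⟩, rfl⟩
        · rintro ⟨L, _, ⟨h1, _⟩, rfl⟩
          exact h1
      | succ n ih =>
        intro m
        have h2 : (m ∈ ((n + 1).rec (f a) fun y IH => do
          let i ← IH
          h (Nat.pair a (Nat.pair y i)) : Part ℕ)) ↔ ∃ i ∈ (n.rec (f a) fun y IH => do
          let i ← IH
          h (Nat.pair a (Nat.pair y i)) : Part ℕ), m ∈ h (Nat.pair a (Nat.pair n i)) :=
          Part.mem_bind_iff
        rw [h2]
        constructor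
        · rintro ⟨i, hi, hm⟩
          obtain ⟨L, hL0, ⟨hL1, hL2⟩, rfl⟩ := (ih i).1 hi
          refine ⟨L ++ [m], by simp [hL0], ⟨?_, ?_⟩, ?_⟩
          · rw [List.getD_append _ _ _ _ (by omega)]; exact hL1
          · intro y hy
            rcases Nat.lt_succ_iff_lt_or_eq.1 hy with hy | rfl
            · rw [List.getD_append _ _ _ _ (by omega), List.getD_append _ _ _ _ (by omega)]
              exact hL2 y hy
            · rw [List.getD_append _ _ _ y (by omega),
                List.getD_append_right _ _ _ (y + 1) (by omega), hL0]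
              simpa using hm
          · rw [List.getD_append_right _ _ _ _ (by omega), hL0]
            simp
        · rintro ⟨L, hL0, ⟨hL1, hL2⟩, rfl⟩
          refine ⟨L.getD n 0, (ih _).2 ⟨L.take (n + 1), by simp [hL0], ⟨?_, ?_⟩, ?_⟩,
            hL2 n (Nat.lt_succ_self n)⟩
          · simpa [List.getD_eq_getElem?_getD, List.getElem?_take] using hL1
          · intro y hy
            have := hL2 y (by omega)
            simp only [List.getD_eq_getElem?_getD, List.getElem?_take] at this ⊢
            rw [if_pos (by omega), if_pos (by omega)]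
            exact this
          · simp only [List.getD_eq_getElem?_getD, List.getElem?_take]
            rw [if_pos (by omega)]
    have := key n m
    refine this.trans ?_
    constructor
    · rintro ⟨L, _, hL⟩
      exact ⟨L, hL⟩
    · rintro ⟨L, ⟨hL1, hL2⟩, hL3⟩
      let L' : List ℕ := (List.range (n + 1)).map (fun i => L.getD i 0)
      have hL' : ∀ i < n + 1, L'.getD i 0 = L.getD i 0 := by
        intro i hi
        simp only [L']
        rw [List.getD_eq_getElem?_getD, List.getElem?_map, List.getElem?_range hi]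
        rfl
      refine ⟨L', by simp [L'], ⟨?_, ?_⟩, ?_⟩
      · rw [hL' 0 (by omega)]; exact hL1
      · intro y hy
        rw [hL' _ (by omega), hL' _ (by omega)]
        exact hL2 y hy
      · rw [hL' _ (by omega)]; exact hL3
  | @rfind f _ ihf =>
    have h1 : Γ.S (fun p : ℕ × ℕ => 0 ∈ f (Nat.pair p.1 p.2) ∧
        ∀ k < p.2, ∃ j : ℕ, j ≠ 0 ∧ j ∈ f (Nat.pair p.1 k)) := by
      refine Γ.and ?_ ?_
      · refine Γ.comp (f := fun q : ℕ × ℕ => (Nat.pair q.1 q.2, 0)) ihf ?_
        exact (Primrec₂.natPair.comp Primrec.fst Primrec.snd).pair (Primrec.const 0)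
      · refine PC.ball' (R := fun (q : ℕ × ℕ) (k : ℕ) =>
          ∃ j : ℕ, j ≠ 0 ∧ j ∈ f (Nat.pair q.1 k)) (f := fun q : ℕ × ℕ => q.2) (by fun_prop) ?_
        refine PC.ex' (R := fun (q : (ℕ × ℕ) × ℕ) (j : ℕ) =>
          j ≠ 0 ∧ j ∈ f (Nat.pair q.1.1 q.2)) ?_
        refine Γ.and (Γ.prim ?_) ?_
        · exact PrimrecPred.not (Primrec.eq.comp Primrec.snd (Primrec.const 0))
        · refine Γ.comp (f := fun q : ((ℕ × ℕ) × ℕ) × ℕ => (Nat.pair q.1.1.1 q.1.2, q.2)) ihf ?_
          exact (Primrec₂.natPair.comp (by fun_prop) (by fun_prop)).pair Primrec.snd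
    refine PC.of_eq h1 fun p => ?_
    refine Nat.mem_rfind.trans ?_
    simp only [Part.map_eq_map, Part.mem_map_iff]
    refine and_congr ?_ ?_
    · constructor
      · rintro ⟨a, ha, h⟩
        have : a = 0 := by simpa using h
        rw [this] at ha; exact ha
      · intro h
        exact ⟨0, h, by simp⟩
    · refine forall₂_congr fun k _ => ?_
      constructor
      · rintro ⟨a, ha, h⟩
        exact ⟨a, by simpa using h, ha⟩
      · rintro ⟨a, ha, h⟩
        exact ⟨a, h, by simpa using ha⟩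


section univ

variable {β : Type} [Primcodable β]

/-- the universal c.e. relation -/
def Univ (c : Code) (z : β) : Prop := ∃ k : ℕ, (Code.evaln k c (encode z)).isSome = true

theorem RE_Univ : RE (fun p : Code × β => Univ p.1 p.2) := by
  unfold Univ
  refine RE.ex (R := fun (p : Code × β) (k : ℕ) =>
    (Code.evaln k p.1 (encode p.2)).isSome = true) ?_
  refine RE.prim (Primrec.eq.comp (Primrec.option_isSome.comp ?_) (Primrec.const true))
  exact Nat.Partrec.Code.primrec_evaln.comp
    (((Primrec.snd).pair (Primrec.fst.comp Primrec.fst)).pair (by fun_prop))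

theorem exists_univ {V : β → Prop} (hV : RE V) : ∃ c, ∀ z, V z ↔ Univ c z := by
  classical
  obtain ⟨L, hL, hVL⟩ := hV
  have h1 : Partrec₂ (fun (z : β) (k : ℕ) => (Part.some (decide (L (z, k))) : Part Bool)) := by
    have : Computable (fun p : β × ℕ => decide (L (p.1, p.2))) := (Primrec.to_comp (by
      have := hL.decide
      simpa using this))
    exact this
  have h2 := Partrec.rfind h1
  obtain ⟨c, hc⟩ := Code.exists_code.1 h2
  refine ⟨c, fun z => ?_⟩
  have hc' : Code.eval c (encode z) =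
      (Nat.rfind (fun k => (Part.some (decide (L (z, k))) : Part Bool))).map encode := by
    rw [hc]; simp
  rw [hVL]
  constructor
  · rintro ⟨k, hk⟩
    have hdom : (Code.eval c (encode z)).Dom := by
      rw [hc']
      change (Nat.rfind (fun k => (Part.some (decide (L (z, k))) : Part Bool))).Dom
      exact Nat.rfind_dom.2 ⟨k, by simpa using hk, fun _ => trivial⟩
    obtain ⟨b, hb⟩ := Part.dom_iff_mem.1 hdom
    obtain ⟨m, hm⟩ := Code.evaln_complete.1 hb
    refine ⟨m, ?_⟩
    rw [Option.mem_def] at hm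
    rw [hm]; rfl
  · rintro ⟨m, hm⟩
    obtain ⟨b, hb⟩ := Option.isSome_iff_exists.1 hm
    have h3 := Code.evaln_sound (Option.mem_def.2 hb)
    rw [hc', Part.mem_map_iff] at h3
    obtain ⟨k, hk, _⟩ := h3
    have := Nat.rfind_spec hk
    exact ⟨k, by simpa using this⟩

end univ

section total

/-- total functions recursive in a set of oracles -/
def TR (O : Set (ℕ →. ℕ)) (f : ℕ → ℕ) : Prop := Nat.RecursiveIn O (fun n => Part.some (f n))

variable {O : Set (ℕ →. ℕ)}

theorem TR.of_computable {f : ℕ → ℕ} (hf : Computable f) : TR O f := by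
  have h : Nat.Partrec (fun n => Part.some (f n)) := Partrec.nat_iff.1 hf
  exact h.recursiveIn

theorem TR.comp {f g : ℕ → ℕ} (hf : TR O f) (hg : TR O g) :
    TR O (fun n => f (g n)) := by
  have := Nat.RecursiveIn.comp hf hg
  simpa [TR] using this

theorem TR.pair {f g : ℕ → ℕ} (hf : TR O f) (hg : TR O g) :
    TR O (fun n => Nat.pair (f n) (g n)) := by
  have := Nat.RecursiveIn.pair hf hg
  refine Nat.RecursiveIn.of_eq this ?_
  intro n
  simp [Seq.seq]

theorem rec_aux (f h : ℕ → ℕ) (a n : ℕ) :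
    (Nat.rec (Part.some (f a))
        (fun y IH => do
          let i ← IH
          Part.some (h (Nat.pair a (Nat.pair y i)))) n : Part ℕ) =
    Part.some (Nat.rec (f a) (fun y IH => h (Nat.pair a (Nat.pair y IH))) n) := by
  induction n with
  | zero => rfl
  | succ n ih =>
    simp only
    rw [ih]
    simp

theorem TR.prec {f h : ℕ → ℕ} (hf : TR O f) (hh : TR O h) :
    TR O (fun p => Nat.rec (f p.unpair.1)
      (fun y IH => h (Nat.pair p.unpair.1 (Nat.pair y IH))) p.unpair.2) := by
  have := Nat.RecursiveIn.prec hf hh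
  refine Nat.RecursiveIn.of_eq this ?_
  intro p
  exact rec_aux f h _ _

/-- minimization of a total function with zeros -/
theorem TR.find {g : ℕ → ℕ} (hg : TR O g) (hz : ∀ a, ∃ n, g (Nat.pair a n) = 0) :
    TR O (fun a => Nat.find (hz a)) := by
  have h := Nat.RecursiveIn.rfind hg
  refine Nat.RecursiveIn.of_eq h ?_
  intro a
  apply Part.eq_some_iff.2
  refine Nat.mem_rfind.2 ⟨?_, ?_⟩
  · simpa using Nat.find_spec (hz a)
  · intro m hm
    simpa using Nat.find_min (hz a) hm

/-- the characteristic function of a set of natural numbers -/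
def chi (G : ℕ → Bool) (n : ℕ) : ℕ := (G n).toNat

theorem TR.res {G : ℕ → Bool} (hG : TR O (chi G)) : TR O (fun n => encode (res G n)) := by
  have hstep : TR O (fun q => encode (((decode (α := List Bool) q.unpair.2.unpair.2).getD []) ++
      [decide (chi G q.unpair.2.unpair.1 = 1)])) := by
    have hG' : Computable (fun r : ℕ => encode (((decode (α := List Bool)
        r.unpair.1.unpair.2.unpair.2).getD []) ++ [decide (r.unpair.2 = 1)])) := by
      apply Primrec.to_comp
      refine Primrec.encode.comp (Primrec.list_append.comp ?_ ?_)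
      · refine Primrec.option_getD.comp (Primrec.decode.comp ?_) (Primrec.const [])
        fun_prop
      · refine Primrec.list_cons.comp ?_ (Primrec.const [])
        have : PrimrecPred (fun r : ℕ => r.unpair.2 = 1) :=
          Primrec.eq.comp (by fun_prop) (Primrec.const 1)
        exact this.decide
    have h1 : TR O (fun q : ℕ => q) := TR.of_computable Computable.id
    have h2 : TR O (fun q : ℕ => q.unpair.2.unpair.1) := by
      apply TR.of_computable
      apply Primrec.to_comp
      fun_prop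
    have h3 : TR O (fun q : ℕ => chi G (q.unpair.2.unpair.1)) := hG.comp h2
    have h4 := (TR.of_computable (O := O) hG').comp (h1.pair h3)
    simpa using h4
  have hz : TR O (fun _ => encode ([] : List Bool)) := TR.of_computable (Computable.const _)
  have h5 := hz.prec hstep
  have h6 : TR O (fun n => Nat.pair 0 n) :=
    (TR.of_computable (Computable.const 0)).pair (TR.of_computable Computable.id)
  have h7 := h5.comp h6
  have h8 : (fun n : ℕ => (Nat.rec (encode ([] : List Bool))
      (fun y IH => encode (((decode (α := List Bool) IH).getD []) ++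
      [decide (chi G y = 1)])) n : ℕ)) = fun n => encode (Helper70.res G n) := by
    funext n
    induction n with
    | zero => rfl
    | succ n ih =>
      simp only at ih ⊢
      rw [ih]
      simp only [encodek, Option.getD_some, Helper70.res, List.range_succ, List.map_append,
        List.map_cons, List.map_nil]
      congr 2
      cases h : G n <;> simp [chi, h]
  rw [← h8]
  simpa using h7

/-- c.e. graph relative to `G` implies recursive in `G` -/
theorem TR.of_graph {G : ℕ → Bool} {f : ℕ → ℕ} (hG : TR O (chi G))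
    (h : (PC.re.adj G).S (fun p : ℕ × ℕ => f p.1 = p.2)) : TR O f := by
  classical
  obtain ⟨R', ⟨V, ⟨K, hK, hVK⟩, hV⟩, hR⟩ := h
  -- test on `(n, t)`, `t = (u, N)`, `u = (m, τ, k)`
  let test : ℕ → ℕ → ℕ → Option ℕ := fun n u s =>
    (decode (α := ℕ × List Bool × ℕ) u).bind fun w => (decode (α := List Bool) s).bind fun σ =>
      if w.2.1 <+: σ ∧ K (((n, w.1), w.2.1), w.2.2) then some w.1 else none
  have htest : Primrec (fun p : ℕ × ℕ × ℕ => test p.1 p.2.1 p.2.2) := by
    refine Primrec.option_bind (f := fun p : ℕ × ℕ × ℕ => decode (α := ℕ × List Bool × ℕ) p.2.1)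
      (g := fun (p : ℕ × ℕ × ℕ) (w : ℕ × List Bool × ℕ) =>
        (decode (α := List Bool) p.2.2).bind fun σ =>
          if w.2.1 <+: σ ∧ K (((p.1, w.1), w.2.1), w.2.2) then some w.1 else none)
      (by fun_prop) ?_
    refine Primrec.option_bind
      (f := fun q : (ℕ × ℕ × ℕ) × (ℕ × List Bool × ℕ) => decode (α := List Bool) q.1.2.2)
      (g := fun (q : (ℕ × ℕ × ℕ) × (ℕ × List Bool × ℕ)) (σ : List Bool) =>
          if q.2.2.1 <+: σ ∧ K (((q.1.1, q.2.1), q.2.2.1), q.2.2.2) then some q.2.1 else none)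
      (by fun_prop) ?_
    refine Primrec.ite (PrimrecPred.and ?_ ?_) (by fun_prop) (Primrec.const none)
    · exact primrec_prefix.comp (by fun_prop) (by fun_prop)
    · exact PrimrecPred.comp (f := fun r : ((ℕ × ℕ × ℕ) × (ℕ × List Bool × ℕ)) × List Bool =>
        (((r.1.1.1, r.1.2.1), r.1.2.2.1), r.1.2.2.2)) hK (by fun_prop)
  let g : ℕ → ℕ := fun a => if (test a.unpair.1 a.unpair.2.unpair.1
    (encode (Helper70.res G a.unpair.2.unpair.2))).isSome then 0 else 1
  have hres := hG.res
  have hg : TR O g := by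
    have h1 : Computable (fun r : ℕ => if (test r.unpair.1.unpair.1
        r.unpair.1.unpair.2.unpair.1 r.unpair.2).isSome then 0 else 1) := by
      apply Primrec.to_comp
      refine Primrec.ite (Primrec.eq.comp (Primrec.option_isSome.comp ?_) (Primrec.const true))
        (Primrec.const 0) (Primrec.const 1)
      exact htest.comp (g := fun r : ℕ => (r.unpair.1.unpair.1, r.unpair.1.unpair.2.unpair.1,
        r.unpair.2)) (by fun_prop)
    have h2 : TR O (fun a : ℕ => a.unpair.2.unpair.2) := by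
      apply TR.of_computable
      apply Primrec.to_comp
      fun_prop
    have h3 := (TR.of_computable (O := O) h1).comp
      ((TR.of_computable (Computable.id (α := ℕ))).pair (hres.comp h2))
    simpa [g] using h3
  have hz : ∀ a, ∃ n, g (Nat.pair a n) = 0 := by
    intro a
    obtain ⟨τ, h1, h2⟩ := (hV _ _).1 ((hR (a, f a)).1 rfl)
    obtain ⟨k, hk⟩ := (hVK _).1 h2
    refine ⟨Nat.pair (encode ((f a, τ, k) : ℕ × List Bool × ℕ)) τ.length, ?_⟩
    have : τ <+: Helper70.res G τ.length := h1.prefix_res le_rfl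
    simp [g, test, this, hk]
  have hfind := TR.find hg hz
  have hout : TR O (fun a => ((test a (Nat.find (hz a)).unpair.1
      (encode (Helper70.res G (Nat.find (hz a)).unpair.2))).getD 0)) := by
    have h1 : Computable (fun r : ℕ => (test r.unpair.1
        r.unpair.2.unpair.1.unpair.1 r.unpair.2.unpair.2).getD 0) := by
      apply Primrec.to_comp
      refine Primrec.option_getD.comp ?_ (Primrec.const 0)
      exact htest.comp (g := fun r : ℕ => (r.unpair.1, r.unpair.2.unpair.1.unpair.1,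
        r.unpair.2.unpair.2)) (by fun_prop)
    have h2 : TR O (fun a : ℕ => (Nat.find (hz a)).unpair.2) := by
      have : Computable (fun a : ℕ => a.unpair.2) := by
        apply Primrec.to_comp
        fun_prop
      exact (TR.of_computable (O := O) this).comp hfind
    have h3 := (TR.of_computable (O := O) h1).comp
      ((TR.of_computable (Computable.id (α := ℕ))).pair (hfind.pair (hres.comp h2)))
    simpa using h3
  refine Nat.RecursiveIn.of_eq hout fun a => ?_
  congr 1
  have h1 := Nat.find_spec (hz a)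
  set t := Nat.find (hz a) with ht
  simp only [g, Nat.unpair_pair] at h1
  split_ifs at h1 with h2
  obtain ⟨m, hm⟩ := Option.isSome_iff_exists.1 h2
  change (test a t.unpair.1 (encode (Helper70.res G t.unpair.2))).getD 0 = f a
  rw [hm]
  simp only [test, Option.bind_eq_some_iff, encodek, Option.some.injEq] at hm
  obtain ⟨w, hw, σ, hσ, h3⟩ := hm
  split_ifs at h3 with h4
  simp only [Option.some.injEq] at h3
  subst h3 hσ
  have h5 : Pre w.2.1 G := (pre_res G _).mono h4.1
  exact ((hR (a, w.1)).2 ((hV _ _).2 ⟨_, h5, (hVK _).2 ⟨_, h4.2⟩⟩)).symm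

/-- the oracle set of `G` -/
def orc (G : ℕ → Bool) : Set (ℕ →. ℕ) := {fun n => Part.some (chi G n)}

theorem TR.self (G : ℕ → Bool) : TR (orc G) (chi G) := Nat.RecursiveIn.oracle _ rfl

/-- functions recursive in `G` have graphs in every pointclass containing `G` -/
theorem graph_of_TR {Γ : PC} {G : ℕ → Bool} {f : ℕ → ℕ}
    (hG : Γ.S (fun p : ℕ × Bool => G p.1 = p.2)) (h : TR (orc G) f) :
    Γ.S (fun p : ℕ × ℕ => f p.1 = p.2) := by
  have h1 : Γ.S (fun p : ℕ × ℕ => p.2 ∈ (Part.some (chi G p.1) : Part ℕ)) := by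
    have h2 : Γ.S (fun p : ℕ × ℕ => ∃ b : Bool, G p.1 = b ∧ b.toNat = p.2) := by
      refine PC.ex' (R := fun (p : ℕ × ℕ) (b : Bool) => G p.1 = b ∧ b.toNat = p.2) ?_
      refine Γ.and ?_ (Γ.prim ?_)
      · exact Γ.comp (f := fun q : (ℕ × ℕ) × Bool => (q.1.1, q.2)) hG (by fun_prop)
      · refine Primrec.eq.comp ?_ (by fun_prop)
        exact (Primrec.dom_finite Bool.toNat).comp Primrec.snd
    refine PC.of_eq h2 fun p => ?_
    simp [chi, Part.mem_some_iff, eq_comm]
  have h2 := rec_graph h1 h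
  refine PC.of_eq h2 fun p => ?_
  rw [Part.mem_some_iff, eq_comm]

theorem TR_iff {G : ℕ → Bool} {f : ℕ → ℕ} :
    TR (orc G) f ↔ (PC.re.adj G).S (fun p : ℕ × ℕ => f p.1 = p.2) :=
  ⟨graph_of_TR (PC.adj_self G), TR.of_graph (TR.self G)⟩

theorem graph_chi {Γ : PC} {B : ℕ → Bool} :
    Γ.S (fun p : ℕ × ℕ => chi B p.1 = p.2) ↔ Γ.S (fun p : ℕ × Bool => B p.1 = p.2) := by
  constructor
  · intro h
    refine PC.of_eq (Γ.comp (f := fun p : ℕ × Bool => (p.1, p.2.toNat)) h
      (Primrec.fst.pair ((Primrec.dom_finite Bool.toNat).comp Primrec.snd))) fun p => ?_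
    obtain ⟨n, b⟩ := p
    cases b <;> cases h : B n <;> simp [chi, h]
  · intro h
    have h2 : Γ.S (fun p : ℕ × ℕ => ∃ b : Bool, B p.1 = b ∧ b.toNat = p.2) := by
      refine PC.ex' (R := fun (p : ℕ × ℕ) (b : Bool) => B p.1 = b ∧ b.toNat = p.2) ?_
      refine Γ.and ?_ (Γ.prim ?_)
      · exact Γ.comp (f := fun q : (ℕ × ℕ) × Bool => (q.1.1, q.2)) h (by fun_prop)
      · refine Primrec.eq.comp ?_ (by fun_prop)
        exact (Primrec.dom_finite Bool.toNat).comp Primrec.snd
    refine PC.of_eq h2 fun p => ?_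
    simp [chi]

/-- Turing reducibility between sets -/
theorem TR_chi_iff {G B : ℕ → Bool} :
    TR (orc G) (chi B) ↔ (PC.re.adj G).S (fun p : ℕ × Bool => B p.1 = p.2) :=
  TR_iff.trans graph_chi

theorem chi_reducible_iff {G B : ℕ → Bool} :
    TuringReducible (fun n => Part.some (chi B n)) (fun n => Part.some (chi G n)) ↔
      (PC.re.adj G).S (fun p : ℕ × Bool => B p.1 = p.2) :=
  RecursiveIn.iff_nat.trans TR_chi_iff

end total

end Pool.Agent.MU
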