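import Pool.Agent.MU.Two

/-! # The classes -/

set_option autoImplicit false

namespace Pool.Agent.MU

open Encodable
open Nat.Partrec (Code)
open Pool.Agent.Helper70 (PC res pre_res getElem?_res length_res)
open Pool.Agent.Helper70.OD (RE)

variable {α β γ : Type} [Primcodable α] [Primcodable β] [Primcodable γ]

/-- A record `(x, a, b)`. -/
abbrev Rc := ℕ × Bool × Bool

/-- coding positions -/
def pos (e : Code) (D : List Rc) (w : List Bool) : ℕ := encode (e, encode (e, D, w))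

theorem primrec_pos {f : α → Code} {g : α → List Rc} {h : α → List Bool} (hf : Primrec f)
    (hg : Primrec g) (hh : Primrec h) : Primrec (fun a => pos (f a) (g a) (h a)) := by
  unfold pos; fun_prop

theorem primrec_natPair {f g : α → ℕ} (hf : Primrec f) (hg : Primrec g) :
    Primrec (fun a => Nat.pair (f a) (g a)) := Primrec₂.natPair.comp hf hg

/-- decoding of column `i` -/
def dcol (e : Code) (D : List Rc) (i : ℕ) (X : ℕ → Bool) : ℕ → List Bool
  | 0 => []
  | j + 1 => dcol e D i X j ++ [X (Nat.pair i (pos e D (dcol e D i X j)))]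

@[simp] theorem length_dcol (e : Code) (D : List Rc) (i : ℕ) (X : ℕ → Bool) (j : ℕ) :
    (dcol e D i X j).length = j := by
  induction j with
  | zero => rfl
  | succ j ih => simp [dcol, ih]

theorem take_dcol (e : Code) (D : List Rc) (i : ℕ) (X : ℕ → Bool) {j k : ℕ} (h : k ≤ j) :
    (dcol e D i X j).take k = dcol e D i X k := by
  induction j, h using Nat.le_induction with
  | base => rw [List.take_of_length_le (by simp)]
  | succ j hj ih =>
    rw [dcol, List.take_append_of_le_length (by simpa using hj)]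
    exact ih

theorem eq_dcol_iff (e : Code) (D : List Rc) (i : ℕ) (X : ℕ → Bool) (j : ℕ) (L : List Bool) :
    dcol e D i X j = L ↔ L.length = j ∧ ∀ k < j, X (Nat.pair i (pos e D (L.take k))) =
      L.getD k false := by
  constructor
  · rintro rfl
    refine ⟨by simp, fun k hk => ?_⟩
    rw [take_dcol _ _ _ _ hk.le]
    have h1 : (dcol e D i X j).getD k false = (dcol e D i X (k + 1)).getD k false := by
      rw [← take_dcol e D i X (show k + 1 ≤ j from hk)]
      simp [List.getD_eq_getElem?_getD]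
    rw [h1, dcol, List.getD_append_right _ _ _ _ (by simp)]
    simp
  · rintro ⟨rfl, h⟩
    have key : ∀ k ≤ L.length, dcol e D i X k = L.take k := by
      intro k hk
      induction k with
      | zero => simp [dcol]
      | succ k ih =>
        rw [dcol, ih (by omega), h k (by omega), List.take_add_one]
        congr 1
        have : k < L.length := by omega
        simp [List.getD_eq_getElem?_getD, this]
    rw [key _ le_rfl, List.take_length]

theorem SR_dcol : SR (fun (p : (Code × List Rc × ℕ) × ℕ × List Bool) X =>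
    dcol p.1.1 p.1.2.1 p.1.2.2 X p.2.1 = p.2.2) := by
  have h : SR (fun (p : (Code × List Rc × ℕ) × ℕ × List Bool) X => p.2.2.length = p.2.1 ∧
      ∀ k < p.2.1, X (Nat.pair p.1.2.2 (pos p.1.1 p.1.2.1 (p.2.2.take k))) =
        p.2.2.getD k false) := by
    refine PC.Sig.and (PC.Sig.ofS (RE.eq (by fun_prop) (by fun_prop))) ?_
    refine PC.Sig.ball (R := fun (p : (Code × List Rc × ℕ) × ℕ × List Bool) k X =>
      X (Nat.pair p.1.2.2 (pos p.1.1 p.1.2.1 (p.2.2.take k))) = p.2.2.getD k false)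
      (f := fun p => p.2.1) (by fun_prop) ?_
    refine PC.Sig.bit ?_ (by fun_prop)
    exact primrec_natPair (by fun_prop) (primrec_pos (by fun_prop) (by fun_prop) (by fun_prop))
  refine PC.Sig.of_eq h fun p X => ?_
  exact eq_dcol_iff _ _ _ _ _ _

/-- The decoded oracle. -/
def dec (e : Code) (D : List Rc) (X : ℕ → Bool) : ℕ → Bool := fun m =>
  decide (m.unpair.1 < D.length) && X (Nat.pair m.unpair.1 (pos e (D.take m.unpair.1)
    (dcol e (D.take m.unpair.1) m.unpair.1 X m.unpair.2)))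

theorem SR_dec : SR (fun (p : (Code × List Rc) × (ℕ × Bool)) X =>
    dec p.1.1 p.1.2 X p.2.1 = p.2.2) := by
  have h : SR (fun (p : (Code × List Rc) × (ℕ × Bool)) X =>
      (p.1.2.length ≤ p.2.1.unpair.1 ∧ p.2.2 = false) ∨ (p.2.1.unpair.1 < p.1.2.length ∧
      ∃ L : List Bool, dcol p.1.1 (p.1.2.take p.2.1.unpair.1) p.2.1.unpair.1 X p.2.1.unpair.2 = L ∧
        X (Nat.pair p.2.1.unpair.1 (pos p.1.1 (p.1.2.take p.2.1.unpair.1) L)) = p.2.2)) := by
    refine PC.Sig.or (PC.Sig.ofS (RE.and (RE.le (by fun_prop) (by fun_prop))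
      (RE.eq (by fun_prop) (by fun_prop)))) (PC.Sig.and (PC.Sig.ofS
      (RE.lt (by fun_prop) (by fun_prop))) ?_)
    refine PC.Sig.ex (R := fun (p : (Code × List Rc) × (ℕ × Bool)) (L : List Bool) X =>
      dcol p.1.1 (p.1.2.take p.2.1.unpair.1) p.2.1.unpair.1 X p.2.1.unpair.2 = L ∧
        X (Nat.pair p.2.1.unpair.1 (pos p.1.1 (p.1.2.take p.2.1.unpair.1) L)) = p.2.2) ?_
    refine PC.Sig.and ?_ ?_
    · exact PC.Sig.comp (f := fun q : ((Code × List Rc) × (ℕ × Bool)) × List Bool =>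
        ((q.1.1.1, q.1.1.2.take q.1.2.1.unpair.1, q.1.2.1.unpair.1), q.1.2.1.unpair.2, q.2))
        SR_dcol (by fun_prop)
    · refine PC.Sig.bit ?_ (by fun_prop)
      exact primrec_natPair (by fun_prop) (primrec_pos (by fun_prop) (by fun_prop) (by fun_prop))
  refine PC.Sig.of_eq h fun p X => ?_
  unfold dec
  rcases lt_or_ge p.2.1.unpair.1 p.1.2.length with h1 | h1
  · simp [h1]
  · have h2 : ¬ (p.2.1.unpair.1 < p.1.2.length) := not_lt.2 h1
    simp only [h2, h1, decide_false, Bool.false_and, false_and, or_false, true_and]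
    exact eq_comm

/-- `B` is not a chain of separating functions. -/
def OutA (B : ℕ → Bool) : Prop :=
  ∃ (k : ℕ) (c : Code) (w' : ℕ), Fst c w' (B (Nat.pair k (encode (c, w')))) (low k B)

def OutB (D : List Rc) (B : ℕ → Bool) : Prop :=
  ∃ (i : ℕ) (r : Rc), D[i]? = some r ∧ Fst (Denumerable.ofNat Code i) r.1 r.2.1 B

def OutC (D : List Rc) (B : ℕ → Bool) : Prop :=
  ∃ (i : ℕ) (r : Rc), D[i]? = some r ∧ B i = !r.2.2

def OutD (e : Code) (D : List Rc) (m : ℕ) (z B : ℕ → Bool) : Prop :=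
  ∃ i j : ℕ, i < m ∧ ∃ b : Bool,
    B (Nat.pair i (pos e (D.take i) (res (col i z) j))) = b ∧ z (Nat.pair i j) = !b

def OutE (e : Code) (D : List Rc) (m : ℕ) (w : List Bool) (B : ℕ → Bool) : Prop :=
  ∃ (j : ℕ) (b : Bool), w[j]? = some b ∧ B (Nat.pair m (pos e D (w.take j))) = !b

/-- `B` is outside the class given by the data. -/
def Out (e : Code) (D : List Rc) (m : ℕ) (w : List Bool) (z B : ℕ → Bool) : Prop :=
  OutA B ∨ OutB D B ∨ OutC D B ∨ OutD e D m z B ∨ OutE e D m w B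

theorem SR_low : SR (fun (p : ℕ × (ℕ × Bool)) X => low p.1 X p.2.1 = p.2.2) := by
  have h : SR (fun (p : ℕ × (ℕ × Bool)) X => (p.1 ≤ p.2.1.unpair.1 ∧ p.2.2 = false) ∨
      (p.2.1.unpair.1 < p.1 ∧ X p.2.1 = p.2.2)) := by
    refine PC.Sig.or (PC.Sig.ofS (RE.and (RE.le (by fun_prop) (by fun_prop))
      (RE.eq (by fun_prop) (by fun_prop)))) (PC.Sig.and (PC.Sig.ofS
      (RE.lt (by fun_prop) (by fun_prop))) (PC.Sig.bit (by fun_prop) (by fun_prop)))
  refine PC.Sig.of_eq h fun p X => ?_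
  unfold low
  rcases lt_or_ge p.2.1.unpair.1 p.1 with h1 | h1
  · simp [h1]
  · have h2 : ¬ (p.2.1.unpair.1 < p.1) := not_lt.2 h1
    simp only [h2, h1, decide_false, Bool.false_and, false_and, or_false, true_and]
    exact eq_comm

theorem SR_outA : SR (fun (_ : Unit) X => OutA X) := by
  unfold OutA
  refine PC.Sig.ex (R := fun (_ : Unit) (k : ℕ) X => ∃ (c : Code) (w' : ℕ),
    Fst c w' (X (Nat.pair k (encode (c, w')))) (low k X)) ?_
  refine PC.Sig.ex (R := fun (p : Unit × ℕ) (c : Code) X => ∃ (w' : ℕ),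
    Fst c w' (X (Nat.pair p.2 (encode (c, w')))) (low p.2 X)) ?_
  refine PC.Sig.ex (R := fun (p : (Unit × ℕ) × Code) (w' : ℕ) X =>
    Fst p.2 w' (X (Nat.pair p.1.2 (encode (p.2, w')))) (low p.1.2 X)) ?_
  have h : SR (fun (p : ((Unit × ℕ) × Code) × ℕ) X => ∃ b : Bool,
      X (Nat.pair p.1.1.2 (encode (p.1.2, p.2))) = b ∧ Fst p.1.2 p.2 b (low p.1.1.2 X)) := by
    refine PC.Sig.ex (R := fun (p : ((Unit × ℕ) × Code) × ℕ) (b : Bool) X =>
      X (Nat.pair p.1.1.2 (encode (p.1.2, p.2))) = b ∧ Fst p.1.2 p.2 b (low p.1.1.2 X)) ?_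
    refine PC.Sig.and (PC.Sig.bit (primrec_natPair (by fun_prop) (by fun_prop)) (by fun_prop)) ?_
    refine PC.Sig.substX (R := fun (p : (((Unit × ℕ) × Code) × ℕ) × Bool) X =>
      Fst p.1.1.2 p.1.2 p.2 X) ?_ (Ψ := fun p X => low p.1.1.1.2 X) ?_
    · exact PC.Sig.comp (f := fun p : (((Unit × ℕ) × Code) × ℕ) × Bool =>
        (p.1.1.2, p.1.2, p.2)) SR_fst (by fun_prop)
    · exact PC.Sig.comp (f := fun p : ((((Unit × ℕ) × Code) × ℕ) × Bool) × (ℕ × Bool) =>
        (p.1.1.1.1.2, p.2)) SR_low (by fun_prop)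
  refine PC.Sig.of_eq h fun p X => by simp

theorem primrec_ofNatCode : Primrec (fun i : ℕ => Denumerable.ofNat Code i) :=
  Primrec.ofNat Code

theorem SR_outB : SR (fun (D : List Rc) X => OutB D X) := by
  unfold OutB
  refine PC.Sig.ex (R := fun (D : List Rc) (i : ℕ) X => ∃ (r : Rc), D[i]? = some r ∧
    Fst (Denumerable.ofNat Code i) r.1 r.2.1 X) ?_
  refine PC.Sig.ex (R := fun (p : List Rc × ℕ) (r : Rc) X => p.1[p.2]? = some r ∧
    Fst (Denumerable.ofNat Code p.2) r.1 r.2.1 X) ?_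
  refine PC.Sig.and (PC.Sig.ofS (RE.eq (by fun_prop) (by fun_prop))) ?_
  refine PC.Sig.comp (f := fun q : (List Rc × ℕ) × Rc =>
    (Denumerable.ofNat Code q.1.2, q.2.1, q.2.2.1)) SR_fst ?_
  exact Primrec.pair (primrec_ofNatCode.comp (by fun_prop)) (by fun_prop)

theorem SR_outC : SR (fun (D : List Rc) X => OutC D X) := by
  unfold OutC
  refine PC.Sig.ex (R := fun (D : List Rc) (i : ℕ) X => ∃ (r : Rc), D[i]? = some r ∧
    X i = !r.2.2) ?_
  refine PC.Sig.ex (R := fun (p : List Rc × ℕ) (r : Rc) X => p.1[p.2]? = some r ∧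
    X p.2 = !r.2.2) ?_
  exact PC.Sig.and (PC.Sig.ofS (RE.eq (by fun_prop) (by fun_prop)))
    (PC.Sig.bit (by fun_prop) (by fun_prop))

theorem res_eq_iff (X : ℕ → Bool) (j : ℕ) (L : List Bool) :
    res X j = L ↔ L.length = j ∧ ∀ k < j, X k = L.getD k false := by
  constructor
  · rintro rfl
    refine ⟨by simp, fun k hk => ?_⟩
    rw [List.getD_eq_getElem?_getD, getElem?_res, if_pos hk]; rfl
  · rintro ⟨rfl, h⟩
    apply List.ext_getElem?
    intro k
    rw [getElem?_res]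
    by_cases hk : k < L.length
    · rw [if_pos hk, h k hk, List.getElem?_eq_getElem hk]
      simp [List.getD_eq_getElem?_getD, hk]
    · rw [if_neg hk, List.getElem?_eq_none (not_lt.1 hk)]

theorem SR_outD : SR (fun (p : Code × List Rc × ℕ) W => OutD p.1 p.2.1 p.2.2 (ev W) (od W)) := by
  have h : SR (fun (p : Code × List Rc × ℕ) W => ∃ (i j : ℕ) (L : List Bool) (b : Bool),
      (i < p.2.2 ∧ L.length = j) ∧ (∀ k < j, ev W (Nat.pair i k) = L.getD k false) ∧
        od W (Nat.pair i (pos p.1 (p.2.1.take i) L)) = b ∧ ev W (Nat.pair i j) = !b) := by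
    refine PC.Sig.ex (R := fun (p : Code × List Rc × ℕ) (i : ℕ) W => ∃ (j : ℕ) (L : List Bool)
      (b : Bool), (i < p.2.2 ∧ L.length = j) ∧ (∀ k < j, ev W (Nat.pair i k) = L.getD k false) ∧
        od W (Nat.pair i (pos p.1 (p.2.1.take i) L)) = b ∧ ev W (Nat.pair i j) = !b) ?_
    refine PC.Sig.ex (R := fun (p : (Code × List Rc × ℕ) × ℕ) (j : ℕ) W => ∃ (L : List Bool)
      (b : Bool), (p.2 < p.1.2.2 ∧ L.length = j) ∧
        (∀ k < j, ev W (Nat.pair p.2 k) = L.getD k false) ∧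
        od W (Nat.pair p.2 (pos p.1.1 (p.1.2.1.take p.2) L)) = b ∧
        ev W (Nat.pair p.2 j) = !b) ?_
    refine PC.Sig.ex (R := fun (p : ((Code × List Rc × ℕ) × ℕ) × ℕ) (L : List Bool) W => ∃
      (b : Bool), (p.1.2 < p.1.1.2.2 ∧ L.length = p.2) ∧
        (∀ k < p.2, ev W (Nat.pair p.1.2 k) = L.getD k false) ∧
        od W (Nat.pair p.1.2 (pos p.1.1.1 (p.1.1.2.1.take p.1.2) L)) = b ∧
        ev W (Nat.pair p.1.2 p.2) = !b) ?_
    refine PC.Sig.ex (R := fun (p : (((Code × List Rc × ℕ) × ℕ) × ℕ) × List Bool) (b : Bool) W =>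
        (p.1.1.2 < p.1.1.1.2.2 ∧ p.2.length = p.1.2) ∧
        (∀ k < p.1.2, ev W (Nat.pair p.1.1.2 k) = p.2.getD k false) ∧
        od W (Nat.pair p.1.1.2 (pos p.1.1.1.1 (p.1.1.1.2.1.take p.1.1.2) p.2)) = b ∧
        ev W (Nat.pair p.1.1.2 p.1.2) = !b) ?_
    refine PC.Sig.and (PC.Sig.ofS (RE.and (RE.lt (by fun_prop) (by fun_prop))
      (RE.eq (by fun_prop) (by fun_prop)))) (PC.Sig.and ?_ (PC.Sig.and ?_ ?_))
    · refine PC.Sig.ball (R := fun (p : ((((Code × List Rc × ℕ) × ℕ) × ℕ) × List Bool) × Bool)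
        k W => ev W (Nat.pair p.1.1.1.2 k) = p.1.2.getD k false) (f := fun p => p.1.1.2)
        (by fun_prop) ?_
      exact SR_ev (primrec_natPair (by fun_prop) (by fun_prop)) (by fun_prop)
    · exact SR_od (primrec_natPair (by fun_prop)
        (primrec_pos (by fun_prop) (by fun_prop) (by fun_prop))) (by fun_prop)
    · exact SR_ev (primrec_natPair (by fun_prop) (by fun_prop)) (by fun_prop)
  refine PC.Sig.of_eq h fun p W => ?_
  unfold OutD
  constructor
  · rintro ⟨i, j, h1, b, h2, h3⟩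
    refine ⟨i, j, res (col i (ev W)) j, b, ⟨h1, by simp⟩, ?_, h2, h3⟩
    exact ((res_eq_iff (col i (ev W)) j _).1 rfl).2
  · rintro ⟨i, j, L, b, ⟨h1, h4⟩, h5, h2, h3⟩
    refine ⟨i, j, h1, b, ?_, h3⟩
    rw [(res_eq_iff (col i (ev W)) j L).2 ⟨h4, h5⟩]; exact h2

theorem SR_outE : SR (fun (p : Code × List Rc × ℕ × List Bool) X =>
    OutE p.1 p.2.1 p.2.2.1 p.2.2.2 X) := by
  unfold OutE
  refine PC.Sig.ex (R := fun (p : Code × List Rc × ℕ × List Bool) (j : ℕ) X => ∃ (b : Bool),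
    p.2.2.2[j]? = some b ∧ X (Nat.pair p.2.2.1 (pos p.1 p.2.1 (p.2.2.2.take j))) = !b) ?_
  refine PC.Sig.ex (R := fun (q : (Code × List Rc × ℕ × List Bool) × ℕ) (b : Bool) X =>
    q.1.2.2.2[q.2]? = some b ∧
      X (Nat.pair q.1.2.2.1 (pos q.1.1 q.1.2.1 (q.1.2.2.2.take q.2))) = !b) ?_
  refine PC.Sig.and (PC.Sig.ofS (RE.eq (by fun_prop) (by fun_prop))) (PC.Sig.bit ?_ (by fun_prop))
  exact primrec_natPair (by fun_prop) (primrec_pos (by fun_prop) (by fun_prop) (by fun_prop))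

theorem SR_out : SR (fun (p : Code × List Rc × ℕ × List Bool) W =>
    Out p.1 p.2.1 p.2.2.1 p.2.2.2 (ev W) (od W)) := by
  unfold Out
  refine PC.Sig.or ?_ (PC.Sig.or ?_ (PC.Sig.or ?_ (PC.Sig.or ?_ ?_)))
  · exact PC.Sig.comp (f := fun _ : Code × List Rc × ℕ × List Bool => ()) SR_outA.odd
      (by fun_prop)
  · exact PC.Sig.comp (f := fun p : Code × List Rc × ℕ × List Bool => p.2.1) SR_outB.odd
      (by fun_prop)
  · exact PC.Sig.comp (f := fun p : Code × List Rc × ℕ × List Bool => p.2.1) SR_outC.odd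
      (by fun_prop)
  · exact PC.Sig.comp (f := fun p : Code × List Rc × ℕ × List Bool => (p.1, p.2.1, p.2.2.1))
      SR_outD (by fun_prop)
  · exact SR_outE.odd

end Pool.Agent.MU
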