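import Pool.Agent.MU.Defs

/-! # Module M8: the codes of the prenex `Σ_n` sentences form a decidable set -/

set_option autoImplicit false

namespace Pool.Agent.MU

theorem Tm.code_inj {t u : Tm} (h : t.code = u.code) : t = u := by
  induction t generalizing u with
  | var i => cases u <;> simp_all [Tm.code, Nat.pair_eq_pair]
  | zero => cases u <;> simp_all [Tm.code, Nat.pair_eq_pair]
  | succ t ih =>
    cases u <;> simp only [Tm.code, Nat.pair_eq_pair] at h <;> first | (exfalso; omega) | skip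
    rw [ih h.2]
  | add t1 t2 ih1 ih2 =>
    cases u <;> simp only [Tm.code, Nat.pair_eq_pair] at h <;> first | (exfalso; omega) | skip
    rw [ih1 h.2.1, ih2 h.2.2]
  | mul t1 t2 ih1 ih2 =>
    cases u <;> simp only [Tm.code, Nat.pair_eq_pair] at h <;> first | (exfalso; omega) | skip
    rw [ih1 h.2.1, ih2 h.2.2]

theorem code_inj {f g : Fm} (h : f.code = g.code) : f = g := by
  induction f generalizing g with
  | eq t u =>
    cases g <;> simp only [Fm.code, Nat.pair_eq_pair] at h <;> first | (exfalso; omega) | skip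
    rw [Tm.code_inj h.2.1, Tm.code_inj h.2.2]
  | lt t u =>
    cases g <;> simp only [Fm.code, Nat.pair_eq_pair] at h <;> first | (exfalso; omega) | skip
    rw [Tm.code_inj h.2.1, Tm.code_inj h.2.2]
  | neg f ih =>
    cases g <;> simp only [Fm.code, Nat.pair_eq_pair] at h <;> first | (exfalso; omega) | skip
    rw [ih h.2]
  | and f1 f2 ih1 ih2 =>
    cases g <;> simp only [Fm.code, Nat.pair_eq_pair] at h <;> first | (exfalso; omega) | skip
    rw [ih1 h.2.1, ih2 h.2.2]
  | or f1 f2 ih1 ih2 =>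
    cases g <;> simp only [Fm.code, Nat.pair_eq_pair] at h <;> first | (exfalso; omega) | skip
    rw [ih1 h.2.1, ih2 h.2.2]
  | all f ih =>
    cases g <;> simp only [Fm.code, Nat.pair_eq_pair] at h <;> first | (exfalso; omega) | skip
    rw [ih h.2]
  | ex f ih =>
    cases g <;> simp only [Fm.code, Nat.pair_eq_pair] at h <;> first | (exfalso; omega) | skip
    rw [ih h.2]

/-! ## Course of values recursion along codes -/

section

variable {σ : Type} (z : σ) (G : ℕ → ℕ → σ → σ → σ → σ)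

/-- Course of values recursion. -/
def cvr (i : ℕ) : σ :=
  G i.unpair.1 i.unpair.2
    (if _h : i.unpair.2 < i then cvr i.unpair.2 else z)
    (if _h : i.unpair.2.unpair.1 < i then cvr i.unpair.2.unpair.1 else z)
    (if _h : i.unpair.2.unpair.2 < i then cvr i.unpair.2.unpair.2 else z)
termination_by i

theorem cvr_pair {k m : ℕ} (hk : 0 < k) : cvr z G (Nat.pair k m) =
    G k m (cvr z G m) (cvr z G m.unpair.1) (cvr z G m.unpair.2) := by
  have h : m < Nat.pair k m := by
    unfold Nat.pair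
    split_ifs with h'
    · nlinarith
    · nlinarith
  rw [cvr]
  simp only [Nat.unpair_pair]
  rw [dif_pos h, dif_pos (lt_of_le_of_lt (Nat.unpair_left_le m) h),
    dif_pos (lt_of_le_of_lt (Nat.unpair_right_le m) h)]

theorem cvr_pair_zero (m : ℕ) : ∃ x y w, cvr z G (Nat.pair 0 m) = G 0 m x y w := by
  rw [cvr]
  simp only [Nat.unpair_pair]
  exact ⟨_, _, _, rfl⟩

theorem cvr_primrec [Primcodable σ]
    (hG : Primrec fun p : ℕ × ℕ × σ × σ × σ => G p.1 p.2.1 p.2.2.1 p.2.2.2.1 p.2.2.2.2) :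
    Primrec (cvr z G) := by
  have h2 : Primrec₂ (fun (_ : Unit) (i : ℕ) => cvr z G i) := by
    refine Primrec.nat_strong_rec _ (g := fun _ l => some (G l.length.unpair.1 l.length.unpair.2
      (l.getD l.length.unpair.2 z) (l.getD l.length.unpair.2.unpair.1 z)
      (l.getD l.length.unpair.2.unpair.2 z))) ?_ ?_
    · have hl : Primrec (fun p : Unit × List σ => p.2.length) := Primrec.list_length.comp Primrec.snd
      have hu : Primrec (fun p : Unit × List σ => p.2.length.unpair) := Primrec.unpair.comp hl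
      have hu1 : Primrec (fun p : Unit × List σ => p.2.length.unpair.1) := Primrec.fst.comp hu
      have hu2 : Primrec (fun p : Unit × List σ => p.2.length.unpair.2) := Primrec.snd.comp hu
      have hv : Primrec (fun p : Unit × List σ => p.2.length.unpair.2.unpair) :=
        Primrec.unpair.comp hu2
      have hv1 : Primrec (fun p : Unit × List σ => p.2.length.unpair.2.unpair.1) :=
        Primrec.fst.comp hv
      have hv2 : Primrec (fun p : Unit × List σ => p.2.length.unpair.2.unpair.2) :=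
        Primrec.snd.comp hv
      have g1 := (Primrec.list_getD z).comp Primrec.snd hu2
      have g2 := (Primrec.list_getD z).comp Primrec.snd hv1
      have g3 := (Primrec.list_getD z).comp Primrec.snd hv2
      exact Primrec.option_some.comp (hG.comp (hu1.pair (hu2.pair (g1.pair (g2.pair g3)))))
    · intro _ n
      rw [cvr]
      simp only [List.length_map, List.length_range, Option.some.injEq]
      have key : ∀ j, ((List.range n).map (cvr z G)).getD j z =
          if _h : j < n then cvr z G j else z := by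
        intro j
        split_ifs with h
        · simp [List.getD_eq_getElem?_getD, h]
        · simp [List.getD_eq_getElem?_getD, h]
      rw [key, key, key]
  exact h2.comp (Primrec.const ()) Primrec.id

end

/-! ## The information on a formula -/

/-- Bound for the variables. -/
def Tm.mxv : Tm → ℕ
  | .var i => i + 1
  | .zero => 0
  | .succ t => t.mxv
  | .add t u => max t.mxv u.mxv
  | .mul t u => max t.mxv u.mxv

theorem Tm.closed_iff_mxv (n : ℕ) (t : Tm) : t.closed n ↔ t.mxv ≤ n := by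
  induction t with
  | var i => simp only [Tm.closed, Tm.mxv]; omega
  | zero => simp [Tm.closed, Tm.mxv]
  | succ t ih => simp [Tm.closed, Tm.mxv, ih]
  | add t u ih1 ih2 => simp [Tm.closed, Tm.mxv, ih1, ih2]
  | mul t u ih1 ih2 => simp [Tm.closed, Tm.mxv, ih1, ih2]

/-- Bound for the free variables. -/
def Fm.mxv : Fm → ℕ
  | .eq t u => max t.mxv u.mxv
  | .lt t u => max t.mxv u.mxv
  | .neg f => f.mxv
  | .and f g => max f.mxv g.mxv
  | .or f g => max f.mxv g.mxv
  | .all f => f.mxv - 1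
  | .ex f => f.mxv - 1

theorem Fm.closed_iff_mxv (n : ℕ) (f : Fm) : f.closed n ↔ f.mxv ≤ n := by
  induction f generalizing n with
  | eq t u => simp [Fm.closed, Fm.mxv, Tm.closed_iff_mxv]
  | lt t u => simp [Fm.closed, Fm.mxv, Tm.closed_iff_mxv]
  | neg f ih => simp [Fm.closed, Fm.mxv, ih]
  | and f g ih1 ih2 => simp [Fm.closed, Fm.mxv, ih1, ih2]
  | or f g ih1 ih2 => simp [Fm.closed, Fm.mxv, ih1, ih2]
  | all f ih => simp [Fm.closed, Fm.mxv, ih]
  | ex f ih => simp [Fm.closed, Fm.mxv, ih]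

/-- The class `K` of matrices is determined by the tests `cA`, `cE` under the quantifiers. -/
structure Base (K : Fm → Prop) (cA cE : Fm → Bool) : Prop where
  eq : ∀ t u, K (.eq t u)
  lt : ∀ t u, K (.lt t u)
  neg : ∀ f, K (.neg f) ↔ K f
  and : ∀ f g, K (.and f g) ↔ K f ∧ K g
  or : ∀ f g, K (.or f g) ↔ K f ∧ K g
  all : ∀ f, K (.all f) ↔ cA f = true ∧ K f
  ex : ∀ f, K (.ex f) ↔ cE f = true ∧ K f

/-- (Least `n` such that the formula is prenex `Σ_n`) `+ 1`, the same for `Π_n`; 0 if the formula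
is not prenex. -/
def Fm.lv (cA cE : Fm → Bool) : Fm → ℕ × ℕ
  | .eq _ _ => (1, 1)
  | .lt _ _ => (1, 1)
  | .neg f => if (f.lv cA cE).1 = 1 then (1, 1) else (0, 0)
  | .and f g => if (f.lv cA cE).1 = 1 ∧ (g.lv cA cE).1 = 1 then (1, 1) else (0, 0)
  | .or f g => if (f.lv cA cE).1 = 1 ∧ (g.lv cA cE).1 = 1 then (1, 1) else (0, 0)
  | .all f => if cA f = true ∧ (f.lv cA cE).1 = 1 then (1, 1) else
      if (f.lv cA cE).2 = 0 then (0, 0) else (max 2 (f.lv cA cE).2 + 1, max 2 (f.lv cA cE).2)
  | .ex f => if cE f = true ∧ (f.lv cA cE).1 = 1 then (1, 1) else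
      if (f.lv cA cE).1 = 0 then (0, 0) else (max 2 (f.lv cA cE).1, max 2 (f.lv cA cE).1 + 1)

section Base

variable {K : Fm → Prop} {cA cE : Fm → Bool} (hK : Base K cA cE)

include hK

theorem Base.lv_facts (f : Fm) : (K f ↔ (f.lv cA cE).1 = 1) ∧ (K f ↔ (f.lv cA cE).2 = 1) ∧
    ((f.lv cA cE).1 = 0 ↔ (f.lv cA cE).2 = 0) ∧ (f.lv cA cE).1 ≤ (f.lv cA cE).2 + 1 ∧
    (f.lv cA cE).2 ≤ (f.lv cA cE).1 + 1 := by
  induction f with
  | eq t u => simp [Fm.lv, hK.eq]
  | lt t u => simp [Fm.lv, hK.lt]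
  | neg f ih => simp only [hK.neg, Fm.lv]; split_ifs <;> simp_all
  | and f g ih1 ih2 => simp only [hK.and, Fm.lv]; split_ifs <;> simp_all
  | or f g ih1 ih2 => simp only [hK.or, Fm.lv]; split_ifs <;> simp_all
  | all f ih =>
    simp only [hK.all, Fm.lv]
    split_ifs with h1 h2
    · simp [h1, ih.1]
    · simp only [ih.1]
      simp [h1]
    · simp only [ih.1]
      refine ⟨⟨fun h => absurd h h1, fun h => absurd h ?_⟩,
        ⟨fun h => absurd h h1, fun h => absurd h ?_⟩, by simp, ?_, ?_⟩ <;>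
        omega
  | ex f ih =>
    simp only [hK.ex, Fm.lv]
    split_ifs with h1 h2
    · simp [h1, ih.1]
    · simp only [ih.1]
      simp [h1]
    · simp only [ih.1]
      refine ⟨⟨fun h => absurd h h1, fun h => absurd h ?_⟩,
        ⟨fun h => absurd h h1, fun h => absurd h ?_⟩, by simp, ?_, ?_⟩ <;>
        omega

theorem Base.prenex_iff (b : Bool) (n : ℕ) (f : Fm) : Prenex K b n f ↔
    (if b then (f.lv cA cE).1 else (f.lv cA cE).2) ≠ 0 ∧
      (if b then (f.lv cA cE).1 else (f.lv cA cE).2) ≤ n + 1 := by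
  constructor
  · intro h
    induction h with
    | @base b n f hf =>
      have h1 := ((hK.lv_facts f).1).1 hf
      have h2 := ((hK.lv_facts f).2.1).1 hf
      rw [h1, h2]
      simp
    | @ex n f hf ih =>
      simp only [if_true] at ih ⊢
      simp only [Fm.lv]
      by_cases h1 : cE f = true ∧ (f.lv cA cE).1 = 1
      · rw [if_pos h1]; simp
      · rw [if_neg h1, if_neg ih.1]
        refine ⟨by simp, ?_⟩
        simp only
        omega
    | @all n f hf ih =>
      simp only [if_false, Bool.false_eq_true] at ih ⊢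
      simp only [Fm.lv]
      by_cases h1 : cA f = true ∧ (f.lv cA cE).1 = 1
      · rw [if_pos h1]; simp
      · rw [if_neg h1, if_neg ih.1]
        refine ⟨by simp, ?_⟩
        simp only
        omega
    | @up b n f hf ih =>
      have h3 := hK.lv_facts f
      cases b <;> simp_all <;> omega
  · intro h
    induction f generalizing b n with
    | eq t u => exact .base (hK.eq t u)
    | lt t u => exact .base (hK.lt t u)
    | neg f ih =>
      refine .base ?_
      have h3 := hK.lv_facts (Fm.neg f)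
      simp only [Fm.lv] at h h3
      split_ifs at h h3 with h4 <;> simp_all
    | and f g ih1 ih2 =>
      refine .base ?_
      have h3 := hK.lv_facts (Fm.and f g)
      simp only [Fm.lv] at h h3
      split_ifs at h h3 with h4 <;> simp_all
    | or f g ih1 ih2 =>
      refine .base ?_
      have h3 := hK.lv_facts (Fm.or f g)
      simp only [Fm.lv] at h h3
      split_ifs at h h3 with h4 <;> simp_all
    | all f ih =>
      by_cases h5 : cA f = true ∧ (f.lv cA cE).1 = 1
      · exact .base ((hK.all f).2 ⟨h5.1, (hK.lv_facts f).1.2 h5.2⟩)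
      simp only [Fm.lv, if_neg h5] at h
      by_cases h4 : (f.lv cA cE).2 = 0
      · simp [h4] at h
      · simp only [if_neg h4] at h
        cases b with
        | false =>
          simp only [Bool.false_eq_true, if_false] at h
          obtain ⟨k, rfl⟩ : ∃ k, n = k + 1 := ⟨n - 1, by omega⟩
          exact .all (ih false (k + 1) ⟨by simpa using h4, by simp; omega⟩)
        | true =>
          simp only [if_true] at h
          obtain ⟨k, rfl⟩ : ∃ k, n = k + 1 + 1 := ⟨n - 2, by omega⟩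
          exact .up (.all (ih false (k + 1) ⟨by simpa using h4, by simp; omega⟩))
    | ex f ih =>
      by_cases h5 : cE f = true ∧ (f.lv cA cE).1 = 1
      · exact .base ((hK.ex f).2 ⟨h5.1, (hK.lv_facts f).1.2 h5.2⟩)
      simp only [Fm.lv, if_neg h5] at h
      by_cases h4 : (f.lv cA cE).1 = 0
      · simp [h4] at h
      · simp only [if_neg h4] at h
        cases b with
        | true =>
          simp only [if_true] at h
          obtain ⟨k, rfl⟩ : ∃ k, n = k + 1 := ⟨n - 1, by omega⟩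
          exact .ex (ih true (k + 1) ⟨by simpa using h4, by simp; omega⟩)
        | false =>
          simp only [Bool.false_eq_true, if_false] at h
          obtain ⟨k, rfl⟩ : ∃ k, n = k + 1 + 1 := ⟨n - 2, by omega⟩
          exact .up (.ex (ih true (k + 1) ⟨by simpa using h4, by simp; omega⟩))

end Base

/-- The step of the recursion; the values are (kind, bound, level, level), kind 0 no code, 1 term,
2 formula. -/
def gst (nA nE : ℕ → Bool) (k m : ℕ) (x y z : ℕ × ℕ × ℕ × ℕ) : ℕ × ℕ × ℕ × ℕ :=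
  if k = 0 then (1, m + 1, 0, 0)
  else if k = 1 then (if m = 0 then (1, 0, 0, 0) else (0, 0, 0, 0))
  else if k = 2 then (if x.1 = 1 then (1, x.2.1, 0, 0) else (0, 0, 0, 0))
  else if k ≤ 4 then (if y.1 = 1 ∧ z.1 = 1 then (1, max y.2.1 z.2.1, 0, 0) else (0, 0, 0, 0))
  else if k ≤ 6 then (if y.1 = 1 ∧ z.1 = 1 then (2, max y.2.1 z.2.1, 1, 1) else (0, 0, 0, 0))
  else if k = 7 then (if x.1 = 2 then (2, x.2.1, if x.2.2.1 = 1 then (1, 1) else (0, 0))
    else (0, 0, 0, 0))
  else if k ≤ 9 then (if y.1 = 2 ∧ z.1 = 2 then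
    (2, max y.2.1 z.2.1, if y.2.2.1 = 1 ∧ z.2.2.1 = 1 then (1, 1) else (0, 0)) else (0, 0, 0, 0))
  else if k = 10 then (if x.1 = 2 then (2, x.2.1 - 1,
    if nA m = true ∧ x.2.2.1 = 1 then (1, 1) else if x.2.2.2 = 0 then (0, 0) else
    (max 2 x.2.2.2 + 1, max 2 x.2.2.2)) else (0, 0, 0, 0))
  else if k = 11 then (if x.1 = 2 then (2, x.2.1 - 1,
    if nE m = true ∧ x.2.2.1 = 1 then (1, 1) else if x.2.2.1 = 0 then (0, 0) else
    (max 2 x.2.2.1, max 2 x.2.2.1 + 1)) else (0, 0, 0, 0))
  else (0, 0, 0, 0)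

section info

variable (nA nE : ℕ → Bool)

/-- The information on a number. -/
def info : ℕ → ℕ × ℕ × ℕ × ℕ := cvr (0, 0, 0, 0) (gst nA nE)

theorem info_pair {k m : ℕ} (hk : 0 < k) : info nA nE (Nat.pair k m) =
    gst nA nE k m (info nA nE m) (info nA nE m.unpair.1) (info nA nE m.unpair.2) :=
  cvr_pair _ _ hk

theorem info_tm (t : Tm) : info nA nE t.code = (1, t.mxv, 0, 0) := by
  induction t with
  | var i =>
    obtain ⟨x, y, w, h⟩ := cvr_pair_zero (0, 0, 0, 0) (gst nA nE) i
    simp only [Tm.code, info, h]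
    simp [gst, Tm.mxv]
  | zero => rw [Tm.code, info_pair _ _ (by norm_num)]; simp [gst, Tm.mxv]
  | succ t ih => rw [Tm.code, info_pair _ _ (by norm_num)]; simp [gst, Tm.mxv, ih]
  | add t u ih1 ih2 => rw [Tm.code, info_pair _ _ (by norm_num)]; simp [gst, Tm.mxv, ih1, ih2]
  | mul t u ih1 ih2 => rw [Tm.code, info_pair _ _ (by norm_num)]; simp [gst, Tm.mxv, ih1, ih2]

theorem info_fm {cA cE : Fm → Bool} (hA : ∀ f : Fm, nA f.code = cA f)
    (hE : ∀ f : Fm, nE f.code = cE f) (f : Fm) :
    info nA nE f.code = (2, f.mxv, f.lv cA cE) := by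
  induction f with
  | eq t u => rw [Fm.code, info_pair _ _ (by norm_num)]; simp [gst, Fm.mxv, Fm.lv, info_tm]
  | lt t u => rw [Fm.code, info_pair _ _ (by norm_num)]; simp [gst, Fm.mxv, Fm.lv, info_tm]
  | neg f ih => rw [Fm.code, info_pair _ _ (by norm_num)]; simp [gst, Fm.mxv, Fm.lv, ih]
  | and f g ih1 ih2 =>
    rw [Fm.code, info_pair _ _ (by norm_num)]; simp [gst, Fm.mxv, Fm.lv, ih1, ih2]
  | or f g ih1 ih2 =>
    rw [Fm.code, info_pair _ _ (by norm_num)]; simp [gst, Fm.mxv, Fm.lv, ih1, ih2]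
  | all f ih => rw [Fm.code, info_pair _ _ (by norm_num)]; simp [gst, Fm.mxv, Fm.lv, ih, hA]
  | ex f ih => rw [Fm.code, info_pair _ _ (by norm_num)]; simp [gst, Fm.mxv, Fm.lv, ih, hE]

theorem of_info (i : ℕ) : ((info nA nE i).1 = 1 → ∃ t : Tm, t.code = i) ∧
    ((info nA nE i).1 = 2 → ∃ f : Fm, f.code = i) := by
  induction i using Nat.strong_induction_on with
  | _ i ih =>
    obtain ⟨k, m, rfl⟩ : ∃ k m, i = Nat.pair k m := ⟨_, _, (Nat.pair_unpair i).symm⟩
    rcases Nat.eq_zero_or_pos k with rfl | hk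
    · obtain ⟨x, y, w, h⟩ := cvr_pair_zero (0, 0, 0, 0) (gst nA nE) m
      simp only [info, h]
      simp only [gst, if_true]
      exact ⟨fun _ => ⟨.var m, rfl⟩, fun h => absurd h (by norm_num)⟩
    · have h : m < Nat.pair k m := by
        unfold Nat.pair
        split_ifs with h'
        · nlinarith
        · nlinarith
      have e0 := ih m h
      have e1 := ih m.unpair.1 (lt_of_le_of_lt (Nat.unpair_left_le m) h)
      have e2 := ih m.unpair.2 (lt_of_le_of_lt (Nat.unpair_right_le m) h)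
      have em := Nat.pair_unpair m
      rw [info_pair _ _ hk]
      generalize info nA nE m = x at *
      generalize info nA nE m.unpair.1 = y at *
      generalize info nA nE m.unpair.2 = z at *
      generalize m.unpair.1 = a at *
      generalize m.unpair.2 = b at *
      clear ih h
      subst em
      by_cases h12 : k < 12
      · interval_cases k
        · simp only [gst]
          by_cases h : Nat.pair a b = 0
          · simp only [h]
            exact ⟨fun _ => ⟨.zero, rfl⟩, fun h => by simp at h⟩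
          · simp [h]
        · by_cases h : x.1 = 1
          · obtain ⟨t, ht⟩ := e0.1 h
            simp only [gst, h, ← ht]
            exact ⟨fun _ => ⟨.succ t, rfl⟩, fun h => by simp at h⟩
          · simp [gst, h]
        · by_cases h : y.1 = 1 ∧ z.1 = 1
          · obtain ⟨t, ht⟩ := e1.1 h.1
            obtain ⟨u, hu⟩ := e2.1 h.2
            simp only [gst, h, ← ht, ← hu]
            exact ⟨fun _ => ⟨.add t u, rfl⟩, fun h => by simp at h⟩
          · simp [gst, h]
        · by_cases h : y.1 = 1 ∧ z.1 = 1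
          · obtain ⟨t, ht⟩ := e1.1 h.1
            obtain ⟨u, hu⟩ := e2.1 h.2
            simp only [gst, h, ← ht, ← hu]
            exact ⟨fun _ => ⟨.mul t u, rfl⟩, fun h => by simp at h⟩
          · simp [gst, h]
        · by_cases h : y.1 = 1 ∧ z.1 = 1
          · obtain ⟨t, ht⟩ := e1.1 h.1
            obtain ⟨u, hu⟩ := e2.1 h.2
            simp only [gst, h, ← ht, ← hu]
            exact ⟨fun h => by simp at h, fun _ => ⟨.eq t u, rfl⟩⟩
          · simp [gst, h]
        · by_cases h : y.1 = 1 ∧ z.1 = 1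
          · obtain ⟨t, ht⟩ := e1.1 h.1
            obtain ⟨u, hu⟩ := e2.1 h.2
            simp only [gst, h, ← ht, ← hu]
            exact ⟨fun h => by simp at h, fun _ => ⟨.lt t u, rfl⟩⟩
          · simp [gst, h]
        · by_cases h : x.1 = 2
          · obtain ⟨t, ht⟩ := e0.2 h
            simp only [gst, h, ← ht]
            exact ⟨fun h => by simp at h, fun _ => ⟨.neg t, rfl⟩⟩
          · simp [gst, h]
        · by_cases h : y.1 = 2 ∧ z.1 = 2
          · obtain ⟨t, ht⟩ := e1.2 h.1
            obtain ⟨u, hu⟩ := e2.2 h.2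
            simp only [gst, h, ← ht, ← hu]
            exact ⟨fun h => by simp at h, fun _ => ⟨.and t u, rfl⟩⟩
          · simp [gst, h]
        · by_cases h : y.1 = 2 ∧ z.1 = 2
          · obtain ⟨t, ht⟩ := e1.2 h.1
            obtain ⟨u, hu⟩ := e2.2 h.2
            simp only [gst, h, ← ht, ← hu]
            exact ⟨fun h => by simp at h, fun _ => ⟨.or t u, rfl⟩⟩
          · simp [gst, h]
        · by_cases h : x.1 = 2
          · obtain ⟨t, ht⟩ := e0.2 h
            simp only [gst, h, ← ht]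
            exact ⟨fun h => by simp at h, fun _ => ⟨.all t, rfl⟩⟩
          · simp [gst, h]
        · by_cases h : x.1 = 2
          · obtain ⟨t, ht⟩ := e0.2 h
            simp only [gst, h, ← ht]
            exact ⟨fun h => by simp at h, fun _ => ⟨.ex t, rfl⟩⟩
          · simp [gst, h]
      · unfold gst
        rw [if_neg (by omega), if_neg (by omega), if_neg (by omega), if_neg (by omega),
          if_neg (by omega), if_neg (by omega), if_neg (by omega), if_neg (by omega),
          if_neg (by omega)]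
        simp

end info

theorem gst_primrec {nA nE : ℕ → Bool} (hnA : Primrec nA) (hnE : Primrec nE) : Primrec fun p : ℕ × ℕ × (ℕ × ℕ × ℕ × ℕ) × (ℕ × ℕ × ℕ × ℕ) ×
    (ℕ × ℕ × ℕ × ℕ) => gst nA nE p.1 p.2.1 p.2.2.1 p.2.2.2.1 p.2.2.2.2 := by
  have hk : Primrec fun p : ℕ × ℕ × (ℕ × ℕ × ℕ × ℕ) × (ℕ × ℕ × ℕ × ℕ) × (ℕ × ℕ × ℕ × ℕ) =>
    p.1 := Primrec.fst
  have hm : Primrec fun p : ℕ × ℕ × (ℕ × ℕ × ℕ × ℕ) × (ℕ × ℕ × ℕ × ℕ) × (ℕ × ℕ × ℕ × ℕ) =>
    p.2.1 := Primrec.fst.comp Primrec.snd
  have hr : Primrec fun p : ℕ × ℕ × (ℕ × ℕ × ℕ × ℕ) × (ℕ × ℕ × ℕ × ℕ) × (ℕ × ℕ × ℕ × ℕ) =>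
    p.2.2 := Primrec.snd.comp Primrec.snd
  have hx := Primrec.fst.comp hr
  have hyz := Primrec.snd.comp hr
  have hy := Primrec.fst.comp hyz
  have hz := Primrec.snd.comp hyz
  have hx1 := Primrec.fst.comp hx
  have hx2 := Primrec.fst.comp (Primrec.snd.comp hx)
  have hx3 := Primrec.fst.comp (Primrec.snd.comp (Primrec.snd.comp hx))
  have hx4 := Primrec.snd.comp (Primrec.snd.comp (Primrec.snd.comp hx))
  have hy1 := Primrec.fst.comp hy
  have hy2 := Primrec.fst.comp (Primrec.snd.comp hy)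
  have hy3 := Primrec.fst.comp (Primrec.snd.comp (Primrec.snd.comp hy))
  have hz1 := Primrec.fst.comp hz
  have hz2 := Primrec.fst.comp (Primrec.snd.comp hz)
  have hz3 := Primrec.fst.comp (Primrec.snd.comp (Primrec.snd.comp hz))
  have e := fun (k : ℕ) => PrimrecPred.comp (p := fun m => m = k)
    (Primrec.eq.comp Primrec.id (Primrec.const k)) hk
  have l := fun (k : ℕ) => PrimrecPred.comp (p := fun m => m ≤ k)
    (Primrec.nat_le.comp Primrec.id (Primrec.const k)) hk
  have z0 := Primrec.const (α := ℕ × ℕ × (ℕ × ℕ × ℕ × ℕ) × (ℕ × ℕ × ℕ × ℕ) × (ℕ × ℕ × ℕ × ℕ))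
    ((0, 0, 0, 0) : ℕ × ℕ × ℕ × ℕ)
  have c := fun (k : ℕ) => Primrec.const
    (α := ℕ × ℕ × (ℕ × ℕ × ℕ × ℕ) × (ℕ × ℕ × ℕ × ℕ) × (ℕ × ℕ × ℕ × ℕ)) k
  have q := fun (k : ℕ) => Primrec.const
    (α := ℕ × ℕ × (ℕ × ℕ × ℕ × ℕ) × (ℕ × ℕ × ℕ × ℕ) × (ℕ × ℕ × ℕ × ℕ)) (k, k)
  have hyz1 := fun k : ℕ => ((Primrec.eq.comp hy1 (c k))).and ((Primrec.eq.comp hz1 (c k)))
  have hyz3 := fun k : ℕ => ((Primrec.eq.comp hy3 (c k))).and ((Primrec.eq.comp hz3 (c k)))
  have ex1 := fun k : ℕ => Primrec.eq.comp hx1 (c k)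
  have ex3 := fun k : ℕ => Primrec.eq.comp hx3 (c k)
  have ex4 := fun k : ℕ => Primrec.eq.comp hx4 (c k)
  have m4 := Primrec.nat_max.comp (c 2) hx4
  have m3 := Primrec.nat_max.comp (c 2) hx3
  have mx := Primrec.nat_max.comp hy2 hz2
  unfold gst
  refine Primrec.ite (e 0) ((c 1).pair ((Primrec.succ.comp hm).pair (q 0))) ?_
  refine Primrec.ite (e 1) (Primrec.ite (Primrec.eq.comp hm (c 0)) (Primrec.const _) z0) ?_
  refine Primrec.ite (e 2) (Primrec.ite (ex1 1) ((c 1).pair (hx2.pair (q 0))) z0) ?_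
  refine Primrec.ite (l 4) (Primrec.ite (hyz1 1) ((c 1).pair (mx.pair (q 0))) z0) ?_
  refine Primrec.ite (l 6) (Primrec.ite (hyz1 1) ((c 2).pair (mx.pair (q 1))) z0) ?_
  refine Primrec.ite (e 7) (Primrec.ite (ex1 2) ((c 2).pair (hx2.pair
    (Primrec.ite (ex3 1) (q 1) (q 0)))) z0) ?_
  refine Primrec.ite (l 9) (Primrec.ite (hyz1 2) ((c 2).pair (mx.pair
    (Primrec.ite (hyz3 1) (q 1) (q 0)))) z0) ?_
  refine Primrec.ite (e 10) (Primrec.ite (ex1 2) ((c 2).pair ((Primrec.nat_sub.comp hx2 (c 1)).pair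
    (Primrec.ite ((Primrec.eq.comp (hnA.comp hm) (Primrec.const true)).and (ex3 1)) (q 1)
      (Primrec.ite (ex4 0) (q 0) ((Primrec.succ.comp m4).pair m4))))) z0) ?_
  exact Primrec.ite (e 11) (Primrec.ite (ex1 2) ((c 2).pair ((Primrec.nat_sub.comp hx2 (c 1)).pair
    (Primrec.ite ((Primrec.eq.comp (hnE.comp hm) (Primrec.const true)).and (ex3 1)) (q 1)
      (Primrec.ite (ex3 0) (q 0) (m3.pair (Primrec.succ.comp m3)))))) z0) z0

/-- The codes of the closed prenex `Σ_n` formulas with matrix in `K` form a decidable set. -/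
def CodesDec (K : Fm → Prop) : Prop := ∀ n : ℕ, ∃ f : ℕ → Bool, Computable f ∧
    ∀ i, f i = true ↔ ∃ φ : Fm, φ.closed 0 ∧ Prenex K true n φ ∧ φ.code = i

theorem Base.codesDec {K : Fm → Prop} {cA cE : Fm → Bool} (hK : Base K cA cE)
    {nA nE : ℕ → Bool} (hnA : Primrec nA) (hnE : Primrec nE)
    (hA : ∀ f : Fm, nA f.code = cA f) (hE : ∀ f : Fm, nE f.code = cE f) : CodesDec K := by
  intro n
  have hp : Primrec (info nA nE) := cvr_primrec _ _ (gst_primrec hnA hnE)
  refine ⟨fun i => decide ((info nA nE i).1 = 2) && (decide ((info nA nE i).2.1 = 0) &&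
    (decide ((info nA nE i).2.2.1 ≠ 0) && decide ((info nA nE i).2.2.1 ≤ n + 1))), ?_, ?_⟩
  · apply Primrec.to_comp
    have h1 : Primrec fun i => (info nA nE i).1 := Primrec.fst.comp hp
    have h2 : Primrec fun i => (info nA nE i).2.1 := Primrec.fst.comp (Primrec.snd.comp hp)
    have h3 : Primrec fun i => (info nA nE i).2.2.1 :=
      Primrec.fst.comp (Primrec.snd.comp (Primrec.snd.comp hp))
    have e1 : PrimrecPred fun i => (info nA nE i).1 = 2 := Primrec.eq.comp h1 (Primrec.const 2)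
    have e2 : PrimrecPred fun i => (info nA nE i).2.1 = 0 := Primrec.eq.comp h2 (Primrec.const 0)
    have e3 : PrimrecPred fun i => (info nA nE i).2.2.1 ≠ 0 :=
      (Primrec.eq.comp h3 (Primrec.const 0)).not
    have e4 : PrimrecPred fun i => (info nA nE i).2.2.1 ≤ n + 1 :=
      Primrec.nat_le.comp h3 (Primrec.const (n + 1))
    exact Primrec.and.comp e1.decide (Primrec.and.comp e2.decide
      (Primrec.and.comp e3.decide e4.decide))
  · intro i
    simp only [Bool.and_eq_true, decide_eq_true_eq]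
    constructor
    · rintro ⟨h1, h2, h3, h4⟩
      obtain ⟨f, rfl⟩ := (of_info nA nE i).2 h1
      rw [info_fm nA nE hA hE] at h2 h3 h4
      refine ⟨f, (Fm.closed_iff_mxv _ _).2 (le_of_eq h2), (hK.prenex_iff _ _ _).2 ?_, rfl⟩
      simpa using ⟨h3, h4⟩
    · rintro ⟨f, h1, h2, rfl⟩
      rw [info_fm nA nE hA hE]
      have h3 := (hK.prenex_iff _ _ _).1 h2
      simp only [if_true] at h3
      exact ⟨rfl, Nat.le_zero.1 ((Fm.closed_iff_mxv _ _).1 h1), h3.1, h3.2⟩

/-! ## Quantifier-free matrix -/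

theorem codesDec_qf : CodesDec Fm.qf := by
  refine Base.codesDec (cA := fun _ => false) (cE := fun _ => false) (nA := fun _ => false)
    (nE := fun _ => false) ?_ (Primrec.const _) (Primrec.const _) (fun _ => rfl) (fun _ => rfl)
  exact ⟨fun _ _ => trivial, fun _ _ => trivial, fun _ => Iff.rfl, fun _ _ => Iff.rfl,
    fun _ _ => Iff.rfl, fun f => by simp [Fm.qf], fun f => by simp [Fm.qf]⟩

/-! ## Bounded matrix -/

/-- The variable 0 does not occur. -/
def Tm.no0 : Tm → Bool
  | .var i => decide (i ≠ 0)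
  | .zero => true
  | .succ t => t.no0
  | .add t u => t.no0 && u.no0
  | .mul t u => t.no0 && u.no0

/-- The shift. -/
abbrev Tm.sh (t : Tm) : Tm := t.sub fun j => .var (j + 1)

theorem Tm.no0_sh (t : Tm) : t.sh.no0 = true := by
  induction t with
  | var i => simp [Tm.sh, Tm.sub, Tm.no0]
  | zero => rfl
  | succ t ih => exact ih
  | add t u ih1 ih2 => simp only [Tm.sh, Tm.sub, Tm.no0, Bool.and_eq_true]; exact ⟨ih1, ih2⟩
  | mul t u ih1 ih2 => simp only [Tm.sh, Tm.sub, Tm.no0, Bool.and_eq_true]; exact ⟨ih1, ih2⟩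

theorem Tm.exists_sh (t : Tm) (h : t.no0 = true) : ∃ u : Tm, t = u.sh := by
  induction t with
  | var i =>
    simp only [Tm.no0, decide_eq_true_eq] at h
    exact ⟨.var (i - 1), by simp only [Tm.sh, Tm.sub]; congr 1; omega⟩
  | zero => exact ⟨.zero, rfl⟩
  | succ t ih => obtain ⟨u, rfl⟩ := ih h; exact ⟨.succ u, rfl⟩
  | add t u ih1 ih2 =>
    simp only [Tm.no0, Bool.and_eq_true] at h
    obtain ⟨u1, rfl⟩ := ih1 h.1
    obtain ⟨u2, rfl⟩ := ih2 h.2
    exact ⟨.add u1 u2, rfl⟩
  | mul t u ih1 ih2 =>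
    simp only [Tm.no0, Bool.and_eq_true] at h
    obtain ⟨u1, rfl⟩ := ih1 h.1
    obtain ⟨u2, rfl⟩ := ih2 h.2
    exact ⟨.mul u1 u2, rfl⟩

/-- `x < t` -/
def Fm.isL : Fm → Bool
  | .lt (.var 0) t => t.no0
  | _ => false

/-- `¬ x < t` -/
def Fm.isN : Fm → Bool
  | .neg f => f.isL
  | _ => false

/-- `x < t → g` -/
def Fm.isA : Fm → Bool
  | .or f _ => f.isN
  | _ => false

/-- `x < t ∧ g` -/
def Fm.isE : Fm → Bool
  | .and f _ => f.isL
  | _ => false

theorem Fm.isL_iff (f : Fm) : f.isL = true ↔ ∃ t : Tm, f = .lt (.var 0) t.sh := by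
  constructor
  · intro h
    unfold Fm.isL at h
    split at h
    · obtain ⟨u, rfl⟩ := Tm.exists_sh _ h
      exact ⟨u, rfl⟩
    · cases h
  · rintro ⟨t, rfl⟩
    exact t.no0_sh

theorem base_bdd : Base Fm.bdd Fm.isA Fm.isE := by
  refine ⟨Fm.bdd.eq, Fm.bdd.lt, fun f => ⟨fun h => ?_, Fm.bdd.neg⟩,
    fun f g => ⟨fun h => ?_, fun h => Fm.bdd.and h.1 h.2⟩,
    fun f g => ⟨fun h => ?_, fun h => Fm.bdd.or h.1 h.2⟩, fun f => ⟨fun h => ?_, ?_⟩,
    fun f => ⟨fun h => ?_, ?_⟩⟩
  · cases h; assumption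
  · cases h; constructor <;> assumption
  · cases h; constructor <;> assumption
  · cases h with
    | all t hf =>
      refine ⟨?_, Fm.bdd.or (Fm.bdd.neg (Fm.bdd.lt _ _)) hf⟩
      show (Fm.lt (.var 0) t.sh).isL = true
      exact (Fm.isL_iff _).2 ⟨t, rfl⟩
  · rintro ⟨h1, h2⟩
    unfold Fm.isA at h1
    split at h1
    · rename_i f g
      unfold Fm.isN at h1
      split at h1
      · rename_i f
        obtain ⟨t, rfl⟩ := (Fm.isL_iff f).1 h1
        have hg : g.bdd := by cases h2; assumption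
        exact Fm.bdd.all t hg
      · cases h1
    · cases h1
  · cases h with
    | ex t hf =>
      refine ⟨?_, Fm.bdd.and (Fm.bdd.lt _ _) hf⟩
      show (Fm.lt (.var 0) t.sh).isL = true
      exact (Fm.isL_iff _).2 ⟨t, rfl⟩
  · rintro ⟨h1, h2⟩
    unfold Fm.isE at h1
    split at h1
    · rename_i f g
      obtain ⟨t, rfl⟩ := (Fm.isL_iff f).1 h1
      have hg : g.bdd := by cases h2; assumption
      exact Fm.bdd.ex t hg
    · cases h1

/-- the step for `has0` -/
def g0 (k m x y z : ℕ) : ℕ :=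
  if k = 0 then (if m = 0 then 1 else 0) else if k = 1 then 0 else if k = 2 then x else
    if k ≤ 4 then max y z else 0

/-- 1 if the variable 0 occurs in the term with the given code -/
def has0 : ℕ → ℕ := cvr 0 g0

theorem has0_pair {k m : ℕ} (hk : 0 < k) : has0 (Nat.pair k m) =
    g0 k m (has0 m) (has0 m.unpair.1) (has0 m.unpair.2) := cvr_pair _ _ hk

theorem has0_tm (t : Tm) : has0 t.code = if t.no0 = true then 0 else 1 := by
  induction t with
  | var i =>
    obtain ⟨x, y, w, h⟩ := cvr_pair_zero 0 g0 i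
    simp only [Tm.code, has0, h]
    by_cases hi : i = 0 <;> simp [Tm.no0, hi, g0]
  | zero => rw [Tm.code, has0_pair (by norm_num)]; simp [g0, Tm.no0]
  | succ t ih =>
    rw [Tm.code, has0_pair (by norm_num)]
    rcases Bool.eq_false_or_eq_true t.no0 with h1 | h1 <;> simp [g0, Tm.no0, ih, h1]
  | add t u ih1 ih2 =>
    rw [Tm.code, has0_pair (by norm_num)]
    simp only [Nat.unpair_pair, ih1, ih2, Tm.no0, g0]
    rcases Bool.eq_false_or_eq_true t.no0 with h1 | h1 <;>
      rcases Bool.eq_false_or_eq_true u.no0 with h2 | h2 <;> simp [h1, h2]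
  | mul t u ih1 ih2 =>
    rw [Tm.code, has0_pair (by norm_num)]
    simp only [Nat.unpair_pair, ih1, ih2, Tm.no0, g0]
    rcases Bool.eq_false_or_eq_true t.no0 with h1 | h1 <;>
      rcases Bool.eq_false_or_eq_true u.no0 with h2 | h2 <;> simp [h1, h2]

theorem has0_primrec : Primrec has0 := by
  refine cvr_primrec _ _ ?_
  have hk : Primrec fun p : ℕ × ℕ × ℕ × ℕ × ℕ => p.1 := Primrec.fst
  have hm : Primrec fun p : ℕ × ℕ × ℕ × ℕ × ℕ => p.2.1 := Primrec.fst.comp Primrec.snd
  have hx : Primrec fun p : ℕ × ℕ × ℕ × ℕ × ℕ => p.2.2.1 :=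
    Primrec.fst.comp (Primrec.snd.comp Primrec.snd)
  have hy : Primrec fun p : ℕ × ℕ × ℕ × ℕ × ℕ => p.2.2.2.1 :=
    Primrec.fst.comp (Primrec.snd.comp (Primrec.snd.comp Primrec.snd))
  have hz : Primrec fun p : ℕ × ℕ × ℕ × ℕ × ℕ => p.2.2.2.2 :=
    Primrec.snd.comp (Primrec.snd.comp (Primrec.snd.comp Primrec.snd))
  unfold g0
  refine Primrec.ite (Primrec.eq.comp hk (Primrec.const 0))
    (Primrec.ite (Primrec.eq.comp hm (Primrec.const 0)) (Primrec.const 1) (Primrec.const 0)) ?_
  refine Primrec.ite (Primrec.eq.comp hk (Primrec.const 1)) (Primrec.const 0) ?_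
  refine Primrec.ite (Primrec.eq.comp hk (Primrec.const 2)) hx ?_
  exact Primrec.ite (Primrec.nat_le.comp hk (Primrec.const 4)) (Primrec.nat_max.comp hy hz)
    (Primrec.const 0)

/-- the test `isL` on codes -/
def nL (i : ℕ) : Bool := decide (i.unpair.1 = 6) && (decide (i.unpair.2.unpair.1 = 0) &&
  decide (has0 i.unpair.2.unpair.2 = 0))

/-- the test `isN` on codes -/
def nN (i : ℕ) : Bool := decide (i.unpair.1 = 7) && nL i.unpair.2

/-- the test `isA` on codes -/
def nA (i : ℕ) : Bool := decide (i.unpair.1 = 9) && nN i.unpair.2.unpair.1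

/-- the test `isE` on codes -/
def nE (i : ℕ) : Bool := decide (i.unpair.1 = 8) && nL i.unpair.2.unpair.1

theorem code_eq_zero {t : Tm} (h : t.code = 0) : t = .var 0 := by
  refine Tm.code_inj (h.trans ?_)
  simp [Tm.code, Nat.pair]

theorem nL_code (f : Fm) : nL f.code = f.isL := by
  cases f with
  | lt t u =>
    simp only [nL, Fm.code, Nat.unpair_pair, decide_true, Bool.true_and, has0_tm]
    by_cases ht : t = .var 0
    · subst ht
      have h0 : (Tm.var 0).code = 0 := by simp [Tm.code, Nat.pair]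
      rw [h0]
      cases hu : u.no0 <;> simp [Fm.isL, hu]
    · have h0 : t.code ≠ 0 := fun h => ht (code_eq_zero h)
      simp only [h0, decide_false, Bool.false_and]
      unfold Fm.isL
      split
      · rename_i h; cases h; exact absurd rfl ht
      · rfl
  | _ => simp [nL, Fm.code, Fm.isL]

theorem nN_code (f : Fm) : nN f.code = f.isN := by
  cases f with
  | neg f => simp [nN, Fm.code, Fm.isN, nL_code]
  | _ => simp [nN, Fm.code, Fm.isN]

theorem nA_code (f : Fm) : nA f.code = f.isA := by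
  cases f with
  | or f g => simp [nA, Fm.code, Fm.isA, nN_code]
  | _ => simp [nA, Fm.code, Fm.isA]

theorem nE_code (f : Fm) : nE f.code = f.isE := by
  cases f with
  | and f g => simp [nE, Fm.code, Fm.isE, nL_code]
  | _ => simp [nE, Fm.code, Fm.isE]

theorem dec_primrec {f : ℕ → ℕ} (hf : Primrec f) (k : ℕ) :
    Primrec (fun i => decide (f i = k)) :=
  PrimrecPred.decide (Primrec.eq.comp hf (Primrec.const k))

theorem nL_primrec : Primrec nL := by
  have h1 : Primrec fun i : ℕ => i.unpair.1 := Primrec.fst.comp Primrec.unpair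
  have h2 : Primrec fun i : ℕ => i.unpair.2 := Primrec.snd.comp Primrec.unpair
  exact Primrec.and.comp (dec_primrec h1 6) (Primrec.and.comp (dec_primrec (h1.comp h2) 0)
    (dec_primrec (has0_primrec.comp (h2.comp h2)) 0))

theorem nN_primrec : Primrec nN := by
  have h1 : Primrec fun i : ℕ => i.unpair.1 := Primrec.fst.comp Primrec.unpair
  have h2 : Primrec fun i : ℕ => i.unpair.2 := Primrec.snd.comp Primrec.unpair
  exact Primrec.and.comp (dec_primrec h1 7) (nL_primrec.comp h2)

theorem nA_primrec : Primrec nA := by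
  have h1 : Primrec fun i : ℕ => i.unpair.1 := Primrec.fst.comp Primrec.unpair
  have h2 : Primrec fun i : ℕ => i.unpair.2 := Primrec.snd.comp Primrec.unpair
  exact Primrec.and.comp (dec_primrec h1 9) (nN_primrec.comp (h1.comp h2))

theorem nE_primrec : Primrec nE := by
  have h1 : Primrec fun i : ℕ => i.unpair.1 := Primrec.fst.comp Primrec.unpair
  have h2 : Primrec fun i : ℕ => i.unpair.2 := Primrec.snd.comp Primrec.unpair
  exact Primrec.and.comp (dec_primrec h1 8) (nL_primrec.comp (h1.comp h2))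

theorem codesDec_bdd : CodesDec Fm.bdd :=
  base_bdd.codesDec nA_primrec nE_primrec nA_code nE_code

end Pool.Agent.MU
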