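import Pool.Agent.MU.Dfn

/-! # Coding in models of PA (module M5) -/

set_option autoImplicit false

namespace Pool.Agent.MU

variable {M : Type} [Mdl M]

variable {α β γ : Type} [Cx M α] [Cx M β] [Cx M γ]

theorem not_lt_zero' (x : M) : ¬ x < 0 := not_lt.mpr (zero_le (a := x))

theorem pos_iff_one_le {x : M} : 0 < x ↔ 1 ≤ x := by
  rw [Mdl.lt_iff, zero_add]

theorem exists_of_le {a b : M} (h : a ≤ b) : ∃ c, b = a + c := exists_add_of_le h

theorem exists_of_lt {a b : M} (h : a < b) : ∃ c, 0 < c ∧ b = a + c := by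
  obtain ⟨c, hc⟩ := exists_of_le h.le
  refine ⟨c, ?_, hc⟩
  rcases (zero_le (a := c)).eq_or_lt with h0 | h0
  · rw [← h0, add_zero] at hc
    exact absurd hc h.ne'
  · exact h0

theorem lt_cast {n : ℕ} {x : M} (h : x < (n : M)) : ∃ m < n, x = (m : M) := by
  induction n with
  | zero =>
    rw [Nat.cast_zero] at h
    exact absurd h (not_lt_zero' x)
  | succ n ih =>
    rw [Nat.cast_add, Nat.cast_one, lt_add_one_iff'] at h
    rcases h.lt_or_eq with h | h
    · obtain ⟨m, hm, h⟩ := ih h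
      exact ⟨m, by omega, h⟩
    · exact ⟨n, by omega, h⟩

theorem cast_inj {n m : ℕ} : (n : M) = (m : M) ↔ n = m := Nat.cast_inj

theorem exists_div (x d : M) (hd : 0 < d) : ∃ q r, r < d ∧ x = d * q + r := by
  revert x
  refine induct (by fun_prop) ?_ ?_
  · exact ⟨0, 0, hd, by rw [mul_zero, add_zero]⟩
  · rintro x ⟨q, r, hr, rfl⟩
    rcases (Mdl.lt_iff r d |>.mp hr).lt_or_eq with h | h
    · exact ⟨q, r + 1, h, by rw [add_assoc]⟩
    · exact ⟨q + 1, 0, hd, by rw [add_assoc, h, mul_add, mul_one, add_zero]⟩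

/-! ## Pairing -/

/-- Pairing: `Nat.pair`. -/
def pr (a b : M) : M := if a < b then b * b + a else a * a + a + b

theorem pr_bounds (a b : M) : max a b * max a b ≤ pr a b ∧
    pr a b < (max a b + 1) * (max a b + 1) := by
  unfold pr
  by_cases h : a < b
  · rw [if_pos h, max_eq_right h.le]
    refine ⟨le_self_add, ?_⟩
    have h1 : (b + 1) * (b + 1) = b * b + b + (b + 1) := by ring
    rw [h1]
    calc b * b + a < b * b + b := by gcongr
      _ ≤ b * b + b + (b + 1) := le_self_add
  · rw [if_neg h, max_eq_left (not_lt.mp h)]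
    refine ⟨by rw [add_assoc]; exact le_self_add, ?_⟩
    have h1 : (a + 1) * (a + 1) = a * a + a + (a + 1) := by ring
    rw [h1]
    have h2 : b < a + 1 := lt_add_one_iff'.mpr (not_lt.mp h)
    gcongr

theorem pr_inj {a b a' b' : M} : pr a b = pr a' b' ↔ a = a' ∧ b = b' := by
  constructor
  · intro h
    obtain ⟨h1, h2⟩ := pr_bounds a b
    obtain ⟨h3, h4⟩ := pr_bounds a' b'
    have hm : max a b = max a' b' := by
      rcases lt_trichotomy (max a b) (max a' b') with h5 | h5 | h5
      · rw [Mdl.lt_iff] at h5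
        have h6 : (max a b + 1) * (max a b + 1) ≤ max a' b' * max a' b' :=
          mul_le_mul h5 h5 (zero_le) (zero_le)
        exact absurd (h2.trans_le (h6.trans h3)) (by rw [h]; exact lt_irrefl _)
      · exact h5
      · rw [Mdl.lt_iff] at h5
        have h6 : (max a' b' + 1) * (max a' b' + 1) ≤ max a b * max a b :=
          mul_le_mul h5 h5 (zero_le) (zero_le)
        exact absurd (h4.trans_le (h6.trans h1)) (by rw [h]; exact lt_irrefl _)
    unfold pr at h
    by_cases hab : a < b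
    · rw [if_pos hab] at h
      rw [max_eq_right hab.le] at hm
      by_cases hab' : a' < b'
      · rw [if_pos hab'] at h
        rw [max_eq_right hab'.le] at hm
        subst hm
        exact ⟨add_left_cancel h, rfl⟩
      · rw [if_neg hab'] at h
        rw [max_eq_left (not_lt.mp hab')] at hm
        subst hm
        rw [add_assoc] at h
        have h7 := add_left_cancel h
        rw [h7] at hab
        exact absurd hab (not_lt.mpr le_self_add)
    · rw [if_neg hab] at h
      rw [max_eq_left (not_lt.mp hab)] at hm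
      by_cases hab' : a' < b'
      · rw [if_pos hab'] at h
        rw [max_eq_right hab'.le] at hm
        subst hm
        rw [add_assoc] at h
        have h7 := add_left_cancel h
        rw [← h7] at hab'
        exact absurd hab' (not_lt.mpr le_self_add)
      · rw [if_neg hab'] at h
        rw [max_eq_left (not_lt.mp hab')] at hm
        subst hm
        exact ⟨rfl, add_left_cancel h⟩
  · rintro ⟨rfl, rfl⟩
    rfl

theorem pr_cast (n m : ℕ) : pr (n : M) (m : M) = ((Nat.pair n m : ℕ) : M) := by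
  unfold pr Nat.pair
  by_cases h : n < m
  · rw [if_pos (Nat.cast_lt.mpr h), if_pos h]
    push_cast
    rfl
  · rw [if_neg (fun h' => h (Nat.cast_lt.mp h')), if_neg h]
    push_cast
    rfl

theorem le_mul_self' (a : M) : a ≤ a * a := by
  rcases (zero_le (a := a)).eq_or_lt with h | h
  · rw [← h, mul_zero]
  · have h1 := pos_iff_one_le.mp h
    calc a = a * 1 := (mul_one a).symm
      _ ≤ a * a := mul_le_mul_right h1 a

theorem le_pr_left (a b : M) : a ≤ pr a b := by
  unfold pr
  split_ifs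
  · exact le_add_self
  · exact (le_add_self (a := a) (b := a * a)).trans le_self_add

theorem le_pr_right (a b : M) : b ≤ pr a b := by
  unfold pr
  split_ifs
  · exact (le_mul_self' b).trans le_self_add
  · exact le_add_self

theorem pr_lt_sq (a b : M) : pr a b < (a + b + 1) * (a + b + 1) := by
  refine (pr_bounds a b).2.trans_le ?_
  have h : max a b + 1 ≤ a + b + 1 := by
    gcongr
    exact max_le le_self_add le_add_self
  exact mul_le_mul h h (zero_le) (zero_le)

theorem DM_pr {f g : α → M} (h : DM M f) (h' : DM M g) : DM M (fun a => pr (f a) (g a)) := by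
  unfold pr
  fun_prop

open Classical in
/-- Unpairing (0 if not a pair). -/
noncomputable def ft (x : M) : M := if h : ∃ a b, pr a b = x then h.choose else 0

open Classical in
/-- Unpairing (0 if not a pair). -/
noncomputable def sd (x : M) : M := if h : ∃ a b, pr a b = x then h.choose_spec.choose else 0

theorem ft_sd (a b : M) : ft (pr a b) = a ∧ sd (pr a b) = b := by
  have h : ∃ a' b', pr a' b' = pr a b := ⟨a, b, rfl⟩
  have h1 := h.choose_spec.choose_spec
  unfold ft sd
  rw [dif_pos h, dif_pos h]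
  exact pr_inj.mp h1

theorem ft_pr (a b : M) : ft (pr a b) = a := (ft_sd a b).1
theorem sd_pr (a b : M) : sd (pr a b) = b := (ft_sd a b).2

theorem ft_of_not {x : M} (h : ¬ ∃ a b, pr a b = x) : ft x = 0 := by
  unfold ft
  rw [dif_neg h]

theorem sd_of_not {x : M} (h : ¬ ∃ a b, pr a b = x) : sd x = 0 := by
  unfold sd
  rw [dif_neg h]

theorem ft_le (x : M) : ft x ≤ x := by
  by_cases h : ∃ a b, pr a b = x
  · obtain ⟨a, b, rfl⟩ := h
    rw [ft_pr]
    exact le_pr_left a b
  · rw [ft_of_not h]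
    exact zero_le

theorem sd_le (x : M) : sd x ≤ x := by
  by_cases h : ∃ a b, pr a b = x
  · obtain ⟨a, b, rfl⟩ := h
    rw [sd_pr]
    exact le_pr_right a b
  · rw [sd_of_not h]
    exact zero_le

theorem ft_cast (n : ℕ) : ft (n : M) = (n.unpair.1 : M) := by
  have h : (n : M) = pr (n.unpair.1 : M) (n.unpair.2 : M) := by
    rw [pr_cast, Nat.pair_unpair]
  rw [h, ft_pr]

theorem sd_cast (n : ℕ) : sd (n : M) = (n.unpair.2 : M) := by
  have h : (n : M) = pr (n.unpair.1 : M) (n.unpair.2 : M) := by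
    rw [pr_cast, Nat.pair_unpair]
  rw [h, sd_pr]

attribute [fun_prop] DM_pr

theorem ft_iff (x y : M) : ft x = y ↔
    (∃ b, pr y b = x) ∨ ((¬ ∃ a b, pr a b = x) ∧ y = 0) := by
  by_cases h : ∃ a b, pr a b = x
  · obtain ⟨a, b, rfl⟩ := h
    rw [ft_pr]
    constructor
    · rintro rfl
      exact Or.inl ⟨b, rfl⟩
    · rintro (⟨b', h⟩ | ⟨h, -⟩)
      · exact (pr_inj.mp h).1.symm
      · exact absurd ⟨a, b, rfl⟩ h
  · rw [ft_of_not h]
    constructor
    · rintro rfl
      exact Or.inr ⟨h, rfl⟩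
    · rintro (⟨b', h'⟩ | ⟨-, h'⟩)
      · exact absurd ⟨y, b', h'⟩ h
      · exact h'.symm

theorem sd_iff (x y : M) : sd x = y ↔
    (∃ a, pr a y = x) ∨ ((¬ ∃ a b, pr a b = x) ∧ y = 0) := by
  by_cases h : ∃ a b, pr a b = x
  · obtain ⟨a, b, rfl⟩ := h
    rw [sd_pr]
    constructor
    · rintro rfl
      exact Or.inl ⟨a, rfl⟩
    · rintro (⟨b', h⟩ | ⟨h, -⟩)
      · exact (pr_inj.mp h).2.symm
      · exact absurd ⟨a, b, rfl⟩ h
  · rw [sd_of_not h]
    constructor
    · rintro rfl
      exact Or.inr ⟨h, rfl⟩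
    · rintro (⟨b', h'⟩ | ⟨-, h'⟩)
      · exact absurd ⟨b', y, h'⟩ h
      · exact h'.symm

theorem DM_ft {f : α → M} (h : DM M f) : DM M (fun a => ft (f a)) :=
  DM.of_graph (G := fun a y => (∃ b, pr y b = f a) ∨ ((¬ ∃ c b, pr c b = f a) ∧ y = 0))
    (by fun_prop) fun a x => ft_iff (f a) x

theorem DM_sd {f : α → M} (h : DM M f) : DM M (fun a => sd (f a)) :=
  DM.of_graph (G := fun a y => (∃ c, pr c y = f a) ∨ ((¬ ∃ c b, pr c b = f a) ∧ y = 0))
    (by fun_prop) fun a x => sd_iff (f a) x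

attribute [fun_prop] DM_ft DM_sd

/-! ## Coding of sets -/

/-- `i` belongs to the set coded by `d` (modulus `e`). -/
def mem (e d i : M) : Prop := 1 + (i + 1) * e ∣ d

theorem Dfn_mem {f g h : α → M} (hf : DM M f) (hg : DM M g) (hh : DM M h) :
    Dfn M (fun a => mem (f a) (g a) (h a)) := by
  unfold mem
  fun_prop

attribute [fun_prop] Dfn_mem

/-- Cancellation for divisibility. -/
theorem dvd_cancel {a x y : M} (h : a ∣ x + y) (h' : a ∣ y) : a ∣ x := by
  obtain ⟨u, hu⟩ := h
  obtain ⟨v, rfl⟩ := h'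
  rcases (zero_le (a := a)).eq_or_lt with h0 | h0
  · subst h0
    rw [zero_mul, zero_mul, add_zero] at hu
    rw [hu]
  · have h1 : v ≤ u := by
      by_contra hc
      have h2 : a * u < a * v := mul_lt_mul_of_pos_left (not_le.mp hc) h0
      have h3 : a * v ≤ a * u := by rw [← hu]; exact le_add_self
      exact absurd (h3.trans_lt h2) (lt_irrefl _)
    obtain ⟨w, rfl⟩ := exists_of_le h1
    refine ⟨w, ?_⟩
    rw [mul_add, add_comm x] at hu
    exact add_left_cancel hu

/-- Coprimality of the moduli. -/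
theorem dvd_of_dvd_mul {N e : M} (he : ∀ j, 0 < j → j ≤ N → j ∣ e) {i j c : M} (hi : i < N)
    (hj : j < N) (hij : i ≠ j) (h : 1 + (i + 1) * e ∣ (1 + (j + 1) * e) * c) :
    1 + (i + 1) * e ∣ c := by
  have key : ∃ t, 0 < t ∧ t ≤ N ∧ 1 + (i + 1) * e ∣ t * c := by
    rcases lt_or_gt_of_ne hij with h1 | h1
    · obtain ⟨t, ht, rfl⟩ := exists_of_lt h1
      refine ⟨t, ht, (le_add_self (a := t) (b := i)).trans hj.le, ?_⟩
      have h2 : (i + t + 1) * ((1 + (i + 1) * e) * c) =
          t * c + (i + 1) * ((1 + (i + t + 1) * e) * c) := by ring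
      have h3 : 1 + (i + 1) * e ∣ t * c + (i + 1) * ((1 + (i + t + 1) * e) * c) := by
        rw [← h2]
        exact Dvd.dvd.mul_left (Dvd.intro _ rfl) _
      exact dvd_cancel h3 (Dvd.dvd.mul_left h _)
    · obtain ⟨t, ht, rfl⟩ := exists_of_lt h1
      refine ⟨t, ht, (le_add_self (a := t) (b := j)).trans hi.le, ?_⟩
      have h2 : (j + t + 1) * ((1 + (j + 1) * e) * c) =
          t * c + (j + 1) * ((1 + (j + t + 1) * e) * c) := by ring
      have h3 : 1 + (j + t + 1) * e ∣ t * c + (j + 1) * ((1 + (j + t + 1) * e) * c) := by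
        rw [← h2]
        exact Dvd.dvd.mul_left h _
      exact dvd_cancel h3 (Dvd.dvd.mul_left (Dvd.intro _ rfl) _)
  obtain ⟨t, ht, htN, h1⟩ := key
  obtain ⟨e', he'⟩ := he t ht htN
  have h2 : 1 + (i + 1) * e ∣ (i + 1) * e * c := by
    have h3 : (i + 1) * e * c = (i + 1) * e' * (t * c) := by
      rw [he']
      ring
    rw [h3]
    exact Dvd.dvd.mul_left h1 _
  have h4 : 1 + (i + 1) * e ∣ c + (i + 1) * e * c := by
    refine ⟨c, ?_⟩
    ring
  exact dvd_cancel h4 h2

/-- Common multiples of the numbers up to `N`. -/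
theorem exists_mult (N : M) : ∃ e : M, 0 < e ∧ ∀ j, 0 < j → j ≤ N → j ∣ e := by
  revert N
  refine induct (by fun_prop) ?_ ?_
  · exact ⟨1, pos_iff_one_le.mpr le_rfl, fun j hj hj' => absurd (hj.trans_le hj') (lt_irrefl _)⟩
  · rintro N ⟨e, he, h⟩
    have hN : (0 : M) < N + 1 := lt_add_one_iff'.mpr zero_le
    refine ⟨e * (N + 1), mul_pos he hN, fun j hj hj' => ?_⟩
    rcases hj'.lt_or_eq with h1 | h1
    · exact Dvd.dvd.mul_right (h j hj (lt_add_one_iff'.mp h1)) _
    · rw [h1]
      exact Dvd.intro_left _ rfl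

/-- Common multiples of the moduli. -/
theorem exists_prod (e N : M) : ∃ D : M, 0 < D ∧ ∀ i < N, 1 + (i + 1) * e ∣ D := by
  revert N
  refine induct (by fun_prop) ?_ ?_
  · exact ⟨1, pos_iff_one_le.mpr le_rfl, fun i hi => absurd hi (not_lt_zero' i)⟩
  · rintro N ⟨D, hD, h⟩
    refine ⟨D * (1 + (N + 1) * e), mul_pos hD (pos_iff_one_le.mpr le_self_add),
      fun i hi => ?_⟩
    rcases (lt_add_one_iff'.mp hi).lt_or_eq with h1 | h1
    · exact Dvd.dvd.mul_right (h i h1) _
    · rw [h1]
      exact Dvd.intro_left _ rfl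

/-- For every `N` there are a modulus and a bound such that every definable subset of `[0,N)` has
a code below the bound. -/
theorem exists_code (N : M) : ∃ e C : M, 0 < e ∧ 1 < C ∧ ∀ P : M → Prop, Dfn M P →
    ∃ d < C, 0 < d ∧ ∀ i < N, mem e d i ↔ P i := by
  obtain ⟨e, he, hmul⟩ := exists_mult N
  obtain ⟨D, hD, hDv⟩ := exists_prod e N
  refine ⟨e, D + 1, he, ?_, fun P hP => ?_⟩
  · have := pos_iff_one_le.mp hD
    exact lt_add_one_iff'.mpr this
  have hm1 : ∀ i : M, ¬ 1 + (i + 1) * e ∣ 1 := by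
    rintro i ⟨c, hc⟩
    have h1 : 0 < (i + 1) * e := mul_pos (lt_add_one_iff'.mpr zero_le) he
    rcases (zero_le (a := c)).eq_or_lt with h0 | h0
    · rw [← h0, mul_zero] at hc
      exact one_ne_zero hc
    · have h2 := pos_iff_one_le.mp h0
      have h3 : 1 < 1 + (i + 1) * e := lt_add_of_pos_right _ h1
      have h4 : 1 + (i + 1) * e ≤ (1 + (i + 1) * e) * c := by
        calc 1 + (i + 1) * e = (1 + (i + 1) * e) * 1 := (mul_one _).symm
          _ ≤ _ := mul_le_mul_right h2 _
      rw [← hc] at h4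
      exact absurd (h3.trans_le h4) (lt_irrefl _)
  have key : ∀ n : M, n ≤ N → ∃ d c, d * c = D ∧ (∀ i, i < n → (1 + (i + 1) * e ∣ d ↔ P i)) ∧
      ∀ i, n ≤ i → i < N → (¬ 1 + (i + 1) * e ∣ d) ∧ 1 + (i + 1) * e ∣ c := by
    refine induct (by fun_prop) ?_ ?_
    · intro _
      exact ⟨1, D, one_mul D, fun i hi => absurd hi (not_lt_zero' i),
        fun i _ hi => ⟨hm1 i, hDv i hi⟩⟩
    · intro n ih hn
      have hnN : n < N := (Mdl.lt_iff n N).mpr hn
      obtain ⟨d, c, hdc, h1, h2⟩ := ih hnN.le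
      by_cases hPn : P n
      · obtain ⟨c', rfl⟩ := (h2 n le_rfl hnN).2
        have hcop : ∀ i, i < N → i ≠ n →
            (1 + (i + 1) * e ∣ d * (1 + (n + 1) * e) ↔ 1 + (i + 1) * e ∣ d) := by
          intro i hi hin
          constructor
          · intro h
            rw [mul_comm d] at h
            exact dvd_of_dvd_mul hmul hi hnN hin h
          · intro h
            exact Dvd.dvd.mul_right h _
        refine ⟨d * (1 + (n + 1) * e), c', by rw [mul_assoc]; exact hdc, fun i hi => ?_,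
          fun i hi hi' => ⟨?_, ?_⟩⟩
        · rcases (lt_add_one_iff'.mp hi).lt_or_eq with h3 | h3
          · rw [hcop i (h3.trans hnN) h3.ne]
            exact h1 i h3
          · rw [h3]
            exact ⟨fun _ => hPn, fun _ => Dvd.intro_left _ rfl⟩
        · have hni : n < i := (Mdl.lt_iff n i).mpr hi
          rw [hcop i hi' hni.ne']
          exact (h2 i hni.le hi').1
        · have hni : n < i := (Mdl.lt_iff n i).mpr hi
          exact dvd_of_dvd_mul hmul hi' hnN hni.ne' (h2 i hni.le hi').2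
      · refine ⟨d, c, hdc, fun i hi => ?_, fun i hi hi' => ?_⟩
        · rcases (lt_add_one_iff'.mp hi).lt_or_eq with h3 | h3
          · exact h1 i h3
          · rw [h3]
            exact ⟨fun h => absurd h (h2 n le_rfl hnN).1, fun h => absurd h hPn⟩
        · have hni : n < i := (Mdl.lt_iff n i).mpr hi
          exact h2 i hni.le hi'
  obtain ⟨d, c, hdc, h1, -⟩ := key N le_rfl
  have hd0 : 0 < d := by
    rcases (zero_le (a := d)).eq_or_lt with h0 | h0
    · rw [← h0, zero_mul] at hdc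
      exact absurd hdc hD.ne
    · exact h0
  have hc0 : 0 < c := by
    rcases (zero_le (a := c)).eq_or_lt with h0 | h0
    · rw [← h0, mul_zero] at hdc
      exact absurd hdc hD.ne
    · exact h0
  refine ⟨d, ?_, hd0, fun i hi => h1 i hi⟩
  refine lt_add_one_iff'.mpr ?_
  calc d = d * 1 := (mul_one d).symm
    _ ≤ d * c := mul_le_mul_right (pos_iff_one_le.mp hc0) d
    _ = D := hdc

/-- Exact coding of finite sets: `s = (N, e, d)`. -/
def Mem (s : M × M × M) (i : M) : Prop := i < s.1 ∧ mem s.2.1 s.2.2 i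

theorem Dfn_Mem {f : α → M × M × M} {g : α → M} (hf : DM M f) (hg : DM M g) :
    Dfn M (fun a => Mem (f a) (g a)) := by
  unfold Mem
  fun_prop

attribute [fun_prop] Dfn_Mem

theorem exists_Mem (N : M) {P : M → Prop} (hP : Dfn M P) :
    ∃ s : M × M × M, ∀ i, Mem s i ↔ i < N ∧ P i := by
  obtain ⟨e, C, -, -, h⟩ := exists_code N
  obtain ⟨d, -, -, hd⟩ := h P hP
  refine ⟨(N, e, d), fun i => ?_⟩
  exact ⟨fun hi => ⟨hi.1, (hd i hi.1).mp hi.2⟩, fun hi => ⟨hi.1, (hd i hi.1).mpr hi.2⟩⟩

end Pool.Agent.MU
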