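import Mathlib

/-! # Models of PA with universe `ω`, completions of PA and their degrees: definitions -/

set_option autoImplicit false

namespace Pool.Agent.MU

/-- Terms of the language `0, S, +, ·, <`; variables are de Bruijn indices. -/
inductive Tm : Type
  | var (i : ℕ)
  | zero
  | succ (t : Tm)
  | add (t u : Tm)
  | mul (t u : Tm)

/-- First order formulas of the language `0, S, +, ·, <`. -/
inductive Fm : Type
  | eq (t u : Tm)
  | lt (t u : Tm)
  | neg (f : Fm)
  | and (f g : Fm)
  | or (f g : Fm)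
  | all (f : Fm)
  | ex (f : Fm)

/-- Structures for this language. -/
structure Ar (M : Type) where
  zero : M
  succ : M → M
  add : M → M → M
  mul : M → M → M
  lt : M → M → Prop

/-- The environment `v` with a new value for the variable 0. -/
def push {M : Type} (a : M) (v : ℕ → M) : ℕ → M
  | 0 => a
  | i + 1 => v i

/-- Value of a term. -/
def Tm.val {M : Type} (A : Ar M) (v : ℕ → M) : Tm → M
  | .var i => v i
  | .zero => A.zero
  | .succ t => A.succ (t.val A v)
  | .add t u => A.add (t.val A v) (u.val A v)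
  | .mul t u => A.mul (t.val A v) (u.val A v)

/-- Satisfaction. -/
def Fm.sat {M : Type} (A : Ar M) : Fm → (ℕ → M) → Prop
  | .eq t u, v => t.val A v = u.val A v
  | .lt t u, v => A.lt (t.val A v) (u.val A v)
  | .neg f, v => ¬ f.sat A v
  | .and f g, v => f.sat A v ∧ g.sat A v
  | .or f g, v => f.sat A v ∨ g.sat A v
  | .all f, v => ∀ a, f.sat A (push a v)
  | .ex f, v => ∃ a, f.sat A (push a v)

/-- All variables of the term are `< n`. -/
def Tm.closed (n : ℕ) : Tm → Prop
  | .var i => i < n
  | .zero => True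
  | .succ t => t.closed n
  | .add t u => t.closed n ∧ u.closed n
  | .mul t u => t.closed n ∧ u.closed n

/-- All free variables of the formula are `< n`; the sentences are the formulas with
`Fm.closed 0`. -/
def Fm.closed : ℕ → Fm → Prop
  | n, .eq t u => t.closed n ∧ u.closed n
  | n, .lt t u => t.closed n ∧ u.closed n
  | n, .neg f => f.closed n
  | n, .and f g => f.closed n ∧ g.closed n
  | n, .or f g => f.closed n ∧ g.closed n
  | n, .all f => f.closed (n + 1)
  | n, .ex f => f.closed (n + 1)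

/-- Simultaneous substitution in terms. -/
def Tm.sub (σ : ℕ → Tm) : Tm → Tm
  | .var i => σ i
  | .zero => .zero
  | .succ t => .succ (t.sub σ)
  | .add t u => .add (t.sub σ) (u.sub σ)
  | .mul t u => .mul (t.sub σ) (u.sub σ)

/-- The substitution under a quantifier. -/
def up (σ : ℕ → Tm) : ℕ → Tm
  | 0 => .var 0
  | i + 1 => (σ i).sub fun j => .var (j + 1)

/-- Simultaneous substitution in formulas. -/
def Fm.sub : (ℕ → Tm) → Fm → Fm
  | σ, .eq t u => .eq (t.sub σ) (u.sub σ)
  | σ, .lt t u => .lt (t.sub σ) (u.sub σ)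
  | σ, .neg f => .neg (f.sub σ)
  | σ, .and f g => .and (f.sub σ) (g.sub σ)
  | σ, .or f g => .or (f.sub σ) (g.sub σ)
  | σ, .all f => .all (f.sub (up σ))
  | σ, .ex f => .ex (f.sub (up σ))

/-- Implication. -/
def Fm.imp (f g : Fm) : Fm := .or (.neg f) g

/-- The induction formula `f(0) ∧ ∀ x (f(x) → f(Sx)) → ∀ x f(x)`; `x` is the variable 0 of `f`,
the other variables are parameters. -/
def Fm.ind (f : Fm) : Fm :=
  .imp (.and (f.sub fun i => Nat.casesOn i .zero fun j => .var j)
    (.all (.imp f (f.sub fun i => Nat.casesOn i (.succ (.var 0)) fun j => .var (j + 1)))))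
    (.all f)

/-- `n` universal quantifiers. -/
def Fm.alls : ℕ → Fm → Fm
  | 0, f => f
  | n + 1, f => .all (f.alls n)

/-- The axioms of PA before universal closure. -/
inductive PAx : Fm → Prop
  | succ_ne : PAx (.neg (.eq (.succ (.var 0)) .zero))
  | succ_inj : PAx (.imp (.eq (.succ (.var 0)) (.succ (.var 1))) (.eq (.var 0) (.var 1)))
  | add_zero : PAx (.eq (.add (.var 0) .zero) (.var 0))
  | add_succ : PAx (.eq (.add (.var 0) (.succ (.var 1))) (.succ (.add (.var 0) (.var 1))))
  | mul_zero : PAx (.eq (.mul (.var 0) .zero) .zero)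
  | mul_succ : PAx (.eq (.mul (.var 0) (.succ (.var 1))) (.add (.mul (.var 0) (.var 1)) (.var 0)))
  | not_lt_zero : PAx (.neg (.lt (.var 0) .zero))
  | lt_succ : PAx (.imp (.lt (.var 0) (.succ (.var 1))) (.or (.lt (.var 0) (.var 1))
      (.eq (.var 0) (.var 1))))
  | succ_lt : PAx (.imp (.or (.lt (.var 0) (.var 1)) (.eq (.var 0) (.var 1)))
      (.lt (.var 0) (.succ (.var 1))))
  | ind (f : Fm) : PAx f.ind

/-- Peano arithmetic: the universal closures of the axioms. -/
def PA : Set Fm := {g | ∃ f n, PAx f ∧ f.closed n ∧ g = f.alls n}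

/-- `A` is a model of the set `T` of sentences. -/
def Models {M : Type} (A : Ar M) (T : Set Fm) : Prop := ∀ f ∈ T, ∀ v, f.sat A v

/-- `T` is a completion of PA: a consistent complete set of sentences containing PA. -/
structure IsCompletion (T : Set Fm) : Prop where
  sentences : ∀ f ∈ T, f.closed 0
  pa : PA ⊆ T
  complete : ∀ f : Fm, f.closed 0 → f ∈ T ∨ .neg f ∈ T
  consistent : ∃ (M : Type) (A : Ar M), Models A T

/-- The numeral of `n`. -/
def Ar.num {M : Type} (A : Ar M) : ℕ → M
  | 0 => A.zero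
  | n + 1 => A.succ (A.num n)

/-- `A` is nonstandard: some element is not the value of a numeral. -/
def Ar.NonStd {M : Type} (A : Ar M) : Prop := ∃ a, ∀ n, a ≠ A.num n

/-- Gödel numbers of terms. -/
def Tm.code : Tm → ℕ
  | .var i => Nat.pair 0 i
  | .zero => Nat.pair 1 0
  | .succ t => Nat.pair 2 t.code
  | .add t u => Nat.pair 3 (Nat.pair t.code u.code)
  | .mul t u => Nat.pair 4 (Nat.pair t.code u.code)

/-- Gödel numbers of formulas. -/
def Fm.code : Fm → ℕ
  | .eq t u => Nat.pair 5 (Nat.pair t.code u.code)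
  | .lt t u => Nat.pair 6 (Nat.pair t.code u.code)
  | .neg f => Nat.pair 7 f.code
  | .and f g => Nat.pair 8 (Nat.pair f.code g.code)
  | .or f g => Nat.pair 9 (Nat.pair f.code g.code)
  | .all f => Nat.pair 10 f.code
  | .ex f => Nat.pair 11 f.code

/-- Quantifier-free formulas. -/
def Fm.qf : Fm → Prop
  | .eq _ _ => True
  | .lt _ _ => True
  | .neg f => f.qf
  | .and f g => f.qf ∧ g.qf
  | .or f g => f.qf ∧ g.qf
  | .all _ => False
  | .ex _ => False

/-- Bounded (`Δ_0`) formulas: built from the atomic formulas by `¬`, `∧`, `∨` and the bounded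
quantifiers `∀ x (x < t → f)` and `∃ x (x < t ∧ f)`, where `t` is a term without `x`. -/
inductive Fm.bdd : Fm → Prop
  | eq (t u : Tm) : Fm.bdd (.eq t u)
  | lt (t u : Tm) : Fm.bdd (.lt t u)
  | neg {f : Fm} : f.bdd → Fm.bdd (.neg f)
  | and {f g : Fm} : f.bdd → g.bdd → Fm.bdd (.and f g)
  | or {f g : Fm} : f.bdd → g.bdd → Fm.bdd (.or f g)
  | all (t : Tm) {f : Fm} : f.bdd →
      Fm.bdd (.all (.imp (.lt (.var 0) (t.sub fun j => .var (j + 1))) f))
  | ex (t : Tm) {f : Fm} : f.bdd →
      Fm.bdd (.ex (.and (.lt (.var 0) (t.sub fun j => .var (j + 1))) f))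

/-- `Prenex K true n`: prenex `Σ_n` formulas with a matrix from the class `K`;
`Prenex K false n`: prenex `Π_n` formulas with a matrix from `K`. -/
inductive Prenex (K : Fm → Prop) : Bool → ℕ → Fm → Prop
  | base {b : Bool} {n : ℕ} {f : Fm} : K f → Prenex K b n f
  | ex {n : ℕ} {f : Fm} : Prenex K true (n + 1) f → Prenex K true (n + 1) (.ex f)
  | all {n : ℕ} {f : Fm} : Prenex K false (n + 1) f → Prenex K false (n + 1) (.all f)
  | up {b : Bool} {n : ℕ} {f : Fm} : Prenex K (!b) n f → Prenex K b (n + 1) f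

open Classical in
/-- (The characteristic function of) the set of Gödel numbers of the `Σ_n` sentences of `T`;
`Σ_n` means prenex `Σ_n` with a matrix from the class `K`. -/
noncomputable def Tn (K : Fm → Prop) (T : Set Fm) (n : ℕ) (i : ℕ) : Bool :=
  decide (∃ f ∈ T, Prenex K true n f ∧ f.code = i)

open Classical in
/-- (The characteristic function of) the atomic diagram of a structure with universe `ω`: the
codes of the true facts `0 = a`, `S a = b`, `a + b = c`, `a · b = c`, `a < b`. -/
noncomputable def Ar.diag (A : Ar ℕ) (i : ℕ) : Bool :=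
  decide ((∃ a, i = Nat.pair 0 a ∧ A.zero = a) ∨
    (∃ a b, i = Nat.pair 1 (Nat.pair a b) ∧ A.succ a = b) ∨
    (∃ a b c, i = Nat.pair 2 (Nat.pair (Nat.pair a b) c) ∧ A.add a b = c) ∨
    (∃ a b c, i = Nat.pair 3 (Nat.pair (Nat.pair a b) c) ∧ A.mul a b = c) ∨
    (∃ a b, i = Nat.pair 4 (Nat.pair a b) ∧ A.lt a b))

/-- Turing reducibility of sets of natural numbers. -/
def Red (X Y : ℕ → Bool) : Prop :=
  TuringReducible (fun n => Part.some (X n).toNat) (fun n => Part.some (Y n).toNat)

/-- The degree of `X` is a minimal upper bound of the degrees of the sets `Y n`. -/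
def IsMinUB (X : ℕ → Bool) (Y : ℕ → ℕ → Bool) : Prop :=
  (∀ n, Red (Y n) X) ∧ ¬ ∃ Z, (∀ n, Red (Y n) Z) ∧ Red Z X ∧ ¬ Red X Z

end Pool.Agent.MU
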