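import Pool.Agent.MU.Model

/-! # Definability calculus (module M3) -/

set_option autoImplicit false

namespace Pool.Agent.MU

/-! ## Substitution -/

theorem Tm.val_sub {M : Type} (A : Ar M) (σ : ℕ → Tm) (v : ℕ → M) (t : Tm) :
    (t.sub σ).val A v = t.val A (fun i => (σ i).val A v) := by
  induction t with
  | var i => rfl
  | zero => rfl
  | succ t ih => simp only [Tm.sub, Tm.val, ih]
  | add t u iht ihu => simp only [Tm.sub, Tm.val, iht, ihu]
  | mul t u iht ihu => simp only [Tm.sub, Tm.val, iht, ihu]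

theorem up_val {M : Type} (A : Ar M) (σ : ℕ → Tm) (v : ℕ → M) (a : M) :
    (fun i => (up σ i).val A (push a v)) = push a (fun i => (σ i).val A v) := by
  funext i
  cases i with
  | zero => rfl
  | succ i =>
    show ((σ i).sub fun j => .var (j + 1)).val A (push a v) = (σ i).val A v
    rw [Tm.val_sub]
    rfl

theorem Fm.sat_sub {M : Type} (A : Ar M) (φ : Fm) : ∀ (σ : ℕ → Tm) (v : ℕ → M),
    (φ.sub σ).sat A v ↔ φ.sat A (fun i => (σ i).val A v) := by
  induction φ with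
  | eq t u => intro σ v; simp only [Fm.sub, Fm.sat, Tm.val_sub]
  | lt t u => intro σ v; simp only [Fm.sub, Fm.sat, Tm.val_sub]
  | neg f ih => intro σ v; simp only [Fm.sub, Fm.sat, ih]
  | and f g ihf ihg => intro σ v; simp only [Fm.sub, Fm.sat, ihf, ihg]
  | or f g ihf ihg => intro σ v; simp only [Fm.sub, Fm.sat, ihf, ihg]
  | all f ih =>
    intro σ v
    simp only [Fm.sub, Fm.sat]
    refine forall_congr' fun a => ?_
    rw [ih, up_val]
  | ex f ih =>
    intro σ v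
    simp only [Fm.sub, Fm.sat]
    refine exists_congr fun a => ?_
    rw [ih, up_val]

/-- Renaming of variables. -/
def Fm.ren (ρ : ℕ → ℕ) (φ : Fm) : Fm := φ.sub fun i => .var (ρ i)

theorem Fm.sat_ren {M : Type} (A : Ar M) (φ : Fm) (ρ : ℕ → ℕ) (v : ℕ → M) :
    (φ.ren ρ).sat A v ↔ φ.sat A (fun i => v (ρ i)) := by
  unfold Fm.ren
  rw [Fm.sat_sub]
  rfl

theorem mix_even {M : Type} (f g : ℕ → M) (i : ℕ) : mix f g (2 * i) = f i := by
  unfold mix
  rw [if_pos (by omega)]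
  congr 1
  omega

theorem mix_odd {M : Type} (f g : ℕ → M) (i : ℕ) : mix f g (2 * i + 1) = g i := by
  unfold mix
  rw [if_neg (by omega)]
  congr 1
  omega

theorem mix_comp {M : Type} (f g : ℕ → M) (i : ℕ) :
    mix f g i = if i % 2 = 0 then f (i / 2) else g (i / 2) := rfl

/-! ## Projections -/

section

variable {M : Type} {α β γ δ : Type} [Cx M α] [Cx M β] [Cx M γ] [Cx M δ]

/-- Maps between contexts given by a renaming. -/
def Pj (M : Type) {α β : Type} [Cx M α] [Cx M β] (f : α → β) : Prop :=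
  ∃ ρ : ℕ → ℕ, ∀ a i, Cx.e (M := M) (f a) i = Cx.e (M := M) a (ρ i)

theorem Pj.id : Pj M (fun a : α => a) := ⟨fun i => i, fun _ _ => rfl⟩

theorem Pj.fst {f : α → β × γ} (h : Pj M f) : Pj M (fun a => (f a).1) := by
  obtain ⟨ρ, hρ⟩ := h
  refine ⟨fun i => ρ (2 * i), fun a i => ?_⟩
  rw [← hρ]
  exact (mix_even _ _ _).symm

theorem Pj.snd {f : α → β × γ} (h : Pj M f) : Pj M (fun a => (f a).2) := by
  obtain ⟨ρ, hρ⟩ := h
  refine ⟨fun i => ρ (2 * i + 1), fun a i => ?_⟩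
  rw [← hρ]
  exact (mix_odd _ _ _).symm

theorem Pj.pair {f : α → β} {g : α → γ} (h : Pj M f) (h' : Pj M g) :
    Pj M (fun a => (f a, g a)) := by
  obtain ⟨ρ, hρ⟩ := h
  obtain ⟨ρ', hρ'⟩ := h'
  refine ⟨fun i => if i % 2 = 0 then ρ (i / 2) else ρ' (i / 2), fun a i => ?_⟩
  show mix (Cx.e (f a)) (Cx.e (g a)) i = Cx.e a (if i % 2 = 0 then ρ (i / 2) else ρ' (i / 2))
  rw [mix_comp]
  by_cases hi : i % 2 = 0
  · rw [if_pos hi, if_pos hi]
    exact hρ _ _
  · rw [if_neg hi, if_neg hi]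
    exact hρ' _ _

end

section

variable {M : Type} [Mdl M]

variable {α β γ : Type} [Cx M α] [Cx M β] [Cx M γ]

/-! ## Propositional closure and quantifiers -/

theorem Dfn.of_iff {P Q : α → Prop} (h : Dfn M P) (H : ∀ a, Q a ↔ P a) : Dfn M Q := by
  obtain ⟨φ, w, h⟩ := h
  exact ⟨φ, w, fun a => (H a).trans (h a)⟩

theorem Dfn.pj {P : β → Prop} {f : α → β} (h : Dfn M P) (hf : Pj M f) :
    Dfn M (fun a => P (f a)) := by
  obtain ⟨φ, w, h⟩ := h
  obtain ⟨ρ, hρ⟩ := hf
  refine ⟨φ.ren fun i => if i % 2 = 0 then 2 * ρ (i / 2) else i, w, fun a => ?_⟩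
  refine (h (f a)).trans ?_
  rw [Fm.sat_ren]
  have : (mix (Cx.e (f a)) w : ℕ → M) =
      fun i => mix (Cx.e a) w (if i % 2 = 0 then 2 * ρ (i / 2) else i) := by
    funext i
    by_cases hi : i % 2 = 0
    · rw [if_pos hi, mix_even, ← hρ, mix_comp, if_pos hi]
    · rw [if_neg hi, mix_comp, mix_comp, if_neg hi, if_neg hi]
  rw [this]

theorem Dfn.not {P : α → Prop} (h : Dfn M P) : Dfn M (fun a => ¬ P a) := by
  obtain ⟨φ, w, h⟩ := h
  exact ⟨.neg φ, w, fun a => not_congr (h a)⟩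

theorem Dfn.two {P Q : α → Prop} (h : Dfn M P) (h' : Dfn M Q) :
    ∃ (φ ψ : Fm) (w : ℕ → M), (∀ a, P a ↔ φ.sat (arOf M) (mix (Cx.e a) w)) ∧
      ∀ a, Q a ↔ ψ.sat (arOf M) (mix (Cx.e a) w) := by
  obtain ⟨φ, w, h⟩ := h
  obtain ⟨ψ, w', h'⟩ := h'
  refine ⟨φ.ren fun i => if i % 2 = 0 then i else 2 * (2 * (i / 2)) + 1,
    ψ.ren fun i => if i % 2 = 0 then i else 2 * (2 * (i / 2) + 1) + 1, mix w w',
    fun a => ?_, fun a => ?_⟩
  · rw [h, Fm.sat_ren]
    have : (mix (Cx.e a) w : ℕ → M) =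
        fun i => mix (Cx.e a) (mix w w') (if i % 2 = 0 then i else 2 * (2 * (i / 2)) + 1) := by
      funext i
      by_cases hi : i % 2 = 0
      · rw [if_pos hi, mix_comp, mix_comp, if_pos hi, if_pos hi]
      · rw [if_neg hi, mix_odd, mix_even, mix_comp, if_neg hi]
    rw [this]
  · rw [h', Fm.sat_ren]
    have : (mix (Cx.e a) w' : ℕ → M) =
        fun i => mix (Cx.e a) (mix w w') (if i % 2 = 0 then i else 2 * (2 * (i / 2) + 1) + 1) := by
      funext i
      by_cases hi : i % 2 = 0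
      · rw [if_pos hi, mix_comp, mix_comp, if_pos hi, if_pos hi]
      · rw [if_neg hi, mix_odd, mix_odd, mix_comp, if_neg hi]
    rw [this]

theorem Dfn.and {P Q : α → Prop} (h : Dfn M P) (h' : Dfn M Q) : Dfn M (fun a => P a ∧ Q a) := by
  obtain ⟨φ, ψ, w, h1, h2⟩ := h.two h'
  exact ⟨.and φ ψ, w, fun a => and_congr (h1 a) (h2 a)⟩

theorem Dfn.or {P Q : α → Prop} (h : Dfn M P) (h' : Dfn M Q) : Dfn M (fun a => P a ∨ Q a) := by
  obtain ⟨φ, ψ, w, h1, h2⟩ := h.two h'
  exact ⟨.or φ ψ, w, fun a => or_congr (h1 a) (h2 a)⟩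

theorem Dfn.imp {P Q : α → Prop} (h : Dfn M P) (h' : Dfn M Q) : Dfn M (fun a => P a → Q a) :=
  (h.not.or h').of_iff fun _ => imp_iff_not_or

theorem Dfn.iff {P Q : α → Prop} (h : Dfn M P) (h' : Dfn M Q) : Dfn M (fun a => (P a ↔ Q a)) :=
  ((h.imp h').and (h'.imp h)).of_iff fun _ => iff_iff_implies_and_implies

theorem Dfn.ex {R : α → M → Prop} (h : Dfn M (fun p : α × M => R p.1 p.2)) :
    Dfn M (fun a => ∃ x, R a x) := by
  obtain ⟨φ, w, h⟩ := h
  refine ⟨.ex (φ.ren fun i => if i % 2 = 0 then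
    (if i / 2 % 2 = 0 then 2 * (i / 2 / 2) + 1 else 0) else i + 1), w, fun a => ?_⟩
  refine exists_congr fun x => ?_
  refine (h (a, x)).trans ?_
  rw [Fm.sat_ren]
  have : (mix (Cx.e (a, x)) w : ℕ → M) = fun i => push x (mix (Cx.e a) w)
      (if i % 2 = 0 then (if i / 2 % 2 = 0 then 2 * (i / 2 / 2) + 1 else 0) else i + 1) := by
    funext i
    by_cases hi : i % 2 = 0
    · rw [if_pos hi, mix_comp, if_pos hi]
      show mix (Cx.e a) (Cx.e x) (i / 2) = _
      by_cases hj : i / 2 % 2 = 0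
      · rw [if_pos hj, mix_comp, if_pos hj]
        show _ = mix (Cx.e a) w (2 * (i / 2 / 2))
        rw [mix_even]
      · rw [if_neg hj, mix_comp, if_neg hj]
        rfl
    · rw [if_neg hi, mix_comp, if_neg hi]
      show _ = mix (Cx.e a) w i
      rw [mix_comp, if_neg hi]
  rw [this]

theorem Dfn.all {R : α → M → Prop} (h : Dfn M (fun p : α × M => R p.1 p.2)) :
    Dfn M (fun a => ∀ x, R a x) := by
  have h1 : Dfn M (fun p : α × M => ¬ R p.1 p.2) := h.not
  exact (Dfn.ex (R := fun a x => ¬ R a x) h1).not.of_iff fun a => by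
    constructor
    · rintro h2 ⟨x, hx⟩
      exact hx (h2 x)
    · intro h2 x
      by_contra h3
      exact h2 ⟨x, h3⟩

/-! ## Atomic relations -/

theorem Dfn.eq0 : Dfn M (fun p : M × M => p.1 = p.2) :=
  ⟨.eq (.var 0) (.var 2), fun _ => 0, fun _ => Iff.rfl⟩

theorem Dfn.lt0 : Dfn M (fun p : M × M => p.1 < p.2) :=
  ⟨.lt (.var 0) (.var 2), fun _ => 0, fun _ => Iff.rfl⟩

theorem Dfn.zero0 : Dfn M (fun p : M => 0 = p) :=
  ⟨.eq .zero (.var 0), fun _ => 0, fun _ => Iff.rfl⟩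

theorem Dfn.par0 (b : M) : Dfn M (fun p : M => b = p) :=
  ⟨.eq (.var 1) (.var 0), fun _ => b, fun _ => Iff.rfl⟩

theorem Dfn.succ0 : Dfn M (fun p : M × M => p.1 + 1 = p.2) :=
  ⟨.eq (.succ (.var 0)) (.var 2), fun _ => 0, fun _ => Iff.rfl⟩

theorem Dfn.add0 : Dfn M (fun p : (M × M) × M => p.1.1 + p.1.2 = p.2) :=
  ⟨.eq (.add (.var 0) (.var 4)) (.var 2), fun _ => 0, fun _ => Iff.rfl⟩

theorem Dfn.mul0 : Dfn M (fun p : (M × M) × M => p.1.1 * p.1.2 = p.2) :=
  ⟨.eq (.mul (.var 0) (.var 4)) (.var 2), fun _ => 0, fun _ => Iff.rfl⟩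

/-! ## Functions with definable graphs -/

/-- The graph is definable. -/
def DG {α : Type} [Cx M α] (g : α → M) : Prop := Dfn M (fun p : α × M => g p.1 = p.2)

theorem DG.pj {g : β → M} {f : α → β} (h : DG g) (hf : Pj M f) : DG (fun a => g (f a)) :=
  Dfn.pj (f := fun p : α × M => (f p.1, p.2)) h (by
    obtain ⟨ρ, hρ⟩ := hf
    refine Pj.pair ⟨fun i => 2 * ρ i, fun a i => ?_⟩ Pj.id.snd
    rw [hρ]
    exact (mix_even _ _ _).symm)

theorem DG.of_pj {g : α → M} (h : Pj M g) : DG g :=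
  Dfn.pj (f := fun p : α × M => (g p.1, p.2)) Dfn.eq0 (by
    obtain ⟨ρ, hρ⟩ := h
    refine Pj.pair ⟨fun i => 2 * ρ i, fun a i => ?_⟩ Pj.id.snd
    rw [hρ]
    exact (mix_even _ _ _).symm)

theorem DG.const (b : M) : DG (fun _ : α => b) :=
  Dfn.pj (f := fun p : α × M => p.2) (Dfn.par0 b) Pj.id.snd

/-- Substituting functions with definable graphs in a relation. -/
theorem DG.rel1 {R : M → Prop} (hR : Dfn M R) {g : α → M} (h : DG g) :
    Dfn M (fun a => R (g a)) := by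
  have h1 : Dfn M (fun p : α × M => g p.1 = p.2 ∧ R p.2) := Dfn.and h (hR.pj Pj.id.snd)
  exact (Dfn.ex (R := fun a x => g a = x ∧ R x) h1).of_iff fun a =>
    ⟨fun h2 => ⟨g a, rfl, h2⟩, fun ⟨x, h2, h3⟩ => by rw [h2]; exact h3⟩

theorem DG.rel2 {R : M → M → Prop} (hR : Dfn M (fun p : M × M => R p.1 p.2)) {g g' : α → M}
    (h : DG g) (h' : DG g') : Dfn M (fun a => R (g a) (g' a)) := by
  have h1 : Dfn M (fun p : α × M => g p.1 = p.2 ∧ ∃ y, g' p.1 = y ∧ R p.2 y) := by
    refine Dfn.and h ?_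
    have h2 : Dfn M (fun q : (α × M) × M => g' q.1.1 = q.2 ∧ R q.1.2 q.2) := by
      refine Dfn.and ?_ ?_
      · exact Dfn.pj (f := fun q : (α × M) × M => (q.1.1, q.2)) h' (Pj.id.fst.fst.pair Pj.id.snd)
      · exact Dfn.pj (f := fun q : (α × M) × M => (q.1.2, q.2)) hR (Pj.id.fst.snd.pair Pj.id.snd)
    exact Dfn.ex (R := fun (p : α × M) y => g' p.1 = y ∧ R p.2 y) h2
  exact (Dfn.ex (R := fun a x => g a = x ∧ ∃ y, g' a = y ∧ R x y) h1).of_iff fun a =>
    ⟨fun h2 => ⟨g a, rfl, g' a, rfl, h2⟩, fun ⟨x, h2, y, h3, h4⟩ => by rw [h2, h3]; exact h4⟩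

/-- Terms with definable arguments. -/
theorem DG.term (t : Tm) (g : ℕ → α → M) (hg : ∀ i, DG (g i)) :
    DG (fun a => t.val (arOf M) (fun i => g i a)) := by
  induction t with
  | var i => exact hg i
  | zero => exact Dfn.pj (f := fun p : α × M => p.2) Dfn.zero0 Pj.id.snd
  | succ t ih =>
    have h1 := ih.pj (f := fun p : α × M => p.1) Pj.id.fst
    have h2 : DG (fun p : α × M => p.2) := DG.of_pj Pj.id.snd
    exact DG.rel2 (R := fun x y => x + 1 = y) Dfn.succ0 h1 h2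
  | add t u iht ihu =>
    have h1 := iht.pj (f := fun q : (α × M) × M => q.1.1) Pj.id.fst.fst
    have h1' := ihu.pj (f := fun q : α × M => q.1) Pj.id.fst
    have h3 : DG (fun q : (α × M) × M => q.2) := DG.of_pj Pj.id.snd
    have h4 : Dfn M (fun q : (α × M) × M =>
        t.val (arOf M) (fun i => g i q.1.1) + q.2 = q.1.2) := by
      have h5 : Dfn M (fun q : ((α × M) × M) × M => q.2 + q.1.2 = q.1.1.2) :=
        Dfn.pj (f := fun q : ((α × M) × M) × M => ((q.2, q.1.2), q.1.1.2)) Dfn.add0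
          ((Pj.id.snd.pair Pj.id.fst.snd).pair Pj.id.fst.fst.snd)
      have h6 : Dfn M (fun q : ((α × M) × M) × M => t.val (arOf M) (fun i => g i q.1.1.1) = q.2 ∧
          q.2 + q.1.2 = q.1.1.2) := Dfn.and h1 h5
      exact (Dfn.ex (R := fun (q : (α × M) × M) x =>
        t.val (arOf M) (fun i => g i q.1.1) = x ∧ x + q.2 = q.1.2) h6).of_iff fun a =>
          ⟨fun h2 => ⟨_, rfl, h2⟩, fun ⟨x, h2, h3⟩ => by rw [h2]; exact h3⟩
    have h7 : Dfn M (fun q : (α × M) × M => u.val (arOf M) (fun i => g i q.1.1) = q.2 ∧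
        t.val (arOf M) (fun i => g i q.1.1) + q.2 = q.1.2) := Dfn.and h1' h4
    exact (Dfn.ex (R := fun (q : α × M) x => u.val (arOf M) (fun i => g i q.1) = x ∧
        t.val (arOf M) (fun i => g i q.1) + x = q.2) h7).of_iff fun a =>
          ⟨fun h2 => ⟨_, rfl, h2⟩, fun ⟨x, h2, h3⟩ => by
            show t.val _ _ + u.val _ _ = _
            rw [h2]; exact h3⟩
  | mul t u iht ihu =>
    have h1 := iht.pj (f := fun q : (α × M) × M => q.1.1) Pj.id.fst.fst
    have h1' := ihu.pj (f := fun q : α × M => q.1) Pj.id.fst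
    have h3 : DG (fun q : (α × M) × M => q.2) := DG.of_pj Pj.id.snd
    have h4 : Dfn M (fun q : (α × M) × M =>
        t.val (arOf M) (fun i => g i q.1.1) * q.2 = q.1.2) := by
      have h5 : Dfn M (fun q : ((α × M) × M) × M => q.2 * q.1.2 = q.1.1.2) :=
        Dfn.pj (f := fun q : ((α × M) × M) × M => ((q.2, q.1.2), q.1.1.2)) Dfn.mul0
          ((Pj.id.snd.pair Pj.id.fst.snd).pair Pj.id.fst.fst.snd)
      have h6 : Dfn M (fun q : ((α × M) × M) × M => t.val (arOf M) (fun i => g i q.1.1.1) = q.2 ∧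
          q.2 * q.1.2 = q.1.1.2) := Dfn.and h1 h5
      exact (Dfn.ex (R := fun (q : (α × M) × M) x =>
        t.val (arOf M) (fun i => g i q.1.1) = x ∧ x * q.2 = q.1.2) h6).of_iff fun a =>
          ⟨fun h2 => ⟨_, rfl, h2⟩, fun ⟨x, h2, h3⟩ => by rw [h2]; exact h3⟩
    have h7 : Dfn M (fun q : (α × M) × M => u.val (arOf M) (fun i => g i q.1.1) = q.2 ∧
        t.val (arOf M) (fun i => g i q.1.1) * q.2 = q.1.2) := Dfn.and h1' h4
    exact (Dfn.ex (R := fun (q : α × M) x => u.val (arOf M) (fun i => g i q.1) = x ∧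
        t.val (arOf M) (fun i => g i q.1) * x = q.2) h7).of_iff fun a =>
          ⟨fun h2 => ⟨_, rfl, h2⟩, fun ⟨x, h2, h3⟩ => by
            show t.val _ _ * u.val _ _ = _
            rw [h2]; exact h3⟩

/-- Satisfaction with definable arguments. -/
theorem dfn_sat (φ : Fm) : ∀ {α : Type} [Cx M α] (g : ℕ → α → M), (∀ i, DG (g i)) →
    Dfn M (fun a => φ.sat (arOf M) (fun i => g i a)) := by
  have aux : ∀ {α : Type} [Cx M α] (g : ℕ → α → M), (∀ i, DG (g i)) →
      ∀ i, DG (fun p : α × M => push p.2 (fun j => g j p.1) i) := by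
    intro α _ g hg i
    cases i with
    | zero => exact DG.of_pj Pj.id.snd
    | succ i => exact (hg i).pj (f := fun p : α × M => p.1) Pj.id.fst
  induction φ with
  | eq t u => intro α _ g hg; exact DG.rel2 Dfn.eq0 (DG.term t g hg) (DG.term u g hg)
  | lt t u => intro α _ g hg; exact DG.rel2 Dfn.lt0 (DG.term t g hg) (DG.term u g hg)
  | neg f ih => intro α _ g hg; exact (ih g hg).not
  | and f f' ihf ihg => intro α _ g hg; exact (ihf g hg).and (ihg g hg)
  | or f f' ihf ihg => intro α _ g hg; exact (ihf g hg).or (ihg g hg)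
  | all f ih =>
    intro α _ g hg
    have h1 := ih (α := α × M) (fun i p => push p.2 (fun j => g j p.1) i) (aux g hg)
    exact Dfn.all (R := fun a x => f.sat (arOf M) (push x fun j => g j a)) h1
  | ex f ih =>
    intro α _ g hg
    have h1 := ih (α := α × M) (fun i p => push p.2 (fun j => g j p.1) i) (aux g hg)
    exact Dfn.ex (R := fun a x => f.sat (arOf M) (push x fun j => g j a)) h1

/-! ## Composition -/

theorem Dfn.comp {P : β → Prop} {f : α → β} (h : Dfn M P) (hf : DM M f) :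
    Dfn M (fun a => P (f a)) := by
  obtain ⟨φ, w, h⟩ := h
  refine (dfn_sat φ (fun i a => mix (Cx.e (f a)) w i) fun i => ?_).of_iff fun a => h (f a)
  by_cases hi : i % 2 = 0
  · have : (fun a : α => mix (Cx.e (M := M) (f a)) w i) = fun a => Cx.e (M := M) (f a) (i / 2) := by
      funext a
      rw [mix_comp, if_pos hi]
    rw [this]
    exact hf (i / 2)
  · have : (fun a : α => mix (Cx.e (M := M) (f a)) w i) = fun _ => w (i / 2) := by
      funext a
      rw [mix_comp, if_neg hi]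
    rw [this]
    exact DG.const _

theorem DM.dg {f : α → β} (h : DM M f) (i : ℕ) : DG (fun a => Cx.e (M := M) (f a) i) := h i

theorem DM.of_pj {f : α → β} (h : Pj M f) : DM M f := by
  intro i
  obtain ⟨ρ, hρ⟩ := h
  refine DG.of_pj (g := fun a => Cx.e (M := M) (f a) i) ⟨fun _ => ρ i, fun a j => ?_⟩
  exact hρ a i

theorem DM.id : DM M (fun a : α => a) := DM.of_pj Pj.id

theorem DM.const (b : β) : DM M (fun _ : α => b) := fun i => DG.const (Cx.e b i)

theorem DM.pair {f : α → β} {g : α → γ} (h : DM M f) (h' : DM M g) :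
    DM M (fun a => (f a, g a)) := by
  intro i
  show DG (fun a => mix (Cx.e (M := M) (f a)) (Cx.e (g a)) i)
  by_cases hi : i % 2 = 0
  · simp only [mix_comp, if_pos hi]
    exact h (i / 2)
  · simp only [mix_comp, if_neg hi]
    exact h' (i / 2)

theorem DM.fst {f : α → β × γ} (h : DM M f) : DM M (fun a => (f a).1) := by
  intro i
  have := h (2 * i)
  refine this.of_iff fun p => ?_
  show _ ↔ mix (Cx.e (f p.1).1) (Cx.e (f p.1).2) (2 * i) = p.2
  rw [mix_even]

theorem DM.snd {f : α → β × γ} (h : DM M f) : DM M (fun a => (f a).2) := by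
  intro i
  have := h (2 * i + 1)
  refine this.of_iff fun p => ?_
  show _ ↔ mix (Cx.e (f p.1).1) (Cx.e (f p.1).2) (2 * i + 1) = p.2
  rw [mix_odd]

theorem DM.comp {f : β → γ} {g : α → β} (h : DM M f) (h' : DM M g) :
    DM M (fun a => f (g a)) := by
  intro i
  have h1 : DM M (fun p : α × M => (g p.1, p.2)) := by
    refine DM.pair (fun j => ?_) (DM.of_pj Pj.id.snd)
    exact (h'.dg j).pj (f := fun p : α × M => p.1) Pj.id.fst
  exact Dfn.comp (f := fun p : α × M => (g p.1, p.2)) (h i) h1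

theorem DM.iff_graph {f : α → M} : DM M f ↔ Dfn M (fun p : α × M => f p.1 = p.2) :=
  ⟨fun h => h 0, fun h _ => h⟩

theorem DM.of_graph {f : α → M} {G : α → M → Prop} (hG : Dfn M (fun p : α × M => G p.1 p.2))
    (h : ∀ a x, f a = x ↔ G a x) : DM M f :=
  DM.iff_graph.mpr (hG.of_iff fun p => h p.1 p.2)

theorem Dfn.const (p : Prop) : Dfn M (fun _ : α => p) := by
  by_cases hp : p
  · exact ⟨.eq .zero .zero, fun _ => 0, fun _ => ⟨fun _ => rfl, fun _ => hp⟩⟩
  · exact ⟨.neg (.eq .zero .zero), fun _ => 0, fun _ =>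
      ⟨fun h => absurd h hp, fun h => absurd rfl h⟩⟩

theorem Dfn.eq {f g : α → M} (h : DM M f) (h' : DM M g) : Dfn M (fun a => f a = g a) :=
  Dfn.comp (f := fun a => (f a, g a)) Dfn.eq0 (h.pair h')

theorem Dfn.ne {f g : α → M} (h : DM M f) (h' : DM M g) : Dfn M (fun a => f a ≠ g a) :=
  (Dfn.eq h h').not

theorem Dfn.lt {f g : α → M} (h : DM M f) (h' : DM M g) : Dfn M (fun a => f a < g a) :=
  Dfn.comp (f := fun a => (f a, g a)) Dfn.lt0 (h.pair h')

theorem Dfn.le {f g : α → M} (h : DM M f) (h' : DM M g) : Dfn M (fun a => f a ≤ g a) :=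
  (Dfn.lt h' h).not.of_iff fun _ => not_lt.symm

theorem DM.add {f g : α → M} (h : DM M f) (h' : DM M g) : DM M (fun a => f a + g a) := by
  have h1 : DM M (fun p : M × M => p.1 + p.2) := DM.iff_graph.mpr Dfn.add0
  exact h1.comp (h.pair h')

theorem DM.mul {f g : α → M} (h : DM M f) (h' : DM M g) : DM M (fun a => f a * g a) := by
  have h1 : DM M (fun p : M × M => p.1 * p.2) := DM.iff_graph.mpr Dfn.mul0
  exact h1.comp (h.pair h')

theorem Dfn.dvd {f g : α → M} (h : DM M f) (h' : DM M g) : Dfn M (fun a => f a ∣ g a) := by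
  have h1 : Dfn M (fun p : α × M => g p.1 = f p.1 * p.2) :=
    Dfn.eq (h'.comp (DM.of_pj Pj.id.fst))
      ((h.comp (DM.of_pj Pj.id.fst)).mul (DM.of_pj Pj.id.snd))
  exact Dfn.ex (R := fun a c => g a = f a * c) h1

theorem DM.ite {P : α → Prop} [∀ a, Decidable (P a)] {f g : α → β} (hP : Dfn M P)
    (h : DM M f) (h' : DM M g) : DM M (fun a => if P a then f a else g a) := by
  intro i
  have h1 : Dfn M (fun p : α × M => P p.1) := hP.pj Pj.id.fst
  refine ((h1.and (h i)).or (h1.not.and (h' i))).of_iff fun p => ?_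
  by_cases hp : P p.1 <;> simp [hp]

/-! ## Induction -/

theorem induct {P : M → Prop} (hP : Dfn M P) (h0 : P 0) (hs : ∀ x, P x → P (x + 1)) :
    ∀ x, P x := by
  obtain ⟨φ, w, h⟩ := hP
  have key : ∀ x, P x ↔ (φ.ren fun i => if i % 2 = 0 then 0 else i / 2 + 1).sat (arOf M)
      (push x w) := by
    intro x
    rw [h, Fm.sat_ren]
    have : (mix (Cx.e x) w : ℕ → M) =
        fun i => push x w (if i % 2 = 0 then 0 else i / 2 + 1) := by
      funext i
      by_cases hi : i % 2 = 0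
      · rw [if_pos hi, mix_comp, if_pos hi]
        rfl
      · rw [if_neg hi, mix_comp, if_neg hi]
        rfl
    rw [this]
  intro x
  rw [key]
  refine Mdl.ind _ w ((key 0).mp h0) (fun y hy => ?_) x
  exact (key _).mp (hs y ((key y).mpr hy))

theorem lt_add_one_iff' {a b : M} : a < b + 1 ↔ a ≤ b := by
  rw [Mdl.lt_iff]
  exact add_le_add_iff_right 1

theorem strong_induct {P : M → Prop} (hP : Dfn M P) (hs : ∀ x, (∀ y < x, P y) → P x) :
    ∀ x, P x := by
  have h1 : ∀ x, ∀ y, y ≤ x → P y := by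
    refine induct ?_ ?_ ?_
    · have h2 : Dfn M (fun p : M × M => p.2 ≤ p.1 → P p.2) :=
        Dfn.imp (Dfn.le (DM.of_pj Pj.id.snd) (DM.of_pj Pj.id.fst)) (hP.pj Pj.id.snd)
      exact Dfn.all (R := fun x y => y ≤ x → P y) h2
    · intro y hy
      refine hs y fun z hz => ?_
      exact absurd (lt_of_lt_of_le hz hy) (not_lt.mpr (zero_le (a := z)))
    · intro x ih y hy
      refine hs y fun z hz => ih z ?_
      exact lt_add_one_iff'.mp (lt_of_lt_of_le hz hy)
  exact fun x => h1 x x le_rfl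

theorem least {P : M → Prop} (hP : Dfn M P) (h : ∃ x, P x) : ∃ x, P x ∧ ∀ y < x, ¬ P y := by
  by_contra hc
  push Not at hc
  obtain ⟨x, hx⟩ := h
  have := strong_induct (P := fun x => ¬ P x) hP.not (fun y hy hPy => by
    obtain ⟨z, hz, hPz⟩ := hc y hPy
    exact hy z hz hPz) x
  exact this hx

end

attribute [fun_prop] Dfn DM
attribute [fun_prop] Dfn.not Dfn.and Dfn.or Dfn.imp Dfn.iff Dfn.ex Dfn.all Dfn.comp Dfn.const
  Dfn.eq Dfn.ne Dfn.lt Dfn.le Dfn.dvd
attribute [fun_prop] DM.id DM.const DM.pair DM.fst DM.snd DM.comp DM.add DM.mul DM.ite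

section tests

variable {M : Type} [Mdl M] {α : Type} [Cx M α]

example {f g : α → M} (hf : DM M f) (hg : DM M g) :
    Dfn M (fun a => ∃ x, f a * x + 1 = g a ∧ ∀ y, y < x → ¬ (x ∣ y)) := by fun_prop

example (d : M) : Dfn M (fun p : M × M => ∃ x y, p.1 * x + 1 = p.2 + d ∧ (x, y).1 ≤ y) := by
  fun_prop

end tests

end Pool.Agent.MU
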