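import Pool.Agent.MU.Model
import Pool.Agent.MU.Codes

/-! # Module M4: models of PA are ordered semirings with induction for definable sets -/

set_option autoImplicit false

namespace Pool.Agent.MU

variable {M : Type}

theorem Tm.val_sub (A : Ar M) (σ : ℕ → Tm) (v : ℕ → M) (t : Tm) :
    (t.sub σ).val A v = t.val A (fun i => (σ i).val A v) := by
  induction t with
  | var i => rfl
  | zero => rfl
  | succ t ih => simp only [Tm.sub, Tm.val, ih]
  | add t u ih1 ih2 => simp only [Tm.sub, Tm.val, ih1, ih2]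
  | mul t u ih1 ih2 => simp only [Tm.sub, Tm.val, ih1, ih2]

theorem val_up (A : Ar M) (σ : ℕ → Tm) (v : ℕ → M) (a : M) :
    (fun i => (up σ i).val A (push a v)) = push a (fun i => (σ i).val A v) := by
  funext i
  cases i with
  | zero => rfl
  | succ i =>
    simp only [up, Tm.val_sub, push]
    rfl

theorem Fm.sat_sub (A : Ar M) (f : Fm) (σ : ℕ → Tm) (v : ℕ → M) :
    (f.sub σ).sat A v ↔ f.sat A (fun i => (σ i).val A v) := by
  induction f generalizing σ v with
  | eq t u => simp only [Fm.sub, Fm.sat, Tm.val_sub]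
  | lt t u => simp only [Fm.sub, Fm.sat, Tm.val_sub]
  | neg f ih => simp only [Fm.sub, Fm.sat, ih]
  | and f g ih1 ih2 => simp only [Fm.sub, Fm.sat, ih1, ih2]
  | or f g ih1 ih2 => simp only [Fm.sub, Fm.sat, ih1, ih2]
  | all f ih => simp only [Fm.sub, Fm.sat, ih, val_up]
  | ex f ih => simp only [Fm.sub, Fm.sat, ih, val_up]

theorem Fm.sat_imp (A : Ar M) (f g : Fm) (v : ℕ → M) :
    (f.imp g).sat A v ↔ (f.sat A v → g.sat A v) := by
  simp only [Fm.imp, Fm.sat]
  tauto

theorem Fm.sat_alls (A : Ar M) (f : Fm) (n : ℕ) (v w : ℕ → M) (h : (f.alls n).sat A v)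
    (hw : ∀ i, w (n + i) = v i) : f.sat A w := by
  induction n generalizing v with
  | zero =>
    have : w = v := by funext i; simpa using hw i
    rw [this]
    exact h
  | succ n ih =>
    refine ih (push (w n) v) (h (w n)) ?_
    intro i
    cases i with
    | zero => rfl
    | succ i =>
      rw [show n + (i + 1) = n + 1 + i by ring, hw]
      rfl

theorem Fm.sat_ind (A : Ar M) (f : Fm) (v : ℕ → M) (h : f.ind.sat A v) (h0 : f.sat A (push A.zero v))
    (hs : ∀ x, f.sat A (push x v) → f.sat A (push (A.succ x) v)) (x : M) : f.sat A (push x v) := by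
  rw [Fm.ind, Fm.sat_imp] at h
  refine h ⟨?_, fun a => ?_⟩ x
  · rw [Fm.sat_sub]
    convert h0 using 1
    funext i
    cases i <;> rfl
  · rw [Fm.sat_imp, Fm.sat_sub]
    intro ha
    convert hs a ha using 1
    funext i
    cases i <;> rfl

/-- The axioms of PA in semantic form. -/
structure PAS (A : Ar M) : Prop where
  succ_ne : ∀ a, A.succ a ≠ A.zero
  succ_inj : ∀ a b, A.succ a = A.succ b → a = b
  add_zero : ∀ a, A.add a A.zero = a
  add_succ : ∀ a b, A.add a (A.succ b) = A.succ (A.add a b)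
  mul_zero : ∀ a, A.mul a A.zero = A.zero
  mul_succ : ∀ a b, A.mul a (A.succ b) = A.add (A.mul a b) a
  not_lt_zero : ∀ a, ¬ A.lt a A.zero
  lt_succ : ∀ a b, A.lt a (A.succ b) ↔ A.lt a b ∨ a = b
  ind : ∀ (f : Fm) (v : ℕ → M), f.sat A (push A.zero v) →
    (∀ x, f.sat A (push x v) → f.sat A (push (A.succ x) v)) → ∀ x, f.sat A (push x v)

theorem pas_of_PA {A : Ar M} (hA : Models A PA) : PAS A := by
  have key : ∀ f, PAx f → ∀ w, f.sat A w := by
    intro f hf w
    exact Fm.sat_alls A f f.mxv (fun i => w (f.mxv + i)) w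
      (hA _ ⟨f, f.mxv, hf, (Fm.closed_iff_mxv _ _).2 le_rfl, rfl⟩ _) (fun _ => rfl)
  refine ⟨fun a => ?_, fun a b h => ?_, fun a => ?_, fun a b => ?_, fun a => ?_, fun a b => ?_,
    fun a => ?_, fun a b => ⟨?_, ?_⟩, fun f v => ?_⟩
  · exact key _ .succ_ne (fun _ => a)
  · have := (Fm.sat_imp _ _ _ _).1 (key _ .succ_inj (push a (fun _ => b)))
    exact this h
  · exact key _ .add_zero (fun _ => a)
  · exact key _ .add_succ (push a (fun _ => b))
  · exact key _ .mul_zero (fun _ => a)
  · exact key _ .mul_succ (push a (fun _ => b))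
  · exact key _ .not_lt_zero (fun _ => a)
  · have := (Fm.sat_imp _ _ _ _).1 (key _ .lt_succ (push a (fun _ => b)))
    exact this
  · have := (Fm.sat_imp _ _ _ _).1 (key _ .succ_lt (push a (fun _ => b)))
    exact this
  · exact Fm.sat_ind A f v (key _ (.ind f) v)

namespace PAS

variable {A : Ar M} (h : PAS A)

include h

theorem zero_add (x : M) : A.add A.zero x = x := by
  refine h.ind (.eq (.add .zero (.var 0)) (.var 0)) (fun _ => A.zero) ?_ ?_ x
  · exact h.add_zero _
  · intro x hx
    have hx' : A.add A.zero x = x := hx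
    change A.add A.zero (A.succ x) = A.succ x
    rw [h.add_succ, hx']

theorem succ_add (x y : M) : A.add (A.succ x) y = A.succ (A.add x y) := by
  refine h.ind (.eq (.add (.succ (.var 1)) (.var 0)) (.succ (.add (.var 1) (.var 0))))
    (fun _ => x) ?_ ?_ y
  · change A.add (A.succ x) A.zero = A.succ (A.add x A.zero)
    rw [h.add_zero, h.add_zero]
  · intro y hy
    have hy' : A.add (A.succ x) y = A.succ (A.add x y) := hy
    change A.add (A.succ x) (A.succ y) = A.succ (A.add x (A.succ y))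
    rw [h.add_succ, h.add_succ, hy']

theorem add_comm (x y : M) : A.add x y = A.add y x := by
  refine h.ind (.eq (.add (.var 1) (.var 0)) (.add (.var 0) (.var 1))) (fun _ => x) ?_ ?_ y
  · change A.add x A.zero = A.add A.zero x
    rw [h.add_zero, h.zero_add]
  · intro y hy
    have hy' : A.add x y = A.add y x := hy
    change A.add x (A.succ y) = A.add (A.succ y) x
    rw [h.add_succ, h.succ_add, hy']

theorem add_assoc (x y z : M) : A.add (A.add x y) z = A.add x (A.add y z) := by
  refine h.ind (.eq (.add (.add (.var 1) (.var 2)) (.var 0))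
    (.add (.var 1) (.add (.var 2) (.var 0)))) (push x (fun _ => y)) ?_ ?_ z
  · change A.add (A.add x y) A.zero = A.add x (A.add y A.zero)
    rw [h.add_zero, h.add_zero]
  · intro z hz
    have hz' : A.add (A.add x y) z = A.add x (A.add y z) := hz
    change A.add (A.add x y) (A.succ z) = A.add x (A.add y (A.succ z))
    rw [h.add_succ, h.add_succ, h.add_succ, hz']

theorem zero_mul (x : M) : A.mul A.zero x = A.zero := by
  refine h.ind (.eq (.mul .zero (.var 0)) .zero) (fun _ => A.zero) ?_ ?_ x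
  · exact h.mul_zero _
  · intro x hx
    have hx' : A.mul A.zero x = A.zero := hx
    change A.mul A.zero (A.succ x) = A.zero
    rw [h.mul_succ, hx', h.add_zero]

theorem succ_mul (x y : M) : A.mul (A.succ x) y = A.add (A.mul x y) y := by
  refine h.ind (.eq (.mul (.succ (.var 1)) (.var 0)) (.add (.mul (.var 1) (.var 0)) (.var 0)))
    (fun _ => x) ?_ ?_ y
  · change A.mul (A.succ x) A.zero = A.add (A.mul x A.zero) A.zero
    rw [h.mul_zero, h.mul_zero, h.add_zero]
  · intro y hy
    have hy' : A.mul (A.succ x) y = A.add (A.mul x y) y := hy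
    change A.mul (A.succ x) (A.succ y) = A.add (A.mul x (A.succ y)) (A.succ y)
    rw [h.mul_succ, h.mul_succ, hy', h.add_succ, h.add_succ, h.add_assoc, h.add_assoc,
      h.add_comm x y]

theorem mul_comm (x y : M) : A.mul x y = A.mul y x := by
  refine h.ind (.eq (.mul (.var 1) (.var 0)) (.mul (.var 0) (.var 1))) (fun _ => x) ?_ ?_ y
  · change A.mul x A.zero = A.mul A.zero x
    rw [h.mul_zero, h.zero_mul]
  · intro y hy
    have hy' : A.mul x y = A.mul y x := hy
    change A.mul x (A.succ y) = A.mul (A.succ y) x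
    rw [h.mul_succ, h.succ_mul, hy']

theorem mul_add (x y z : M) : A.mul x (A.add y z) = A.add (A.mul x y) (A.mul x z) := by
  refine h.ind (.eq (.mul (.var 1) (.add (.var 2) (.var 0)))
    (.add (.mul (.var 1) (.var 2)) (.mul (.var 1) (.var 0)))) (push x (fun _ => y)) ?_ ?_ z
  · change A.mul x (A.add y A.zero) = A.add (A.mul x y) (A.mul x A.zero)
    rw [h.add_zero, h.mul_zero, h.add_zero]
  · intro z hz
    have hz' : A.mul x (A.add y z) = A.add (A.mul x y) (A.mul x z) := hz
    change A.mul x (A.add y (A.succ z)) = A.add (A.mul x y) (A.mul x (A.succ z))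
    rw [h.add_succ, h.mul_succ, h.mul_succ, hz', h.add_assoc]

theorem mul_assoc (x y z : M) : A.mul (A.mul x y) z = A.mul x (A.mul y z) := by
  refine h.ind (.eq (.mul (.mul (.var 1) (.var 2)) (.var 0))
    (.mul (.var 1) (.mul (.var 2) (.var 0)))) (push x (fun _ => y)) ?_ ?_ z
  · change A.mul (A.mul x y) A.zero = A.mul x (A.mul y A.zero)
    rw [h.mul_zero, h.mul_zero, h.mul_zero]
  · intro z hz
    have hz' : A.mul (A.mul x y) z = A.mul x (A.mul y z) := hz
    change A.mul (A.mul x y) (A.succ z) = A.mul x (A.mul y (A.succ z))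
    rw [h.mul_succ, h.mul_succ, h.mul_add, hz']

theorem cases (x : M) : x = A.zero ∨ ∃ y, x = A.succ y := by
  refine h.ind (.or (.eq (.var 0) .zero) (.ex (.eq (.var 1) (.succ (.var 0)))))
    (fun _ => A.zero) ?_ ?_ x
  · exact Or.inl rfl
  · intro x _
    exact Or.inr ⟨x, rfl⟩

theorem add_right_cancel (x y z : M) : A.add x z = A.add y z → x = y := by
  refine (Fm.sat_imp _ _ _ _).1 (h.ind (.imp (.eq (.add (.var 1) (.var 0))
    (.add (.var 2) (.var 0))) (.eq (.var 1) (.var 2))) (push x (fun _ => y)) ?_ ?_ z)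
  · rw [Fm.sat_imp]
    change A.add x A.zero = A.add y A.zero → x = y
    rw [h.add_zero, h.add_zero]
    exact id
  · intro z hz
    rw [Fm.sat_imp] at hz ⊢
    have hz' : A.add x z = A.add y z → x = y := hz
    change A.add x (A.succ z) = A.add y (A.succ z) → x = y
    rw [h.add_succ, h.add_succ]
    exact fun e => hz' (h.succ_inj _ _ e)

theorem lt_add_succ (x z : M) : A.lt x (A.add x (A.succ z)) := by
  refine h.ind (.lt (.var 1) (.add (.var 1) (.succ (.var 0)))) (fun _ => x) ?_ ?_ z
  · change A.lt x (A.add x (A.succ A.zero))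
    rw [h.add_succ, h.add_zero, h.lt_succ]
    exact Or.inr rfl
  · intro z hz
    have hz' : A.lt x (A.add x (A.succ z)) := hz
    change A.lt x (A.add x (A.succ (A.succ z)))
    rw [h.add_succ, h.lt_succ]
    exact Or.inl hz'

theorem exists_of_lt (x y : M) : A.lt x y → ∃ z, y = A.add x (A.succ z) := by
  refine (Fm.sat_imp _ _ _ _).1 (h.ind (.imp (.lt (.var 1) (.var 0))
    (.ex (.eq (.var 1) (.add (.var 2) (.succ (.var 0)))))) (fun _ => x) ?_ ?_ y)
  · rw [Fm.sat_imp]
    intro h0
    exact absurd h0 (h.not_lt_zero x)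
  · intro y hy
    rw [Fm.sat_imp] at hy ⊢
    have hy' : A.lt x y → ∃ z, y = A.add x (A.succ z) := hy
    change A.lt x (A.succ y) → ∃ z, A.succ y = A.add x (A.succ z)
    rw [h.lt_succ]
    rintro (h1 | h1)
    · obtain ⟨z, hz⟩ := hy' h1
      exact ⟨A.succ z, by rw [h.add_succ, ← hz]⟩
    · exact ⟨A.zero, by rw [h.add_succ, h.add_zero, h1]⟩

theorem lt_iff (x y : M) : A.lt x y ↔ ∃ z, y = A.add x (A.succ z) :=
  ⟨h.exists_of_lt x y, fun ⟨z, hz⟩ => hz ▸ h.lt_add_succ x z⟩

theorem add_eq_zero {x y : M} (e : A.add x y = A.zero) : y = A.zero := by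
  rcases h.cases y with h1 | ⟨z, rfl⟩
  · exact h1
  · rw [h.add_succ] at e
    exact absurd e (h.succ_ne _)

theorem total (x y : M) : (∃ z, x = A.add y z) ∨ ∃ z, y = A.add x z := by
  refine h.ind (.or (.ex (.eq (.var 2) (.add (.var 1) (.var 0))))
    (.ex (.eq (.var 1) (.add (.var 2) (.var 0))))) (fun _ => x) ?_ ?_ y
  · exact Or.inl ⟨x, (h.zero_add x).symm⟩
  · intro y hy
    have hy' : (∃ z, x = A.add y z) ∨ ∃ z, y = A.add x z := hy
    change (∃ z, x = A.add (A.succ y) z) ∨ ∃ z, A.succ y = A.add x z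
    rcases hy' with ⟨z, hz⟩ | ⟨z, hz⟩
    · rcases h.cases z with rfl | ⟨w, rfl⟩
      · right
        rw [h.add_zero] at hz
        exact ⟨A.succ A.zero, by rw [hz, h.add_succ, h.add_zero]⟩
      · left
        exact ⟨w, by rw [hz, h.succ_add, h.add_succ]⟩
    · right
      exact ⟨A.succ z, by rw [h.add_succ, ← hz]⟩

theorem mul_one (x : M) : A.mul x (A.succ A.zero) = x := by
  rw [h.mul_succ, h.mul_zero, h.zero_add]

theorem add_one (x : M) : A.add x (A.succ A.zero) = A.succ x := by
  rw [h.add_succ, h.add_zero]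

/-- The semiring. -/
@[reducible] def sr : CommSemiring M where
  add := A.add
  zero := A.zero
  mul := A.mul
  one := A.succ A.zero
  add_assoc := h.add_assoc
  zero_add := h.zero_add
  add_zero := h.add_zero
  add_comm := h.add_comm
  left_distrib := h.mul_add
  right_distrib := fun x y z => by
    change A.mul (A.add x y) z = A.add (A.mul x z) (A.mul y z)
    rw [h.mul_comm, h.mul_add, h.mul_comm z x, h.mul_comm z y]
  zero_mul := h.zero_mul
  mul_zero := h.mul_zero
  mul_assoc := h.mul_assoc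
  one_mul := fun x => by
    change A.mul (A.succ A.zero) x = x
    rw [h.mul_comm, h.mul_one]
  mul_one := h.mul_one
  mul_comm := h.mul_comm
  nsmul := @nsmulRec M ⟨A.zero⟩ ⟨A.add⟩

open Classical in
/-- The order. -/
@[reducible] noncomputable def lo : LinearOrder M where
  le := fun x y => ∃ z, y = A.add x z
  lt := A.lt
  le_refl := fun x => ⟨A.zero, (h.add_zero x).symm⟩
  le_trans := by
    rintro x y z ⟨a, rfl⟩ ⟨b, rfl⟩
    exact ⟨A.add a b, h.add_assoc _ _ _⟩
  le_antisymm := by
    rintro x y ⟨a, rfl⟩ ⟨b, hb⟩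
    rw [h.add_assoc] at hb
    have h1 : A.add A.zero x = A.add (A.add a b) x := by
      rw [h.zero_add, h.add_comm (A.add a b) x]
      exact hb
    have h2 := h.add_right_cancel _ _ _ h1
    rw [h.add_comm] at h2
    rw [h.add_eq_zero h2.symm, h.add_zero]
  le_total := fun x y => (h.total x y).symm
  lt_iff_le_not_ge := by
    intro x y
    rw [h.lt_iff]
    constructor
    · rintro ⟨z, rfl⟩
      refine ⟨⟨_, rfl⟩, ?_⟩
      rintro ⟨w, hw⟩
      rw [h.add_assoc] at hw
      have h1 : A.add A.zero x = A.add (A.add (A.succ z) w) x := by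
        rw [h.zero_add, h.add_comm (A.add (A.succ z) w) x]
        exact hw
      have h2 := h.add_right_cancel _ _ _ h1
      rw [h.add_comm] at h2
      exact h.succ_ne z (h.add_eq_zero h2.symm)
    · rintro ⟨⟨z, rfl⟩, hn⟩
      rcases h.cases z with rfl | ⟨w, rfl⟩
      · exact absurd ⟨A.zero, by rw [h.add_zero, h.add_zero]⟩ hn
      · exact ⟨w, rfl⟩
  toDecidableLE := fun _ _ => Classical.dec _

end PAS

theorem mdl_of_PA (A : Ar M) (hA : Models A PA) :
    ∃ inst : Mdl M, @arOf M inst.toCommSemiring inst.toLinearOrder = A := by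
  have h := pas_of_PA hA
  let cs : CommSemiring M := h.sr
  let ls : LinearOrder M := h.lo
  have hadd : ∀ x y : M, x + y = A.add x y := fun _ _ => rfl
  have hmul : ∀ x y : M, x * y = A.mul x y := fun _ _ => rfl
  have hone : (1 : M) = A.succ A.zero := rfl
  have hzero : (0 : M) = A.zero := rfl
  have hle : ∀ x y : M, x ≤ y ↔ ∃ z, y = x + z := fun _ _ => Iff.rfl
  have hlt : ∀ x y : M, x < y ↔ A.lt x y := fun _ _ => Iff.rfl
  have hsucc : ∀ x : M, x + 1 = A.succ x := fun x => h.add_one x
  have hlt' : ∀ x y : M, x < y ↔ ∃ z, y = x + (z + 1) := by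
    intro x y
    rw [hlt, h.lt_iff]
    simp only [hadd, ← hsucc]
  have hcancel : ∀ x y z : M, x + z = y + z → x = y := fun x y z => h.add_right_cancel x y z
  have hstruct : arOf M = A := by
    have e1 : (fun x : M => x + 1) = A.succ := funext hsucc
    unfold arOf
    rw [e1]
    rfl
  have hsor : IsStrictOrderedRing M := by
    refine @IsStrictOrderedRing.mk M _ _ ?_ ?_ ?_ ?_ ?_
    · refine @IsOrderedCancelAddMonoid.mk M _ _ ?_ ?_ ?_
      · refine @IsOrderedAddMonoid.mk M _ _ ?_ ?_
        · intro a b hab c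
          obtain ⟨z, rfl⟩ := (hle _ _).1 hab
          exact (hle _ _).2 ⟨z, by ring⟩
        · intro a b hab c
          obtain ⟨z, rfl⟩ := (hle _ _).1 hab
          exact (hle _ _).2 ⟨z, by ring⟩
      · intro a b c hab
        obtain ⟨z, hz⟩ := (hle _ _).1 hab
        refine (hle _ _).2 ⟨z, hcancel _ _ a ?_⟩
        rw [_root_.add_comm c a, hz]
        ring
      · intro a b c hab
        obtain ⟨z, hz⟩ := (hle _ _).1 hab
        refine (hle _ _).2 ⟨z, hcancel _ _ a ?_⟩
        rw [hz]
        ring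
    · exact ⟨(hle 0 1).2 ⟨1, by rw [_root_.zero_add]⟩⟩
    · exact ⟨⟨0, 1, fun e => h.succ_ne A.zero e.symm⟩⟩
    · refine ⟨?_⟩
      intro a ha b c hbc
      obtain ⟨z, rfl⟩ := (hlt' _ _).1 hbc
      obtain ⟨w, rfl⟩ := (hlt' _ _).1 ha
      exact (hlt' _ _).2 ⟨w * z + w + z, by ring⟩
    · refine ⟨?_⟩
      intro a ha b c hbc
      obtain ⟨z, rfl⟩ := (hlt' _ _).1 hbc
      obtain ⟨w, rfl⟩ := (hlt' _ _).1 ha
      exact (hlt' _ _).2 ⟨w * z + w + z, by ring⟩
  have hcan : CanonicallyOrderedAdd M := by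
    refine @CanonicallyOrderedAdd.mk M _ _ ?_ ?_ ?_
    · exact ⟨fun {a b} hab => (hle a b).1 hab⟩
    · intro a b
      exact (hle _ _).2 ⟨b, _root_.add_comm _ _⟩
    · intro a b
      exact (hle _ _).2 ⟨b, rfl⟩
  refine ⟨{ cs, ls with
    sor := hsor
    can := hcan
    lt_iff := ?_
    ind := ?_ }, ?_⟩
  · intro a b
    rw [hlt', hle]
    constructor
    · rintro ⟨z, rfl⟩
      exact ⟨z, by ring⟩
    · rintro ⟨z, rfl⟩
      exact ⟨z, by ring⟩
  · intro φ v h0 hs x
    rw [hstruct] at h0 hs ⊢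
    refine h.ind φ v h0 (fun y hy => ?_) x
    have := hs y hy
    rwa [hsucc] at this
  · exact hstruct

end Pool.Agent.MU
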