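import Pool.Agent.MU.Dfn

/-! # True arithmetic is a completion of PA -/

set_option autoImplicit false

namespace Pool.Agent.MU

/-- the standard model -/
def stdAr : Ar ℕ := ⟨0, fun x => x + 1, fun x y => x + y, fun x y => x * y, fun x y => x < y⟩

theorem Tm.val_congrS {M : Type} (A : Ar M) (t : Tm) (n : ℕ) (v w : ℕ → M)
    (ht : t.closed n) (h : ∀ i < n, v i = w i) : t.val A v = t.val A w := by
  induction t with
  | var i => exact h i ht
  | zero => rfl
  | succ t ih => simp only [Tm.val]; rw [ih ht]
  | add t u iht ihu => simp only [Tm.val]; rw [iht ht.1, ihu ht.2]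
  | mul t u iht ihu => simp only [Tm.val]; rw [iht ht.1, ihu ht.2]

theorem Fm.sat_congrS {M : Type} (A : Ar M) (f : Fm) : ∀ (n : ℕ) (v w : ℕ → M),
    f.closed n → (∀ i < n, v i = w i) → (f.sat A v ↔ f.sat A w) := by
  induction f with
  | eq t u =>
    intro n v w hf h
    simp only [Fm.sat]
    rw [t.val_congrS A n v w hf.1 h, u.val_congrS A n v w hf.2 h]
  | lt t u =>
    intro n v w hf h
    simp only [Fm.sat]
    rw [t.val_congrS A n v w hf.1 h, u.val_congrS A n v w hf.2 h]
  | neg f ih =>
    intro n v w hf h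
    simp only [Fm.sat]
    rw [ih n v w hf h]
  | and f g ihf ihg =>
    intro n v w hf h
    simp only [Fm.sat]
    rw [ihf n v w hf.1 h, ihg n v w hf.2 h]
  | or f g ihf ihg =>
    intro n v w hf h
    simp only [Fm.sat]
    rw [ihf n v w hf.1 h, ihg n v w hf.2 h]
  | all f ih =>
    intro n v w hf h
    simp only [Fm.sat]
    refine forall_congr' fun a => ih (n + 1) _ _ hf fun i hi => ?_
    cases i with
    | zero => rfl
    | succ i => exact h i (by omega)
  | ex f ih =>
    intro n v w hf h
    simp only [Fm.sat]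
    refine exists_congr fun a => ih (n + 1) _ _ hf fun i hi => ?_
    cases i with
    | zero => rfl
    | succ i => exact h i (by omega)

theorem Fm.closed_allsS (f : Fm) : ∀ (n k : ℕ), f.closed (n + k) → (f.alls n).closed k := by
  intro n
  induction n with
  | zero => intro k h; simpa [Fm.alls] using h
  | succ n ih =>
    intro k h
    simp only [Fm.alls, Fm.closed]
    exact ih (k + 1) (by rw [show n + (k + 1) = n + 1 + k by omega]; exact h)

theorem Fm.sat_allsS {M : Type} (A : Ar M) (f : Fm) (h : ∀ v, f.sat A v) :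
    ∀ (n : ℕ) (v : ℕ → M), (f.alls n).sat A v := by
  intro n
  induction n with
  | zero => exact h
  | succ n ih => intro v a; exact ih _

theorem sat_impS {M : Type} (A : Ar M) (f g : Fm) (v : ℕ → M) :
    (Fm.imp f g).sat A v ↔ (f.sat A v → g.sat A v) := by
  unfold Fm.imp
  simp only [Fm.sat]
  tauto

theorem std_PAx {f : Fm} (h : PAx f) (v : ℕ → ℕ) : f.sat stdAr v := by
  cases h with
  | succ_ne => simp [Fm.sat, Tm.val, stdAr]
  | succ_inj =>
    rw [sat_impS]
    simp only [Fm.sat, Tm.val, stdAr]
    omega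
  | add_zero => simp [Fm.sat, Tm.val, stdAr]
  | add_succ =>
    simp only [Fm.sat, Tm.val, stdAr]
    omega
  | mul_zero => simp [Fm.sat, Tm.val, stdAr]
  | mul_succ =>
    simp only [Fm.sat, Tm.val, stdAr]
    ring
  | not_lt_zero => simp [Fm.sat, Tm.val, stdAr]
  | lt_succ =>
    rw [sat_impS]
    simp only [Fm.sat, Tm.val, stdAr]
    omega
  | succ_lt =>
    rw [sat_impS]
    simp only [Fm.sat, Tm.val, stdAr]
    omega
  | ind f =>
    unfold Fm.ind
    rw [sat_impS]
    rintro ⟨h0, h1⟩ x
    induction x with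
    | zero =>
      rw [Fm.sat_sub] at h0
      convert h0 using 1
      funext i
      cases i <;> rfl
    | succ x ih =>
      have h2 := (sat_impS _ _ _ _).1 (h1 x) ih
      rw [Fm.sat_sub] at h2
      convert h2 using 1
      funext i
      cases i <;> rfl

/-- True arithmetic is a completion of PA. -/
theorem isCompletion_TA : IsCompletion {f : Fm | f.closed 0 ∧ ∀ v, f.sat stdAr v} where
  sentences := fun _ h => h.1
  pa := by
    rintro g ⟨f, n, hf, hn, rfl⟩
    exact ⟨f.closed_allsS n 0 (by simpa using hn), f.sat_allsS stdAr (std_PAx hf) n⟩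
  complete := by
    intro f hf
    by_cases h : f.sat stdAr (fun _ => 0)
    · left
      exact ⟨hf, fun v => (f.sat_congrS stdAr 0 _ _ hf (by simp)).1 h⟩
    · right
      exact ⟨hf, fun v h' => h ((f.sat_congrS stdAr 0 _ _ hf (by simp)).1 h')⟩
  consistent := ⟨ℕ, stdAr, fun _ h => h.2⟩

end Pool.Agent.MU
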