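import Pool.Agent.MU.Step

/-! # The limit of the records (parts A2 - A5 of Theorem B) -/

set_option autoImplicit false

namespace Pool.Agent.MU

open Encodable
open Nat.Partrec (Code)
open Pool.Agent.Helper70 (PC res pre_res getElem?_res length_res)
open Pool.Agent.Helper70.OD (RE)

section limit

variable {A b : ℕ → Bool} {Ds : ℕ → List Rc} {x : ℕ → ℕ}

theorem length_Ds (h0 : Ds 0 = []) (hs : ∀ n, Ds (n + 1) = Ds n ++ [(x n, A (x n), b n)])
    (n : ℕ) : (Ds n).length = n := by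
  induction n with
  | zero => rw [h0]; rfl
  | succ n ih => rw [hs, List.length_append, ih]; rfl

theorem getElem?_Ds (h0 : Ds 0 = []) (hs : ∀ n, Ds (n + 1) = Ds n ++ [(x n, A (x n), b n)])
    {i n : ℕ} (hi : i < n) : (Ds n)[i]? = some (x i, A (x i), b i) := by
  induction n with
  | zero => omega
  | succ n ih =>
    rw [hs]
    rcases Nat.lt_succ_iff_lt_or_eq.mp hi with h | h
    · rw [List.getElem?_append_left (by rw [length_Ds h0 hs]; exact h), ih h]
    · subst h
      rw [List.getElem?_append_right (by rw [length_Ds h0 hs]), length_Ds h0 hs]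
      simp

theorem take_Ds (h0 : Ds 0 = []) (hs : ∀ n, Ds (n + 1) = Ds n ++ [(x n, A (x n), b n)])
    {i n : ℕ} (hi : i ≤ n) : (Ds n).take i = Ds i := by
  induction n, hi using Nat.le_induction with
  | base => rw [List.take_of_length_le (by rw [length_Ds h0 hs])]
  | succ n hn ih =>
    rw [hs, List.take_append_of_le_length (by rw [length_Ds h0 hs]; exact hn), ih]

/-- The members of the classes. -/
theorem limit_member {e : Code} {y : ℕ → Bool} (h0 : Ds 0 = [])
    (hs : ∀ n, Ds (n + 1) = Ds n ++ [(x n, A (x n), b n)])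
    (hne : ∀ n, NE e (Ds n) n [] y) (n : ℕ) :
    ∃ B : ℕ → Bool, (∀ i < n, B i = b i) ∧
      (∀ i < n, ¬ Fst (Denumerable.ofNat Code i) (x i) (A (x i)) B) ∧
      ∀ i < n, ∀ j, B (Nat.pair i (pos e (Ds i) (res (col i y) j))) = y (Nat.pair i j) := by
  obtain ⟨B, hB⟩ := hne n
  unfold Out at hB
  push Not at hB
  obtain ⟨-, hB1, hC, hD, -⟩ := hB
  refine ⟨B, fun i hi => ?_, fun i hi hf => ?_, fun i hi j => ?_⟩
  · by_contra hc
    refine hC ⟨i, _, getElem?_Ds h0 hs hi, ?_⟩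
    revert hc
    cases B i <;> cases b i <;> simp
  · exact hB1 ⟨i, _, getElem?_Ds h0 hs hi, hf⟩
  · have := outD_iff.1 hD i hi j
    rwa [take_Ds h0 hs hi.le] at this

end limit

/-- A2 -/
theorem limit_fst {e : Code} {y A b : ℕ → Bool} {Ds : ℕ → List Rc} {x : ℕ → ℕ}
    (h0 : Ds 0 = []) (hs : ∀ n, Ds (n + 1) = Ds n ++ [(x n, A (x n), b n)])
    (hne : ∀ n, NE e (Ds n) n [] y) (i : ℕ) :
    ¬ Fst (Denumerable.ofNat Code i) (x i) (A (x i)) b := by
  intro hf
  obtain ⟨V, -, hR⟩ := SR_fst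
  obtain ⟨τ, h1, h2⟩ := (hR (Denumerable.ofNat Code i, x i, A (x i)) b).1 hf
  obtain ⟨B, hB, hB1, -⟩ := limit_member h0 hs hne (max τ.length (i + 1))
  refine hB1 i (by omega) ((hR (Denumerable.ofNat Code i, x i, A (x i)) B).2 ⟨τ, ?_, h2⟩)
  intro k c hk
  have hk' : k < τ.length := by
    by_contra hc
    rw [List.getElem?_eq_none (not_lt.1 hc)] at hk
    cases hk
  rw [hB k (by omega)]
  exact h1 k c hk

/-- A3 -/
theorem limit_col {e : Code} {y A b : ℕ → Bool} {Ds : ℕ → List Rc} {x : ℕ → ℕ}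
    (h0 : Ds 0 = []) (hs : ∀ n, Ds (n + 1) = Ds n ++ [(x n, A (x n), b n)])
    (hne : ∀ n, NE e (Ds n) n [] y) (i j : ℕ) :
    b (Nat.pair i (pos e (Ds i) (res (col i y) j))) = y (Nat.pair i j) := by
  obtain ⟨B, hB, -, hD⟩ := limit_member h0 hs hne
    (max (Nat.pair i (pos e (Ds i) (res (col i y) j)) + 1) (i + 1))
  rw [← hB _ (by omega)]
  exact hD i (by omega) j

/-- A4 -/
theorem not_Sg_of_fst {A b : ℕ → Bool} {x : ℕ → ℕ}
    (h : ∀ i, ¬ Fst (Denumerable.ofNat Code i) (x i) (A (x i)) b) : ¬ Sg A b := by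
  rintro ⟨R, hR, hA⟩
  obtain ⟨c, hc⟩ := exists_code_of_SR (R := fun w j X => R (w, j) X) hR
  refine h (encode c) ?_
  rw [Denumerable.ofNat_encode]
  obtain ⟨j, hj⟩ := exists_fst ⟨_, (hc (x (encode c)) (A (x (encode c))) b).1 ((hA (_, _)).1 rfl)⟩
  have h1 : A (x (encode c)) = j := (hA (_, _)).2 ((hc _ _ _).2 hj.hit)
  rw [h1]
  exact hj

/-- A5 -/
theorem Sg_col_of {e : Code} {y b : ℕ → Bool} {i : ℕ} {D : List Rc}
    (h : ∀ j, b (Nat.pair i (pos e D (res (col i y) j))) = y (Nat.pair i j)) :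
    Sg (col i y) b := by
  have h1 : SR (fun (p : ℕ × Bool) X => ∃ L : List Bool, dcol e D i X p.1 = L ∧
      X (Nat.pair i (pos e D L)) = p.2) := by
    refine PC.Sig.ex (R := fun (p : ℕ × Bool) (L : List Bool) X => dcol e D i X p.1 = L ∧
      X (Nat.pair i (pos e D L)) = p.2) ?_
    refine PC.Sig.and ?_ ?_
    · exact PC.Sig.comp (f := fun q : (ℕ × Bool) × List Bool => ((e, D, i), q.1.1, q.2))
        SR_dcol (by fun_prop)
    · refine PC.Sig.bit ?_ (by fun_prop)
      exact primrec_natPair (by fun_prop) (primrec_pos (by fun_prop) (by fun_prop) (by fun_prop))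
  refine ⟨_, h1, fun p => ?_⟩
  have h2 : ∀ j, dcol e D i b j = res (col i y) j := by
    intro j
    rw [eq_dcol_iff]
    refine ⟨by simp, fun k hk => ?_⟩
    rw [take_res _ hk.le, h k, List.getD_eq_getElem?_getD, getElem?_res, if_pos hk]
    rfl
  constructor
  · intro h3
    exact ⟨_, h2 p.1, (h p.1).trans h3⟩
  · rintro ⟨L, h3, h4⟩
    rw [h2] at h3
    subst h3
    exact (h p.1).symm.trans h4

end Pool.Agent.MU
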