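import Pool.Agent.MU.Step

/-! # The set built by the steps is computable in `A` -/

set_option autoImplicit false

namespace Pool.Agent.MU

open Encodable
open Nat.Partrec (Code)
open Pool.Agent.Helper70 (PC res pre_res getElem?_res length_res)
open Pool.Agent.Helper70.OD (RE)

variable {α : Type} [Primcodable α]

theorem Sg.at {X G : ℕ → Bool} (h : Sg X G) {f : α → ℕ} {g : α → Bool} (hf : Primrec f)
    (hg : Primrec g) : (PC.re.adj G).S (fun a => X (f a) = g a) :=
  (PC.re.adj G).comp (f := fun a => (f a, g a)) h (hf.pair hg)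

/-- the condition on the record `r` after `D` -/
def St (y A : ℕ → Bool) (c1 c2 : Code) (D : List Rc) (r : Rc) : Prop :=
  A r.1 = r.2.1 ∧
  y (Nat.pair (D.length + 1) (2 * encode (c1, encode (D, r.1)) + 1)) = r.2.1 ∧
  (∀ x' < r.1, ∃ a' : Bool, A x' = a' ∧
    y (Nat.pair (D.length + 1) (2 * encode (c1, encode (D, x')) + 1)) = !a') ∧
  y (Nat.pair (D.length + 1) (2 * encode (c2, encode (D, r.1, r.2.1)) + 1)) = r.2.2

theorem S_St {y A : ℕ → Bool} (hy : Sg y A) (c1 c2 : Code) :
    (PC.re.adj A).S (fun p : List Rc × Rc => St y A c1 c2 p.1 p.2) := by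
  unfold St
  refine (PC.re.adj A).and ?_ ((PC.re.adj A).and ?_ ((PC.re.adj A).and ?_ ?_))
  · exact Sg.at (PC.adj_self A) (by fun_prop) (by fun_prop)
  · exact hy.at (primrec_natPair (by fun_prop) (by fun_prop)) (by fun_prop)
  · refine PC.ball' (R := fun (p : List Rc × Rc) (x' : ℕ) => ∃ a' : Bool, A x' = a' ∧
      y (Nat.pair (p.1.length + 1) (2 * encode (c1, encode (p.1, x')) + 1)) = !a')
      (f := fun p => p.2.1) (by fun_prop) ?_
    refine PC.ex' (R := fun (p : (List Rc × Rc) × ℕ) (a' : Bool) => A p.2 = a' ∧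
      y (Nat.pair (p.1.1.length + 1) (2 * encode (c1, encode (p.1.1, p.2)) + 1)) = !a') ?_
    refine (PC.re.adj A).and (Sg.at (PC.adj_self A) (by fun_prop) (by fun_prop)) ?_
    exact hy.at (primrec_natPair (by fun_prop) (by fun_prop)) (by fun_prop)
  · exact hy.at (primrec_natPair (by fun_prop) (by fun_prop)) (by fun_prop)

/-- A1 -/
theorem Sg_steps {y A b : ℕ → Bool} (hy : Sg y A) (c1 c2 : Code) {Ds : ℕ → List Rc} {x : ℕ → ℕ}
    (h0 : Ds 0 = []) (hs : ∀ n, Ds (n + 1) = Ds n ++ [(x n, A (x n), b n)])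
    (hx : ∀ n, y (Nat.pair (n + 1) (2 * encode (c1, encode (Ds n, x n)) + 1)) = A (x n))
    (hmin : ∀ n, ∀ x' < x n,
      y (Nat.pair (n + 1) (2 * encode (c1, encode (Ds n, x')) + 1)) = !A x')
    (hb : ∀ n, b n = y (Nat.pair (n + 1) (2 * encode (c2, encode (Ds n, x n, A (x n))) + 1))) :
    Sg b A := by
  have hlen : ∀ n, (Ds n).length = n := by
    intro n
    induction n with
    | zero => simp [h0]
    | succ n ih => rw [hs]; simp [ih]
  have htake : ∀ n k, k ≤ n → (Ds n).take k = Ds k := by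
    intro n
    induction n with
    | zero => intro k hk; obtain rfl : k = 0 := by omega
              simp [h0]
    | succ n ih =>
      intro k hk
      rcases Nat.lt_or_ge n k with h1 | h1
      · obtain rfl : k = n + 1 := by omega
        rw [List.take_of_length_le (by rw [hlen])]
      · rw [hs, List.take_append_of_le_length (by rw [hlen]; exact h1)]
        exact ih k h1
  have hget : ∀ n k, k < n → (Ds n)[k]? = some (x k, A (x k), b k) := by
    intro n k hk
    have h1 : (Ds n)[k]? = ((Ds n).take (k + 1))[k]? := by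
      rw [List.getElem?_take, if_pos (Nat.lt_succ_self k)]
    rw [h1, htake n (k + 1) hk, hs, List.getElem?_append_right (by rw [hlen])]
    simp [hlen]
  have hSt : ∀ n, St y A c1 c2 (Ds n) (x n, A (x n), b n) := by
    intro n
    refine ⟨rfl, ?_, fun x' hx' => ⟨_, rfl, ?_⟩, ?_⟩
    · simp only [hlen]; exact hx n
    · simp only [hlen]; exact hmin n x' hx'
    · simp only [hlen]; exact (hb n).symm
  have huniq : ∀ n r, St y A c1 c2 (Ds n) r → r = (x n, A (x n), b n) := by
    rintro n ⟨x0, a0, b0⟩ ⟨h1, h2, h3, h4⟩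
    simp only [hlen] at h1 h2 h3 h4
    have hx0 : x0 = x n := by
      rcases lt_trichotomy x0 (x n) with h5 | h5 | h5
      · have h6 := hmin n x0 h5
        rw [h2, h1] at h6
        simp at h6
      · exact h5
      · obtain ⟨a', h6, h7⟩ := h3 _ h5
        rw [hx n, h6] at h7
        simp at h7
    subst hx0
    subst h1
    rw [hb n, h4]
  have h1 : (PC.re.adj A).S (fun p : ℕ × Bool => ∃ L : List Rc, L.length = p.1 + 1 ∧
      (∀ k < p.1 + 1, ∃ r : Rc, L[k]? = some r ∧ St y A c1 c2 (L.take k) r) ∧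
      ∃ r : Rc, L[p.1]? = some r ∧ r.2.2 = p.2) := by
    refine PC.ex' (R := fun (p : ℕ × Bool) (L : List Rc) => L.length = p.1 + 1 ∧
      (∀ k < p.1 + 1, ∃ r : Rc, L[k]? = some r ∧ St y A c1 c2 (L.take k) r) ∧
      ∃ r : Rc, L[p.1]? = some r ∧ r.2.2 = p.2) ?_
    refine (PC.re.adj A).and ((PC.re.adj A).prim (Primrec.eq.comp (by fun_prop) (by fun_prop)))
      ((PC.re.adj A).and ?_ ?_)
    · refine PC.ball' (R := fun (q : (ℕ × Bool) × List Rc) (k : ℕ) => ∃ r : Rc,
        q.2[k]? = some r ∧ St y A c1 c2 (q.2.take k) r) (f := fun q => q.1.1 + 1)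
        (by fun_prop) ?_
      refine PC.ex' (R := fun (q : ((ℕ × Bool) × List Rc) × ℕ) (r : Rc) =>
        q.1.2[q.2]? = some r ∧ St y A c1 c2 (q.1.2.take q.2) r) ?_
      refine (PC.re.adj A).and ((PC.re.adj A).prim (Primrec.eq.comp (by fun_prop) (by fun_prop)))
        ?_
      exact (PC.re.adj A).comp (f := fun q : (((ℕ × Bool) × List Rc) × ℕ) × Rc =>
        (q.1.1.2.take q.1.2, q.2)) (S_St hy c1 c2) (by fun_prop)
    · refine PC.ex' (R := fun (q : (ℕ × Bool) × List Rc) (r : Rc) =>
        q.2[q.1.1]? = some r ∧ r.2.2 = q.1.2) ?_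
      exact (PC.re.adj A).and ((PC.re.adj A).prim (Primrec.eq.comp (by fun_prop) (by fun_prop)))
        ((PC.re.adj A).prim (Primrec.eq.comp (by fun_prop) (by fun_prop)))
  refine PC.of_eq h1 fun p => ?_
  constructor
  · intro hp
    refine ⟨Ds (p.1 + 1), hlen _, fun k hk => ⟨_, hget _ k hk, ?_⟩, _, hget _ _ (by omega), hp⟩
    rw [htake _ _ (by omega)]
    exact hSt k
  · rintro ⟨L, hL, hst, r, hr, hrb⟩
    have key : ∀ k ≤ p.1 + 1, L.take k = Ds k := by
      intro k hk
      induction k with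
      | zero => simp [h0]
      | succ k ih =>
        obtain ⟨r', h2, h3⟩ := hst k (by omega)
        rw [List.take_add_one, ih (by omega), h2, hs]
        rw [ih (by omega)] at h3
        rw [huniq k r' h3]; rfl
    obtain ⟨r', h2, h3⟩ := hst p.1 (by omega)
    rw [hr] at h2; cases h2
    rw [key _ (by omega)] at h3
    rw [huniq _ _ h3] at hrb
    exact hrb

end Pool.Agent.MU
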