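import Pool.Agent.MU.Rec
import Pool.Agent.MU.StepsA
import Pool.Agent.MU.LimitB

/-! # Theorem B: a set strictly below `A` above all columns of `y` -/

set_option autoImplicit false

namespace Pool.Agent.MU

open Encodable
open Nat.Partrec (Code)
open Pool.Agent.Helper70 (PC res pre_res getElem?_res length_res)
open Pool.Agent.Helper70.OD (RE)

theorem exists_sep (X : ℕ → Bool) : ∃ V, Sep V X := by
  classical
  refine ⟨fun u => if ∃ p : Code × ℕ, decode (α := Code × ℕ) u = some p ∧ Fst p.1 p.2 true X
    then false else true, fun c w hf => ?_⟩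
  by_cases h : Fst c w true X
  · have h1 : ∃ p : Code × ℕ, decode (α := Code × ℕ) (encode (c, w)) = some p ∧
        Fst p.1 p.2 true X := ⟨(c, w), by simp, h⟩
    simp only [h1, if_true] at hf
    exact h.excl hf
  · have h1 : ¬ ∃ p : Code × ℕ, decode (α := Code × ℕ) (encode (c, w)) = some p ∧
        Fst p.1 p.2 true X := by
      rintro ⟨p, hp, h2⟩
      have hp' : p = (c, w) := by simpa using hp.symm
      subst hp'
      exact h h2
    simp only [h1, if_false] at hf
    exact h hf

/-- chains of separating functions exist -/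
theorem exists_not_outA : ∃ B, ¬ OutA B := by
  choose V hV using exists_sep
  let F : ℕ → (ℕ → Bool) := fun k => Nat.rec (fun _ => false)
    (fun k f m => if m.unpair.1 = k then V f m.unpair.2 else f m) k
  have hF : ∀ k m, F (k + 1) m = if m.unpair.1 = k then V (F k) m.unpair.2 else F k m :=
    fun k m => rfl
  let B : ℕ → Bool := fun m => F (m.unpair.1 + 1) m
  have h1 : ∀ k, low k B = F k := by
    intro k
    induction k with
    | zero => funext m; simp [low, F]
    | succ k ih =>
      funext m
      rw [hF]
      by_cases hm : m.unpair.1 = k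
      · subst hm
        simp only [if_true]
        simp only [low, Nat.lt_succ_self, decide_true, Bool.true_and]
        show F (m.unpair.1 + 1) m = _
        rw [hF]; simp
      · simp only [hm, if_false, ← ih]
        unfold low
        congr 1
        apply decide_eq_decide.2
        omega
  refine ⟨B, ?_⟩
  rintro ⟨k, c, w', hf⟩
  have h2 : B (Nat.pair k (encode (c, w'))) = V (low k B) (encode (c, w')) := by
    show F ((Nat.pair k (encode (c, w'))).unpair.1 + 1) (Nat.pair k (encode (c, w'))) = _
    rw [hF, h1]
    simp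
  rw [h2] at hf
  exact hV _ _ _ hf

theorem Sg_col_self (k : ℕ) (y : ℕ → Bool) : Sg (fun u => y (Nat.pair k (2 * u + 1))) y := by
  refine (PC.re.adj y).comp (f := fun p : ℕ × Bool => (Nat.pair k (2 * p.1 + 1), p.2))
    (PC.adj_self y) ?_
  exact Primrec.pair (primrec_natPair (by fun_prop) (by fun_prop)) (by fun_prop)

/-- The recursion theoretic theorem. -/
theorem theoremB (y A : ℕ → Bool) (hy : Sg y A)
    (hsep : ∀ n, Sep (fun u => y (Nat.pair n (2 * u + 1))) (low n y)) :
    ∃ B, Sg B A ∧ ¬ Sg A B ∧ ∀ n, Sg (col n y) B := by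
  classical
  obtain ⟨e, he⟩ := exists_e
  obtain ⟨c1, hc1⟩ := exists_code_of_SR (SR_R1 e)
  obtain ⟨c2, hc2⟩ := exists_code_of_SR (SR_R2 e)
  have hA : ∀ k, ¬ Sg A (low k y) := fun k h =>
    (hsep k).not_Sg (((Sg_col_self k y).tr hy).tr h)
  -- the step
  let nx : List Rc → ℕ := fun D =>
    sInf {x | y (Nat.pair (D.length + 1) (2 * encode (c1, encode (D, x)) + 1)) = A x}
  let nb : List Rc → Bool := fun D =>
    y (Nat.pair (D.length + 1) (2 * encode (c2, encode (D, nx D, A (nx D))) + 1))
  let nxt : List Rc → List Rc := fun D => D ++ [(nx D, A (nx D), nb D)]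
  let Ds : ℕ → List Rc := fun n => Nat.rec [] (fun _ D => nxt D) n
  have hDs : ∀ n, Ds (n + 1) = Ds n ++ [(nx (Ds n), A (nx (Ds n)), nb (Ds n))] := fun n => rfl
  have hlen : ∀ n, (Ds n).length = n := by
    intro n
    induction n with
    | zero => rfl
    | succ n ih => rw [hDs]; simp [ih]
  have hset : ∀ D : List Rc,
      {x | y (Nat.pair (D.length + 1) (2 * encode (c1, encode (D, x)) + 1)) = A x}.Nonempty := by
    intro D
    by_contra hemp
    have h1 : ∀ x, low (D.length + 2) y
        (Nat.pair (D.length + 1) (2 * encode (c1, encode (D, x)) + 1)) = !A x := by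
      intro x
      rw [low_apply (by omega)]
      by_contra hne
      refine hemp ⟨x, ?_⟩
      show y _ = A x
      revert hne
      cases y (Nat.pair (D.length + 1) (2 * encode (c1, encode (D, x)) + 1)) <;>
        cases A x <;> simp
    refine hA (D.length + 2) ?_
    refine PC.of_eq ((PC.re.adj (low (D.length + 2) y)).comp (f := fun p : ℕ × Bool =>
      (Nat.pair (D.length + 1) (2 * encode (c1, encode (D, p.1)) + 1), !p.2))
      (PC.adj_self _) ?_) ?_
    · exact Primrec.pair (primrec_natPair (by fun_prop) (by fun_prop)) (by fun_prop)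
    · intro p
      simp only [h1]
      cases A p.1 <;> cases p.2 <;> simp
  have hne : ∀ n, NE e (Ds n) n [] y := by
    intro n
    induction n with
    | zero =>
      obtain ⟨B, hB⟩ := exists_not_outA
      refine ⟨B, ?_⟩
      unfold Out OutB OutC OutD OutE
      rintro (h | ⟨i, r, h, _⟩ | ⟨i, r, h, _⟩ | ⟨i, j, h, _⟩ | ⟨j, b, h, _⟩)
      · exact hB h
      · simp [Ds] at h
      · simp [Ds] at h
      · simp at h
      · simp at h
    | succ n ih =>
      have h1 : NE e (Ds n) (Ds n).length [] y := by rw [hlen]; exact ih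
      have h2 := coding_all he h1
      have hV : Sep (fun u => y (Nat.pair ((Ds n).length + 1) (2 * u + 1)))
        (low ((Ds n).length + 1) y) := hsep _
      have h3 := choice_one hc1 hV h2 (nx (Ds n))
      have h4 : y (Nat.pair ((Ds n).length + 1)
          (2 * encode (c1, encode (Ds n, nx (Ds n))) + 1)) = A (nx (Ds n)) :=
        Nat.sInf_mem (hset (Ds n))
      simp only [h4] at h3
      have h5 := choice_two hc2 hV h3
      rw [hlen] at h5
      rw [hDs]
      simpa only [nb, hlen] using h5
  refine ⟨fun n => nb (Ds n), ?_, ?_, ?_⟩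
  · refine Sg_steps hy c1 c2 (Ds := Ds) (x := fun n => nx (Ds n)) rfl hDs ?_ ?_ ?_
    · intro n
      have h4 : y (Nat.pair ((Ds n).length + 1)
          (2 * encode (c1, encode (Ds n, nx (Ds n))) + 1)) = A (nx (Ds n)) :=
        Nat.sInf_mem (hset (Ds n))
      simpa only [hlen] using h4
    · intro n x' hx'
      have h5 : x' ∉ {x | y (Nat.pair ((Ds n).length + 1)
          (2 * encode (c1, encode (Ds n, x)) + 1)) = A x} := Nat.notMem_of_lt_sInf hx'
      have h6 : ¬ (y (Nat.pair ((Ds n).length + 1)
          (2 * encode (c1, encode (Ds n, x')) + 1)) = A x') := h5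
      rw [hlen] at h6
      revert h6
      cases y (Nat.pair (n + 1) (2 * encode (c1, encode (Ds n, x')) + 1)) <;>
        cases A x' <;> simp
    · intro n
      show nb (Ds n) = _
      simp only [nb, hlen]
  · exact not_Sg_of_fst (x := fun n => nx (Ds n)) (limit_fst rfl hDs hne)
  · intro n
    exact Sg_col_of (limit_col rfl hDs hne n)

end Pool.Agent.MU
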