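import Pool.Agent.MU.Coding

/-! # Partial truth definitions for prenex sentences with a bounded matrix (standard codes) -/

set_option autoImplicit false

namespace Pool.Agent.MU

section

variable {M : Type} [Mdl M]

/-! ### Least fixed points by coded sets -/

/-- `L` is monotone and definable on coded sets. -/
structure Opr (L : (M → Prop) → M → Prop) : Prop where
  mono : ∀ S S' : M → Prop, (∀ i, S i → S' i) → ∀ i, L S i → L S' i
  dfn : Dfn M (fun p : (M × M × M) × M => L (Mem p.1) p.2)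

/-- `i` belongs to a coded set all of whose elements are justified by `L`. -/
def Fx (L : (M → Prop) → M → Prop) (i : M) : Prop :=
  ∃ s : M × M × M, (∀ j, Mem s j → L (Mem s) j) ∧ Mem s i

theorem Dfn.exs {α : Type} [Cx M α] {R : α → M × M × M → Prop}
    (h : Dfn M (fun p : α × (M × M × M) => R p.1 p.2)) : Dfn M (fun a => ∃ s, R a s) := by
  have h1 : Dfn M (fun q : ((α × M) × M) × M => R q.1.1.1 (q.1.1.2, q.1.2, q.2)) :=
    h.comp (f := fun q : ((α × M) × M) × M => (q.1.1.1, (q.1.1.2, q.1.2, q.2)))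
      (DM.pair (DM.fst (DM.fst (DM.fst DM.id))) (DM.pair (DM.snd (DM.fst (DM.fst DM.id)))
        (DM.pair (DM.snd (DM.fst DM.id)) (DM.snd DM.id))))
  have h2 : Dfn M (fun a : α => ∃ x y z, R a (x, y, z)) := Dfn.ex (Dfn.ex (Dfn.ex h1))
  refine h2.of_iff fun a => ?_
  constructor
  · rintro ⟨⟨x, y, z⟩, h⟩
    exact ⟨x, y, z, h⟩
  · rintro ⟨x, y, z, h⟩
    exact ⟨(x, y, z), h⟩

/-- All elements of the coded set `s` are justified. -/
def Ok (L : (M → Prop) → M → Prop) (s : M × M × M) : Prop := ∀ j, Mem s j → L (Mem s) j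

theorem Ok_dfn {L : (M → Prop) → M → Prop} (hL : Opr L) :
    Dfn M (fun s : M × M × M => Ok L s) :=
  Dfn.all (Dfn.imp (Dfn_Mem (DM.fst DM.id) (DM.snd DM.id)) hL.dfn)

theorem Fx_dfn {L : (M → Prop) → M → Prop} (hL : Opr L) : Dfn M (fun i : M => Fx L i) :=
  Dfn.exs (R := fun i s => Ok L s ∧ Mem s i)
    (Dfn.and ((Ok_dfn hL).comp (f := fun p : M × (M × M × M) => p.2) (DM.snd DM.id))
      (Dfn_Mem (DM.snd DM.id) (DM.fst DM.id)))

theorem Fx_unfold {L : (M → Prop) → M → Prop} (hL : Opr L) {i : M} (h : Fx L i) :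
    L (Fx L) i := by
  obtain ⟨s, h1, h2⟩ := h
  exact hL.mono _ _ (fun j hj => ⟨s, h1, hj⟩) _ (h1 i h2)

/-- A coded union. -/
theorem exists_union (s t : M × M × M) (i : M) :
    ∃ u : M × M × M, ∀ j, Mem u j ↔ (Mem s j ∨ Mem t j ∨ j = i) := by
  have hP : Dfn M (fun j : M => Mem s j ∨ Mem t j ∨ j = i) := by
    refine Dfn.or ?_ (Dfn.or ?_ ?_)
    · exact Dfn_Mem (DM.const s) DM.id
    · exact Dfn_Mem (DM.const t) DM.id
    · exact Dfn.eq DM.id (DM.const i)
  obtain ⟨u, hu⟩ := exists_Mem (s.1 + t.1 + i + 1) hP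
  refine ⟨u, fun j => ⟨fun h => ((hu j).1 h).2, fun h => (hu j).2 ⟨?_, h⟩⟩⟩
  have e0 : j < s.1 + t.1 + i + 1 ↔ j ≤ s.1 + t.1 + i := by
    rw [Mdl.lt_iff, add_le_add_iff_right]
  rw [e0]
  have a1 : s.1 ≤ s.1 + t.1 + i := by
    rw [add_assoc]; exact le_self_add
  have a2 : t.1 ≤ s.1 + t.1 + i := le_self_add.trans' le_add_self
  rcases h with h | h | h
  · exact h.1.le.trans a1
  · exact h.1.le.trans a2
  · rw [h]; exact le_add_self

theorem Fx_intro {L : (M → Prop) → M → Prop} (hL : Opr L) {s : M × M × M}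
    (hs : ∀ j, Mem s j → L (Mem s) j) {i : M} (h : L (Mem s) i) : Fx L i := by
  obtain ⟨u, hu⟩ := exists_union s s i
  have hm : ∀ j, L (Mem s) j → L (Mem u) j :=
    fun j => hL.mono _ _ (fun k hk => (hu k).2 (Or.inl hk)) j
  refine ⟨u, fun j hj => ?_, (hu i).2 (Or.inr (Or.inr rfl))⟩
  rcases (hu j).1 hj with h' | h' | h'
  · exact hm j (hs j h')
  · exact hm j (hs j h')
  · rw [h']; exact hm i h

theorem Fx_two {L : (M → Prop) → M → Prop} (hL : Opr L) {i k : M} (hi : Fx L i) (hk : Fx L k) :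
    ∃ s, (∀ j, Mem s j → L (Mem s) j) ∧ Mem s i ∧ Mem s k := by
  obtain ⟨s, hs, hi⟩ := hi
  obtain ⟨t, ht, hk⟩ := hk
  obtain ⟨u, hu⟩ := exists_union s t i
  refine ⟨u, fun j hj => ?_, (hu i).2 (Or.inl hi), (hu k).2 (Or.inr (Or.inl hk))⟩
  rcases (hu j).1 hj with h' | h' | h'
  · exact hL.mono _ _ (fun k hk => (hu k).2 (Or.inl hk)) j (hs j h')
  · exact hL.mono _ _ (fun k hk => (hu k).2 (Or.inr (Or.inl hk))) j (ht j h')
  · rw [h']; exact hL.mono _ _ (fun k hk => (hu k).2 (Or.inl hk)) i (hs i hi)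

theorem Fx_nil (L : (M → Prop) → M → Prop) :
    ∃ s : M × M × M, (∀ j, Mem s j → L (Mem s) j) := by
  obtain ⟨s, hs⟩ := exists_Mem (0 : M) (Dfn.const (M := M) (α := M) False)
  exact ⟨s, fun j hj => ((hs j).1 hj).2.elim⟩

theorem Fx_join {L : (M → Prop) → M → Prop} (hL : Opr L) {s t : M × M × M} (hs : Ok L s)
    (ht : Ok L t) : ∃ u, Ok L u ∧ (∀ i, Mem s i → Mem u i) ∧ ∀ i, Mem t i → Mem u i := by
  by_cases h : ∃ i, Mem s i
  · obtain ⟨i, hi⟩ := h
    obtain ⟨u, hu⟩ := exists_union s t i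
    refine ⟨u, fun j hj => ?_, fun j hj => (hu j).2 (Or.inl hj),
      fun j hj => (hu j).2 (Or.inr (Or.inl hj))⟩
    rcases (hu j).1 hj with h' | h' | h'
    · exact hL.mono _ _ (fun k hk => (hu k).2 (Or.inl hk)) j (hs j h')
    · exact hL.mono _ _ (fun k hk => (hu k).2 (Or.inr (Or.inl hk))) j (ht j h')
    · rw [h']; exact hL.mono _ _ (fun k hk => (hu k).2 (Or.inl hk)) i (hs i hi)
  · exact ⟨t, ht, fun i hi => (h ⟨i, hi⟩).elim, fun i hi => hi⟩

/-- Collection. -/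
theorem Fx_forall {L : (M → Prop) → M → Prop} (hL : Opr L) {Q : M → M → Prop}
    (hQ : Dfn M (fun p : M × M => Q p.1 p.2)) (z : M) (h : ∀ a < z, ∃ i, Q a i ∧ Fx L i) :
    ∃ s, Ok L s ∧ ∀ a < z, ∃ i, Q a i ∧ Mem s i := by
  have hP : Dfn M (fun j : M => j ≤ z → ∃ s : M × M × M, Ok L s ∧
      ∀ a, a < j → ∃ i, Q a i ∧ Mem s i) := by
    refine Dfn.imp (Dfn.le DM.id (DM.const z)) (Dfn.exs (R := fun j s => Ok L s ∧
      ∀ a, a < j → ∃ i, Q a i ∧ Mem s i) (Dfn.and ?_ (Dfn.all (Dfn.imp ?_ (Dfn.ex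
        (Dfn.and ?_ ?_))))))
    · exact (Ok_dfn hL).comp (f := fun p : M × (M × M × M) => p.2) (DM.snd DM.id)
    · exact Dfn.lt (DM.snd DM.id) (DM.fst (DM.fst DM.id))
    · exact hQ.comp (f := fun p : ((M × (M × M × M)) × M) × M => (p.1.2, p.2))
        (DM.pair (DM.snd (DM.fst DM.id)) (DM.snd DM.id))
    · exact Dfn_Mem (DM.snd (DM.fst (DM.fst DM.id))) (DM.snd DM.id)
  refine induct hP ?_ ?_ z le_rfl
  · intro _
    obtain ⟨s, hs⟩ := Fx_nil (M := M) L
    exact ⟨s, hs, fun a ha => (not_lt_zero' a ha).elim⟩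
  · intro j ih hj
    have hjz : j < z := (Mdl.lt_iff j z).2 hj
    obtain ⟨s, hs, h1⟩ := ih hjz.le
    obtain ⟨i, hi, t, ht, hti⟩ := h j hjz
    obtain ⟨u, hu, hsu, htu⟩ := Fx_join hL hs ht
    refine ⟨u, hu, fun a ha => ?_⟩
    rcases lt_or_eq_of_le (lt_add_one_iff'.1 ha) with h2 | h2
    · obtain ⟨k, hk, hk'⟩ := h1 a h2
      exact ⟨k, hk, hsu k hk'⟩
    · rw [h2]
      exact ⟨i, hi, htu i hti⟩

/-! ### Environments -/

/-- The environment coded by `e`. -/
noncomputable def env (e : M) : ℕ → M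
  | 0 => ft e
  | i + 1 => env (sd e) i

theorem env_pr (a e : M) : env (pr a e) = push a (env e) := by
  funext i
  cases i with
  | zero => simp [env, push, ft_pr]
  | succ i => simp [env, push, sd_pr]

/-! ### Values of terms and quantifier-free formulas -/

/-- Unary operations. -/
def U1 (q z y : M) : Prop :=
  (q = 2 ∧ y = z + 1) ∨ (q = 7 ∧ z = 1 ∧ y = 0) ∨ (q = 7 ∧ z ≠ 1 ∧ y = 1)

/-- Binary operations. -/
def U2 (q z w y : M) : Prop :=
  (q = 3 ∧ y = z + w) ∨ (q = 4 ∧ y = z * w) ∨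
  (q = 5 ∧ z = w ∧ y = 1) ∨ (q = 5 ∧ z ≠ w ∧ y = 0) ∨
  (q = 6 ∧ z < w ∧ y = 1) ∨ (q = 6 ∧ ¬ z < w ∧ y = 0) ∨
  (q = 8 ∧ (z = 1 ∧ w = 1) ∧ y = 1) ∨ (q = 8 ∧ ¬ (z = 1 ∧ w = 1) ∧ y = 0) ∨
  (q = 9 ∧ (z = 1 ∨ w = 1) ∧ y = 1) ∨ (q = 9 ∧ ¬ (z = 1 ∨ w = 1) ∧ y = 0)

/-- The universal bounded quantifier: `z` is the value of the bound, `b` the code of the body. -/
def BA (S : M → Prop) (e b z y : M) : Prop :=
  (y = 1 ∧ ∀ a, a < z → S (pr (pr a e) (pr b 1))) ∨
  (y = 0 ∧ ∃ a, a < z ∧ ∃ w, w ≠ 1 ∧ S (pr (pr a e) (pr b w)))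

/-- The existential bounded quantifier. -/
def BE (S : M → Prop) (e b z y : M) : Prop :=
  (y = 0 ∧ ∀ a, a < z → ∃ w, w ≠ 1 ∧ S (pr (pr a e) (pr b w))) ∨
  (y = 1 ∧ ∃ a, a < z ∧ S (pr (pr a e) (pr b 1)))

/-- Justification of the triple `(e, c, y)`: under the environment `e` the code `c` has the
value `y`. -/
def LV (S : M → Prop) (e c y : M) : Prop :=
  (ft c = 0 ∧ sd c = 0 ∧ y = ft e) ∨
  (∃ k, ft c = 0 ∧ sd c = k + 1 ∧ S (pr (sd e) (pr (pr 0 k) y))) ∨
  (ft c = 1 ∧ y = 0) ∨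
  (∃ z, S (pr e (pr (sd c) z)) ∧ U1 (ft c) z y) ∨
  (∃ z w, S (pr e (pr (ft (sd c)) z)) ∧ S (pr e (pr (sd (sd c)) w)) ∧ U2 (ft c) z w y) ∨
  (∃ z, S (pr (pr 0 e) (pr (sd (sd (sd (ft (sd (sd c)))))) z)) ∧ ft c = 10 ∧
    BA S e (sd c) z y) ∨
  (∃ z, S (pr (pr 0 e) (pr (sd (sd (ft (sd (sd c))))) z)) ∧ ft c = 11 ∧ BE S e (sd c) z y)

/-- The operator. -/
def LQ (S : M → Prop) (i : M) : Prop := LV S (ft i) (ft (sd i)) (sd (sd i))

/-- Value. -/
def V (e c y : M) : Prop := Fx (LQ (M := M)) (pr e (pr c y))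

theorem BA_mono {S S' : M → Prop} (h : ∀ i, S i → S' i) {e b z y : M} (hi : BA S e b z y) :
    BA S' e b z y := by
  rcases hi with ⟨h1, h2⟩ | ⟨h1, a, ha, w, hw, h2⟩
  · exact Or.inl ⟨h1, fun a ha => h _ (h2 a ha)⟩
  · exact Or.inr ⟨h1, a, ha, w, hw, h _ h2⟩

theorem BE_mono {S S' : M → Prop} (h : ∀ i, S i → S' i) {e b z y : M} (hi : BE S e b z y) :
    BE S' e b z y := by
  rcases hi with ⟨h1, h2⟩ | ⟨h1, a, ha, h2⟩
  · refine Or.inl ⟨h1, fun a ha => ?_⟩
    obtain ⟨w, hw, h3⟩ := h2 a ha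
    exact ⟨w, hw, h _ h3⟩
  · exact Or.inr ⟨h1, a, ha, h _ h2⟩

theorem LV_mono {S S' : M → Prop} (h : ∀ i, S i → S' i) {e c y : M} (hi : LV S e c y) :
    LV S' e c y := by
  rcases hi with hi | ⟨k, h1, h2, h3⟩ | hi | ⟨z, h1, h2⟩ | ⟨z, w, h1, h2, h3⟩ | ⟨z, h1, h2, h3⟩ |
    ⟨z, h1, h2, h3⟩
  · exact Or.inl hi
  · exact Or.inr (Or.inl ⟨k, h1, h2, h _ h3⟩)
  · exact Or.inr (Or.inr (Or.inl hi))
  · exact Or.inr (Or.inr (Or.inr (Or.inl ⟨z, h _ h1, h2⟩)))
  · exact Or.inr (Or.inr (Or.inr (Or.inr (Or.inl ⟨z, w, h _ h1, h _ h2, h3⟩))))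
  · exact Or.inr (Or.inr (Or.inr (Or.inr (Or.inr (Or.inl ⟨z, h _ h1, h2, BA_mono h h3⟩)))))
  · exact Or.inr (Or.inr (Or.inr (Or.inr (Or.inr (Or.inr ⟨z, h _ h1, h2, BE_mono h h3⟩)))))

theorem opr_LQ : Opr (LQ (M := M)) := by
  refine ⟨?_, ?_⟩
  · intro S S' h i hi
    exact LV_mono h hi
  · unfold LQ LV U1 U2 BA BE
    repeat' first
      | exact DM.const _
      | exact DM.id
      | exact Dfn.const _
      | apply Dfn.or
      | apply Dfn.and
      | apply Dfn.not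
      | apply Dfn.ex
      | apply Dfn.all
      | apply Dfn_Mem
      | apply Dfn.eq
      | apply Dfn.lt
      | apply Dfn.imp
      | apply DM_ft
      | apply DM_sd
      | apply DM_pr
      | apply DM.add
      | apply DM.mul
      | apply DM.fst
      | apply DM.snd

theorem V_dfn : Dfn M (fun p : M × M => V p.1 p.2 1) :=
  (Fx_dfn opr_LQ).comp (f := fun p : M × M => pr p.1 (pr p.2 1))
    (DM_pr (DM.fst DM.id) (DM_pr (DM.snd DM.id) (DM.const 1)))

/-- The value of a universal bounded quantifier. -/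
def VA (e b z y : M) : Prop :=
  (y = 1 ∧ ∀ a, a < z → V (pr a e) b 1) ∨ (y = 0 ∧ ∃ a, a < z ∧ ∃ w, w ≠ 1 ∧ V (pr a e) b w)

/-- The value of an existential bounded quantifier. -/
def VE (e b z y : M) : Prop :=
  (y = 0 ∧ ∀ a, a < z → ∃ w, w ≠ 1 ∧ V (pr a e) b w) ∨ (y = 1 ∧ ∃ a, a < z ∧ V (pr a e) b 1)

theorem V_iff (e c y : M) : V e c y ↔
    ((ft c = 0 ∧ sd c = 0 ∧ y = ft e) ∨
    (∃ k, ft c = 0 ∧ sd c = k + 1 ∧ V (sd e) (pr 0 k) y) ∨
    (ft c = 1 ∧ y = 0) ∨
    (∃ z, V e (sd c) z ∧ U1 (ft c) z y) ∨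
    (∃ z w, V e (ft (sd c)) z ∧ V e (sd (sd c)) w ∧ U2 (ft c) z w y) ∨
    (∃ z, V (pr 0 e) (sd (sd (sd (ft (sd (sd c)))))) z ∧ ft c = 10 ∧ VA e (sd c) z y) ∨
    (∃ z, V (pr 0 e) (sd (sd (ft (sd (sd c))))) z ∧ ft c = 11 ∧ VE e (sd c) z y)) := by
  constructor
  · intro h
    have h1 := Fx_unfold opr_LQ h
    rw [LQ, sd_pr, ft_pr, ft_pr, sd_pr] at h1
    exact h1
  · have key : ∀ s : M × M × M, Ok LQ s → LV (Mem s) e c y → V e c y := by
      intro s hs h
      refine Fx_intro opr_LQ hs ?_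
      simpa only [LQ, ft_pr, sd_pr] using h
    have keyA : ∀ i z, Fx LQ i → BA (Fx LQ) e (sd c) z y →
        ∃ s, Ok LQ s ∧ Mem s i ∧ BA (Mem s) e (sd c) z y := by
      rintro i z ⟨s, hs, hi⟩ (⟨h1, h2⟩ | ⟨h1, a, ha, w, hw, h2⟩)
      · have hQ : Dfn M (fun p : M × M => p.2 = pr (pr p.1 e) (pr (sd c) 1)) :=
          Dfn.eq (DM.snd DM.id) (DM_pr (DM_pr (DM.fst DM.id) (DM.const e)) (DM.const _))
        obtain ⟨t, ht, h3⟩ := Fx_forall opr_LQ (Q := fun a i => i = pr (pr a e) (pr (sd c) 1)) hQ z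
          (fun a ha => ⟨_, rfl, h2 a ha⟩)
        obtain ⟨u, hu, hsu, htu⟩ := Fx_join opr_LQ hs ht
        refine ⟨u, hu, hsu _ hi, Or.inl ⟨h1, fun a ha => ?_⟩⟩
        obtain ⟨k, rfl, hk⟩ := h3 a ha
        exact htu _ hk
      · obtain ⟨t, ht, h3⟩ := h2
        obtain ⟨u, hu, hsu, htu⟩ := Fx_join opr_LQ hs ht
        exact ⟨u, hu, hsu _ hi, Or.inr ⟨h1, a, ha, w, hw, htu _ h3⟩⟩
    have keyE : ∀ i z, Fx LQ i → BE (Fx LQ) e (sd c) z y →
        ∃ s, Ok LQ s ∧ Mem s i ∧ BE (Mem s) e (sd c) z y := by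
      rintro i z ⟨s, hs, hi⟩ (⟨h1, h2⟩ | ⟨h1, a, ha, h2⟩)
      · have hQ : Dfn M (fun p : M × M => ∃ w, w ≠ 1 ∧ p.2 = pr (pr p.1 e) (pr (sd c) w)) :=
          Dfn.ex (Dfn.and (Dfn.not (Dfn.eq (DM.snd DM.id) (DM.const 1)))
            (Dfn.eq (DM.snd (DM.fst DM.id)) (DM_pr (DM_pr (DM.fst (DM.fst DM.id)) (DM.const e))
              (DM_pr (DM.const _) (DM.snd DM.id)))))
        obtain ⟨t, ht, h3⟩ := Fx_forall opr_LQ
          (Q := fun a i => ∃ w, w ≠ 1 ∧ i = pr (pr a e) (pr (sd c) w)) hQ z (fun a ha => by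
            obtain ⟨w, hw, h4⟩ := h2 a ha
            exact ⟨_, ⟨w, hw, rfl⟩, h4⟩)
        obtain ⟨u, hu, hsu, htu⟩ := Fx_join opr_LQ hs ht
        refine ⟨u, hu, hsu _ hi, Or.inl ⟨h1, fun a ha => ?_⟩⟩
        obtain ⟨k, ⟨w, hw, rfl⟩, hk⟩ := h3 a ha
        exact ⟨w, hw, htu _ hk⟩
      · obtain ⟨t, ht, h3⟩ := h2
        obtain ⟨u, hu, hsu, htu⟩ := Fx_join opr_LQ hs ht
        exact ⟨u, hu, hsu _ hi, Or.inr ⟨h1, a, ha, htu _ h3⟩⟩
    rintro (h | ⟨k, h1, h2, s, hs, h3⟩ | h | ⟨z, ⟨s, hs, h1⟩, h2⟩ | ⟨z, w, h1, h2, h3⟩ |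
      ⟨z, h1, h2, h3⟩ | ⟨z, h1, h2, h3⟩)
    · obtain ⟨s, hs⟩ := Fx_nil (M := M) LQ
      exact key s hs (Or.inl h)
    · exact key s hs (Or.inr (Or.inl ⟨k, h1, h2, h3⟩))
    · obtain ⟨s, hs⟩ := Fx_nil (M := M) LQ
      exact key s hs (Or.inr (Or.inr (Or.inl h)))
    · exact key s hs (Or.inr (Or.inr (Or.inr (Or.inl ⟨z, h1, h2⟩))))
    · obtain ⟨s, hs, h1, h2⟩ := Fx_two opr_LQ h1 h2
      exact key s hs (Or.inr (Or.inr (Or.inr (Or.inr (Or.inl ⟨z, w, h1, h2, h3⟩)))))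
    · obtain ⟨s, hs, h4, h5⟩ := keyA _ z h1 h3
      exact key s hs (Or.inr (Or.inr (Or.inr (Or.inr (Or.inr (Or.inl ⟨z, h4, h2, h5⟩))))))
    · obtain ⟨s, hs, h4, h5⟩ := keyE _ z h1 h3
      exact key s hs (Or.inr (Or.inr (Or.inr (Or.inr (Or.inr (Or.inr ⟨z, h4, h2, h5⟩))))))

theorem V_zero {e c y : M} (hc : ft c = 0) : V e c y ↔
    ((sd c = 0 ∧ y = ft e) ∨ (∃ k, sd c = k + 1 ∧ V (sd e) (pr 0 k) y)) := by
  rw [V_iff, hc]
  have h0 : ∀ z w y : M, ¬ U2 0 z w y := by simp [U2]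
  have h1 : ∀ z y : M, ¬ U1 0 z y := by simp [U1]
  simp only [h0, h1, true_and, and_false, exists_false, or_false, zero_ne_one, false_and,
    OfNat.zero_ne_ofNat]

theorem V_one {e c y : M} (hc : ft c = 1) : V e c y ↔ y = 0 := by
  rw [V_iff, hc]
  have h0 : ∀ z w y : M, ¬ U2 1 z w y := by simp [U2]
  have h1 : ∀ z y : M, ¬ U1 1 z y := by simp [U1]
  simp only [h0, h1, true_and, and_false, exists_false, or_false, one_ne_zero, false_and,
    false_or, OfNat.one_ne_ofNat]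

theorem V_un {e c y q : M} (hc : ft c = q) (h : q = 2 ∨ q = 7) : V e c y ↔
    ∃ z, V e (sd c) z ∧ U1 q z y := by
  rw [V_iff, hc]
  have h0 : ∀ z w y : M, ¬ U2 q z w y := by
    rcases h with rfl | rfl <;> simp [U2]
  have h1 : q ≠ 0 := by rcases h with rfl | rfl <;> simp
  have h2 : q ≠ 1 := by rcases h with rfl | rfl <;> simp
  have h3 : q ≠ 10 := by rcases h with rfl | rfl <;> simp
  have h4 : q ≠ 11 := by rcases h with rfl | rfl <;> simp
  simp only [h0, h1, h2, h3, h4, and_false, exists_false, or_false, false_and, false_or]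

theorem V_bin {e c y q : M} (hc : ft c = q)
    (h : q = 3 ∨ q = 4 ∨ q = 5 ∨ q = 6 ∨ q = 8 ∨ q = 9) : V e c y ↔
    ∃ z w, V e (ft (sd c)) z ∧ V e (sd (sd c)) w ∧ U2 q z w y := by
  rw [V_iff, hc]
  have h0 : ∀ z y : M, ¬ U1 q z y := by
    rcases h with rfl | rfl | rfl | rfl | rfl | rfl <;> simp [U1]
  have h1 : q ≠ 0 := by rcases h with rfl | rfl | rfl | rfl | rfl | rfl <;> simp
  have h2 : q ≠ 1 := by rcases h with rfl | rfl | rfl | rfl | rfl | rfl <;> simp
  have h3 : q ≠ 10 := by rcases h with rfl | rfl | rfl | rfl | rfl | rfl <;> simp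
  have h4 : q ≠ 11 := by rcases h with rfl | rfl | rfl | rfl | rfl | rfl <;> simp
  simp only [h0, h1, h2, h3, h4, and_false, exists_false, or_false, false_and, false_or]

theorem V_all {e c y : M} (hc : ft c = 10) : V e c y ↔
    ∃ z, V (pr 0 e) (sd (sd (sd (ft (sd (sd c)))))) z ∧ VA e (sd c) z y := by
  rw [V_iff, hc]
  have h0 : ∀ z w y : M, ¬ U2 10 z w y := by simp [U2]
  have h1 : ∀ z y : M, ¬ U1 10 z y := by simp [U1]
  have h2 : ¬ (10 : M) = 0 := by simp
  have h3 : ¬ (10 : M) = 1 := by simp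
  have h4 : ¬ (10 : M) = 11 := by simp
  simp only [h0, h1, h2, h3, h4, and_false, exists_false, or_false, false_and, false_or, true_and]

theorem V_ex {e c y : M} (hc : ft c = 11) : V e c y ↔
    ∃ z, V (pr 0 e) (sd (sd (ft (sd (sd c))))) z ∧ VE e (sd c) z y := by
  rw [V_iff, hc]
  have h0 : ∀ z w y : M, ¬ U2 11 z w y := by simp [U2]
  have h1 : ∀ z y : M, ¬ U1 11 z y := by simp [U1]
  have h2 : ¬ (11 : M) = 0 := by simp
  have h3 : ¬ (11 : M) = 1 := by simp
  have h4 : ¬ (11 : M) = 10 := by simp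
  simp only [h0, h1, h2, h3, h4, and_false, exists_false, false_and, false_or, true_and]

theorem V_un_cast {e y : M} (q a : ℕ) (h : (q : M) = 2 ∨ (q : M) = 7) :
    V e ((Nat.pair q a : ℕ) : M) y ↔ ∃ z, V e (a : M) z ∧ U1 (q : M) z y := by
  rw [V_un (by rw [ft_cast, Nat.unpair_pair]) h, sd_cast, Nat.unpair_pair]

theorem V_bin_cast {e y : M} (q a b : ℕ)
    (h : (q : M) = 3 ∨ (q : M) = 4 ∨ (q : M) = 5 ∨ (q : M) = 6 ∨ (q : M) = 8 ∨ (q : M) = 9) :
    V e ((Nat.pair q (Nat.pair a b) : ℕ) : M) y ↔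
      ∃ z w, V e (a : M) z ∧ V e (b : M) w ∧ U2 (q : M) z w y := by
  rw [V_bin (by rw [ft_cast, Nat.unpair_pair]) h, sd_cast, Nat.unpair_pair, sd_cast, ft_cast,
    Nat.unpair_pair]

theorem V_var (i : ℕ) : ∀ e y : M, V e ((Nat.pair 0 i : ℕ) : M) y ↔ y = env e i := by
  induction i with
  | zero =>
    intro e y
    have h0 : ∀ x : M, ¬ (0 : M) = x + 1 := fun x h =>
      absurd (lt_of_lt_of_le zero_lt_one (le_add_self : (1 : M) ≤ x + 1)) (by
        rw [← h]; exact lt_irrefl _)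
    rw [V_zero (by rw [ft_cast, Nat.unpair_pair, Nat.cast_zero]), sd_cast, Nat.unpair_pair,
      Nat.cast_zero]
    simp only [h0, true_and, false_and, exists_false, or_false, env]
  | succ i ih =>
    intro e y
    have h0 : ∀ k : M, (i : M) + 1 = k + 1 ↔ k = (i : M) := fun k => by
      rw [add_left_inj, eq_comm]
    have h2 : (pr 0 (i : M) : M) = ((Nat.pair 0 i : ℕ) : M) := by
      rw [← pr_cast, Nat.cast_zero]
    have h3 : ¬ ((i : M) + 1) = 0 := by
      have := Nat.cast_add_one_pos (α := M) i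
      exact this.ne'
    rw [V_zero (by rw [ft_cast, Nat.unpair_pair, Nat.cast_zero]), sd_cast, Nat.unpair_pair]
    simp only [Nat.cast_add, Nat.cast_one, h0, h3, false_and, false_or, exists_eq_left, h2, ih,
      env]

theorem V_tm (t : Tm) : ∀ e y : M, V e (t.code : M) y ↔ y = t.val (arOf M) (env e) := by
  induction t with
  | var i => exact V_var i
  | zero =>
    intro e y
    rw [Tm.code, V_one (by rw [ft_cast, Nat.unpair_pair, Nat.cast_one])]
    rfl
  | succ t ih =>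
    intro e y
    have h : ∀ z y : M, U1 2 z y ↔ y = z + 1 := by simp [U1]
    rw [Tm.code, V_un_cast 2 _ (by simp)]
    simp only [Nat.cast_ofNat, h, ih, exists_eq_left]
    rfl
  | add t u iht ihu =>
    intro e y
    have h : ∀ z w y : M, U2 3 z w y ↔ y = z + w := by simp [U2]
    rw [Tm.code, V_bin_cast 3 _ _ (by simp)]
    simp only [Nat.cast_ofNat, h, iht, ihu, exists_eq_left, exists_and_left]
    rfl
  | mul t u iht ihu =>
    intro e y
    have h : ∀ z w y : M, U2 4 z w y ↔ y = z * w := by simp [U2]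
    rw [Tm.code, V_bin_cast 4 _ _ (by simp)]
    simp only [Nat.cast_ofNat, h, iht, ihu, exists_eq_left, exists_and_left]
    rfl

open Classical in
/-- The values of the formula `φ` are right. -/
def Good (M : Type) [Mdl M] (φ : Fm) : Prop := ∀ e y : M, V e (φ.code : M) y ↔
    y = if φ.sat (arOf M) (env e) then 1 else 0

theorem good_eq (t u : Tm) : Good M (.eq t u) := by
  intro e y
  have h : ∀ z w y : M, U2 5 z w y ↔ (z = w ∧ y = 1) ∨ (¬ z = w ∧ y = 0) := by simp [U2]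
  rw [Fm.code, V_bin_cast 5 _ _ (by simp)]
  simp only [Nat.cast_ofNat, h, V_tm, exists_eq_left, exists_and_left, Fm.sat]
  split_ifs with h1 <;> simp [h1]

theorem good_lt (t u : Tm) : Good M (.lt t u) := by
  intro e y
  have h : ∀ z w y : M, U2 6 z w y ↔ (z < w ∧ y = 1) ∨ (¬ z < w ∧ y = 0) := by simp [U2]
  have hl : ∀ a b : M, (arOf M).lt a b ↔ a < b := fun a b => Iff.rfl
  rw [Fm.code, V_bin_cast 6 _ _ (by simp)]
  simp only [Nat.cast_ofNat, h, V_tm, exists_eq_left, exists_and_left, Fm.sat, hl]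
  split_ifs with h1
  · simp [h1]
  · simp only [h1, false_and, false_or, not_false_iff, true_and]

theorem good_neg {f : Fm} (hf : Good M f) : Good M (.neg f) := by
  intro e y
  have h : ∀ z y : M, U1 7 z y ↔ (z = 1 ∧ y = 0) ∨ (¬ z = 1 ∧ y = 1) := by simp [U1]
  have hf := hf e
  rw [Fm.code, V_un_cast 7 _ (by simp)]
  simp only [Nat.cast_ofNat, h, hf, exists_eq_left, Fm.sat]
  by_cases h1 : f.sat (arOf M) (env e) <;> simp [h1]

theorem good_and {f g : Fm} (hf : Good M f) (hg : Good M g) : Good M (.and f g) := by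
  intro e y
  have h : ∀ z w y : M, U2 8 z w y ↔ ((z = 1 ∧ w = 1) ∧ y = 1) ∨ (¬ (z = 1 ∧ w = 1) ∧ y = 0) := by
    simp [U2]
  have hf := hf e
  have hg := hg e
  rw [Fm.code, V_bin_cast 8 _ _ (by simp)]
  simp only [Nat.cast_ofNat, h, hf, hg, exists_eq_left, exists_and_left, Fm.sat]
  by_cases h1 : f.sat (arOf M) (env e) <;> by_cases h2 : g.sat (arOf M) (env e) <;> simp [h1, h2]

theorem good_or {f g : Fm} (hf : Good M f) (hg : Good M g) : Good M (.or f g) := by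
  intro e y
  have h : ∀ z w y : M, U2 9 z w y ↔ ((z = 1 ∨ w = 1) ∧ y = 1) ∨ (¬ (z = 1 ∨ w = 1) ∧ y = 0) := by
    simp [U2]
  have hf := hf e
  have hg := hg e
  rw [Fm.code, V_bin_cast 9 _ _ (by simp)]
  simp only [Nat.cast_ofNat, h, hf, hg, exists_eq_left, exists_and_left, Fm.sat]
  by_cases h1 : f.sat (arOf M) (env e) <;> by_cases h2 : g.sat (arOf M) (env e) <;> simp [h1, h2]

theorem Good.one {f : Fm} (hf : Good M f) (e : M) :
    V e (f.code : M) 1 ↔ f.sat (arOf M) (env e) := by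
  rw [hf]
  split_ifs with h <;> simp [h]

theorem Good.ne {f : Fm} (hf : Good M f) (e : M) :
    (∃ w, w ≠ 1 ∧ V e (f.code : M) w) ↔ ¬ f.sat (arOf M) (env e) := by
  constructor
  · rintro ⟨w, hw, h⟩ h1
    rw [hf, if_pos h1] at h
    exact hw h
  · intro h
    exact ⟨0, by simp, by rw [hf, if_neg h]⟩

theorem V_shift (t : Tm) (e z : M) :
    V (pr 0 e) ((t.sub fun j => .var (j + 1)).code : M) z ↔ z = t.val (arOf M) (env e) := by
  rw [V_tm, Tm.val_sub, env_pr]
  rfl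

theorem good_all (t : Tm) {f : Fm} (hf : Good M f) :
    Good M (.all (.imp (.lt (.var 0) (t.sub fun j => .var (j + 1))) f)) := by
  intro e y
  have hb : Good M (.imp (.lt (.var 0) (t.sub fun j => .var (j + 1))) f) :=
    good_or (good_neg (good_lt _ _)) hf
  have hc : ft ((Fm.all (.imp (.lt (.var 0) (t.sub fun j => .var (j + 1))) f)).code : M) = 10 ∧
      sd ((Fm.all (.imp (.lt (.var 0) (t.sub fun j => .var (j + 1))) f)).code : M) =
        ((Fm.imp (.lt (.var 0) (t.sub fun j => .var (j + 1))) f).code : M) := by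
    simp [Fm.code, ft_cast, sd_cast]
  have ht : sd (sd (sd (ft (sd
      ((Fm.imp (.lt (.var 0) (t.sub fun j => .var (j + 1))) f).code : M))))) =
        ((t.sub fun j => .var (j + 1)).code : M) := by
    simp [Fm.imp, Fm.code, ft_cast, sd_cast]
  have hs : (Fm.all (.imp (.lt (.var 0) (t.sub fun j => .var (j + 1))) f)).sat (arOf M) (env e) ↔
      ∀ a, a < t.val (arOf M) (env e) →
        (Fm.imp (.lt (.var 0) (t.sub fun j => .var (j + 1))) f).sat (arOf M) (env (pr a e)) := by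
    rw [Fm.sat]
    refine forall_congr' fun a => ?_
    rw [env_pr]
    constructor
    · exact fun h _ => h
    · intro h
      by_cases ha : a < t.val (arOf M) (env e)
      · exact h ha
      · left
        intro h'
        apply ha
        have h2 : a < (t.sub fun j => .var (j + 1)).val (arOf M) (push a (env e)) := h'
        rw [Tm.val_sub] at h2
        exact h2
  rw [V_all hc.1, hc.2, ht]
  simp only [VA, V_shift, hb.one, hb.ne, exists_eq_left]
  by_cases h : ∀ a, a < t.val (arOf M) (env e) →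
      (Fm.imp (.lt (.var 0) (t.sub fun j => .var (j + 1))) f).sat (arOf M) (env (pr a e))
  · rw [if_pos (hs.2 h)]
    constructor
    · rintro (h1 | ⟨_, a, ha, h2⟩)
      · exact h1.1
      · exact (h2 (h a ha)).elim
    · exact fun h1 => Or.inl ⟨h1, h⟩
  · rw [if_neg (fun h1 => h (hs.1 h1))]
    constructor
    · rintro (h1 | h1)
      · exact (h h1.2).elim
      · exact h1.1
    · intro h1
      push Not at h
      exact Or.inr ⟨h1, h⟩

theorem good_ex (t : Tm) {f : Fm} (hf : Good M f) :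
    Good M (.ex (.and (.lt (.var 0) (t.sub fun j => .var (j + 1))) f)) := by
  intro e y
  have hb : Good M (.and (.lt (.var 0) (t.sub fun j => .var (j + 1))) f) :=
    good_and (good_lt _ _) hf
  have hc : ft ((Fm.ex (.and (.lt (.var 0) (t.sub fun j => .var (j + 1))) f)).code : M) = 11 ∧
      sd ((Fm.ex (.and (.lt (.var 0) (t.sub fun j => .var (j + 1))) f)).code : M) =
        ((Fm.and (.lt (.var 0) (t.sub fun j => .var (j + 1))) f).code : M) := by
    simp [Fm.code, ft_cast, sd_cast]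
  have ht : sd (sd (ft (sd
      ((Fm.and (.lt (.var 0) (t.sub fun j => .var (j + 1))) f).code : M)))) =
        ((t.sub fun j => .var (j + 1)).code : M) := by
    simp [Fm.code, ft_cast, sd_cast]
  have hs : (Fm.ex (.and (.lt (.var 0) (t.sub fun j => .var (j + 1))) f)).sat (arOf M) (env e) ↔
      ∃ a, a < t.val (arOf M) (env e) ∧
        (Fm.and (.lt (.var 0) (t.sub fun j => .var (j + 1))) f).sat (arOf M) (env (pr a e)) := by
    rw [Fm.sat]
    refine exists_congr fun a => ?_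
    rw [env_pr]
    constructor
    · intro h
      refine ⟨?_, h⟩
      have h2 : a < (t.sub fun j => .var (j + 1)).val (arOf M) (push a (env e)) := h.1
      rw [Tm.val_sub] at h2
      exact h2
    · exact fun h => h.2
  rw [V_ex hc.1, hc.2, ht]
  simp only [VE, V_shift, hb.one, hb.ne, exists_eq_left]
  by_cases h : ∃ a, a < t.val (arOf M) (env e) ∧
      (Fm.and (.lt (.var 0) (t.sub fun j => .var (j + 1))) f).sat (arOf M) (env (pr a e))
  · rw [if_pos (hs.2 h)]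
    constructor
    · rintro (h1 | h1)
      · obtain ⟨a, ha, h2⟩ := h
        exact (h1.2 a ha h2).elim
      · exact h1.1
    · exact fun h1 => Or.inr ⟨h1, h⟩
  · rw [if_neg (fun h1 => h (hs.1 h1))]
    constructor
    · rintro (h1 | h1)
      · exact h1.1
      · exact (h h1.2).elim
    · intro h1
      push Not at h
      exact Or.inl ⟨h1, h⟩

theorem V_fm {φ : Fm} (h : φ.bdd) : Good M φ := by
  induction h with
  | eq t u => exact good_eq t u
  | lt t u => exact good_lt t u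
  | neg _ ih => exact good_neg ih
  | and _ _ ihf ihg => exact good_and ihf ihg
  | or _ _ ihf ihg => exact good_or ihf ihg
  | all t _ ih => exact good_all t ih
  | ex t _ ih => exact good_ex t ih

/-! ### Blocks of quantifiers -/

/-- Justification of the pair `(e, x)`. -/
def LE (q : M) (R : M → M → Prop) (S : M → Prop) (i : M) : Prop :=
  (ft (sd i) = q ∧ ∃ a, S (pr (pr a (ft i)) (sd (sd i)))) ∨ (ft (sd i) ≠ q ∧ R (ft i) (sd i))

/-- Strip the leading quantifiers coded by `q` and ask `R` for the rest. -/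
def Ex (q : M) (R : M → M → Prop) (e x : M) : Prop := Fx (LE q R) (pr e x)

theorem opr_LE (q : M) {R : M → M → Prop} (hR : Dfn M (fun p : M × M => R p.1 p.2)) :
    Opr (LE q R) := by
  refine ⟨?_, ?_⟩
  · intro S S' h i hi
    rcases hi with ⟨h1, a, h2⟩ | hi
    · exact Or.inl ⟨h1, a, h _ h2⟩
    · exact Or.inr hi
  · unfold LE
    refine Dfn.or (Dfn.and (Dfn.eq ?_ ?_) (Dfn.ex (Dfn_Mem ?_ ?_)))
      (Dfn.and (Dfn.not (Dfn.eq ?_ ?_)) ?_)
    rotate_right
    · exact hR.comp (f := fun p : (M × M × M) × M => (ft p.2, sd p.2))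
        (DM.pair (DM_ft (DM.snd DM.id)) (DM_sd (DM.snd DM.id)))
    all_goals
      repeat' first
      | exact DM.const _
      | exact DM.id
      | apply DM_ft
      | apply DM_sd
      | apply DM_pr
      | apply DM.fst
      | apply DM.snd

theorem Ex_dfn (q : M) {R : M → M → Prop} (hR : Dfn M (fun p : M × M => R p.1 p.2)) :
    Dfn M (fun p : M × M => Ex q R p.1 p.2) :=
  (Fx_dfn (opr_LE q hR)).comp (f := fun p : M × M => pr p.1 p.2)
    (DM_pr (DM.fst DM.id) (DM.snd DM.id))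

theorem Ex_iff {q : M} {R : M → M → Prop} (hR : Dfn M (fun p : M × M => R p.1 p.2)) (e x : M) :
    Ex q R e x ↔ (ft x = q ∧ ∃ a, Ex q R (pr a e) (sd x)) ∨ (ft x ≠ q ∧ R e x) := by
  constructor
  · intro h
    have h1 := Fx_unfold (opr_LE q hR) h
    rw [LE, sd_pr, ft_pr] at h1
    exact h1
  · have key : ∀ s : M × M × M, (∀ j, Mem s j → LE q R (Mem s) j) →
        ((ft x = q ∧ ∃ a, Mem s (pr (pr a e) (sd x))) ∨ (ft x ≠ q ∧ R e x)) → Ex q R e x := by
      intro s hs h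
      refine Fx_intro (opr_LE q hR) hs ?_
      rw [LE, sd_pr, ft_pr]
      exact h
    rintro (⟨h1, a, s, hs, h2⟩ | h)
    · exact key s hs (Or.inl ⟨h1, a, h2⟩)
    · obtain ⟨s, hs⟩ := Fx_nil (M := M) (LE q R)
      exact key s hs (Or.inr h)

theorem Fm.bdd.of_ex {f : Fm} (h : (Fm.ex f).bdd) : f.bdd := by
  cases h with
  | ex t h => exact Fm.bdd.and (Fm.bdd.lt _ _) h

theorem Fm.bdd.of_all {f : Fm} (h : (Fm.all f).bdd) : f.bdd := by
  cases h with
  | all t h => exact Fm.bdd.or (Fm.bdd.neg (Fm.bdd.lt _ _)) h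

theorem Fm.qf.bdd {f : Fm} (h : f.qf) : f.bdd := by
  induction f with
  | eq t u => exact Fm.bdd.eq t u
  | lt t u => exact Fm.bdd.lt t u
  | neg f ih => exact Fm.bdd.neg (ih h)
  | and f g ihf ihg => exact Fm.bdd.and (ihf h.1) (ihg h.2)
  | or f g ihf ihg => exact Fm.bdd.or (ihf h.1) (ihg h.2)
  | all f ih => exact h.elim
  | ex f ih => exact h.elim

theorem Prenex.mono {K K' : Fm → Prop} {b : Bool} {n : ℕ} {f : Fm}
    (h : Prenex K b n f) (hK : ∀ f, K f → K' f) : Prenex K' b n f := by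
  induction h with
  | base h => exact .base (hK _ h)
  | ex _ ih => exact .ex ih
  | all _ ih => exact .all ih
  | up _ ih => exact .up ih

theorem Prenex.of_ex {b : Bool} {n : ℕ} {f : Fm} (h : Prenex Fm.bdd b n (.ex f)) :
    Prenex Fm.bdd b n f := by
  generalize hg : Fm.ex f = g at h
  induction h with
  | base h => subst hg; exact .base h.of_ex
  | ex h ih => cases hg; exact h
  | all h ih => cases hg
  | up h ih => exact Prenex.up (ih hg)

theorem Prenex.of_all {b : Bool} {n : ℕ} {f : Fm} (h : Prenex Fm.bdd b n (.all f)) :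
    Prenex Fm.bdd b n f := by
  generalize hg : Fm.all f = g at h
  induction h with
  | base h => subst hg; exact .base h.of_all
  | ex h ih => cases hg
  | all h ih => cases hg; exact h
  | up h ih => exact Prenex.up (ih hg)

theorem Prenex.down_true {n : ℕ} {f : Fm} (h : Prenex Fm.bdd true (n + 1) f)
    (hf : ∀ g, f ≠ .ex g) : Prenex Fm.bdd false n f := by
  cases h with
  | base h => exact .base h
  | ex h => exact (hf _ rfl).elim
  | up h => exact h

theorem Prenex.down_false {n : ℕ} {f : Fm} (h : Prenex Fm.bdd false (n + 1) f)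
    (hf : ∀ g, f ≠ .all g) : Prenex Fm.bdd true n f := by
  cases h with
  | base h => exact .base h
  | all h => exact (hf _ rfl).elim
  | up h => exact h

theorem Prenex.bdd_of_zero {b : Bool} {f : Fm} (h : Prenex Fm.bdd b 0 f) : f.bdd := by
  cases h with
  | base h => exact h

theorem ft_code_ex (f : Fm) : ft ((Fm.ex f).code : M) = 11 ∧ sd ((Fm.ex f).code : M) = f.code := by
  simp [Fm.code, ft_cast, sd_cast]

theorem ft_code_all (f : Fm) :
    ft ((Fm.all f).code : M) = 10 ∧ sd ((Fm.all f).code : M) = f.code := by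
  simp [Fm.code, ft_cast, sd_cast]

theorem ft_code_ne_ex (f : Fm) (hf : ∀ g, f ≠ .ex g) : ft (f.code : M) ≠ 11 := by
  cases f with
  | ex g => exact (hf _ rfl).elim
  | _ => simp [Fm.code, ft_cast]

theorem ft_code_ne_all (f : Fm) (hf : ∀ g, f ≠ .all g) : ft (f.code : M) ≠ 10 := by
  cases f with
  | all g => exact (hf _ rfl).elim
  | _ => simp [Fm.code, ft_cast]

theorem step_true_ne {n : ℕ} {R : M → M → Prop} (hR : Dfn M (fun p : M × M => R p.1 p.2))
    (h : ∀ φ, Prenex Fm.bdd false n φ → ∀ e : M, R e (φ.code : M) ↔ φ.sat (arOf M) (env e)) (φ : Fm)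
    (hne : ∀ g, φ ≠ .ex g) (hp : Prenex Fm.bdd true (n + 1) φ) (e : M) :
    Ex 11 R e (φ.code : M) ↔ φ.sat (arOf M) (env e) := by
  have hn := ft_code_ne_ex (M := M) φ hne
  rw [Ex_iff hR, h _ (hp.down_true hne) e]
  simp [hn]

theorem truth_step_true {n : ℕ} {R : M → M → Prop} (hR : Dfn M (fun p : M × M => R p.1 p.2))
    (h : ∀ φ, Prenex Fm.bdd false n φ → ∀ e : M, R e (φ.code : M) ↔ φ.sat (arOf M) (env e)) (φ : Fm) :
    Prenex Fm.bdd true (n + 1) φ → ∀ e : M, Ex 11 R e (φ.code : M) ↔ φ.sat (arOf M) (env e) := by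
  induction φ with
  | ex f ih =>
    intro hp e
    have ih := ih hp.of_ex
    rw [Ex_iff hR, (ft_code_ex f).1, (ft_code_ex f).2]
    simp only [ih, env_pr, Fm.sat, true_and, ne_eq, not_true_eq_false, false_and, or_false]
  | _ =>
    intro hp e
    exact step_true_ne hR h _ (by intro g hg; cases hg) hp e

theorem step_false_ne {n : ℕ} {R : M → M → Prop} (hR : Dfn M (fun p : M × M => R p.1 p.2))
    (h : ∀ φ, Prenex Fm.bdd true n φ → ∀ e : M, R e (φ.code : M) ↔ φ.sat (arOf M) (env e)) (φ : Fm)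
    (hne : ∀ g, φ ≠ .all g) (hp : Prenex Fm.bdd false (n + 1) φ) (e : M) :
    ¬ Ex 10 (fun e x => ¬ R e x) e (φ.code : M) ↔ φ.sat (arOf M) (env e) := by
  have hn := ft_code_ne_all (M := M) φ hne
  rw [Ex_iff (Dfn.not hR), h _ (hp.down_false hne) e]
  simp [hn]

theorem truth_step_false {n : ℕ} {R : M → M → Prop} (hR : Dfn M (fun p : M × M => R p.1 p.2))
    (h : ∀ φ, Prenex Fm.bdd true n φ → ∀ e : M, R e (φ.code : M) ↔ φ.sat (arOf M) (env e)) (φ : Fm) :
    Prenex Fm.bdd false (n + 1) φ →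
      ∀ e : M, ¬ Ex 10 (fun e x => ¬ R e x) e (φ.code : M) ↔ φ.sat (arOf M) (env e) := by
  induction φ with
  | all f ih =>
    intro hp e
    have ih := ih hp.of_all
    rw [Ex_iff (Dfn.not hR), (ft_code_all f).1, (ft_code_all f).2]
    simp only [true_and, ne_eq, not_true_eq_false, false_and, or_false, not_exists, ih, env_pr,
      Fm.sat]
  | _ =>
    intro hp e
    exact step_false_ne hR h _ (by intro g hg; cases hg) hp e

theorem truth_env (n : ℕ) : ∀ b : Bool, ∃ T : M → M → Prop, Dfn M (fun p : M × M => T p.1 p.2) ∧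
    ∀ φ, Prenex Fm.bdd b n φ → ∀ e : M, T e (φ.code : M) ↔ φ.sat (arOf M) (env e) := by
  induction n with
  | zero =>
    intro b
    refine ⟨fun e x => V e x 1, V_dfn, fun φ hφ e => ?_⟩
    change V e (φ.code : M) 1 ↔ _
    exact (V_fm hφ.bdd_of_zero).one e
  | succ n ih =>
    intro b
    cases b with
    | true =>
      obtain ⟨R, hR, h⟩ := ih false
      exact ⟨Ex 11 R, Ex_dfn 11 hR, truth_step_true hR h⟩
    | false =>
      obtain ⟨R, hR, h⟩ := ih true
      exact ⟨fun e x => ¬ Ex 10 (fun e x => ¬ R e x) e x, Dfn.not (Ex_dfn 10 (Dfn.not hR)),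
        truth_step_false hR h⟩

/-! ### Sentences -/

omit [Mdl M] in
theorem Tm.val_congr (A : Ar M) {n : ℕ} {t : Tm} (ht : t.closed n) {v w : ℕ → M}
    (h : ∀ i < n, v i = w i) : t.val A v = t.val A w := by
  induction t with
  | var i => exact h i ht
  | zero => rfl
  | succ t ih => simp only [Tm.val]; rw [ih ht]
  | add t u iht ihu => simp only [Tm.val]; rw [iht ht.1, ihu ht.2]
  | mul t u iht ihu => simp only [Tm.val]; rw [iht ht.1, ihu ht.2]

omit [Mdl M] in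
theorem push_congr {n : ℕ} {v w : ℕ → M} (h : ∀ i < n, v i = w i) (a : M) :
    ∀ i < n + 1, push a v i = push a w i := by
  intro i hi
  cases i with
  | zero => rfl
  | succ i => exact h i (by omega)

omit [Mdl M] in
theorem Fm.sat_congr (A : Ar M) {φ : Fm} : ∀ {n : ℕ}, φ.closed n → ∀ {v w : ℕ → M},
    (∀ i < n, v i = w i) → (φ.sat A v ↔ φ.sat A w) := by
  induction φ with
  | eq t u =>
    intro n hc v w h
    simp only [Fm.sat]
    rw [Tm.val_congr A hc.1 h, Tm.val_congr A hc.2 h]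
  | lt t u =>
    intro n hc v w h
    simp only [Fm.sat]
    rw [Tm.val_congr A hc.1 h, Tm.val_congr A hc.2 h]
  | neg f ih =>
    intro n hc v w h
    simp only [Fm.sat]
    rw [ih hc h]
  | and f g ihf ihg =>
    intro n hc v w h
    simp only [Fm.sat]
    rw [ihf hc.1 h, ihg hc.2 h]
  | or f g ihf ihg =>
    intro n hc v w h
    simp only [Fm.sat]
    rw [ihf hc.1 h, ihg hc.2 h]
  | all f ih =>
    intro n hc v w h
    simp only [Fm.sat]
    exact forall_congr' fun a => ih hc (push_congr h a)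
  | ex f ih =>
    intro n hc v w h
    simp only [Fm.sat]
    exact exists_congr fun a => ih hc (push_congr h a)

/-- Partial truth definition for the prenex `Σ_n` sentences with a bounded matrix. -/
theorem truth (n : ℕ) : ∃ D : M → Prop, Dfn M D ∧ ∀ φ : Fm, φ.closed 0 → Prenex Fm.bdd true n φ →
    (D (φ.code : M) ↔ ∀ v, φ.sat (arOf M) v) := by
  obtain ⟨T, hT, h⟩ := truth_env (M := M) n true
  refine ⟨fun x => T 0 x, ?_, fun φ hc hp => ?_⟩
  · exact hT.comp (f := fun x : M => ((0 : M), x)) (DM.pair (DM.const 0) DM.id)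
  · change T 0 (φ.code : M) ↔ _
    rw [h φ hp]
    exact ⟨fun h0 v => (Fm.sat_congr _ hc (by intro i hi; omega)).1 h0, fun h0 => h0 _⟩

end

end Pool.Agent.MU
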