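import Pool.Agent.MU.Run
import Pool.Agent.MU.Truth
import Pool.Agent.MU.FromPA
import Pool.Agent.MU.Codes
import Pool.Agent.MU.Std
import Pool.Agent.MU.ThmB

/-! # Assembly -/

set_option autoImplicit false

namespace Pool.Agent.MU

open Encodable
open Nat.Partrec (Code)
open Pool.Agent.Helper70 (PC)
open Pool.Agent.Helper70.OD

/-- a copy of the set of natural numbers without structure -/
def U : Type := ℕ

/-- the identity -/
def nuU : ℕ ≃ U := Equiv.refl ℕ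

theorem red_iff' {X Y : ℕ → Bool} : Red X Y ↔ Sg X Y := chi_reducible_iff

theorem Red.trans {X Y Z : ℕ → Bool} (h : Red X Y) (h' : Red Y Z) : Red X Z :=
  TuringReducible.trans h h'

section diag

variable (A : Ar ℕ)

theorem diag_zero (a : ℕ) : A.diag (Nat.pair 0 a) = true ↔ A.zero = a := by
  unfold Ar.diag
  simp only [decide_eq_true_eq, Nat.pair_eq_pair]
  constructor
  · rintro (⟨_, ⟨_, rfl⟩, h⟩ | ⟨_, _, ⟨h, _⟩, _⟩ | ⟨_, _, _, ⟨h, _⟩, _⟩ |
      ⟨_, _, _, ⟨h, _⟩, _⟩ | ⟨_, _, ⟨h, _⟩, _⟩) <;> first | exact h | omega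
  · intro h
    exact Or.inl ⟨a, by simp, h⟩

theorem diag_succ (a b : ℕ) : A.diag (Nat.pair 1 (Nat.pair a b)) = true ↔ A.succ a = b := by
  unfold Ar.diag
  simp only [decide_eq_true_eq, Nat.pair_eq_pair]
  constructor
  · rintro (⟨_, h, _⟩ | ⟨_, _, ⟨_, rfl, rfl⟩, h⟩ | ⟨_, _, _, ⟨h, _⟩, _⟩ | ⟨_, _, _, ⟨h, _⟩, _⟩ |
      ⟨_, _, ⟨h, _⟩, _⟩) <;> first | exact h | omega
  · intro h
    exact Or.inr (Or.inl ⟨a, b, by simp, h⟩)

theorem diag_add (a b c : ℕ) : A.diag (Nat.pair 2 (Nat.pair (Nat.pair a b) c)) = true ↔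
    A.add a b = c := by
  unfold Ar.diag
  simp only [decide_eq_true_eq, Nat.pair_eq_pair]
  constructor
  · rintro (⟨_, h, _⟩ | ⟨_, _, ⟨h, _⟩, _⟩ | ⟨_, _, _, ⟨_, ⟨rfl, rfl⟩, rfl⟩, h⟩ |
      ⟨_, _, _, ⟨h, _⟩, _⟩ | ⟨_, _, ⟨h, _⟩, _⟩) <;> first | exact h | omega
  · intro h
    exact Or.inr (Or.inr (Or.inl ⟨a, b, c, by simp, h⟩))

theorem diag_mul (a b c : ℕ) : A.diag (Nat.pair 3 (Nat.pair (Nat.pair a b) c)) = true ↔
    A.mul a b = c := by
  unfold Ar.diag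
  simp only [decide_eq_true_eq, Nat.pair_eq_pair]
  constructor
  · rintro (⟨_, h, _⟩ | ⟨_, _, ⟨h, _⟩, _⟩ | ⟨_, _, _, ⟨h, _⟩, _⟩ |
      ⟨_, _, _, ⟨_, ⟨rfl, rfl⟩, rfl⟩, h⟩ | ⟨_, _, ⟨h, _⟩, _⟩) <;> first | exact h | omega
  · intro h
    exact Or.inr (Or.inr (Or.inr (Or.inl ⟨a, b, c, by simp, h⟩)))

theorem diag_lt (a b : ℕ) : A.diag (Nat.pair 4 (Nat.pair a b)) = true ↔ A.lt a b := by
  unfold Ar.diag
  simp only [decide_eq_true_eq, Nat.pair_eq_pair]
  constructor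
  · rintro (⟨_, h, _⟩ | ⟨_, _, ⟨h, _⟩, _⟩ | ⟨_, _, _, ⟨h, _⟩, _⟩ |
      ⟨_, _, _, ⟨h, _⟩, _⟩ | ⟨_, _, ⟨_, rfl, rfl⟩, h⟩) <;> first | exact h | omega
  · intro h
    exact Or.inr (Or.inr (Or.inr (Or.inr ⟨a, b, by simp, h⟩)))

end diag

theorem sg_of_bit {α : Type} [Primcodable α] {G : ℕ → Bool} {P : α → Prop} {g : α → ℕ}
    (hg : Primrec g) (h : ∀ a, G (g a) = true ↔ P a) : (PC.re.adj G).S P := by
  refine PC.of_eq ((PC.re.adj G).comp (f := fun a => (g a, true)) (PC.adj_self G)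
    (hg.pair (Primrec.const true))) fun a => ?_
  exact (h a).symm

theorem Sg.computable {f G : ℕ → Bool} (hf : Computable f) : Sg f G := by
  refine TR_chi_iff.1 (TR.of_computable ?_)
  exact (Primrec.dom_finite Bool.toNat).to_comp.comp hf

theorem Sg.band {X Y G : ℕ → Bool} {g : ℕ → ℕ} (hX : Sg X G) (hY : Sg Y G)
    (hg : Primrec g) : Sg (fun i => X i && Y (g i)) G := by
  have h1 : (PC.re.adj G).S (fun p : ℕ × Bool => ∃ b : Bool × Bool,
      (X p.1 = b.1 ∧ Y (g p.1) = b.2) ∧ (b.1 && b.2) = p.2) := by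
    refine PC.ex' (R := fun (p : ℕ × Bool) (b : Bool × Bool) =>
      (X p.1 = b.1 ∧ Y (g p.1) = b.2) ∧ (b.1 && b.2) = p.2) ?_
    refine (PC.re.adj G).and ((PC.re.adj G).and ?_ ?_) ((PC.re.adj G).prim ?_)
    · exact (PC.re.adj G).comp (f := fun q : (ℕ × Bool) × (Bool × Bool) => (q.1.1, q.2.1)) hX
        (by fun_prop)
    · exact (PC.re.adj G).comp (f := fun q : (ℕ × Bool) × (Bool × Bool) => (g q.1.1, q.2.2)) hY
        (by fun_prop)
    · exact Primrec.eq.comp ((Primrec.dom_finite fun b : Bool × Bool => (b.1 && b.2)).comp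
        Primrec.snd) (by fun_prop)
  refine PC.of_eq h1 fun p => ?_
  constructor
  · intro h
    exact ⟨(X p.1, Y (g p.1)), ⟨rfl, rfl⟩, h⟩
  · rintro ⟨b, ⟨h1, h2⟩, h3⟩
    simp only
    rw [h1, h2]; exact h3

theorem Sg.refl (G : ℕ → Bool) : Sg G G := PC.adj_self G

/-- The part about models of PA. -/
theorem models_half (T : Set Fm) (hT : IsCompletion T) (A : Ar ℕ) (hA : Models A T)
    (hns : A.NonStd) : ∃ y : ℕ → Bool, Sg y A.diag ∧
      (∀ n, Sep (fun u => y (Nat.pair n (2 * u + 1))) (low n y)) ∧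
      ∀ K : Fm → Prop, (∀ f, K f → f.bdd) → CodesDec K →
        ∀ n, ∃ m, Sg (Tn K T n) (col m y) := by
  classical
  let A' : Ar U := A
  obtain ⟨inst, hinst⟩ := mdl_of_PA A' (fun f hf v => hA f (hT.pa hf) v)
  have e0 : A'.zero = (0 : U) := by
    have := congrArg Ar.zero hinst; exact this.symm
  have e1 : ∀ a : U, A'.succ a = a + 1 := by
    intro a; have := congrFun (congrArg Ar.succ hinst) a; exact this.symm
  have e2 : ∀ a b : U, A'.add a b = a + b := by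
    intro a b; have := congrFun (congrFun (congrArg Ar.add hinst) a) b; exact this.symm
  have e3 : ∀ a b : U, A'.mul a b = a * b := by
    intro a b; have := congrFun (congrFun (congrArg Ar.mul hinst) a) b; exact this.symm
  have e4 : ∀ a b : U, A'.lt a b ↔ a < b := by
    intro a b
    have := congrFun (congrFun (congrArg Ar.lt hinst) a) b
    exact (iff_of_eq this).symm
  have hnum : ∀ n : ℕ, (Nat.cast n : U) = A'.num n := by
    intro n
    induction n with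
    | zero => exact (Nat.cast_zero (R := U)).trans e0.symm
    | succ n ih =>
      exact (Nat.cast_succ (R := U) n).trans ((congrArg (fun x : U => x + 1) ih).trans
        (e1 _).symm)
  obtain ⟨k, hk⟩ : ∃ k : U, ∀ n, k ≠ A'.num n := hns
  have hk' : ∀ n : ℕ, (Nat.cast n : U) < k := by
    intro n
    by_contra hc
    have h1 : k < (Nat.cast (n + 1) : U) := by
      rw [Nat.cast_succ]
      exact lt_of_le_of_lt (not_lt.1 hc) (lt_add_one _)
    obtain ⟨m, _, hm⟩ := lt_cast h1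
    exact hk m (hm.trans (hnum m))
  obtain ⟨y, hy, hsep, hD⟩ := run nuU (PC.re.adj A.diag)
    (sg_of_bit (g := fun a => Nat.pair 0 a) (Primrec₂.natPair.comp (by fun_prop) (by fun_prop))
      fun a => (diag_zero A a).trans (Iff.trans (by exact eq_comm) (Eq.congr_right e0)))
    (sg_of_bit (g := fun p : ℕ × ℕ => Nat.pair 1 (Nat.pair p.1 p.2))
      (Primrec₂.natPair.comp (by fun_prop) (Primrec₂.natPair.comp (by fun_prop) (by fun_prop)))
      fun p => (diag_succ A p.1 p.2).trans (Eq.congr_left (e1 p.1)))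
    (sg_of_bit (g := fun p : (ℕ × ℕ) × ℕ => Nat.pair 2 (Nat.pair (Nat.pair p.1.1 p.1.2) p.2))
      (Primrec₂.natPair.comp (by fun_prop) (Primrec₂.natPair.comp
        (Primrec₂.natPair.comp (by fun_prop) (by fun_prop)) (by fun_prop)))
      fun p => (diag_add A p.1.1 p.1.2 p.2).trans (Eq.congr_left (e2 p.1.1 p.1.2)))
    (sg_of_bit (g := fun p : (ℕ × ℕ) × ℕ => Nat.pair 3 (Nat.pair (Nat.pair p.1.1 p.1.2) p.2))
      (Primrec₂.natPair.comp (by fun_prop) (Primrec₂.natPair.comp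
        (Primrec₂.natPair.comp (by fun_prop) (by fun_prop)) (by fun_prop)))
      fun p => (diag_mul A p.1.1 p.1.2 p.2).trans (Eq.congr_left (e3 p.1.1 p.1.2)))
    (sg_of_bit (g := fun p : ℕ × ℕ => Nat.pair 4 (Nat.pair p.1 p.2))
      (Primrec₂.natPair.comp (by fun_prop) (Primrec₂.natPair.comp (by fun_prop) (by fun_prop)))
      fun p => (diag_lt A p.1 p.2).trans (e4 _ _))
    ⟨k, hk'⟩
  refine ⟨y, hy, hsep, fun K hK hdec n => ?_⟩
  obtain ⟨D, hDf, hDt⟩ := truth (M := U) n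
  obtain ⟨m, hm⟩ := hD D hDf
  obtain ⟨f, hf, hfc⟩ := hdec n
  refine ⟨m, ?_⟩
  have h1 : Tn K T n = fun i => f i && col m y (2 * i) := by
    funext i
    rw [Bool.eq_iff_iff]
    simp only [Tn, decide_eq_true_eq, Bool.and_eq_true, col, hm, hfc]
    have hsat : ∀ φ : Fm, φ.closed 0 → Prenex K true n φ →
        (D (Nat.cast φ.code) ↔ ∀ v, φ.sat A v) := by
      intro φ h1 h2
      rw [hDt φ h1 (h2.mono hK), hinst]
      exact Iff.rfl
    constructor
    · rintro ⟨φ, h1, h2, rfl⟩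
      have h3 := hT.sentences φ h1
      exact ⟨⟨φ, h3, h2, rfl⟩, (hsat φ h3 h2).2 (hA φ h1)⟩
    · rintro ⟨⟨φ, h1, h2, rfl⟩, h3⟩
      have h4 := (hsat φ h1 h2).1 h3
      rcases hT.complete φ h1 with h5 | h5
      · exact ⟨φ, h5, h2, rfl⟩
      · exact absurd (h4 fun _ => 0) (hA _ h5 fun _ => 0)
  rw [h1]
  exact Sg.band (Sg.computable hf) (Sg.refl _)
    (Primrec.nat_mul.comp (Primrec.const 2) Primrec.id)

/-- Some degree strictly below `A` bounds all `T_n`, for both conventions. -/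
theorem exists_below (T : Set Fm) (hT : IsCompletion T) (A : Ar ℕ) (hA : Models A T)
    (hns : A.NonStd) : ∃ B : ℕ → Bool, Red B A.diag ∧ ¬ Red A.diag B ∧
      ∀ K : Fm → Prop, (∀ f, K f → f.bdd) → CodesDec K → ∀ n, Red (Tn K T n) B := by
  obtain ⟨y, hy, hsep, hT'⟩ := models_half T hT A hA hns
  obtain ⟨B, h1, h2, h3⟩ := theoremB y A.diag hy hsep
  refine ⟨B, red_iff'.2 h1, fun h => h2 (red_iff'.1 h), fun K hK hdec n => ?_⟩
  obtain ⟨m, hm⟩ := hT' K hK hdec n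
  exact (red_iff'.2 hm).trans (red_iff'.2 (h3 m))

/-- The final result. -/
theorem result' (T : Set Fm) (hT : IsCompletion T) (A : Ar ℕ) (hA : Models A T)
    (hns : A.NonStd) : ¬ IsMinUB A.diag (Tn Fm.qf T) ∧ ¬ IsMinUB A.diag (Tn Fm.bdd T) := by
  obtain ⟨B, h1, h2, h3⟩ := exists_below T hT A hA hns
  exact ⟨fun h => h.2 ⟨B, h3 _ (fun _ hf => Fm.qf.bdd hf) codesDec_qf, h1, h2⟩,
    fun h => h.2 ⟨B, h3 _ (fun _ hf => hf) codesDec_bdd, h1, h2⟩⟩

end Pool.Agent.MU
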