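import Pool.Agent.MU.Bridge

/-! # Separating functions: definitions -/

set_option autoImplicit false

namespace Pool.Agent.MU

open Encodable
open Nat.Partrec (Code)
open Pool.Agent.Helper70 (PC res pre_res)

/-- The `c`-th enumeration relative to `X` puts in `(w, j)` at stage `s`. -/
def Hit (s : ℕ) (c : Code) (w : ℕ) (j : Bool) (X : ℕ → Bool) : Prop :=
  ∃ q : List Bool × ℕ, decode (α := List Bool × ℕ) s = some q ∧ Helper70.Pre q.1 X ∧
    (Code.evaln q.2 c (encode ((w, j), q.1))).isSome = true

/-- The `c`-th enumeration relative to `X` puts in `(w, j)` and this happens before `(w, !j)`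
(in case of a tie `false` is the first one). -/
def Fst (c : Code) (w : ℕ) (j : Bool) (X : ℕ → Bool) : Prop :=
  ∃ s, Hit s c w j X ∧ ∀ s' < s + j.toNat, ¬ Hit s' c w (!j) X

/-- `V` avoids the first value enumerated. -/
def Sep (V X : ℕ → Bool) : Prop := ∀ (c : Code) (w : ℕ), ¬ Fst c w (V (encode (c, w))) X

/-- Column `k`. -/
def col (k : ℕ) (B : ℕ → Bool) : ℕ → Bool := fun u => B (Nat.pair k u)

/-- The columns `< k`. -/
def low (k : ℕ) (B : ℕ → Bool) : ℕ → Bool := fun m => decide (m.unpair.1 < k) && B m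

/-- `X` is computable in `Y` (its graph is c.e. in `Y`). -/
def Sg (X Y : ℕ → Bool) : Prop := (PC.re.adj Y).S (fun p : ℕ × Bool => X p.1 = p.2)

end Pool.Agent.MU
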