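import Pool.Agent.MU.Defs

/-! # Models of PA as ordered semirings, definable relations -/

set_option autoImplicit false

namespace Pool.Agent.MU

/-- The structure given by the operations of an ordered semiring. -/
def arOf (M : Type) [CommSemiring M] [LinearOrder M] : Ar M :=
  ⟨0, fun x => x + 1, fun x y => x + y, fun x y => x * y, fun x y => x < y⟩

/-- Models of PA. -/
class Mdl (M : Type) extends CommSemiring M, LinearOrder M where
  sor : IsStrictOrderedRing M
  can : CanonicallyOrderedAdd M
  lt_iff : ∀ a b : M, a < b ↔ a + 1 ≤ b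
  ind : ∀ (φ : Fm) (v : ℕ → M), φ.sat (arOf M) (push 0 v) →
    (∀ x, φ.sat (arOf M) (push x v) → φ.sat (arOf M) (push (x + 1) v)) →
    ∀ x, φ.sat (arOf M) (push x v)

attribute [instance] Mdl.sor Mdl.can

/-- Contexts: types of finite tuples of elements of `M` (coded as environments). -/
class Cx (M : Type) (α : Type) where
  e : α → ℕ → M

instance {M : Type} : Cx M M := ⟨fun a _ => a⟩

/-- Interleaving. -/
def mix {M : Type} (f g : ℕ → M) (i : ℕ) : M := if i % 2 = 0 then f (i / 2) else g (i / 2)

instance {M α β : Type} [Cx M α] [Cx M β] : Cx M (α × β) := ⟨fun p => mix (Cx.e p.1) (Cx.e p.2)⟩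

/-- Definable (with parameters) relations. -/
def Dfn (M : Type) [Mdl M] {α : Type} [Cx M α] (P : α → Prop) : Prop :=
  ∃ (φ : Fm) (w : ℕ → M), ∀ a, P a ↔ φ.sat (arOf M) (mix (Cx.e a) w)

/-- Definable maps between contexts. -/
def DM (M : Type) [Mdl M] {α β : Type} [Cx M α] [Cx M β] (f : α → β) : Prop :=
  ∀ i, Dfn M (fun p : α × M => Cx.e (M := M) (f p.1) i = p.2)

end Pool.Agent.MU
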