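import Pool.Agent.MU.Step

/-! # The coding of a whole column and the record step -/

set_option autoImplicit false

namespace Pool.Agent.MU

open Encodable
open Nat.Partrec (Code)
open Pool.Agent.Helper70 (PC res pre_res getElem?_res length_res)
open Pool.Agent.Helper70.OD (RE)

theorem Sg.tr {X Y Z : ℕ → Bool} (h : Sg X Y) (h' : Sg Y Z) : Sg X Z :=
  chi_reducible_iff.1 ((chi_reducible_iff.2 h).trans (chi_reducible_iff.2 h'))

theorem continuous_jn (z : ℕ → Bool) : Continuous (fun B : ℕ → Bool => jn z B) := by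
  refine continuous_pi fun n => ?_
  unfold jn
  by_cases h : n % 2 = 0
  · simp only [h, if_true]; exact continuous_const
  · simp only [h, if_false]; exact continuous_apply _

theorem isClosed_not_out (e : Code) (D : List Rc) (m : ℕ) (w : List Bool) (z : ℕ → Bool) :
    IsClosed {B | ¬ Out e D m w z B} := by
  have h1 : IsOpen {W | Out e D m w (ev W) (od W)} := SR_out.isOpen (e, D, m, w)
  have h2 := h1.preimage (continuous_jn z)
  have h3 : {B | ¬ Out e D m w z B} =
      ((fun B : ℕ → Bool => jn z B) ⁻¹' {W | Out e D m w (ev W) (od W)})ᶜ := by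
    ext B
    simp
  rw [h3]
  exact h2.isClosed_compl

theorem res_succ' (X : ℕ → Bool) (j : ℕ) : res X (j + 1) = res X j ++ [X j] := by
  rw [res_eq_iff]
  refine ⟨by simp, fun k hk => ?_⟩
  rw [List.getD_eq_getElem?_getD]
  rcases Nat.lt_succ_iff_lt_or_eq.1 hk with h | rfl
  · rw [List.getElem?_append_left (by simpa using h), getElem?_res, if_pos h]; rfl
  · rw [List.getElem?_append_right (by simp)]; simp

theorem coding_all {e : Code} (he : ∀ w' j X, R3 w' j X ↔ ∃ s, Hit s e w' j X)
    {D : List Rc} {z : ℕ → Bool} (h : NE e D D.length [] z) : NE e D (D.length + 1) [] z := by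
  have h1 : ∀ j, NE e D D.length (res (col D.length z) j) z := by
    intro j
    induction j with
    | zero => exact h
    | succ j ih => rw [res_succ']; exact coding_step he ih _
  have h2 := IsCompact.nonempty_iInter_of_sequence_nonempty_isCompact_isClosed
    (fun j => {B | ¬ Out e D D.length (res (col D.length z) j) z B})
    (fun j B hB => by
      simp only [Set.mem_ofPred_eq] at hB ⊢
      rw [res_succ'] at hB
      unfold Out at hB ⊢
      rw [outE_append] at hB
      tauto) (fun j => h1 j)
    ((isClosed_not_out e D D.length _ z).isCompact) (fun j => isClosed_not_out e D D.length _ z)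
  obtain ⟨B, hB⟩ := h2
  simp only [Set.mem_iInter, Set.mem_ofPred_eq] at hB
  refine ⟨B, fun hout => ?_⟩
  have hB0 := hB 0
  unfold Out at hB0 hout
  push Not at hB0
  obtain ⟨hA, hB1, hC, hD, hE⟩ := hB0
  have hE' : ¬ OutE e D (D.length + 1) [] B := by
    rintro ⟨j, b, h3, _⟩
    simp at h3
  have hD' : ¬ OutD e D (D.length + 1) z B := by
    rw [outD_iff]
    intro i hi j
    rcases Nat.lt_succ_iff_lt_or_eq.1 hi with h3 | rfl
    · exact outD_iff.1 hD i h3 j
    · have h4 := hB (j + 1)
      unfold Out at h4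
      rw [res_succ', outE_append] at h4
      push Not at h4
      have h5 := h4.2.2.2.2.2
      rw [List.take_length]
      simp only [col] at h5 ⊢
      revert h5
      cases z (Nat.pair D.length j) <;>
        cases B (Nat.pair D.length (pos e D (res (fun u => z (Nat.pair D.length u)) j))) <;> simp
  tauto

/-- The relation behind the choice of the `v`. -/
def R1 (e : Code) (w' : ℕ) (v : Bool) (X : ℕ → Bool) : Prop :=
  ∃ p : List Rc × ℕ, decode (α := List Rc × ℕ) w' = some p ∧
    ∀ B, Out e p.1 (p.1.length + 1) [] X B ∨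
      Fst (Denumerable.ofNat Code p.1.length) p.2 v B

/-- The relation behind the choice of the new value. -/
def R2 (e : Code) (w' : ℕ) (b : Bool) (X : ℕ → Bool) : Prop :=
  ∃ p : List Rc × ℕ × Bool, decode (α := List Rc × ℕ × Bool) w' = some p ∧
    ∀ B, Out e p.1 (p.1.length + 1) [] X B ∨
      Fst (Denumerable.ofNat Code p.1.length) p.2.1 p.2.2 B ∨ B p.1.length = !b

theorem SR_R1 (e : Code) : SR (fun (p : ℕ × Bool) X => R1 e p.1 p.2 X) := by
  unfold R1
  refine PC.Sig.ex (R := fun (q : ℕ × Bool) (p : List Rc × ℕ) X =>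
    decode (α := List Rc × ℕ) q.1 = some p ∧
    ∀ B, Out e p.1 (p.1.length + 1) [] X B ∨
      Fst (Denumerable.ofNat Code p.1.length) p.2 q.2 B) ?_
  refine PC.Sig.and (PC.Sig.ofS (RE.eq (by fun_prop) (by fun_prop))) ?_
  refine SR.allY (R := fun (q : (ℕ × Bool) × (List Rc × ℕ)) X B =>
    Out e q.2.1 (q.2.1.length + 1) [] X B ∨
      Fst (Denumerable.ofNat Code q.2.1.length) q.2.2 q.1.2 B) ?_
  refine PC.Sig.or ?_ ?_
  · exact PC.Sig.comp (f := fun q : (ℕ × Bool) × (List Rc × ℕ) =>
      (e, q.2.1, q.2.1.length + 1, ([] : List Bool))) SR_out (by fun_prop)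
  · refine PC.Sig.comp (f := fun q : (ℕ × Bool) × (List Rc × ℕ) =>
      (Denumerable.ofNat Code q.2.1.length, q.2.2, q.1.2)) SR_fst.odd ?_
    exact Primrec.pair (primrec_ofNatCode.comp (by fun_prop)) (by fun_prop)

theorem SR_R2 (e : Code) : SR (fun (p : ℕ × Bool) X => R2 e p.1 p.2 X) := by
  unfold R2
  refine PC.Sig.ex (R := fun (q : ℕ × Bool) (p : List Rc × ℕ × Bool) X =>
    decode (α := List Rc × ℕ × Bool) q.1 = some p ∧
    ∀ B, Out e p.1 (p.1.length + 1) [] X B ∨
      Fst (Denumerable.ofNat Code p.1.length) p.2.1 p.2.2 B ∨ B p.1.length = !q.2) ?_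
  refine PC.Sig.and (PC.Sig.ofS (RE.eq (by fun_prop) (by fun_prop))) ?_
  refine SR.allY (R := fun (q : (ℕ × Bool) × (List Rc × ℕ × Bool)) X B =>
    Out e q.2.1 (q.2.1.length + 1) [] X B ∨
      Fst (Denumerable.ofNat Code q.2.1.length) q.2.2.1 q.2.2.2 B ∨ B q.2.1.length = !q.1.2) ?_
  refine PC.Sig.or ?_ (PC.Sig.or ?_ ?_)
  · exact PC.Sig.comp (f := fun q : (ℕ × Bool) × (List Rc × ℕ × Bool) =>
      (e, q.2.1, q.2.1.length + 1, ([] : List Bool))) SR_out (by fun_prop)
  · refine PC.Sig.comp (f := fun q : (ℕ × Bool) × (List Rc × ℕ × Bool) =>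
      (Denumerable.ofNat Code q.2.1.length, q.2.2.1, q.2.2.2)) SR_fst.odd ?_
    exact Primrec.pair (primrec_ofNatCode.comp (by fun_prop)) (by fun_prop)
  · exact SR_od (by fun_prop) (by fun_prop)

/-- Every choice of `x` leaves a member for the value chosen by the separating function. -/
theorem choice_one {e c1 : Code} (h1 : ∀ w j X, R1 e w j X ↔ ∃ s, Hit s c1 w j X)
    {D : List Rc} {z V : ℕ → Bool} (hV : Sep V (low (D.length + 1) z))
    (h : NE e D (D.length + 1) [] z) (x : ℕ) :
    ∃ B, ¬ Out e D (D.length + 1) [] z B ∧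
      ¬ Fst (Denumerable.ofNat Code D.length) x (V (encode (c1, encode (D, x)))) B := by
  by_contra hcon
  push Not at hcon
  have h2 : R1 e (encode (D, x)) (V (encode (c1, encode (D, x)))) (low (D.length + 1) z) :=
    ⟨(D, x), by simp, fun B => by
      simp only
      rw [out_low le_rfl]
      by_cases hB : Out e D (D.length + 1) [] z B
      · exact Or.inl hB
      · exact Or.inr (hcon B hB)⟩
  obtain ⟨p, hp, h3⟩ := (h1 _ _ _).2 (hV.choose c1 (encode (D, x)) ((h1 _ _ _).1 h2))
  have hp' : p = (D, x) := by simpa using hp.symm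
  subst hp'
  obtain ⟨B, hB⟩ := h
  rcases h3 B with h4 | h4
  · simp only at h4
    rw [out_low le_rfl] at h4
    exact hB h4
  · exact (hcon B hB).excl h4

theorem choice_two {e c2 : Code} (h2 : ∀ w j X, R2 e w j X ↔ ∃ s, Hit s c2 w j X)
    {D : List Rc} {z V : ℕ → Bool} (hV : Sep V (low (D.length + 1) z)) {x : ℕ} {a : Bool}
    (h : ∃ B, ¬ Out e D (D.length + 1) [] z B ∧
      ¬ Fst (Denumerable.ofNat Code D.length) x a B) :
    NE e (D ++ [(x, a, V (encode (c2, encode (D, x, a))))]) (D.length + 1) [] z := by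
  have key : ∃ B, ¬ Out e D (D.length + 1) [] z B ∧
      ¬ Fst (Denumerable.ofNat Code D.length) x a B ∧
      B D.length = V (encode (c2, encode (D, x, a))) := by
    by_contra hcon
    push Not at hcon
    have h3 : R2 e (encode (D, x, a)) (V (encode (c2, encode (D, x, a))))
        (low (D.length + 1) z) :=
      ⟨(D, x, a), by simp, fun B => by
        simp only
        rw [out_low le_rfl]
        have h4 := hcon B
        by_cases hB : Out e D (D.length + 1) [] z B
        · exact Or.inl hB
        · by_cases hF : Fst (Denumerable.ofNat Code D.length) x a B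
          · exact Or.inr (Or.inl hF)
          · refine Or.inr (Or.inr ?_)
            have h5 := h4 hB hF
            revert h5
            cases B D.length <;> cases V (encode (c2, encode (D, x, a))) <;> simp⟩
    obtain ⟨p, hp, h4⟩ := (h2 _ _ _).2 (hV.choose c2 (encode (D, x, a)) ((h2 _ _ _).1 h3))
    have hp' : p = (D, x, a) := by simpa using hp.symm
    subst hp'
    obtain ⟨B, hB, hF⟩ := h
    rcases h4 B with h5 | h5 | h5
    · simp only at h5
      rw [out_low le_rfl] at h5
      exact hB h5
    · exact hF h5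
    · rw [Bool.not_not] at h5
      exact hcon B hB hF h5
  obtain ⟨B, hB, hF, hv⟩ := key
  refine ⟨B, ?_⟩
  unfold Out at hB ⊢
  push Not at hB ⊢
  obtain ⟨hA, hB1, hC, hD, hE⟩ := hB
  have hget : ∀ {i : ℕ} {r : Rc}, (D ++ [(x, a, V (encode (c2, encode (D, x, a))))])[i]? = some r →
      D[i]? = some r ∨ (i = D.length ∧ r = (x, a, V (encode (c2, encode (D, x, a))))) := by
    intro i r hi
    rcases lt_trichotomy i D.length with h6 | h6 | h6
    · left
      rwa [List.getElem?_append_left h6] at hi
    · right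
      subst h6
      simp only [List.getElem?_append_right le_rfl, Nat.sub_self, List.getElem?_cons_zero,
        Option.some.injEq] at hi
      exact ⟨rfl, hi.symm⟩
    · rw [List.getElem?_eq_none (by simp; omega)] at hi
      cases hi
  refine ⟨hA, ?_, ?_, ?_, ?_⟩
  · rintro ⟨i, r, hi, h6⟩
    rcases hget hi with h7 | ⟨rfl, rfl⟩
    · exact hB1 ⟨i, r, h7, h6⟩
    · exact hF h6
  · rintro ⟨i, r, hi, h6⟩
    rcases hget hi with h7 | ⟨rfl, rfl⟩
    · exact hC ⟨i, r, h7, h6⟩
    · rw [hv] at h6
      simp at h6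
  · rw [outD_iff] at hD ⊢
    intro i hi j
    rw [List.take_append_of_le_length (by omega)]
    exact hD i hi j
  · rintro ⟨j, b, h6, _⟩
    simp at h6

end Pool.Agent.MU
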