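import Pool.Agent.MU.Coding

/-! # Definable choice and representability of primitive recursive functions -/

set_option autoImplicit false

namespace Pool.Agent.MU

section

variable {M : Type} [Mdl M]

/-- definable choice (least witness) -/
theorem exists_choice {α : Type} [Cx M α] {R : α → M → Prop}
    (hR : Dfn M (fun p : α × M => R p.1 p.2)) :
    ∃ F : α → M, DM M F ∧ ∀ a, (∃ x, R a x) → R a (F a) := by
  classical
  have hRa : ∀ a, Dfn M (R a) := fun a =>
    Dfn.comp (P := fun p : α × M => R p.1 p.2) (f := fun x : M => (a, x)) hR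
      (DM.pair (DM.const a) DM.id)
  let F : α → M := fun a => if h : ∃ x, R a x then (least (hRa a) h).choose else 0
  have hF : ∀ a, (∃ x, R a x) → R a (F a) ∧ ∀ y < F a, ¬ R a y := by
    intro a h
    have : F a = (least (hRa a) h).choose := dif_pos h
    rw [this]
    exact (least (hRa a) h).choose_spec
  refine ⟨F, ?_, fun a h => (hF a h).1⟩
  have h2 : DM M (fun q : (α × M) × M => q.2) := DM.snd DM.id
  have h12 : DM M (fun q : (α × M) × M => q.1.2) := DM.snd (DM.fst DM.id)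
  have h11 : DM M (fun q : (α × M) × M => q.1.1) := DM.fst (DM.fst DM.id)
  have key : Dfn M (fun p : α × M => (R p.1 p.2 ∧ ∀ y, y < p.2 → ¬ R p.1 y) ∨
      ((¬ ∃ x, R p.1 x) ∧ p.2 = 0)) := by
    refine Dfn.or (Dfn.and hR ?_) (Dfn.and (Dfn.not ?_) (Dfn.eq (DM.snd DM.id) (DM.const 0)))
    · refine Dfn.all (R := fun (p : α × M) (y : M) => y < p.2 → ¬ R p.1 y) ?_
      refine Dfn.imp (Dfn.lt h2 h12) (Dfn.not ?_)
      exact Dfn.comp (P := fun p : α × M => R p.1 p.2)
        (f := fun q : (α × M) × M => (q.1.1, q.2)) hR (DM.pair h11 h2)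
    · refine Dfn.ex (R := fun (p : α × M) (y : M) => R p.1 y) ?_
      exact Dfn.comp (P := fun p : α × M => R p.1 p.2)
        (f := fun q : (α × M) × M => (q.1.1, q.2)) hR (DM.pair h11 h2)
  refine DM.iff_graph.2 (Dfn.of_iff key ?_)
  rintro ⟨a, v⟩
  simp only
  by_cases h : ∃ x, R a x
  · obtain ⟨h1, h2⟩ := hF a h
    constructor
    · rintro rfl
      exact Or.inl ⟨h1, h2⟩
    · rintro (⟨h3, h4⟩ | ⟨h3, -⟩)
      · rcases lt_trichotomy (F a) v with h5 | h5 | h5
        · exact absurd h1 (h4 _ h5)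
        · exact h5
        · exact absurd h3 (h2 _ h5)
      · exact absurd h h3
  · have : F a = 0 := dif_neg h
    rw [this]
    constructor
    · rintro rfl
      exact Or.inr ⟨h, rfl⟩
    · rintro (⟨h3, -⟩ | ⟨-, h3⟩)
      · exact absurd ⟨v, h3⟩ h
      · exact h3.symm

/-- finite sets of numerals are definable -/
theorem dfn_list (L : List M) : Dfn M (fun x : M => x ∈ L) := by
  induction L with
  | nil =>
    refine Dfn.of_iff (Dfn.const False) fun a => ?_
    simp
  | cons c L ih =>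
    refine Dfn.of_iff (Dfn.or (Dfn.eq DM.id (DM.const c)) ih) fun a => ?_
    simp

/-- a finite set is coded -/
theorem exists_code_list (L : List M) (N : M) (hN : ∀ x ∈ L, x < N) :
    ∃ s : M × M × M, ∀ i, Mem s i ↔ i ∈ L := by
  obtain ⟨s, hs⟩ := exists_Mem N (dfn_list L)
  refine ⟨s, fun i => (hs i).trans ?_⟩
  exact ⟨fun h => h.2, fun h => ⟨hN i h, h⟩⟩

theorem exists_bound (L : List M) : ∃ N : M, ∀ x ∈ L, x < N := by
  induction L with
  | nil => exact ⟨0, fun x hx => absurd hx (List.not_mem_nil)⟩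
  | cons c L ih =>
    obtain ⟨N, hN⟩ := ih
    refine ⟨N + c + 1, fun x hx => ?_⟩
    have h1 : N + c < N + c + 1 := (Mdl.lt_iff _ _).2 le_rfl
    rcases List.mem_cons.1 hx with rfl | hx
    · exact lt_of_le_of_lt le_add_self h1
    · exact lt_trans (lt_of_lt_of_le (hN x hx) le_self_add) h1

/-- `s` codes a computation of the recursion given by `F`, `G` with parameter `z` for the
arguments `≤ n`, with value `v` at `n`. -/
def Rcd (F G : M → M) (s : M × M × M) (z n v : M) : Prop :=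
  Mem s (pr 0 (F z)) ∧ (∀ y < n, ∀ u, Mem s (pr y u) → Mem s (pr (y + 1) (G (pr z (pr y u))))) ∧
    (∀ y, ∀ u, Mem s (pr y u) → ∀ u', Mem s (pr y u') → u = u') ∧ Mem s (pr n v)

theorem dfn_Rcd {α : Type} [Cx M α] {F G : M → M} (hF : DM M F) (hG : DM M G)
    {s : α → M × M × M} {z n v : α → M} (hs : DM M s) (hz : DM M z) (hn : DM M n)
    (hv : DM M v) : Dfn M (fun a => Rcd F G (s a) (z a) (n a) (v a)) := by
  refine Dfn.and ?_ (Dfn.and ?_ (Dfn.and ?_ ?_))
  · exact Dfn_Mem hs (DM_pr (DM.const 0) (DM.comp hF hz))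
  · refine Dfn.all (R := fun (a : α) (y : M) => y < n a → ∀ u, Mem (s a) (pr y u) →
      Mem (s a) (pr (y + 1) (G (pr (z a) (pr y u))))) ?_
    refine Dfn.imp (Dfn.lt (DM.snd DM.id) (DM.comp hn (DM.fst DM.id))) ?_
    refine Dfn.all (R := fun (p : α × M) (u : M) => Mem (s p.1) (pr p.2 u) →
      Mem (s p.1) (pr (p.2 + 1) (G (pr (z p.1) (pr p.2 u))))) ?_
    have h11 : DM M (fun q : (α × M) × M => q.1.1) := DM.fst (DM.fst DM.id)
    have h12 : DM M (fun q : (α × M) × M => q.1.2) := DM.snd (DM.fst DM.id)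
    have h2 : DM M (fun q : (α × M) × M => q.2) := DM.snd DM.id
    refine Dfn.imp (Dfn_Mem (DM.comp hs h11) (DM_pr h12 h2)) ?_
    exact Dfn_Mem (DM.comp hs h11) (DM_pr (DM.add h12 (DM.const 1))
      (DM.comp hG (DM_pr (DM.comp hz h11) (DM_pr h12 h2))))
  · refine Dfn.all (R := fun (a : α) (y : M) => ∀ u, Mem (s a) (pr y u) →
      ∀ u', Mem (s a) (pr y u') → u = u') ?_
    refine Dfn.all (R := fun (p : α × M) (u : M) => Mem (s p.1) (pr p.2 u) →
      ∀ u', Mem (s p.1) (pr p.2 u') → u = u') ?_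
    have h11 : DM M (fun q : (α × M) × M => q.1.1) := DM.fst (DM.fst DM.id)
    have h12 : DM M (fun q : (α × M) × M => q.1.2) := DM.snd (DM.fst DM.id)
    have h2 : DM M (fun q : (α × M) × M => q.2) := DM.snd DM.id
    refine Dfn.imp (Dfn_Mem (DM.comp hs h11) (DM_pr h12 h2)) ?_
    refine Dfn.all (R := fun (p : (α × M) × M) (u' : M) => Mem (s p.1.1) (pr p.1.2 u') →
      p.2 = u') ?_
    have k1 : DM M (fun q : ((α × M) × M) × M => q.1) := DM.fst DM.id
    have k11 := DM.fst k1
    exact Dfn.imp (Dfn_Mem (DM.comp hs (DM.fst k11)) (DM_pr (DM.snd k11) (DM.snd DM.id)))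
      (Dfn.eq (DM.snd k1) (DM.snd DM.id))
  · exact Dfn_Mem hs (DM_pr hn hv)

theorem exists_repr (f : ℕ → ℕ) (hf : Nat.Primrec f) :
    ∃ F : M → M, DM M F ∧ ∀ n : ℕ, F (n : M) = (f n : M) := by
  induction hf with
  | zero => exact ⟨fun _ => 0, DM.const 0, fun n => by simp⟩
  | succ => exact ⟨fun x => x + 1, DM.add DM.id (DM.const 1), fun n => by simp⟩
  | left => exact ⟨ft, DM_ft DM.id, ft_cast⟩
  | right => exact ⟨sd, DM_sd DM.id, sd_cast⟩
  | @pair f g _ _ ihf ihg =>
    obtain ⟨F, hF, hF'⟩ := ihf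
    obtain ⟨G, hG, hG'⟩ := ihg
    refine ⟨fun x => pr (F x) (G x), DM_pr hF hG, fun n => ?_⟩
    change pr (F n) (G n) = _
    rw [hF', hG', pr_cast]
  | @comp f g _ _ ihf ihg =>
    obtain ⟨F, hF, hF'⟩ := ihf
    obtain ⟨G, hG, hG'⟩ := ihg
    refine ⟨fun x => F (G x), DM.comp hF hG, fun n => ?_⟩
    change F (G n) = _
    rw [hG', hF']
  | @prec f g _ _ ihf ihg =>
    obtain ⟨F, hF, hF'⟩ := ihf
    obtain ⟨G, hG, hG'⟩ := ihg
    let R : M → M → Prop := fun x v => ∃ N e d : M, Rcd F G (N, e, d) (ft x) (sd x) v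
    have hR : Dfn M (fun p : M × M => R p.1 p.2) := by
      refine Dfn.ex (R := fun (p : M × M) (N : M) =>
        ∃ e d, Rcd F G (N, e, d) (ft p.1) (sd p.1) p.2) ?_
      refine Dfn.ex (R := fun (p : (M × M) × M) (e : M) =>
        ∃ d, Rcd F G (p.2, e, d) (ft p.1.1) (sd p.1.1) p.1.2) ?_
      refine Dfn.ex (R := fun (p : ((M × M) × M) × M) (d : M) =>
        Rcd F G (p.1.2, p.2, d) (ft p.1.1.1) (sd p.1.1.1) p.1.1.2) ?_
      have h1 : DM M (fun q : (((M × M) × M) × M) × M => q.1) := DM.fst DM.id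
      have h11 := DM.fst h1
      have h111 := DM.fst h11
      exact dfn_Rcd hF hG (DM.pair (DM.snd h11) (DM.pair (DM.snd h1) (DM.snd DM.id)))
        (DM_ft (DM.fst h111)) (DM_sd (DM.fst h111)) (DM.snd h111)
    obtain ⟨H, hH, hH'⟩ := exists_choice hR
    refine ⟨H, hH, fun x => ?_⟩
    set z : ℕ := x.unpair.1 with hz
    set n : ℕ := x.unpair.2 with hn
    obtain ⟨val, hv0, hvs, hvn⟩ : ∃ val : ℕ → ℕ, val 0 = f z ∧
        (∀ y, val (y + 1) = g (Nat.pair z (Nat.pair y (val y)))) ∧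
        Nat.unpaired (fun z n => Nat.rec (f z)
          (fun y IH => g (Nat.pair z (Nat.pair y IH))) n) x = val n :=
      ⟨fun y => Nat.rec (f z) (fun y IH => g (Nat.pair z (Nat.pair y IH))) y, rfl,
        fun _ => rfl, rfl⟩
    rw [hvn]
    have h1 : ∀ v, R (x : M) v → v = (val n : M) := by
      rintro v ⟨N, e, d, h1, h2, h3, h4⟩
      rw [ft_cast, ← hz] at h1 h2
      rw [sd_cast, ← hn] at h2 h4
      have h5 : ∀ y ≤ n, Mem (N, e, d) (pr (y : M) (val y : M)) := by
        intro y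
        induction y with
        | zero =>
          intro _
          rw [hF', ← hv0] at h1
          simpa using h1
        | succ y ih =>
          intro hy
          have h6 := h2 (y : M) (by exact_mod_cast hy) _ (ih (by omega))
          rw [pr_cast, pr_cast, hG'] at h6
          have h7 : ((y + 1 : ℕ) : M) = (y : M) + 1 := by push_cast; rfl
          rw [h7, hvs]
          exact h6
      exact h3 _ _ h4 _ (h5 n le_rfl)
    have h2 : R (x : M) (val n : M) := by
      let L : List M := List.map (fun y : ℕ => pr (y : M) (val y : M)) (List.range (n + 1))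
      obtain ⟨N, hN⟩ := exists_bound L
      obtain ⟨⟨N', e, d⟩, hs⟩ := exists_code_list L N hN
      have hL : ∀ y u, pr y u ∈ L ↔ ∃ m ≤ n, y = (m : M) ∧ u = (val m : M) := by
        intro y u
        simp only [L, List.mem_map, List.mem_range]
        constructor
        · rintro ⟨m, hm, h⟩
          obtain ⟨h3, h4⟩ := pr_inj.1 h
          exact ⟨m, by omega, h3.symm, h4.symm⟩
        · rintro ⟨m, hm, rfl, rfl⟩
          exact ⟨m, by omega, rfl⟩
      refine ⟨N', e, d, ?_, ?_, ?_, ?_⟩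
      · rw [hs, ft_cast, ← hz, hF', hL]
        exact ⟨0, by omega, by simp, by rw [hv0]⟩
      · intro y hy u hu
        rw [hs, hL] at hu
        obtain ⟨m, hm, rfl, rfl⟩ := hu
        rw [sd_cast, ← hn] at hy
        rw [hs, hL, ft_cast, ← hz, pr_cast, pr_cast, hG']
        have h7 : m < n := by exact_mod_cast hy
        exact ⟨m + 1, by omega, by push_cast; rfl, by rw [hvs]⟩
      · intro y u hu u' hu'
        rw [hs, hL] at hu hu'
        obtain ⟨m, hm, rfl, rfl⟩ := hu
        obtain ⟨m', hm', h3, rfl⟩ := hu'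
        rw [cast_inj.1 h3]
      · rw [hs, hL, sd_cast, ← hn]
        exact ⟨n, le_rfl, rfl, rfl⟩
    exact h1 _ (hH' _ ⟨_, h2⟩)

end

end Pool.Agent.MU
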