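import Pool.Agent.MU.SepSet

/-! # The sequence of sets computed by a nonstandard model -/

set_option autoImplicit false

namespace Pool.Agent.MU

open Encodable
open Nat.Partrec (Code)
open Pool.Agent.Helper70 (PC)
open Pool.Agent.Helper70.OD

namespace Run

/-- graph of an iteration -/
theorem S_iterate {Γ : PC} {β : Type} [Primcodable β] {t : β → β}
    (ht : Γ.S (fun p : β × β => t p.1 = p.2)) (b0 : β) :
    Γ.S (fun p : ℕ × β => t^[p.1] b0 = p.2) := by
  have h1 : Γ.S (fun p : ℕ × β => ∃ L : List β, (L[0]? = some b0 ∧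
      (∀ i < p.1, ∃ a b, (L[i]? = some a ∧ L[i + 1]? = some b) ∧ t a = b)) ∧
      L[p.1]? = some p.2) := by
    refine PC.ex' (R := fun (p : ℕ × β) (L : List β) => (L[0]? = some b0 ∧
      (∀ i < p.1, ∃ a b, (L[i]? = some a ∧ L[i + 1]? = some b) ∧ t a = b)) ∧
      L[p.1]? = some p.2) ?_
    refine Γ.and (Γ.and (Γ.prim ?_) ?_) (Γ.prim ?_)
    · exact Primrec.eq.comp (Primrec.list_getElem?.comp Primrec.snd (Primrec.const 0))
        (Primrec.const _)
    · refine PC.ball' (R := fun (q : (ℕ × β) × List β) i => ∃ a b,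
        (q.2[i]? = some a ∧ q.2[i + 1]? = some b) ∧ t a = b) (f := fun q => q.1.1)
        (Primrec.fst.comp Primrec.fst) ?_
      refine PC.ex' (R := fun (q : ((ℕ × β) × List β) × ℕ) (a : β) => ∃ b,
        (q.1.2[q.2]? = some a ∧ q.1.2[q.2 + 1]? = some b) ∧ t a = b) ?_
      refine PC.ex' (R := fun (q : (((ℕ × β) × List β) × ℕ) × β) (b : β) =>
        (q.1.1.2[q.1.2]? = some q.2 ∧ q.1.1.2[q.1.2 + 1]? = some b) ∧ t q.2 = b) ?_
      refine Γ.and (Γ.prim (PrimrecPred.and ?_ ?_)) ?_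
      · exact Primrec.eq.comp (Primrec.list_getElem?.comp
          (Primrec.snd.comp (Primrec.fst.comp (Primrec.fst.comp Primrec.fst)))
          (Primrec.snd.comp (Primrec.fst.comp Primrec.fst)))
          (Primrec.option_some.comp (Primrec.snd.comp Primrec.fst))
      · exact Primrec.eq.comp (Primrec.list_getElem?.comp
          (Primrec.snd.comp (Primrec.fst.comp (Primrec.fst.comp Primrec.fst)))
          (Primrec.succ.comp (Primrec.snd.comp (Primrec.fst.comp Primrec.fst))))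
          (Primrec.option_some.comp Primrec.snd)
      · exact Γ.comp (f := fun q : ((((ℕ × β) × List β) × ℕ) × β) × β => (q.1.2, q.2)) ht
          ((Primrec.snd.comp Primrec.fst).pair Primrec.snd)
    · exact Primrec.eq.comp (Primrec.list_getElem?.comp Primrec.snd
        (Primrec.fst.comp Primrec.fst)) (Primrec.option_some.comp (Primrec.snd.comp Primrec.fst))
  refine PC.of_eq h1 fun p => ?_
  obtain ⟨n, b⟩ := p
  simp only
  constructor
  · rintro rfl
    refine ⟨(List.range (n + 1)).map (fun i => t^[i] b0), ⟨by simp, fun i hi =>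
      ⟨t^[i] b0, t^[i + 1] b0, ⟨?_, ?_⟩, ?_⟩⟩, ?_⟩
    · rw [List.getElem?_map, List.getElem?_range (by omega)]; rfl
    · rw [List.getElem?_map, List.getElem?_range (by omega)]; rfl
    · rw [Function.iterate_succ_apply']
    · rw [List.getElem?_map, List.getElem?_range (by omega)]; rfl
  · rintro ⟨L, ⟨h0, h1⟩, h2⟩
    have key : ∀ i, i ≤ n → L[i]? = some (t^[i] b0) := by
      intro i
      induction i with
      | zero => intro _; exact h0
      | succ i ih =>
        intro hi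
        obtain ⟨a, b', ⟨h3, h4⟩, h5⟩ := h1 i (by omega)
        rw [ih (by omega)] at h3
        cases h3
        rw [h4, ← h5, Function.iterate_succ_apply']
    have := key n le_rfl
    rw [h2] at this
    exact (Option.some.inj this).symm


/-- `nu` is a presentation of `M` whose diagram is in the class. -/
structure Pres {M : Type} [Mdl M] (Γ : PC) (nu : ℕ ≃ M) : Prop where
  h0 : Γ.S (fun a : ℕ => nu a = 0)
  h1 : Γ.S (fun p : ℕ × ℕ => nu p.1 + 1 = nu p.2)
  hadd : Γ.S (fun p : (ℕ × ℕ) × ℕ => nu p.1.1 + nu p.1.2 = nu p.2)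
  hmul : Γ.S (fun p : (ℕ × ℕ) × ℕ => nu p.1.1 * nu p.1.2 = nu p.2)
  hlt : Γ.S (fun p : ℕ × ℕ => nu p.1 < nu p.2)

/-- functions into `M` with graph in the class -/
def GF {M : Type} (Γ : PC) (nu : ℕ ≃ M) {α : Type} [Primcodable α] (f : α → M) : Prop :=
  Γ.S (fun p : α × ℕ => f p.1 = nu p.2)

section

variable {M : Type} {Γ : PC} {nu : ℕ ≃ M}
variable {α β : Type} [Primcodable α] [Primcodable β]

theorem GF.of_graph {g : α → ℕ} (hg : Γ.S (fun p : α × ℕ => g p.1 = p.2)) :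
    GF Γ nu (fun a => nu (g a)) := by
  refine PC.of_eq hg fun p => ?_
  exact nu.injective.eq_iff

theorem GF.graph {f : α → M} (hf : GF Γ nu f) :
    Γ.S (fun p : α × ℕ => nu.symm (f p.1) = p.2) := by
  refine PC.of_eq hf fun p => ?_
  exact nu.symm_apply_eq

theorem GF.idx {g : α → ℕ} (hg : Primrec g) : GF Γ nu (fun a => nu (g a)) :=
  GF.of_graph (Γ.prim (Primrec.eq.comp (hg.comp Primrec.fst) Primrec.snd))

theorem GF.const (c : M) : GF Γ nu (fun _ : α => c) := by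
  have := GF.idx (Γ := Γ) (nu := nu) (Primrec.const (α := α) (nu.symm c))
  simpa using this

theorem GF.comp {f : β → M} {g : α → β} (hf : GF Γ nu f) (hg : Primrec g) :
    GF Γ nu (fun a => f (g a)) :=
  Γ.comp (f := fun p : α × ℕ => (g p.1, p.2)) hf ((hg.comp Primrec.fst).pair Primrec.snd)

theorem GF.of_eq {f g : α → M} (hf : GF Γ nu f) (h : ∀ a, g a = f a) : GF Γ nu g := by
  have : g = f := funext h
  rw [this]; exact hf

/-- substitution of one function -/
theorem S_sub {R : α → ℕ → Prop} {f : α → M} (hR : Γ.S (fun p : α × ℕ => R p.1 p.2))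
    (hf : GF Γ nu f) : Γ.S (fun a => R a (nu.symm (f a))) := by
  have h1 : Γ.S (fun a => ∃ x : ℕ, f a = nu x ∧ R a x) := PC.ex' (Γ.and hf hR)
  refine PC.of_eq h1 fun a => ?_
  constructor
  · intro h
    exact ⟨_, by simp, h⟩
  · rintro ⟨x, h2, h3⟩
    rw [h2]; simpa using h3

/-- substitution of two functions -/
theorem S_sub2 {R : ℕ → ℕ → Prop} {f g : α → M} (hR : Γ.S (fun p : ℕ × ℕ => R p.1 p.2))
    (hf : GF Γ nu f) (hg : GF Γ nu g) :
    Γ.S (fun a => R (nu.symm (f a)) (nu.symm (g a))) := by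
  refine S_sub (R := fun a y => R (nu.symm (f a)) y) ?_ hg
  refine S_sub (α := α × ℕ) (R := fun q x => R x q.2) (f := fun q => f q.1) ?_
    (hf.comp Primrec.fst)
  exact Γ.comp (f := fun q : (α × ℕ) × ℕ => (q.2, q.1.2)) hR (by fun_prop)

theorem S_eq {f g : α → M} (hf : GF Γ nu f) (hg : GF Γ nu g) : Γ.S (fun a => f a = g a) := by
  refine PC.of_eq (S_sub2 (R := fun x y => x = y) (Γ.prim (Primrec.eq.comp Primrec.fst
    Primrec.snd)) hf hg) fun a => ?_
  simp

theorem S_ex {R : α → M → Prop} (h : Γ.S (fun p : α × ℕ => R p.1 (nu p.2))) :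
    Γ.S (fun a => ∃ x : M, R a x) := by
  refine PC.of_eq (PC.ex' (R := fun (a : α) (n : ℕ) => R a (nu n)) h) fun a => ?_
  exact nu.surjective.exists

end

section

variable {M : Type} [Mdl M] {Γ : PC} {nu : ℕ ≃ M}
variable {α β : Type} [Primcodable α] [Primcodable β]

theorem S_lt (H : Pres Γ nu) {f g : α → M} (hf : GF Γ nu f) (hg : GF Γ nu g) :
    Γ.S (fun a => f a < g a) := by
  refine PC.of_eq (S_sub2 (R := fun x y => nu x < nu y) H.hlt hf hg) fun a => ?_
  simp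

theorem S_le (H : Pres Γ nu) {f g : α → M} (hf : GF Γ nu f) (hg : GF Γ nu g) :
    Γ.S (fun a => f a ≤ g a) := by
  refine PC.of_eq (Γ.or (S_lt H hf hg) (S_eq hf hg)) fun a => ?_
  exact le_iff_lt_or_eq

theorem GF_add (H : Pres Γ nu) {f g : α → M} (hf : GF Γ nu f) (hg : GF Γ nu g) :
    GF Γ nu (fun a => f a + g a) := by
  unfold GF
  refine PC.of_eq (S_sub (nu := nu) (α := α × ℕ) (R := fun q x => nu x + g q.1 = nu q.2)
    (f := fun q => f q.1) ?_ (hf.comp Primrec.fst)) fun p => by simp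
  refine PC.of_eq (S_sub (nu := nu) (α := (α × ℕ) × ℕ) (R := fun q y => nu q.2 + nu y = nu q.1.2)
    (f := fun q => g q.1.1) ?_ (hg.comp (by fun_prop))) fun p => by simp
  exact Γ.comp (f := fun q : ((α × ℕ) × ℕ) × ℕ => ((q.1.2, q.2), q.1.1.2)) H.hadd (by fun_prop)

theorem GF_mul (H : Pres Γ nu) {f g : α → M} (hf : GF Γ nu f) (hg : GF Γ nu g) :
    GF Γ nu (fun a => f a * g a) := by
  unfold GF
  refine PC.of_eq (S_sub (nu := nu) (α := α × ℕ) (R := fun q x => nu x * g q.1 = nu q.2)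
    (f := fun q => f q.1) ?_ (hf.comp Primrec.fst)) fun p => by simp
  refine PC.of_eq (S_sub (nu := nu) (α := (α × ℕ) × ℕ) (R := fun q y => nu q.2 * nu y = nu q.1.2)
    (f := fun q => g q.1.1) ?_ (hg.comp (by fun_prop))) fun p => by simp
  exact Γ.comp (f := fun q : ((α × ℕ) × ℕ) × ℕ => ((q.1.2, q.2), q.1.1.2)) H.hmul (by fun_prop)

theorem GF_ite (_ : Pres Γ nu) {P : α → Prop} [DecidablePred P] {f g : α → M}
    (hP : Γ.S P) (hP' : Γ.S (fun a => ¬ P a)) (hf : GF Γ nu f) (hg : GF Γ nu g) :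
    GF Γ nu (fun a => if P a then f a else g a) := by
  unfold GF
  refine PC.of_eq (Γ.or (Γ.and (Γ.comp hP Primrec.fst) hf)
    (Γ.and (Γ.comp hP' Primrec.fst) hg)) fun p => ?_
  obtain ⟨a, n⟩ := p
  by_cases h : P a <;> simp [h]

theorem GF_pr (H : Pres Γ nu) {f g : α → M} (hf : GF Γ nu f) (hg : GF Γ nu g) :
    GF Γ nu (fun a => pr (f a) (g a)) := by
  classical
  have h1 := GF_ite H (P := fun a => f a < g a) (S_lt H hf hg)
    (PC.of_eq (S_le H hg hf) fun a => by simp)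
    (GF_add H (GF_mul H hg hg) hf) (GF_add H (GF_add H (GF_mul H hf hf) hf) hg)
  refine h1.of_eq fun a => ?_
  unfold pr
  congr

theorem GF_natCast (H : Pres Γ nu) {g : α → ℕ} (hg : Primrec g) :
    GF Γ nu (fun a => ((g a : ℕ) : M)) := by
  have h1 := S_iterate (Γ := Γ) (t := fun x : ℕ => nu.symm (nu x + 1))
    (PC.of_eq H.h1 fun p => nu.symm_apply_eq) (nu.symm 0)
  have h2 : ∀ n : ℕ, (fun x : ℕ => nu.symm (nu x + 1))^[n] (nu.symm 0) = nu.symm (n : M) := by
    intro n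
    induction n with
    | zero => simp
    | succ n ih => rw [Function.iterate_succ_apply', ih]; simp
  have h3 : GF Γ nu (fun n : ℕ => (n : M)) := by
    refine PC.of_eq h1 fun p => ?_
    rw [h2, Equiv.symm_apply_eq]
  exact h3.comp hg

theorem S_dvd (H : Pres Γ nu) {f g : α → M} (hf : GF Γ nu f) (hg : GF Γ nu g) :
    Γ.S (fun a => f a ∣ g a) := by
  refine S_ex (nu := nu) (R := fun a x => g a = f a * x) ?_
  exact S_eq (hg.comp Primrec.fst) (GF_mul H (hf.comp Primrec.fst) (GF.idx Primrec.snd))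

theorem S_not_dvd (H : Pres Γ nu) {f g : α → M} (hf : GF Γ nu f) (hg : GF Γ nu g)
    (h0 : ∀ a, 0 < f a) : Γ.S (fun a => ¬ f a ∣ g a) := by
  have h1 : Γ.S (fun a => ∃ q : M, ∃ r : M, (0 < r ∧ r < f a) ∧ g a = f a * q + r) := by
    refine S_ex (nu := nu) (R := fun a q => ∃ r : M, (0 < r ∧ r < f a) ∧ g a = f a * q + r) ?_
    refine S_ex (nu := nu) (R := fun (p : α × ℕ) r =>
      (0 < r ∧ r < f p.1) ∧ g p.1 = f p.1 * nu p.2 + r) ?_
    refine Γ.and (Γ.and (S_lt H (GF.const 0) (GF.idx Primrec.snd))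
      (S_lt H (GF.idx Primrec.snd) (hf.comp (by fun_prop)))) (S_eq (hg.comp (by fun_prop)) ?_)
    exact GF_add H (GF_mul H (hf.comp (by fun_prop)) (GF.idx (by fun_prop))) (GF.idx Primrec.snd)
  refine PC.of_eq h1 fun a => ?_
  constructor
  · intro h
    obtain ⟨q, r, hr, hq⟩ := exists_div (g a) (f a) (h0 a)
    refine ⟨q, r, ⟨?_, hr⟩, hq⟩
    rcases (show (0 : M) ≤ r from zero_le).eq_or_lt with h2 | h2
    · exfalso
      apply h
      rw [hq, ← h2, add_zero]
      exact dvd_mul_right _ _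
    · exact h2
  · rintro ⟨q, r, ⟨h2, h3⟩, h4⟩ ⟨s, h5⟩
    rw [h4] at h5
    have h6 : q < s := by
      by_contra hc
      have h7 : f a * s ≤ f a * q := mul_le_mul_right (not_lt.1 hc) _
      have h8 : f a * q < f a * q + r := lt_add_of_pos_right _ h2
      rw [h5] at h8
      exact absurd h7 (not_le.2 h8)
    have h7 : q + 1 ≤ s := (Mdl.lt_iff _ _).1 h6
    have h8 : f a * (q + 1) ≤ f a * s := mul_le_mul_right h7 _
    have h9 : f a * q + r < f a * (q + 1) := by
      rw [mul_add, mul_one]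
      exact add_lt_add_right h3 _
    rw [h5] at h9
    exact absurd h8 (not_le.2 h9)

theorem S_mem (H : Pres Γ nu) {f g h : α → M} (hf : GF Γ nu f) (hg : GF Γ nu g)
    (hh : GF Γ nu h) : Γ.S (fun a => mem (f a) (g a) (h a)) := by
  unfold mem
  refine S_dvd H ?_ hg
  exact GF_add H (GF.const 1) (GF_mul H (GF_add H hh (GF.const 1)) hf)

theorem S_not_mem (H : Pres Γ nu) {f g h : α → M} (hf : GF Γ nu f) (hg : GF Γ nu g)
    (hh : GF Γ nu h) : Γ.S (fun a => ¬ mem (f a) (g a) (h a)) := by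
  unfold mem
  refine S_not_dvd H ?_ hg ?_
  · exact GF_add H (GF.const 1) (GF_mul H (GF_add H hh (GF.const 1)) hf)
  · intro a
    positivity

theorem dbl_lt {i j : M} (h : i < j) : 2 * i + 1 < 2 * j := by
  have h1 : i + 1 ≤ j := (Mdl.lt_iff _ _).1 h
  have h2 : 2 * (i + 1) ≤ 2 * j := mul_le_mul_right h1 _
  refine lt_of_lt_of_le ?_ h2
  rw [mul_add, mul_one]
  exact add_lt_add_right (by norm_num) _

theorem dbl_inj {i j : M} (h : 2 * i = 2 * j) : i = j := by
  rcases lt_trichotomy i j with h1 | h1 | h1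
  · have := (lt_add_one (2 * i)).trans (dbl_lt h1)
    exact absurd h this.ne
  · exact h1
  · have := (lt_add_one (2 * j)).trans (dbl_lt h1)
    exact absurd h.symm this.ne

theorem dbl_ne {i j : M} : 2 * i ≠ 2 * j + 1 := by
  intro h
  rcases lt_trichotomy i j with h1 | h1 | h1
  · have := ((lt_add_one (2 * i)).trans (dbl_lt h1)).trans (lt_add_one (2 * j))
    exact absurd h this.ne
  · rw [h1] at h
    exact absurd h (lt_add_one (2 * j)).ne
  · exact absurd h.symm (dbl_lt h1).ne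

/-- the new set -/
def stp (X : M → M → Prop) (e n a z i : M) : Prop :=
  (ft i < n ∧ mem e a i) ∨ (ft i = n ∧ ((∃ j, sd i = 2 * j ∧ mem e z j) ∨
    ∃ u, sd i = 2 * u + 1 ∧ X a u))

theorem stp_even {X : M → M → Prop} {e a z : M} {n i : ℕ} :
    stp X e n a z ((Nat.pair n (2 * i) : ℕ) : M) ↔ mem e z i := by
  unfold stp
  rw [ft_cast, sd_cast, Nat.unpair_pair]
  simp only [lt_irrefl, false_and, false_or, true_and, Nat.cast_mul, Nat.cast_ofNat]
  constructor
  · rintro (⟨j, h1, h2⟩ | ⟨j, h1, _⟩)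
    · rwa [dbl_inj h1]
    · exact absurd h1 dbl_ne
  · intro h
    exact Or.inl ⟨_, rfl, h⟩

theorem stp_odd {X : M → M → Prop} {e a z : M} {n i : ℕ} :
    stp X e n a z ((Nat.pair n (2 * i + 1) : ℕ) : M) ↔ X a i := by
  unfold stp
  rw [ft_cast, sd_cast, Nat.unpair_pair]
  simp only [lt_irrefl, false_and, false_or, true_and, Nat.cast_mul, Nat.cast_ofNat,
    Nat.cast_add, Nat.cast_one]
  constructor
  · rintro (⟨j, h1, _⟩ | ⟨j, h1, h2⟩)
    · exact absurd h1.symm dbl_ne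
    · rwa [dbl_inj (add_right_cancel h1)]
  · intro h
    exact Or.inr ⟨_, rfl, h⟩

theorem stp_lt {X : M → M → Prop} {e a z : M} {n i : ℕ} (h : i.unpair.1 < n) :
    stp X e n a z (i : M) ↔ mem e a i := by
  unfold stp
  rw [ft_cast]
  have h1 : ((i.unpair.1 : ℕ) : M) < (n : M) := Nat.cast_lt.2 h
  simp [h1, h1.ne]

theorem stp_gt {X : M → M → Prop} {e a z : M} {n i : ℕ} (h : n < i.unpair.1) :
    ¬ stp X e n a z (i : M) := by
  unfold stp
  rw [ft_cast]
  have h1 : (n : M) < ((i.unpair.1 : ℕ) : M) := Nat.cast_lt.2 h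
  rintro (⟨h2, _⟩ | ⟨h2, _⟩)
  · exact absurd h2 (not_lt.2 h1.le)
  · exact absurd h2 h1.ne'

theorem pr_lt_of_lt {a b A B : M} (ha : a < A) (hb : b < B) :
    pr a b < (A + B + 1) * (A + B + 1) := by
  refine (pr_lt_sq a b).trans_le ?_
  have : a + b + 1 ≤ A + B + 1 := by gcongr
  exact mul_le_mul' this this

attribute [local fun_prop] Dfn DM Dfn.not Dfn.and Dfn.or Dfn.imp Dfn.iff Dfn.ex Dfn.all
  Dfn.eq Dfn.lt Dfn.le DM.id DM.const DM.comp DM.fst DM.snd DM.pair DM.add DM.mul DM_pr DM_ft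
  DM_sd Dfn_mem Dfn.comp

theorem Dfn_stp {X : M → M → Prop} (hX : Dfn M (fun p : M × M => X p.1 p.2)) (e : M) :
    Dfn M (fun q : (((M × M) × M) × M) => stp X e q.1.1.1 q.1.1.2 q.1.2 q.2) := by
  unfold stp
  have h1 : Dfn M (fun q : ((((M × M) × M) × M) × M) => X q.1.1.1.2 q.2) :=
    Dfn.comp (f := fun q : ((((M × M) × M) × M) × M) => (q.1.1.1.2, q.2)) hX (by fun_prop)
  have h2 : Dfn M (fun q : (((M × M) × M) × M) => ∃ u, sd q.2 = 2 * u + 1 ∧ X q.1.1.2 u) := by
    refine Dfn.ex (R := fun (q : (((M × M) × M) × M)) u => sd q.2 = 2 * u + 1 ∧ X q.1.1.2 u) ?_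
    refine Dfn.and ?_ h1
    fun_prop
  refine Dfn.or ?_ (Dfn.and ?_ (Dfn.or ?_ h2))
  · fun_prop
  · fun_prop
  · fun_prop

/-- `b` codes the new set -/
def Stp (X : M → M → Prop) (e C k n a z b : M) : Prop :=
  b < C ∧ ∀ i, i < k → (mem e b i ↔ stp X e n a z i)

theorem Dfn_Stp {X : M → M → Prop} (hX : Dfn M (fun p : M × M => X p.1 p.2)) (e C k : M) :
    Dfn M (fun q : (((M × M) × M) × M) => Stp X e C k q.1.1.1 q.1.1.2 q.1.2 q.2) := by
  unfold Stp
  refine Dfn.and (by fun_prop) ?_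
  refine Dfn.all (R := fun (q : (((M × M) × M) × M)) i => i < k →
    (mem e q.2 i ↔ stp X e q.1.1.1 q.1.1.2 q.1.2 i)) ?_
  refine Dfn.imp (by fun_prop) (Dfn.iff (by fun_prop) ?_)
  exact Dfn.comp (f := fun q : ((((M × M) × M) × M) × M) =>
    (((q.1.1.1.1, q.1.1.1.2), q.1.1.2), q.2)) (Dfn_stp hX e) (by fun_prop)

/-- one element codes the step map on a box -/
theorem exists_step {X : M → M → Prop} (hX : Dfn M (fun p : M × M => X p.1 p.2)) {e C k : M}
    (hcode : ∀ P : M → Prop, Dfn M P → ∃ d < C, 0 < d ∧ ∀ i < k, mem e d i ↔ P i) :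
    ∃ s : M × M × M, ∀ n < k, ∀ a < C, ∀ z < C, ∃ b < C,
      (∀ i < k, mem e b i ↔ stp X e n a z i) ∧
      ∀ b', Mem s (pr (pr n a) (pr z b')) ↔ b' = b := by
  have hG := Dfn_Stp hX e C k
  have hleast : Dfn M (fun q : (((M × M) × M) × M) =>
      Stp X e C k q.1.1.1 q.1.1.2 q.1.2 q.2 ∧
      ∀ b', b' < q.2 → ¬ Stp X e C k q.1.1.1 q.1.1.2 q.1.2 b') := by
    refine Dfn.and hG ?_
    refine Dfn.all (R := fun (q : (((M × M) × M) × M)) b' => b' < q.2 →
      ¬ Stp X e C k q.1.1.1 q.1.1.2 q.1.2 b') ?_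
    refine Dfn.imp (by fun_prop) (Dfn.not ?_)
    exact Dfn.comp (f := fun q : ((((M × M) × M) × M) × M) =>
      (((q.1.1.1.1, q.1.1.1.2), q.1.1.2), q.2)) hG (by fun_prop)
  let Q : M → M → M → M → Prop := fun n a z b => Stp X e C k n a z b ∧
      ∀ b', b' < b → ¬ Stp X e C k n a z b'
  have hQ : Dfn M (fun q : (((M × M) × M) × M) => Q q.1.1.1 q.1.1.2 q.1.2 q.2) := hleast
  have hP : Dfn M (fun t : M => ∃ n a z b, t = pr (pr n a) (pr z b) ∧ Q n a z b) := by
    refine Dfn.ex (R := fun (t : M) n => ∃ a z b, t = pr (pr n a) (pr z b) ∧ Q n a z b) ?_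
    refine Dfn.ex (R := fun (t : M × M) a => ∃ z b, t.1 = pr (pr t.2 a) (pr z b) ∧
      Q t.2 a z b) ?_
    refine Dfn.ex (R := fun (t : (M × M) × M) z => ∃ b, t.1.1 = pr (pr t.1.2 t.2) (pr z b) ∧
      Q t.1.2 t.2 z b) ?_
    refine Dfn.ex (R := fun (t : ((M × M) × M) × M) b =>
      t.1.1.1 = pr (pr t.1.1.2 t.1.2) (pr t.2 b) ∧ Q t.1.1.2 t.1.2 t.2 b) ?_
    refine Dfn.and (by fun_prop) ?_
    exact Dfn.comp (f := fun t : ((((M × M) × M) × M) × M) =>
      (((t.1.1.1.2, t.1.1.2), t.1.2), t.2)) hQ (by fun_prop)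
  obtain ⟨s, hs⟩ := exists_Mem (((k + C + 1) * (k + C + 1) + (C + C + 1) * (C + C + 1) + 1) *
    ((k + C + 1) * (k + C + 1) + (C + C + 1) * (C + C + 1) + 1)) hP
  refine ⟨s, fun n hn a ha z hz => ?_⟩
  -- existence of the least code
  have h1 : Dfn M (fun i => stp X e n a z i) :=
    Dfn.comp (f := fun i : M => (((n, a), z), i)) (Dfn_stp hX e) (by fun_prop)
  obtain ⟨d, hd, _, hd2⟩ := hcode _ h1
  have h2 : Dfn M (fun b => Stp X e C k n a z b) :=
    Dfn.comp (f := fun i : M => (((n, a), z), i)) hG (by fun_prop)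
  obtain ⟨b, hb, hb'⟩ := least h2 ⟨d, hd, hd2⟩
  refine ⟨b, hb.1, hb.2, fun b' => ?_⟩
  rw [hs]
  constructor
  · rintro ⟨_, n', a', z', b'', h3, h4, h5⟩
    obtain ⟨h6, h7⟩ := pr_inj.1 h3
    obtain ⟨rfl, rfl⟩ := pr_inj.1 h6
    obtain ⟨rfl, rfl⟩ := pr_inj.1 h7
    rcases lt_trichotomy b' b with h | h | h
    · exact absurd h4 (hb' _ h)
    · exact h
    · exact absurd hb (h5 _ h)
  · rintro rfl
    exact ⟨pr_lt_of_lt (pr_lt_of_lt hn ha) (pr_lt_of_lt hz hb.1), n, a, z, b', rfl, hb, hb'⟩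

end

end Run

theorem run {M : Type} [Mdl M] (nu : ℕ ≃ M) (Γ : PC)
    (h0 : Γ.S (fun a : ℕ => nu a = 0))
    (h1 : Γ.S (fun p : ℕ × ℕ => nu p.1 + 1 = nu p.2))
    (hadd : Γ.S (fun p : (ℕ × ℕ) × ℕ => nu p.1.1 + nu p.1.2 = nu p.2))
    (hmul : Γ.S (fun p : (ℕ × ℕ) × ℕ => nu p.1.1 * nu p.1.2 = nu p.2))
    (hlt : Γ.S (fun p : ℕ × ℕ => nu p.1 < nu p.2))
    (hns : ∃ k : M, ∀ n : ℕ, (n : M) < k) :
    ∃ y : ℕ → Bool, Γ.S (fun p : ℕ × Bool => y p.1 = p.2) ∧
      (∀ n, Sep (fun u => y (Nat.pair n (2 * u + 1))) (low n y)) ∧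
      ∀ D : M → Prop, Dfn M D → ∃ n, ∀ i : ℕ, y (Nat.pair n (2 * i)) = true ↔ D (i : M) := by
  classical
  have H : Run.Pres Γ nu := ⟨h0, h1, hadd, hmul, hlt⟩
  obtain ⟨k, hk⟩ := hns
  obtain ⟨e, C, he, hC, hcode⟩ := exists_code k
  obtain ⟨X, hX, hsep⟩ := sepset e
  obtain ⟨s, hstep⟩ := Run.exists_step hX hcode
  obtain ⟨a0, ha0, _, ha0'⟩ := hcode (fun _ => False) (Dfn.const False)
  -- the step map
  let cut : M → M := fun a => if a < C then a else 1
  have hcut : ∀ a, cut a < C := by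
    intro a
    simp only [cut]
    split_ifs with h
    · exact h
    · exact hC
  have hst : ∀ (n : ℕ) (a z : M), ∃ b < C,
      (∀ i < k, mem e b i ↔ Run.stp X e n (cut a) (cut z) i) ∧
      ∀ b', Mem s (pr (pr n (cut a)) (pr (cut z) b')) ↔ b' = b :=
    fun n a z => hstep _ (hk n) _ (hcut a) _ (hcut z)
  choose F hFC hF1 hF2 using hst
  let t : ℕ × ℕ → ℕ × ℕ := fun p => (p.1 + 1, nu.symm (F p.1 (nu p.2) (nu p.1)))
  have hcutS : ∀ {α : Type} [Primcodable α] {f : α → M}, Run.GF Γ nu f →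
      Run.GF Γ nu (fun a => cut (f a)) := by
    intro α _ f hf
    refine Run.GF_ite H (Run.S_lt H hf (Run.GF.const C)) ?_ hf (Run.GF.const 1)
    exact PC.of_eq (Run.S_le H (Run.GF.const C) hf) fun a => by simp
  have ht : Γ.S (fun p : (ℕ × ℕ) × (ℕ × ℕ) => t p.1 = p.2) := by
    have h2 : Γ.S (fun p : (ℕ × ℕ) × (ℕ × ℕ) => p.1.1 + 1 = p.2.1 ∧
        Mem s (pr (pr (p.1.1 : M) (cut (nu p.1.2))) (pr (cut (nu p.1.1)) (nu p.2.2)))) := by
      have h3 : Run.GF Γ nu (fun p : (ℕ × ℕ) × (ℕ × ℕ) =>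
          pr (pr (p.1.1 : M) (cut (nu p.1.2))) (pr (cut (nu p.1.1)) (nu p.2.2))) := by
        refine Run.GF_pr H (Run.GF_pr H (Run.GF_natCast H (by fun_prop)) (hcutS ?_))
          (Run.GF_pr H (hcutS ?_) ?_)
        · exact Run.GF.idx (by fun_prop)
        · exact Run.GF.idx (by fun_prop)
        · exact Run.GF.idx (by fun_prop)
      refine Γ.and (Γ.prim (Primrec.eq.comp (by fun_prop) (by fun_prop))) ?_
      exact Γ.and (Run.S_lt H h3 (Run.GF.const _))
        (Run.S_mem H (Run.GF.const _) (Run.GF.const _) h3)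
    refine PC.of_eq h2 fun p => ?_
    rw [hF2]
    simp only [t]
    rw [Prod.ext_iff]
    simp only
    rw [Equiv.symm_apply_eq, eq_comm (a := nu p.2.2)]
  have hit := Run.S_iterate ht (0, nu.symm a0)
  have hfst : ∀ n, (t^[n] (0, nu.symm a0)).1 = n := by
    intro n
    induction n with
    | zero => rfl
    | succ n ih => rw [Function.iterate_succ_apply']; simp only [t]; rw [ih]
  let a : ℕ → M := fun n => nu (t^[n] (0, nu.symm a0)).2
  have ha0e : a 0 = a0 := by simp [a]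
  have hasucc : ∀ n, a (n + 1) = F n (a n) (nu n) := by
    intro n
    simp only [a]
    rw [Function.iterate_succ_apply']
    simp only [t]
    rw [hfst, Equiv.apply_symm_apply]
  have haC : ∀ n, a n < C := by
    intro n
    cases n with
    | zero => rw [ha0e]; exact ha0
    | succ n => rw [hasucc]; exact hFC _ _ _
  have hcuta : ∀ n, cut (a n) = a n := fun n => if_pos (haC n)
  have haS : Run.GF Γ nu a := by
    refine Run.GF.of_graph ?_
    have h2 : Γ.S (fun p : ℕ × ℕ => ∃ j : ℕ, t^[p.1] (0, nu.symm a0) = (j, p.2)) := by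
      refine PC.ex' (R := fun (p : ℕ × ℕ) (j : ℕ) => t^[p.1] (0, nu.symm a0) = (j, p.2)) ?_
      exact Γ.comp (f := fun q : (ℕ × ℕ) × ℕ => (q.1.1, (q.2, q.1.2))) hit (by fun_prop)
    refine PC.of_eq h2 fun p => ?_
    constructor
    · intro h
      exact ⟨_, Prod.ext rfl h⟩
    · rintro ⟨j, hj⟩
      rw [hj]
  have hmem : ∀ n i : ℕ, mem e (a (n + 1)) (i : M) ↔
      Run.stp X e n (a n) (cut (nu n)) (i : M) := by
    intro n i
    rw [hasucc, hF1 n (a n) (nu n) _ (hk i), hcuta]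
  let y : ℕ → Bool := fun m => decide (mem e (a (m.unpair.1 + 1)) (m : M))
  have hlow : ∀ n m : ℕ, mem e (a n) (m : M) ↔ (m.unpair.1 < n ∧ y m = true) := by
    intro n
    induction n with
    | zero =>
      intro m
      rw [ha0e, ha0' _ (hk m)]
      simp
    | succ n ih =>
      intro m
      rcases lt_trichotomy m.unpair.1 n with h | h | h
      · rw [hmem, Run.stp_lt h, ih]
        constructor
        · rintro ⟨_, h2⟩
          exact ⟨by omega, h2⟩
        · rintro ⟨_, h2⟩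
          exact ⟨h, h2⟩
      · simp [y, h]
      · rw [hmem]
        constructor
        · intro h2
          exact absurd h2 (Run.stp_gt h)
        · rintro ⟨h2, _⟩
          omega
  have horc : ∀ n, low n y = orcM e (a n) := by
    intro n
    funext m
    unfold low orcM
    rw [Bool.eq_iff_iff]
    simp only [Bool.and_eq_true, decide_eq_true_eq]
    exact (hlow n m).symm
  refine ⟨y, ?_, ?_, ?_⟩
  · -- the graph of `y`
    have h2 : Run.GF Γ nu (fun m : ℕ => a (m.unpair.1 + 1)) := haS.comp (by fun_prop)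
    have h3 : Run.GF Γ nu (fun m : ℕ => (m : M)) := Run.GF_natCast H Primrec.id
    have h4 := Run.S_mem H (Run.GF.const e) h2 h3
    have h5 := Run.S_not_mem H (Run.GF.const e) h2 h3
    have h6 : Γ.S (fun p : ℕ × Bool =>
        (mem e (a (p.1.unpair.1 + 1)) (p.1 : M) ∧ p.2 = true) ∨
        (¬ mem e (a (p.1.unpair.1 + 1)) (p.1 : M) ∧ p.2 = false)) := by
      refine Γ.or (Γ.and (Γ.comp (f := fun p : ℕ × Bool => p.1) h4 Primrec.fst) (Γ.prim ?_))
        (Γ.and (Γ.comp (f := fun p : ℕ × Bool => p.1) h5 Primrec.fst) (Γ.prim ?_))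
      · exact Primrec.eq.comp Primrec.snd (Primrec.const true)
      · exact Primrec.eq.comp Primrec.snd (Primrec.const false)
    refine PC.of_eq h6 fun p => ?_
    obtain ⟨m, b⟩ := p
    by_cases h : mem e (a (m.unpair.1 + 1)) (m : M) <;> cases b <;> simp [y, h]
  · -- separation
    intro n c w hF
    rw [horc] at hF
    have h2 := hsep _ _ _ _ hF
    have h3 : y (Nat.pair n (2 * encode (c, w) + 1)) = true ↔
        X (a n) ((encode (c, w) : ℕ) : M) := by
      simp only [y, decide_eq_true_eq, Nat.unpair_pair]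
      rw [hmem, Run.stp_odd]
    rw [← h3] at h2
    cases h4 : y (Nat.pair n (2 * encode (c, w) + 1)) <;> simp at h2
  · intro D hD
    obtain ⟨d, hd, _, hd'⟩ := hcode D hD
    refine ⟨nu.symm d, fun i => ?_⟩
    simp only [y, decide_eq_true_eq, Nat.unpair_pair]
    rw [hmem, Run.stp_even, Equiv.apply_symm_apply]
    have : cut d = d := if_pos hd
    rw [this]
    exact hd' _ (hk i)

end Pool.Agent.MU
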