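import Pool.Agent.MU.Fst

/-! # Separating functions: first properties -/

set_option autoImplicit false

namespace Pool.Agent.MU

open Encodable
open Nat.Partrec (Code)
open Pool.Agent.Helper70 (PC res pre_res getElem?_res length_res)
open Pool.Agent.Helper70.OD (RE)

variable {α β γ : Type} [Primcodable α] [Primcodable β] [Primcodable γ]

/-- uniformly `Σ₁` relations with a set variable -/
abbrev SR (R : α → (ℕ → Bool) → Prop) : Prop := PC.re.Sig R

theorem SR_hit : SR (fun (p : ℕ × Code × ℕ × Bool) X => Hit p.1 p.2.1 p.2.2.1 p.2.2.2 X) := by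
  unfold Hit
  refine PC.Sig.ex (R := fun (p : ℕ × Code × ℕ × Bool) (q : List Bool × ℕ) X =>
    decode (α := List Bool × ℕ) p.1 = some q ∧ Helper70.Pre q.1 X ∧
    (Code.evaln q.2 p.2.1 (encode ((p.2.2.1, p.2.2.2), q.1))).isSome = true) ?_
  refine PC.Sig.and (PC.Sig.ofS ?_) (PC.Sig.and (PC.Sig.pre (by fun_prop)) (PC.Sig.ofS ?_))
  · exact RE.eq (by fun_prop) (by fun_prop)
  · refine RE.prim (Primrec.eq.comp (Primrec.option_isSome.comp ?_) (Primrec.const true))
    exact Nat.Partrec.Code.primrec_evaln.comp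
      ((Primrec.pair (by fun_prop) (by fun_prop)).pair (by fun_prop))

theorem SR_not_hit :
    SR (fun (p : ℕ × Code × ℕ × Bool) X => ¬ Hit p.1 p.2.1 p.2.2.1 p.2.2.2 X) := by
  have h : SR (fun (p : ℕ × Code × ℕ × Bool) X => decode (α := List Bool × ℕ) p.1 = none ∨
      ∃ q : List Bool × ℕ, decode (α := List Bool × ℕ) p.1 = some q ∧ (¬ Helper70.Pre q.1 X ∨
      ¬ (Code.evaln q.2 p.2.1 (encode ((p.2.2.1, p.2.2.2), q.1))).isSome = true)) := by
    refine PC.Sig.or (PC.Sig.ofS (RE.eq (by fun_prop) (by fun_prop))) ?_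
    refine PC.Sig.ex (R := fun (p : ℕ × Code × ℕ × Bool) (q : List Bool × ℕ) X =>
      decode (α := List Bool × ℕ) p.1 = some q ∧ (¬ Helper70.Pre q.1 X ∨
      ¬ (Code.evaln q.2 p.2.1 (encode ((p.2.2.1, p.2.2.2), q.1))).isSome = true)) ?_
    refine PC.Sig.and (PC.Sig.ofS (RE.eq (by fun_prop) (by fun_prop)))
      (PC.Sig.or (PC.Sig.not_pre (by fun_prop)) (PC.Sig.ofS ?_))
    refine RE.prim (PrimrecPred.not
      (Primrec.eq.comp (Primrec.option_isSome.comp ?_) (Primrec.const true)))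
    exact Nat.Partrec.Code.primrec_evaln.comp
      ((Primrec.pair (by fun_prop) (by fun_prop)).pair (by fun_prop))
  refine PC.Sig.of_eq h fun p X => ?_
  unfold Hit
  rcases hd : decode (α := List Bool × ℕ) p.1 with _ | q
  · simp
  · simp only [Option.some.injEq, exists_eq_left', reduceCtorEq, false_or]
    tauto

theorem SR_fst : SR (fun (p : Code × ℕ × Bool) X => Fst p.1 p.2.1 p.2.2 X) := by
  unfold Fst
  refine PC.Sig.ex (R := fun (p : Code × ℕ × Bool) (s : ℕ) X => Hit s p.1 p.2.1 p.2.2 X ∧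
    ∀ s' < s + p.2.2.toNat, ¬ Hit s' p.1 p.2.1 (!p.2.2) X) ?_
  refine PC.Sig.and ?_ ?_
  · exact PC.Sig.comp (f := fun q : (Code × ℕ × Bool) × ℕ => (q.2, q.1.1, q.1.2.1, q.1.2.2))
      SR_hit (by fun_prop)
  · refine PC.Sig.ball (R := fun (q : (Code × ℕ × Bool) × ℕ) s' X =>
      ¬ Hit s' q.1.1 q.1.2.1 (!q.1.2.2) X) (f := fun q => q.2 + q.1.2.2.toNat) ?_ ?_
    · refine Primrec.nat_add.comp Primrec.snd ?_
      exact (Primrec.dom_finite _).comp (Primrec.snd.comp (Primrec.snd.comp Primrec.fst))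
    · exact PC.Sig.comp (f := fun q : ((Code × ℕ × Bool) × ℕ) × ℕ =>
        (q.2, q.1.1.1, q.1.1.2.1, !q.1.1.2.2)) SR_not_hit (by fun_prop)

/-- a universal enumeration -/
theorem exists_code_of_SR {R : ℕ → Bool → (ℕ → Bool) → Prop}
    (h : SR (fun (p : ℕ × Bool) X => R p.1 p.2 X)) :
    ∃ c : Code, ∀ w j X, R w j X ↔ ∃ s, Hit s c w j X := by
  obtain ⟨V, hV, hR⟩ := h
  obtain ⟨c, hc⟩ := exists_univ hV
  refine ⟨c, fun w j X => ?_⟩
  refine (hR (w, j) X).trans ?_
  constructor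
  · rintro ⟨τ, h1, h2⟩
    obtain ⟨k, hk⟩ := (hc _).1 h2
    exact ⟨encode (τ, k), (τ, k), by simp, h1, hk⟩
  · rintro ⟨s, ⟨τ, k⟩, _, h1, h2⟩
    exact ⟨τ, h1, (hc _).2 ⟨k, h2⟩⟩

theorem Fst.hit {c : Code} {w : ℕ} {j : Bool} {X : ℕ → Bool} (h : Fst c w j X) :
    ∃ s, Hit s c w j X := ⟨h.choose, h.choose_spec.1⟩

theorem Fst.excl {c : Code} {w : ℕ} {j : Bool} {X : ℕ → Bool} (h : Fst c w j X) :
    ¬ Fst c w (!j) X := by
  rintro ⟨s', h3, h4⟩
  obtain ⟨s, h1, h2⟩ := h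
  rw [Bool.not_not] at h4
  have h5 : ¬ s' < s + j.toNat := fun hlt => h2 s' hlt h3
  have h6 : ¬ s < s' + (!j).toNat := fun hlt => h4 s hlt h1
  cases j <;> simp at h5 h6 <;> omega

theorem exists_fst {c : Code} {w : ℕ} {X : ℕ → Bool} (h : ∃ j s, Hit s c w j X) :
    ∃ j, Fst c w j X := by
  classical
  have h' : ∃ s, ∃ j, Hit s c w j X := by
    obtain ⟨j, s, h⟩ := h; exact ⟨s, j, h⟩
  have h1 := Nat.find_spec h'
  have h2 : ∀ s' < Nat.find h', ∀ j, ¬ Hit s' c w j X := fun s' hs' j hj =>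
    Nat.find_min h' hs' ⟨j, hj⟩
  by_cases hf : Hit (Nat.find h') c w false X
  · exact ⟨false, Nat.find h', hf, fun s' hs' => h2 s' (by simpa using hs') _⟩
  · obtain ⟨j, hj⟩ := h1
    cases j with
    | false => exact absurd hj hf
    | true =>
      refine ⟨true, Nat.find h', hj, fun s' hs' => ?_⟩
      simp only [Bool.toNat_true, Nat.lt_succ_iff_lt_or_eq] at hs'
      rcases hs' with hs' | rfl
      · exact h2 s' hs' _
      · exact hf

/-- the separating value is good -/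
theorem Sep.choose {V X : ℕ → Bool} (hV : Sep V X) (c : Code) (w : ℕ)
    (h : ∃ s, Hit s c w (V (encode (c, w))) X) : ∃ s, Hit s c w (!(V (encode (c, w)))) X := by
  obtain ⟨j, hj⟩ := exists_fst ⟨_, h⟩
  have h1 : j ≠ V (encode (c, w)) := fun h => hV c w (h ▸ hj)
  have h2 : j = !(V (encode (c, w))) := by
    revert h1; cases j <;> cases V (encode (c, w)) <;> simp
  exact h2 ▸ hj.hit

/-- A relation `Σ₁` in `X`. -/
abbrev S1 (X : ℕ → Bool) (R : α → Prop) : Prop := (PC.re.adj X).S R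

/-- A separating function is not computable in its oracle. -/
theorem Sep.not_Sg {V X : ℕ → Bool} (hV : Sep V X) : ¬ Sg V X := by
  rintro ⟨R, hR, h⟩
  have h1 : SR (fun (p : ℕ × Bool) X => ∃ c : Code, decode (α := Code) p.1 = some c ∧
      R (encode (c, p.1), p.2) X) := by
    refine PC.Sig.ex (R := fun (p : ℕ × Bool) (c : Code) X => decode (α := Code) p.1 = some c ∧
      R (encode (c, p.1), p.2) X) ?_
    refine PC.Sig.and (PC.Sig.ofS (RE.eq (by fun_prop) (by fun_prop))) ?_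
    exact PC.Sig.comp (f := fun q : (ℕ × Bool) × Code => (encode (q.2, q.1.1), q.1.2)) hR
      (by fun_prop)
  obtain ⟨c, hc⟩ := exists_code_of_SR (R := fun w j X => ∃ c : Code,
    decode (α := Code) w = some c ∧ R (encode (c, w), j) X) h1
  have h2 := hV.choose c (encode c) ((hc _ _ _).1 ⟨c, by simp, (h (_, _)).1 rfl⟩)
  obtain ⟨c', h3, h4⟩ := (hc _ _ _).2 h2
  have h5 : c' = c := by simpa using h3.symm
  subst h5
  have h6 := (h (_, _)).2 h4
  simp at h6

end Pool.Agent.MU
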