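import Pool.Agent.MU.Fst
import Pool.Agent.MU.Repr

/-! # A definable set separating the first enumerated values, uniformly in the coded oracle -/

set_option autoImplicit false

namespace Pool.Agent.MU

open Encodable
open Nat.Partrec (Code)

/-- The computation in `Hit`: `x` codes the stage, the input and the value. -/
def hitO (x : ℕ) : Option ℕ :=
  (decode (α := List Bool × ℕ) x.unpair.1).bind fun q =>
    (decode (α := Code × ℕ) x.unpair.2.unpair.1).bind fun cw =>
      Code.evaln q.2 cw.1 (encode ((cw.2, decide (x.unpair.2.unpair.2 = 1)), q.1))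

def hitN (x : ℕ) : ℕ := (hitO x).isSome.toNat

/-- The length of the finite piece of the oracle at stage `x`. -/
def lenN (x : ℕ) : ℕ :=
  (Option.map (fun q : List Bool × ℕ => q.1.length) (decode (α := List Bool × ℕ) x)).getD 0

/-- The entries of this piece. -/
def bitN (x : ℕ) : ℕ :=
  ((decode (α := List Bool × ℕ) x.unpair.1).bind fun q =>
    Option.map Bool.toNat q.1[x.unpair.2]?).getD 0

theorem primrec_hitO : Primrec hitO := by
  have h1 : Primrec (fun x : ℕ => decode (α := List Bool × ℕ) x.unpair.1) :=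
    Primrec.decode.comp (Primrec.fst.comp Primrec.unpair)
  have h2 : Primrec (fun x : ℕ => decode (α := Code × ℕ) x.unpair.2.unpair.1) :=
    Primrec.decode.comp (Primrec.fst.comp (Primrec.unpair.comp (Primrec.snd.comp Primrec.unpair)))
  have h3 : Primrec (fun x : ℕ => decide (x.unpair.2.unpair.2 = 1)) :=
    (Primrec.eq.comp (Primrec.snd.comp (Primrec.unpair.comp (Primrec.snd.comp Primrec.unpair)))
      (Primrec.const 1)).decide
  refine Primrec.option_bind h1 (Primrec₂.mk ?_)
  refine Primrec.option_bind (h2.comp Primrec.fst) (Primrec₂.mk ?_)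
  have h4 : Primrec (fun p : (ℕ × (List Bool × ℕ)) × (Code × ℕ) =>
      encode ((p.2.2, decide (p.1.1.unpair.2.unpair.2 = 1)), p.1.2.1)) :=
    Primrec.encode.comp (Primrec.pair (Primrec.pair (Primrec.snd.comp Primrec.snd)
      (h3.comp (Primrec.fst.comp Primrec.fst))) (Primrec.fst.comp (Primrec.snd.comp Primrec.fst)))
  exact Code.primrec_evaln.comp (Primrec.pair (Primrec.pair
    (Primrec.snd.comp (Primrec.snd.comp Primrec.fst)) (Primrec.fst.comp Primrec.snd)) h4)

theorem primrec_toNat : Primrec Bool.toNat := Primrec.dom_finite _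

theorem primrec_hitN : Primrec hitN := primrec_toNat.comp (Primrec.option_isSome.comp primrec_hitO)

theorem primrec_lenN : Primrec lenN :=
  Primrec.option_getD.comp (Primrec.option_map Primrec.decode
    (Primrec₂.mk (Primrec.list_length.comp (Primrec.fst.comp Primrec.snd)))) (Primrec.const 0)

theorem primrec_bitN : Primrec bitN := by
  refine Primrec.option_getD.comp (Primrec.option_bind
    (Primrec.decode.comp (Primrec.fst.comp Primrec.unpair)) (Primrec₂.mk ?_)) (Primrec.const 0)
  refine Primrec.option_map (Primrec.list_getElem?.comp (Primrec.fst.comp Primrec.snd)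
    (Primrec.snd.comp (Primrec.unpair.comp Primrec.fst))) (Primrec₂.mk ?_)
  exact primrec_toNat.comp Primrec.snd

/-- The prefix condition in terms of `lenN`, `bitN`. -/
theorem hit_iff (s : ℕ) (c : Code) (w : ℕ) (j : Bool) (X : ℕ → Bool) :
    Hit s c w j X ↔ hitN (Nat.pair s (Nat.pair (encode (c, w)) j.toNat)) = 1 ∧
      ∀ i < lenN s, (X i = true ↔ bitN (Nat.pair s i) = 1) := by
  have hj : decide (j.toNat = 1) = j := by cases j <;> rfl
  constructor
  · rintro ⟨q, hq, hpre, he⟩
    refine ⟨?_, ?_⟩
    · simp only [hitN, hitO, Nat.unpair_pair, hq, Option.bind_some, encodek, hj, he]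
      rfl
    · intro i hi
      simp only [lenN, hq, Option.map_some, Option.getD_some] at hi
      have h1 := hpre i q.1[i] (List.getElem?_eq_getElem hi)
      simp only [bitN, Nat.unpair_pair, hq, Option.bind_some, List.getElem?_eq_getElem hi,
        Option.map_some, Option.getD_some, h1]
      cases q.1[i] <;> simp
  · rintro ⟨h1, h2⟩
    rcases hq : decode (α := List Bool × ℕ) s with _ | q
    · simp [hitN, hitO, hq] at h1
    · refine ⟨q, hq, ?_, ?_⟩
      · intro i b hib
        have hi : i < q.1.length := by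
          rw [List.getElem?_eq_some_iff] at hib
          exact hib.1
        have h3 := h2 i (by simpa only [lenN, hq, Option.map_some, Option.getD_some] using hi)
        simp only [bitN, Nat.unpair_pair, hq, Option.bind_some, hib,
          Option.map_some, Option.getD_some] at h3
        cases b <;> simp_all
      · simp only [hitN, hitO, Nat.unpair_pair, hq, Option.bind_some, encodek, hj] at h1
        rcases h4 : (Code.evaln q.2 c (encode ((w, j), q.1))).isSome with _ | _
        · rw [h4] at h1
          exact absurd h1 (by decide)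
        · rfl

section

variable {M : Type} [Mdl M]

open Classical in
/-- The set coded by `a` (standard part). -/
noncomputable def orcM (e a : M) : ℕ → Bool := fun i => decide (mem e a (i : M))

theorem sepset (e : M) : ∃ X : M → M → Prop, Dfn M (fun p : M × M => X p.1 p.2) ∧
    ∀ (a : M) (c : Code) (w : ℕ) (j : Bool), Fst c w j (orcM e a) →
      (X a ((encode (c, w) : ℕ) : M) ↔ j = false) := by
  obtain ⟨F, hF, hF'⟩ := exists_repr (M := M) hitN (Primrec.nat_iff.1 primrec_hitN)
  obtain ⟨L, hL, hL'⟩ := exists_repr (M := M) lenN (Primrec.nat_iff.1 primrec_lenN)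
  obtain ⟨B, hB, hB'⟩ := exists_repr (M := M) bitN (Primrec.nat_iff.1 primrec_bitN)
  -- the internal version of `Hit`
  let H : M → M → M → M → Prop := fun s n a j => F (pr s (pr n j)) = 1 ∧
    ∀ i, i < L s → (mem e a i ↔ B (pr s i) = 1)
  have hH : ∀ (s : ℕ) (c : Code) (w : ℕ) (j : Bool) (a : M),
      H (s : M) ((encode (c, w) : ℕ) : M) a ((j.toNat : ℕ) : M) ↔ Hit s c w j (orcM e a) := by
    intro s c w j a
    rw [hit_iff]
    refine and_congr ?_ ?_
    · rw [pr_cast, pr_cast, hF', ← Nat.cast_one, cast_inj]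
    · rw [hL']
      constructor
      · intro h i hi
        have := h (i : M) (by exact_mod_cast hi)
        rw [pr_cast, hB', ← Nat.cast_one, cast_inj] at this
        simpa only [orcM, decide_eq_true_eq] using this
      · intro h x hx
        obtain ⟨i, hi, rfl⟩ := lt_cast hx
        have := h i hi
        rw [pr_cast, hB', ← Nat.cast_one, cast_inj]
        simpa only [orcM, decide_eq_true_eq] using this
  have hHd : Dfn M (fun p : ((M × M) × M) × M => H p.1.1.1 p.1.1.2 p.1.2 p.2) := by
    refine Dfn.and (Dfn.eq (DM.comp hF (DM_pr ?_ (DM_pr ?_ ?_))) (DM.const 1)) ?_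
    · exact DM.fst (DM.fst (DM.fst DM.id))
    · exact DM.snd (DM.fst (DM.fst DM.id))
    · exact DM.snd DM.id
    · refine Dfn.all (R := fun (p : ((M × M) × M) × M) (i : M) => i < L p.1.1.1 →
        (mem e p.1.2 i ↔ B (pr p.1.1.1 i) = 1)) ?_
      refine Dfn.imp (Dfn.lt (DM.snd DM.id) (DM.comp hL ?_)) (Dfn.iff (Dfn_mem (DM.const e) ?_ ?_)
        (Dfn.eq (DM.comp hB (DM_pr ?_ ?_)) (DM.const 1)))
      · exact DM.fst (DM.fst (DM.fst (DM.fst DM.id)))
      · exact DM.snd (DM.fst (DM.fst DM.id))
      · exact DM.snd DM.id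
      · exact DM.fst (DM.fst (DM.fst (DM.fst DM.id)))
      · exact DM.snd DM.id
  refine ⟨fun a n => ∃ s, H s n a 0 ∧ ∀ t, t < s → ¬ H t n a 1, ?_, ?_⟩
  · refine Dfn.ex (R := fun (p : M × M) (s : M) => H s p.2 p.1 0 ∧ ∀ t, t < s → ¬ H t p.2 p.1 1) ?_
    refine Dfn.and ?_ ?_
    · exact Dfn.comp (f := fun p : (M × M) × M => (((p.2, p.1.2), p.1.1), (0 : M))) hHd
        (DM.pair (DM.pair (DM.pair (DM.snd DM.id) (DM.snd (DM.fst DM.id)))
          (DM.fst (DM.fst DM.id))) (DM.const 0))
    · refine Dfn.all (R := fun (p : (M × M) × M) (t : M) => t < p.2 → ¬ H t p.1.2 p.1.1 1) ?_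
      refine Dfn.imp (Dfn.lt (DM.snd DM.id) (DM.snd (DM.fst DM.id))) (Dfn.not ?_)
      exact Dfn.comp (f := fun p : ((M × M) × M) × M => (((p.2, p.1.1.2), p.1.1.1), (1 : M))) hHd
        (DM.pair (DM.pair (DM.pair (DM.snd DM.id) (DM.snd (DM.fst (DM.fst DM.id))))
          (DM.fst (DM.fst (DM.fst DM.id)))) (DM.const 1))
  · intro a c w j hj
    have h0 : ∀ s : ℕ, H (s : M) ((encode (c, w) : ℕ) : M) a 0 ↔ Hit s c w false (orcM e a) := by
      intro s
      have := hH s c w false a
      rwa [Bool.toNat_false, Nat.cast_zero] at this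
    have h1 : ∀ s : ℕ, H (s : M) ((encode (c, w) : ℕ) : M) a 1 ↔ Hit s c w true (orcM e a) := by
      intro s
      have := hH s c w true a
      rwa [Bool.toNat_true, Nat.cast_one] at this
    obtain ⟨s, hs, hs'⟩ := hj
    cases j with
    | false =>
      refine ⟨fun _ => rfl, fun _ => ⟨(s : M), (h0 s).2 hs, ?_⟩⟩
      intro t ht hHt
      obtain ⟨m, hm, rfl⟩ := lt_cast ht
      exact hs' m (by simpa using hm) ((h1 m).1 hHt)
    | true =>
      refine ⟨?_, fun h => absurd h (by decide)⟩
      rintro ⟨t, ht, ht'⟩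
      exfalso
      rcases lt_or_ge (s : M) t with hst | hst
      · exact ht' _ hst ((h1 s).2 hs)
      · have hlt : t < ((s + 1 : ℕ) : M) := by
          refine lt_of_le_of_lt hst ?_
          exact_mod_cast Nat.lt_succ_self s
        obtain ⟨m, hm, rfl⟩ := lt_cast hlt
        exact hs' m (by simpa using hm) ((h0 m).1 ht)

end

end Pool.Agent.MU
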