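import Pool.Agent.MU.Cls

/-! # Coding step and record step -/

set_option autoImplicit false

namespace Pool.Agent.MU

open Encodable
open Nat.Partrec (Code)
open Pool.Agent.Helper70 (PC res pre_res getElem?_res length_res)
open Pool.Agent.Helper70.OD (RE)

/-- The class is not empty. -/
def NE (e : Code) (D : List Rc) (m : ℕ) (w : List Bool) (z : ℕ → Bool) : Prop :=
  ∃ B, ¬ Out e D m w z B

theorem outD_iff {e : Code} {D : List Rc} {m : ℕ} {z B : ℕ → Bool} :
    ¬ OutD e D m z B ↔ ∀ i < m, ∀ j,
      B (Nat.pair i (pos e (D.take i) (res (col i z) j))) = z (Nat.pair i j) := by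
  unfold OutD
  constructor
  · intro h i hi j
    by_contra hne
    refine h ⟨i, j, hi, _, rfl, ?_⟩
    revert hne
    cases B (Nat.pair i (pos e (D.take i) (res (col i z) j))) <;> cases z (Nat.pair i j) <;> simp
  · rintro h ⟨i, j, hi, b, h1, h2⟩
    rw [h i hi j, h2] at h1
    simp at h1

theorem low_apply {k : ℕ} {z : ℕ → Bool} {i j : ℕ} (h : i < k) :
    low k z (Nat.pair i j) = z (Nat.pair i j) := by
  simp [low, h]

theorem col_low {k i : ℕ} {z : ℕ → Bool} (h : i < k) : col i (low k z) = col i z := by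
  funext j; exact low_apply h

theorem outD_low {e : Code} {D : List Rc} {m k : ℕ} {z B : ℕ → Bool} (h : m ≤ k) :
    OutD e D m (low k z) B ↔ OutD e D m z B := by
  rw [← not_iff_not, outD_iff, outD_iff]
  refine forall₂_congr fun i hi => forall_congr' fun j => ?_
  rw [col_low (by omega), low_apply (by omega)]

theorem out_low {e : Code} {D : List Rc} {m k : ℕ} {w : List Bool} {z B : ℕ → Bool}
    (h : m ≤ k) : Out e D m w (low k z) B ↔ Out e D m w z B := by
  unfold Out
  rw [outD_low h]

theorem take_res (X : ℕ → Bool) {j k : ℕ} (h : k ≤ j) : (res X j).take k = res X k := by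
  apply List.ext_getElem?
  intro i
  rw [List.getElem?_take, getElem?_res, getElem?_res]
  by_cases hi : i < k
  · rw [if_pos hi, if_pos hi, if_pos (by omega)]
  · rw [if_neg hi, if_neg hi]

theorem dcol_eq {e : Code} {D : List Rc} {n i : ℕ} {z B : ℕ → Bool} (hi : i < n)
    (h : ¬ OutD e D n z B) (j : ℕ) :
    dcol e (D.take i) i (low n B) j = res (col i z) j := by
  rw [eq_dcol_iff]
  refine ⟨by simp, fun k hk => ?_⟩
  rw [take_res _ hk.le, low_apply hi, outD_iff.1 h i hi k, List.getD_eq_getElem?_getD,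
    getElem?_res, if_pos hk]
  rfl

theorem dec_eq {e : Code} {D : List Rc} {z B : ℕ → Bool}
    (h : ¬ OutD e D D.length z B) : dec e D (low D.length B) = low D.length z := by
  funext m
  unfold dec
  by_cases hm : m.unpair.1 < D.length
  · rw [dcol_eq hm h, low_apply hm, outD_iff.1 h _ hm, Nat.pair_unpair]
    simp [low, hm]
  · simp [low, hm]

/-- The relation behind the coding positions: every member of the class has the value `j`. -/
def R3 (w' : ℕ) (j : Bool) (X : ℕ → Bool) : Prop :=
  ∃ p : Code × List Rc × List Bool, decode (α := Code × List Rc × List Bool) w' = some p ∧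
    ∀ B, Out p.1 p.2.1 p.2.1.length p.2.2 (dec p.1 p.2.1 X) B ∨
      B (Nat.pair p.2.1.length (pos p.1 p.2.1 p.2.2)) = j

theorem SR_R3 : SR (fun (p : ℕ × Bool) X => R3 p.1 p.2 X) := by
  unfold R3
  refine PC.Sig.ex (R := fun (q : ℕ × Bool) (p : Code × List Rc × List Bool) X =>
    decode (α := Code × List Rc × List Bool) q.1 = some p ∧
    ∀ B, Out p.1 p.2.1 p.2.1.length p.2.2 (dec p.1 p.2.1 X) B ∨
      B (Nat.pair p.2.1.length (pos p.1 p.2.1 p.2.2)) = q.2) ?_
  refine PC.Sig.and (PC.Sig.ofS (RE.eq (by fun_prop) (by fun_prop))) ?_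
  refine SR.allY (R := fun (q : (ℕ × Bool) × (Code × List Rc × List Bool)) X B =>
    Out q.2.1 q.2.2.1 q.2.2.1.length q.2.2.2 (dec q.2.1 q.2.2.1 X) B ∨
      B (Nat.pair q.2.2.1.length (pos q.2.1 q.2.2.1 q.2.2.2)) = q.1.2) ?_
  refine PC.Sig.or ?_ (SR_od (primrec_natPair (by fun_prop)
    (primrec_pos (by fun_prop) (by fun_prop) (by fun_prop))) (by fun_prop))
  refine SR.subst2 (R := fun (q : (ℕ × Bool) × (Code × List Rc × List Bool)) X B =>
    Out q.2.1 q.2.2.1 q.2.2.1.length q.2.2.2 X B) ?_
    (Ψ := fun q W => dec q.2.1 q.2.2.1 (ev W)) (Φ := fun q W => od W) ?_ ?_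
  · exact PC.Sig.comp (f := fun q : (ℕ × Bool) × (Code × List Rc × List Bool) =>
      (q.2.1, q.2.2.1, q.2.2.1.length, q.2.2.2)) SR_out (by fun_prop)
  · exact PC.Sig.comp (f := fun q : ((ℕ × Bool) × (Code × List Rc × List Bool)) × (ℕ × Bool) =>
      ((q.1.2.1, q.1.2.2.1), q.2)) SR_dec.even (by fun_prop)
  · exact SR_od (f := fun q : ((ℕ × Bool) × (Code × List Rc × List Bool)) × (ℕ × Bool) => q.2.1)
      (by fun_prop) (by fun_prop)

/-- The special code. -/
theorem exists_e : ∃ e : Code, ∀ w' j X, R3 w' j X ↔ ∃ s, Hit s e w' j X :=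
  exists_code_of_SR SR_R3

theorem outE_append {e : Code} {D : List Rc} {m : ℕ} {w : List Bool} {j : Bool}
    {B : ℕ → Bool} : OutE e D m (w ++ [j]) B ↔ OutE e D m w B ∨
      B (Nat.pair m (pos e D w)) = !j := by
  unfold OutE
  constructor
  · rintro ⟨k, b, h1, h2⟩
    rcases lt_trichotomy k w.length with hk | hk | hk
    · left
      rw [List.getElem?_append_left hk] at h1
      rw [List.take_append_of_le_length hk.le] at h2
      exact ⟨k, b, h1, h2⟩
    · right
      subst hk
      simp at h1
      subst h1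
      simpa using h2
    · rw [List.getElem?_eq_none (by simp; omega)] at h1
      cases h1
  · rintro (⟨k, b, h1, h2⟩ | h)
    · have hk : k < w.length := by
        by_contra hc
        rw [List.getElem?_eq_none (not_lt.1 hc)] at h1; cases h1
      exact ⟨k, b, by rw [List.getElem?_append_left hk]; exact h1,
        by rw [List.take_append_of_le_length hk.le]; exact h2⟩
    · exact ⟨w.length, j, by simp, by simpa using h⟩

theorem sep_of_not_outA {B : ℕ → Bool} (h : ¬ OutA B) (k : ℕ) : Sep (col k B) (low k B) := by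
  intro c w' hf
  exact h ⟨k, c, w', hf⟩

theorem coding_step {e : Code} (he : ∀ w' j X, R3 w' j X ↔ ∃ s, Hit s e w' j X)
    {D : List Rc} {w : List Bool} {z : ℕ → Bool} (h : NE e D D.length w z) (j : Bool) :
    NE e D D.length (w ++ [j]) z := by
  obtain ⟨B, hB⟩ := h
  by_contra hcon
  have h1 : ∀ B', Out e D D.length w z B' ∨ B' (Nat.pair D.length (pos e D w)) = !j := by
    intro B'
    by_contra h2
    push Not at h2
    refine hcon ⟨B', ?_⟩
    unfold Out
    rw [outE_append]
    have h3 := h2.1
    unfold Out at h3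
    tauto
  unfold Out at hB
  push Not at hB
  obtain ⟨hA, hB1, hC, hD, hE⟩ := hB
  have hout : ∀ B', Out e D D.length w (dec e D (low D.length B)) B' ↔ Out e D D.length w z B' :=
    fun B' => by rw [dec_eq hD, out_low le_rfl]
  have h4 : R3 (encode (e, D, w)) (!j) (low D.length B) :=
    ⟨(e, D, w), by simp, fun B' => by
      simp only [hout]; exact h1 B'⟩
  have hBv : B (Nat.pair D.length (pos e D w)) = !j := by
    rcases h1 B with h5 | h5
    · unfold Out at h5; tauto
    · exact h5
  have hsep := sep_of_not_outA hA D.length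
  have hval : col D.length B (encode (e, encode (e, D, w))) = !j := hBv
  have h6 := hsep.choose e (encode (e, D, w)) (by rw [hval]; exact (he _ _ _).1 h4)
  rw [hval, Bool.not_not] at h6
  obtain ⟨p, hp, h7⟩ := (he _ _ _).2 h6
  have hp' : p = (e, D, w) := by simpa using hp.symm
  subst hp'
  rcases h7 B with h8 | h8
  · rw [hout] at h8
    unfold Out at h8; tauto
  · simp only at h8
    rw [hBv] at h8
    simp at h8

end Pool.Agent.MU
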