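import Pool.Agent.MU.Sep

/-! # Two set variables; decoding; the classes -/

set_option autoImplicit false

namespace Pool.Agent.MU

open Encodable
open Nat.Partrec (Code)
open Pool.Agent.Helper70 (PC res pre_res getElem?_res length_res)
open Pool.Agent.Helper70.OD (RE)

variable {α β γ : Type} [Primcodable α] [Primcodable β] [Primcodable γ]

def ev (W : ℕ → Bool) : ℕ → Bool := fun n => W (2 * n)
def od (W : ℕ → Bool) : ℕ → Bool := fun n => W (2 * n + 1)
def jn (X Y : ℕ → Bool) : ℕ → Bool := fun n => if n % 2 = 0 then X (n / 2) else Y (n / 2)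

@[simp] theorem ev_jn (X Y : ℕ → Bool) : ev (jn X Y) = X := by
  funext n; simp [ev, jn]

@[simp] theorem od_jn (X Y : ℕ → Bool) : od (jn X Y) = Y := by
  funext n
  have h1 : (2 * n + 1) % 2 = 1 := by omega
  have h2 : (2 * n + 1) / 2 = n := by omega
  simp [od, jn, h1, h2]

/-- `X i = b` -/
theorem SR_ev {f : α → ℕ} {g : α → Bool} (hf : Primrec f) (hg : Primrec g) :
    SR (fun a W => ev W (f a) = g a) := by
  unfold ev
  exact PC.Sig.bit (f := fun a => 2 * f a) (by fun_prop) hg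

theorem SR_od {f : α → ℕ} {g : α → Bool} (hf : Primrec f) (hg : Primrec g) :
    SR (fun a W => od W (f a) = g a) := by
  unfold od
  exact PC.Sig.bit (f := fun a => 2 * f a + 1) (by fun_prop) hg

/-- Compactness with a parameter. -/
theorem SR.allY {R : α → (ℕ → Bool) → (ℕ → Bool) → Prop}
    (h : SR (fun a W => R a (ev W) (od W))) : SR (fun a X => ∀ Y, R a X Y) := by
  obtain ⟨V, hV, hR⟩ := h
  let R' : α × List Bool → (ℕ → Bool) → Prop := fun p Y => ∃ τ : List Bool,
    (∀ i < τ.length, ∃ b, τ[i]? = some b ∧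
      ((i % 2 = 0 ∧ p.2[i / 2]? = some b) ∨ (i % 2 = 1 ∧ Y (i / 2) = b))) ∧ V (p.1, τ)
  have hR' : SR R' := by
    refine PC.Sig.ex (R := fun (p : α × List Bool) (τ : List Bool) Y =>
      (∀ i < τ.length, ∃ b, τ[i]? = some b ∧
      ((i % 2 = 0 ∧ p.2[i / 2]? = some b) ∨ (i % 2 = 1 ∧ Y (i / 2) = b))) ∧ V (p.1, τ)) ?_
    refine PC.Sig.and ?_ (PC.Sig.ofS ?_)
    · refine PC.Sig.ball (R := fun (q : (α × List Bool) × List Bool) i Y => ∃ b, q.2[i]? = some b ∧
        ((i % 2 = 0 ∧ q.1.2[i / 2]? = some b) ∨ (i % 2 = 1 ∧ Y (i / 2) = b)))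
        (f := fun q => q.2.length) (by fun_prop) ?_
      refine PC.Sig.ex (R := fun (q : ((α × List Bool) × List Bool) × ℕ) (b : Bool) Y =>
        q.1.2[q.2]? = some b ∧
        ((q.2 % 2 = 0 ∧ q.1.1.2[q.2 / 2]? = some b) ∨ (q.2 % 2 = 1 ∧ Y (q.2 / 2) = b))) ?_
      refine PC.Sig.and (PC.Sig.ofS (RE.eq (by fun_prop) (by fun_prop))) (PC.Sig.or ?_ ?_)
      · exact PC.Sig.ofS (RE.and (RE.eq (by fun_prop) (by fun_prop))
          (RE.eq (by fun_prop) (by fun_prop)))
      · exact PC.Sig.and (PC.Sig.ofS (RE.eq (by fun_prop) (by fun_prop)))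
          (PC.Sig.bit (by fun_prop) (by fun_prop))
    · exact RE.comp (R := V) (f := fun q : (α × List Bool) × List Bool => (q.1.1, q.2)) hV
        (by fun_prop)
  refine ⟨fun p => ∀ Y, R' p Y, PC.Sig.allX hR', fun a X => ?_⟩
  have hmono : ∀ (ρ ρ' : List Bool) (Y : ℕ → Bool), ρ <+: ρ' → R' (a, ρ) Y → R' (a, ρ') Y := by
    rintro ρ ρ' Y ⟨t, rfl⟩ ⟨τ, h1, h2⟩
    refine ⟨τ, fun i hi => ?_, h2⟩
    obtain ⟨b, h3, h4⟩ := h1 i hi
    refine ⟨b, h3, h4.imp (fun h4 => ⟨h4.1, ?_⟩) id⟩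
    have h5 := h4.2
    simp only at h5 ⊢
    have : i / 2 < ρ.length := by
      by_contra hc
      rw [List.getElem?_eq_none (not_lt.1 hc)] at h5; cases h5
    rw [List.getElem?_append_left this]; exact h5
  have hsound : ∀ (ρ : List Bool) (Y : ℕ → Bool), Helper70.Pre ρ X → R' (a, ρ) Y → R a X Y := by
    rintro ρ Y hρ ⟨τ, h1, h2⟩
    have h3 := (hR a (jn X Y)).2 ⟨τ, ?_, h2⟩
    · simpa using h3
    · intro i b hi
      have hi' : i < τ.length := by
        by_contra hc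
        rw [List.getElem?_eq_none (not_lt.1 hc)] at hi; cases hi
      obtain ⟨b', h3, h4⟩ := h1 i hi'
      rw [hi] at h3; cases h3
      rcases h4 with ⟨h4, h5⟩ | ⟨h4, h5⟩
      · simp only [jn, h4, if_true]
        exact hρ _ _ h5
      · simp only [jn, h4]
        simpa using h5
  constructor
  · intro H
    let U : ℕ → Set (ℕ → Bool) := fun N => {Y | R' (a, res X N) Y}
    have hUo : ∀ N, IsOpen (U N) := fun N => hR'.isOpen (a, res X N)
    have hUm : Monotone U := by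
      intro N M hNM Y hY
      exact hmono _ _ Y ((pre_res X N).prefix_res (by simpa using hNM)) hY
    have hcov : (Set.univ : Set (ℕ → Bool)) ⊆ ⋃ N, U N := by
      intro Y _
      have h1 := H Y
      have h2 : (fun a W => R a (ev W) (od W)) a (jn X Y) := by simpa using h1
      obtain ⟨τ, h3, h4⟩ := (hR a (jn X Y)).1 h2
      refine Set.mem_iUnion.2 ⟨τ.length, τ, fun i hi => ?_, h4⟩
      refine ⟨τ[i], by simp [hi], ?_⟩
      have h5 := h3 i τ[i] (by simp [hi])
      rcases Nat.mod_two_eq_zero_or_one i with h6 | h6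
      · left
        refine ⟨h6, ?_⟩
        simp only [getElem?_res]
        rw [if_pos (by omega)]
        simp only [jn, h6, if_true] at h5
        rw [h5]
      · right
        refine ⟨h6, ?_⟩
        simp only [jn, h6] at h5
        simpa using h5
    obtain ⟨N, hN⟩ := isCompact_univ.elim_directed_cover U hUo hcov hUm.directed_le
    exact ⟨res X N, pre_res _ _, fun Y => hN (Set.mem_univ Y)⟩
  · rintro ⟨ρ, h1, h2⟩ Y
    exact hsound ρ Y h1 (h2 Y)

/-- substitution of two operators -/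
theorem SR.subst2 {R : α → (ℕ → Bool) → (ℕ → Bool) → Prop}
    (h : SR (fun a W => R a (ev W) (od W))) {Ψ Φ : α → (ℕ → Bool) → (ℕ → Bool)}
    (hΨ : SR (fun (p : α × (ℕ × Bool)) X => Ψ p.1 X p.2.1 = p.2.2))
    (hΦ : SR (fun (p : α × (ℕ × Bool)) X => Φ p.1 X p.2.1 = p.2.2)) :
    SR (fun a X => R a (Ψ a X) (Φ a X)) := by
  have h1 := PC.Sig.substX (R := fun a W => R a (ev W) (od W)) h
    (Ψ := fun a X => jn (Ψ a X) (Φ a X)) ?_
  · simpa using h1
  · have h2 : SR (fun (p : α × (ℕ × Bool)) X =>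
        (p.2.1 % 2 = 0 ∧ Ψ p.1 X (p.2.1 / 2) = p.2.2) ∨
        (p.2.1 % 2 = 1 ∧ Φ p.1 X (p.2.1 / 2) = p.2.2)) := by
      refine PC.Sig.or (PC.Sig.and (PC.Sig.ofS (RE.eq (by fun_prop) (by fun_prop))) ?_)
        (PC.Sig.and (PC.Sig.ofS (RE.eq (by fun_prop) (by fun_prop))) ?_)
      · exact PC.Sig.comp (f := fun p : α × (ℕ × Bool) => (p.1, (p.2.1 / 2, p.2.2))) hΨ
          (by fun_prop)
      · exact PC.Sig.comp (f := fun p : α × (ℕ × Bool) => (p.1, (p.2.1 / 2, p.2.2))) hΦ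
          (by fun_prop)
    refine PC.Sig.of_eq h2 fun p X => ?_
    simp only [jn]
    rcases Nat.mod_two_eq_zero_or_one p.2.1 with h6 | h6
    · simp [h6]
    · simp [h6]

/-- replacing the single set variable by the odd part -/
theorem SR.odd {R : α → (ℕ → Bool) → Prop} (h : SR R) : SR (fun a W => R a (od W)) := by
  refine PC.Sig.substX (R := R) h (Ψ := fun _ W => od W) ?_
  exact SR_od (f := fun p : α × (ℕ × Bool) => p.2.1) (by fun_prop) (by fun_prop)

theorem SR.even {R : α → (ℕ → Bool) → Prop} (h : SR R) : SR (fun a W => R a (ev W)) := by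
  refine PC.Sig.substX (R := R) h (Ψ := fun _ W => ev W) ?_
  exact SR_ev (f := fun p : α × (ℕ × Bool) => p.2.1) (by fun_prop) (by fun_prop)

end Pool.Agent.MU
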